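import Pool.Agent.Mg.S19483.G8ed91f

section

/-! The random objects of the main lemma and their Markov structure. -/

set_option autoImplicit false
set_option linter.unusedSectionVars false
set_option linter.unusedVariables false
open MeasureTheory Function
open scoped Classical

namespace Pool.Agent.MP_93f6c7_pr

variable {V : Type} [MeasurableSpace V] [DiscreteMeasurableSpace V] [Countable V]
  {G : SimpleGraph V} [G.LocallyFinite] {Δ : ℕ}

section combinators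
variable {Z : Type} [MeasurableSpace Z] {T : (G ≃g G) → Z → Z}

/-- Measurable invariant natural number valued function. -/
def IN (T : (G ≃g G) → Z → Z) (κ : Z → V → ℕ) : Prop :=
  ∀ Q : ℕ → Prop, IP T (fun z v => Q (κ z v))

lemma IN.of_lt {κ : Z → V → ℕ} (h : ∀ j, IP T (fun z v => j < κ z v)) : IN T κ := by
  intro Q
  have := IP.exists (a := T) (E := fun j z v => (((j = 0) ∨ j - 1 < κ z v) ∧ ¬ j < κ z v) ∧ Q j)
    fun j => (((IP.const _).or (h _)).and (h j).not).and (IP.const _)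
  convert this using 3 with z v
  constructor
  · intro hq; exact ⟨κ z v, ⟨by omega, lt_irrefl _⟩, hq⟩
  · rintro ⟨j, h1, h2⟩
    have : j = κ z v := by omega
    rwa [← this]

variable {f g mu : Z → V → V} {Lv F : Z → V → Prop} {κ : Z → V → ℕ}
  {s t : Z → Fin Δ → V → V}

lemma IP.pp (hf : EM T f) (hg : EM T g) (L : ℕ) (hL : IP T Lv) (hκ : IN T κ) :
    IP T (fun z => PP (f z) (g z) L (Lv z) (κ z)) :=
  IP.exists fun j => (IP.const _).and ((hL.comp (hf.back hg j)).and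
    ((hκ (fun n => j < n)).comp (hf.back hg j)))

lemma IP.out (hf : EM T f) (hg : EM T g) (L : ℕ) (hL : IP T Lv) (hκ : IN T κ) (hm : EM T mu) :
    IP T (fun z => Out (f z) (g z) L (Lv z) (κ z) (mu z)) :=
  (IP.pp hf hg L hL hκ).and ((IP.pp hf hg L hL hκ).comp hm).not

lemma EM.muL (hm : EM T mu) (hL : IP T Lv) : EM T (fun z => muL (mu z) (Lv z)) :=
  EM.ite (hL.or (hL.comp hm)) hm EM.id

lemma IP.src (hs : EC T s) (a b : Fin Δ) (L : ℕ) (hm : EM T mu) :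
    IP T (fun z => Src (s z) a b L (mu z)) :=
  (IP.fix hm).not.and ((IP.fix (hs.em b)).and (((IP.fix (hs.em a)).comp hm).and
    (IP.free (hs.em a) (hs.em b) _)))

lemma EC.shiftC {a b : Fin Δ} {L : ℕ} (hs : EC T s) (ht : EC T t) (hm : EM T mu) (hL : IP T Lv)
    (hF : IP T F) (hκ : IN T κ) (hab : a ≠ b)
    (hok : ∀ z, ShiftOK G (s z) a b L (mu z) (Lv z) (F z))
    (hc : ∀ z, Compat G (s z) (t z) a b) :
    EC T (fun z => shiftC a b L (mu z) (Lv z) (F z) (κ z) (s z) (t z)) :=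
  (ht.flipC hab (hF.or (IP.pp (hs.em a) (hs.em b) L hL hκ))).colourC a (hm.muL hL)
    (fun z => muL_invol (hok z).inv _)
    fun z v hv => ((hc z).unc _ _ ((hok z).muL_unc hv)).flipC hab _

lemma IP.win (hs : EC T s) (a b α : Fin Δ) (L W : ℕ) (hL : IP T Lv) (hκ : IN T κ) :
    IP T (fun z => Win (s z) a b α L W (Lv z) (κ z)) :=
  IP.exists fun j => (IP.const _).and ((hL.comp ((hs.em a).back (hs.em b) j)).and
    (((hκ (fun n => n < j)).comp ((hs.em a).back (hs.em b) j)).and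
    (((hκ (fun n => j ≤ n + W)).comp ((hs.em a).back (hs.em b) j)).and (IP.const _))))

lemma IN.newPos (hs : EC T s) (a b α : Fin Δ) (W : ℕ) (hκ : IN T κ) (hF : IP T F) :
    IN T (fun z => newPos (s z) a b α W (κ z) (F z)) := by
  have hG : ∀ j, IP T (fun z v => κ z v < j ∧ j ≤ κ z v + W ∧ alt b a j = α ∧
      F z (walk (s z a) (s z b) j v)) := fun j =>
    (hκ (fun n => n < j)).and ((hκ (fun n => j ≤ n + W)).and ((IP.const _).and
      (hF.comp ((hs.em a).walk (hs.em b) j))))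
  refine IN.of_lt fun j => ?_
  simp only [Pool.Agent.MP_93f6c7_pr.newPos, lt_pick]
  refine IP.and (IP.forall fun i => ?_) ((IP.exists hG).or (hκ (fun n => j < n)))
  by_cases hi : i ≤ j
  · simpa only [hi, true_imp_iff] using (hG i).not
  · simpa only [hi, false_imp_iff] using IP.const (a := T) True

lemma IP.bad (hf : EM T f) (hg : EM T g) (L W : ℕ) (hL : IP T Lv) (hκ : IN T κ) (hF : IP T F) :
    IP T (fun z => Bad (f z) (g z) L W (Lv z) (κ z) (F z)) :=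
  IP.exists fun j => ((IP.const _).and ((hL.comp (hf.back hg j)).and
    (((hκ (fun n => n ≤ j + 1)).comp (hf.back hg j)).and
      ((hκ (fun n => j ≤ n + W)).comp (hf.back hg j))))).and
    (IP.exists fun j' => (IP.const _).and (((hκ (fun n => n ≤ j' + 1)).comp (hf.back hg j)).and
      (((hκ (fun n => j' ≤ n + W)).comp (hf.back hg j)).and
        (hF.comp ((hf.walk hg j').comp (hf.back hg j))))))

end combinators

/-- The random position on the track. -/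
noncomputable def pos (L : ℕ) (y : Y V) (v : V) : ℕ := ⌊16 * (L : ℝ) * (y (v, 1) : ℝ)⌋₊

lemma in_pos (L : ℕ) : IN (G := G) act (pos L) := by
  refine IN.of_lt fun j => ⟨measurable_pi_lambda _ fun v => ?_, fun _ _ _ => Iff.rfl⟩
  have : Measurable fun y : Y V => pos L y v :=
    Nat.measurable_floor.comp (measurable_const.mul (meas_lab _))
  exact (Measurable.of_discrete (f := fun n : ℕ => j < n)).comp this

/-- The data of the main lemma. -/
structure Setup (G : SimpleGraph V) (Δ : ℕ) where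
  c : FC G Δ
  mu : Y V → V → V
  a : Fin Δ
  b : Fin Δ
  γ : Fin Δ
  α : Fin Δ
  β : Fin Δ
  l : List (Fin Δ)
  L : ℕ
  W : ℕ
  R : ℕ
  m : ℕ
  θ : ℝ
  q : ℝ
  ps : ℝ
  hmu : EI (G := G) act mu
  hunc : ∀ x v, mu x v ≠ v → Unc G (c.σ x) v (mu x v)
  ab : a ≠ b
  hα : α = a ∨ α = b
  hl : ∀ p, p ∈ γ :: l ↔ p ≠ a ∧ p ≠ b
  hγl : γ ∉ l
  nodup : l.Nodup

namespace Setup

variable (S : Setup G Δ)

lemma γa : S.γ ≠ S.a := ((S.hl S.γ).1 (by simp)).1
lemma γb : S.γ ≠ S.b := ((S.hl S.γ).1 (by simp)).2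
lemma len : S.l.length ≤ Δ := by simpa using S.nodup.length_le_card

/-- Sources. -/
def Sr (x : Y V) : V → Prop := Src (S.c.σ x) S.a S.b S.L (S.mu x)
/-- The set where `a` and `b` are exchanged, with radius `R`. -/
def FR (R : ℕ) (z : Y V × Y V) : V → Prop := RF (S.c.σ z.1 S.a) (S.c.σ z.1 S.b) S.θ S.q R 0 z.2
/-- Positions. -/
noncomputable def k (z : Y V × Y V) : V → ℕ := pos S.L z.2
/-- Live sources. -/
def Lv (z : Y V × Y V) (v : V) : Prop :=
  S.Sr z.1 v ∧ ¬ S.FR (S.R + S.L) z v ∧ ¬ S.FR S.R z (S.mu z.1 v) ∧ 2 ≤ S.k z v ∧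
    S.k z v + S.W ≤ S.L
/-- The colouring after the exchanges of the other colours. -/
noncomputable def τ (z : Y V × Y V) : Fin Δ → V → V := seqF S.γ S.θ S.q S.R z.2 S.l (S.c.σ z.1)
/-- The intermediate colour class `α`. -/
noncomputable def A (z : Y V × Y V) : V → V :=
  shiftC S.a S.b S.L (S.mu z.1) (S.Lv z) (S.FR S.R z) (S.k z) (S.c.σ z.1) (S.c.σ z.1) S.α
/-- The new colour class `γ`. -/
noncomputable def C (z : Y V × Y V) : V → V := S.τ z S.γ
/-- Windows. -/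
def Wn (z : Y V × Y V) : V → Prop := Win (S.c.σ z.1) S.a S.b S.α S.L S.W (S.Lv z) (S.k z)
/-- Runners. -/
def Rn (x : Y V) (v : V) : Prop := S.c.σ x S.α v = v ∧ ∃ u, Unc G (S.c.σ x) v u ∧ S.c.σ x S.β u = u
/-- Active runners. -/
def Act (z : Y V × Y V) (v : V) : Prop := S.Rn z.1 v ∧ (z.2 (v, 2) : ℝ) < S.ps
/-- Arrivals. -/
def Ar (t : ℕ) (z : Y V × Y V) : V → Prop := Arr (S.A z) (S.C z) (S.Wn z) (S.Act z) t
/-- Vertices reached by an active runner. -/
def Hit (z : Y V × Y V) (v : V) : Prop := ∃ t, t < S.m ∧ S.Ar t z v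
/-- Final positions. -/
noncomputable def k' (z : Y V × Y V) : V → ℕ :=
  newPos (S.c.σ z.1) S.a S.b S.α S.W (S.k z) (S.Hit z)
/-- The final colouring. -/
noncomputable def fin (z : Y V × Y V) : Fin Δ → V → V :=
  shiftC S.a S.b S.L (S.mu z.1) (S.Lv z) (S.FR S.R z) (S.k' z) (S.c.σ z.1) (S.τ z)
/-- Conflicts. -/
def Bd' (z : Y V × Y V) : V → Prop :=
  Bad (S.c.σ z.1 S.a) (S.c.σ z.1 S.b) S.L S.W (S.Lv z) (S.k z) (S.Hit z)

lemma ok (z : Y V × Y V) :
    ShiftOK G (S.c.σ z.1) S.a S.b S.L (S.mu z.1) (S.Lv z) (S.FR S.R z) :=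
  ⟨S.c.proper _, S.ab, S.hmu.inv _, S.hunc _, fun v hv => hv.1,
    fun v hv j hj hF => hv.2.1 ((Ball.walk ((S.c.proper _).inv _) ((S.c.proper _).inv _) hF).mono
      (by omega)), fun v hv => hv.2.2.1⟩

lemma ec_σ : EC (G := G) act2 (fun z => S.c.σ z.1) := S.c.ec.fst
lemma ec_τ : EC (G := G) act2 S.τ :=
  S.ec_σ.seqF measurable_snd (fun _ _ => rfl) _ _ _ S.hγl

lemma a_not : S.a ∉ S.γ :: S.l := fun h => ((S.hl _).1 h).1 rfl
lemma b_not : S.b ∉ S.γ :: S.l := fun h => ((S.hl _).1 h).2 rfl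

lemma compat {o : V} (hF : FlipStmt G Δ o) (z : Y V × Y V) :
    Compat G (S.c.σ z.1) (S.τ z) S.a S.b :=
  ⟨S.ec_τ.proper z,
    hF.seq_other _ _ _ _ _ _ _ _ S.γa.symm fun h => S.a_not (List.mem_cons_of_mem _ h),
    hF.seq_other _ _ _ _ _ _ _ _ S.γb.symm fun h => S.b_not (List.mem_cons_of_mem _ h),
    hF.seq_unc _ _ _ _ _ _ _ S.hγl⟩

lemma ip_Sr : IP (G := G) act S.Sr := IP.src S.c.ec _ _ _ S.hmu.toEM
lemma ip_FR (R : ℕ) : IP (G := G) act2 (S.FR R) :=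
  IP.rf (S.ec_σ.em _) (S.ec_σ.em _) measurable_snd (fun _ _ => rfl) _ _ _ _
lemma in_k : IN (G := G) act2 S.k := fun Q => (in_pos S.L Q).snd
lemma ip_Lv : IP (G := G) act2 S.Lv :=
  S.ip_Sr.fst.and ((S.ip_FR _).not.and (((S.ip_FR _).comp S.hmu.toEM.fst).not.and
    ((S.in_k (fun n => 2 ≤ n)).and (S.in_k (fun n => n + S.W ≤ S.L)))))
lemma ei_A : EI (G := G) act2 S.A :=
  (EC.shiftC S.ec_σ S.ec_σ S.hmu.toEM.fst S.ip_Lv (S.ip_FR _) S.in_k S.ab S.ok
    fun z => Compat.refl (S.c.proper _)).ei S.α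
lemma ei_C : EI (G := G) act2 S.C := S.ec_τ.ei S.γ
lemma ip_Wn : IP (G := G) act2 S.Wn := IP.win S.ec_σ _ _ _ _ _ S.ip_Lv S.in_k
lemma ip_Rn : IP (G := G) act S.Rn := IP.dn S.c.ec _ _
lemma ip_Act : IP (G := G) act2 S.Act := S.ip_Rn.fst.and (IP.lab 2 S.ps).snd
lemma ip_Ar (t : ℕ) : IP (G := G) act2 (S.Ar t) :=
  IP.arr S.ei_A.toEM S.ei_C.toEM S.ip_Wn S.ip_Act t
lemma ip_Hit : IP (G := G) act2 S.Hit := IP.exists fun t => (IP.const _).and (S.ip_Ar t)
lemma in_k' : IN (G := G) act2 S.k' := IN.newPos S.ec_σ _ _ _ _ S.in_k S.ip_Hit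
lemma ec_fin {o : V} (hF : FlipStmt G Δ o) : EC (G := G) act2 S.fin :=
  EC.shiftC S.ec_σ S.ec_τ S.hmu.toEM.fst S.ip_Lv (S.ip_FR _) S.in_k' S.ab S.ok (S.compat hF)
lemma ip_Bd' : IP (G := G) act2 S.Bd' :=
  IP.bad (S.ec_σ.em _) (S.ec_σ.em _) _ _ S.ip_Lv S.in_k S.ip_Hit

lemma k_range (z : Y V × Y V) (v : V) (hv : S.Lv z v) : 2 ≤ S.k z v ∧ S.k z v + S.W ≤ S.L :=
  hv.2.2.2

lemma k'_range (z : Y V × Y V) (v : V) (hv : S.Lv z v) : 2 ≤ S.k' z v ∧ S.k' z v ≤ S.L := by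
  have h1 := S.k_range z v hv
  have h2 : S.k z v ≤ S.k' z v ∧ S.k' z v ≤ S.k z v + S.W := newPos_range v
  omega

/-! ### Locality -/

/-- `D` is closed under the `a b` edges and the matching. -/
structure ClosedA (x : Y V) (D : Set V) : Prop where
  ha : ∀ v ∈ D, S.c.σ x S.a v ∈ D
  hb : ∀ v ∈ D, S.c.σ x S.b v ∈ D
  hm : ∀ v ∈ D, S.mu x v ∈ D

variable {S}
variable {x y y' : Y V} {D : Set V}

lemma ClosedA.la (h : S.ClosedA x D) : Loc id D (S.c.σ x S.a) (S.c.σ x S.a) :=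
  ⟨h.ha, fun _ _ => rfl⟩
lemma ClosedA.lb (h : S.ClosedA x D) : Loc id D (S.c.σ x S.b) (S.c.σ x S.b) :=
  ⟨h.hb, fun _ _ => rfl⟩
lemma ClosedA.back (h : S.ClosedA x D) (j : ℕ) {v : V} (hv : v ∈ D) :
    back (S.c.σ x S.a) (S.c.σ x S.b) j v ∈ D := (h.la.back h.lb j).mem v hv
lemma ClosedA.walk (h : S.ClosedA x D) (j : ℕ) {v : V} (hv : v ∈ D) :
    walk (S.c.σ x S.a) (S.c.σ x S.b) j v ∈ D := (h.la.walk h.lb j).mem v hv

lemma ClosedA.FR (h : S.ClosedA x D) (h0 : ∀ v ∈ D, y' (v, 0) = y (v, 0)) (R : ℕ) {v : V}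
    (hv : v ∈ D) : S.FR R (x, y') v ↔ S.FR R (x, y) v := Loc.rf h.la h.lb h0 R hv

lemma k_congr {v : V} (h1 : y' (v, 1) = y (v, 1)) : S.k (x, y') v = S.k (x, y) v := by
  simp only [k, pos, h1]

lemma ClosedA.Lv (h : S.ClosedA x D) (h0 : ∀ v ∈ D, y' (v, 0) = y (v, 0))
    (h1 : ∀ v ∈ D, y' (v, 1) = y (v, 1)) {v : V} (hv : v ∈ D) :
    S.Lv (x, y') v ↔ S.Lv (x, y) v := by
  unfold Setup.Lv
  rw [h.FR h0 _ hv, h.FR h0 _ (h.hm v hv), k_congr (h1 v hv)]

lemma ClosedA.A (h : S.ClosedA x D) (h0 : ∀ v ∈ D, y' (v, 0) = y (v, 0))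
    (h1 : ∀ v ∈ D, y' (v, 1) = y (v, 1)) : Loc id D (S.A (x, y')) (S.A (x, y)) := by
  have hF : ∀ v ∈ D, (S.FR S.R (x, y') v ∨
      PP (S.c.σ x S.a) (S.c.σ x S.b) S.L (S.Lv (x, y')) (S.k (x, y')) v) ↔
      (S.FR S.R (x, y) (id v) ∨
      PP (S.c.σ x S.a) (S.c.σ x S.b) S.L (S.Lv (x, y)) (S.k (x, y)) (id v)) := by
    intro v hv
    refine or_congr (h.FR h0 _ hv) (exists_congr fun j => and_congr Iff.rfl ?_)
    rw [h.Lv h0 h1 (h.back j hv), k_congr (h1 _ (h.back j hv))]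
    rfl
  have hM : Loc id D (muL (S.mu x) (S.Lv (x, y'))) (muL (S.mu x) (S.Lv (x, y))) := by
    refine ⟨fun v hv => ?_, fun v hv => ?_⟩
    · unfold muL; split_ifs
      · exact h.hm v hv
      · exact hv
    · simp only [muL, id, h.Lv h0 h1 hv, h.Lv h0 h1 (h.hm v hv)]
  unfold Setup.A shiftC
  rcases S.hα with e | e <;> rw [e]
  · simp only [colourC_self, flipC_left]
    exact Loc.col1 injective_id (Loc.flip1 h.la h.lb hF) hM
  · simp only [colourC_other S.ab.symm, flipC_right S.ab]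
    exact Loc.flip1 h.lb h.la hF

lemma ClosedA.Wn (h : S.ClosedA x D) (h0 : ∀ v ∈ D, y' (v, 0) = y (v, 0))
    (h1 : ∀ v ∈ D, y' (v, 1) = y (v, 1)) {v : V} (hv : v ∈ D) :
    S.Wn (x, y') v ↔ S.Wn (x, y) v := by
  refine exists_congr fun j => and_congr Iff.rfl ?_
  simp only
  rw [h.Lv h0 h1 (h.back j hv), k_congr (h1 _ (h.back j hv))]

variable (S)

/-- Edges whose colour is neither `a` nor `b`. -/
def ClB (x : Y V) (v w : V) : Prop := ∃ p, p ≠ S.a ∧ p ≠ S.b ∧ S.c.σ x p v = w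
/-- The side of `z` behind the uncoloured and the `a b` edges. -/
def SA (x : Y V) (z : V) : V → Prop := Side G z (fun w => ¬ S.ClB x z w)
/-- The side of `z` behind the other edges. -/
def SB (x : Y V) (z : V) : V → Prop := Side G z (S.ClB x z)
/-- The labels on the first side. -/
def ΩA (x : Y V) (z : V) : Set (V × ℕ) := {i | S.SA x z i.1 ∨ (i.1 = z ∧ i.2 < 3)}
/-- The labels on the second side. -/
def ΩB (x : Y V) (z : V) : Set (V × ℕ) := {i | S.SB x z i.1 ∨ (i.1 = z ∧ 3 ≤ i.2)}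

variable {S}

lemma ClB.symm {v w : V} (h : S.ClB x v w) : S.ClB x w v := by
  obtain ⟨p, h1, h2, h3⟩ := h
  exact ⟨p, h1, h2, by rw [← h3, (S.c.proper x).inv]⟩

lemma not_clB {v : V} {p : Fin Δ} (hp : p = S.a ∨ p = S.b) (h : S.c.σ x p v ≠ v) :
    ¬ S.ClB x v (S.c.σ x p v) := by
  rintro ⟨p', h1, h2, h3⟩
  refine (S.c.proper x).disj p p' v ?_ h h3.symm
  rcases hp with rfl | rfl
  · exact h1.symm
  · exact h2.symm

lemma not_clB_mu {v : V} (h : S.mu x v ≠ v) : ¬ S.ClB x v (S.mu x v) := by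
  rintro ⟨p', _, _, h3⟩
  exact (S.hunc x v h).2 p' h3

lemma side_step {z v w : V} {P : V → Prop} (hv : Side G z P v ∨ v = z) (e : w = v ∨
    (G.Adj v w ∧ (v = z → P w))) : Side G z P w ∨ w = z := by
  rcases e with rfl | ⟨e1, e2⟩
  · exact hv
  · by_cases hw : w = z
    · exact Or.inr hw
    · rcases hv with hv | rfl
      · exact Or.inl (hv.step e1 hw)
      · exact Or.inl (Side.base e1 (e2 rfl))

lemma closedA_DA (x : Y V) (z : V) : S.ClosedA x {v | S.SA x z v ∨ v = z} := by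
  have key : ∀ p, p = S.a ∨ p = S.b → ∀ v ∈ {v | S.SA x z v ∨ v = z},
      S.c.σ x p v ∈ {v | S.SA x z v ∨ v = z} := by
    intro p hp v hv
    refine side_step hv ?_
    by_cases h : S.c.σ x p v = v
    · exact Or.inl h
    · exact Or.inr ⟨(S.c.proper x).adj p v h, fun e => e ▸ not_clB hp h⟩
  refine ⟨key _ (Or.inl rfl), key _ (Or.inr rfl), fun v hv => side_step hv ?_⟩
  by_cases h : S.mu x v = v
  · exact Or.inl h
  · exact Or.inr ⟨S.hmu.adj x v h, fun e => e ▸ not_clB_mu h⟩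

lemma closedB_DB (x : Y V) (z : V) (p : Fin Δ) (hp : p ∈ S.γ :: S.l) :
    Loc id {v | S.SB x z v ∨ v = z} (S.c.σ x p) (S.c.σ x p) := by
  refine ⟨fun v hv => side_step hv ?_, fun _ _ => rfl⟩
  by_cases h : S.c.σ x p v = v
  · exact Or.inl h
  · exact Or.inr ⟨(S.c.proper x).adj p v h,
      fun e => e ▸ ⟨p, ((S.hl p).1 hp).1, ((S.hl p).1 hp).2, rfl⟩⟩

lemma agree_A {z : V} (h : ∀ i ∈ S.ΩA x z, y i = y' i) {n : ℕ} (hn : n < 3) :
    ∀ v ∈ {v | S.SA x z v ∨ v = z}, y (v, n) = y' (v, n) :=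
  fun v hv => h (v, n) (hv.imp id fun e => ⟨e, hn⟩)

lemma SA_SB (hG : G.IsAcyclic) {z v : V} (h1 : S.SA x z v) (h2 : S.SB x z v) : False :=
  Side.disj hG (fun _ h => not_not.2 |>.mt fun hh => hh (by simpa using h)) h2 h1

lemma ΩB_subset (hG : G.IsAcyclic) {z w : V} (h1 : S.SA x z w) (h2 : S.SA x w z) :
    S.ΩB x w ⊆ S.ΩA x z := by
  rintro i (hi | hi)
  · exact Or.inl (Side.subset h1 (fun h => SA_SB hG h2 h) hi)
  · exact Or.inl (hi.1 ▸ h1)

lemma A_class {v : V} (h : S.A (x, y) v ≠ v) : ¬ S.ClB x v (S.A (x, y) v) := by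
  rcases (S.ok (x, y)).shift_cases (κ := S.k (x, y)) S.hα v with e | e | e | e
  · exact absurd e h
  all_goals
    have e' : S.A (x, y) v = _ := e
    rw [e'] at h ⊢
  · exact not_clB (Or.inl rfl) h
  · exact not_clB (Or.inr rfl) h
  · exact not_clB_mu h

variable (S)

lemma markov (hG : G.IsAcyclic) {o : V} (hF : FlipStmt G Δ o) :
    Markov G S.A S.C S.Wn S.Act S.ΩA S.ΩB := by
  refine ⟨S.ei_A, S.ei_C, S.ip_Wn, S.ip_Act, fun x v => ?_, fun x v y y' h => ?_,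
    fun x v y y' h => ?_, fun x v y y' h => ?_, fun x v y y' h => ?_, fun x v y y' h => ?_,
    fun x y v h => ?_, fun x y v h => ?_⟩
  · rw [Set.disjoint_left]
    rintro i (h1 | h1) (h2 | h2)
    · exact SA_SB hG h1 h2
    · exact h1.ne h2.1
    · exact h2.ne h1.1
    · omega
  · exact (hF.seq_loc S.γ S.θ S.q S.R y' y S.l _ _ {w | S.SB x v w ∨ w = v} S.hγl
      (closedB_DB x v) (fun w hw n hn => h (w, n) (hw.imp id fun e => ⟨e, hn⟩)) S.γ
      (by simp)).eq v (Or.inr rfl)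
  · exact ((closedA_DA x v).A (agree_A h (by norm_num)) (agree_A h (by norm_num))).eq v
      (Or.inr rfl)
  · exact propext ((closedA_DA x v).Wn (agree_A h (by norm_num)) (agree_A h (by norm_num))
      (Or.inr rfl))
  · have hl := (closedA_DA x v).A (agree_A h (by norm_num)) (agree_A h (by norm_num))
    have e : S.A (x, y) v = S.A (x, y') v := hl.eq v (Or.inr rfl)
    show S.Wn (x, y) (S.A (x, y) v) = S.Wn (x, y') (S.A (x, y') v)
    rw [← e]
    exact propext ((closedA_DA x v).Wn (agree_A h (by norm_num)) (agree_A h (by norm_num))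
      (hl.mem v (Or.inr rfl)))
  · show S.Act (x, y) v = S.Act (x, y') v
    unfold Act
    simp only [h (v, 2) (Or.inr ⟨rfl, by norm_num⟩)]
  · have hadj := S.ei_C.adj _ _ h
    have hcl : S.ClB x v (S.C (x, y) v) := by
      rcases hF.seq_cases S.γ S.θ S.q S.R y S.l (S.c.σ x) S.hγl v with e | ⟨p, hp, e⟩
      · exact absurd e h
      · exact ⟨p, ((S.hl p).1 hp).1, ((S.hl p).1 hp).2, e.symm⟩
    have h1 : S.SB x v (S.C (x, y) v) := Side.base hadj hcl
    rintro i (hi | hi)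
    · exact Or.inl (Side.subset h1 (fun hh => Side.of_adj hG
        (P := fun w => ¬ S.ClB x (S.C (x, y) v) w) hh hadj.symm hcl.symm) hi)
    · exact Or.inl (hi.1 ▸ h1)
  · have hadj := S.ei_A.adj _ _ h
    have hcl := A_class h
    exact ΩB_subset hG (Side.base hadj hcl) (Side.base hadj.symm fun hh => hcl hh.symm)

end Setup

end Pool.Agent.MP_93f6c7_pr

end

section

/-! Conditional probability estimates for the random objects of the main lemma. -/

set_option autoImplicit false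
set_option linter.unusedSectionVars false
set_option linter.unusedVariables false
open MeasureTheory Function
open scoped Classical

namespace Pool.Agent.MP_93f6c7_pr

variable {V : Type} [MeasurableSpace V] [DiscreteMeasurableSpace V] [Countable V]
  {G : SimpleGraph V} [G.LocallyFinite] {Δ : ℕ}

lemma pr_pos {L : ℕ} (hL : 1 ≤ L) (v : V) (i n : ℕ) (h : i + n ≤ 16 * L) :
    Pr (nu V) (fun y => i ≤ pos L y v ∧ pos L y v < i + n) = n / (16 * L) := by
  have hL' : (0 : ℝ) < 16 * L := by positivity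
  have h' : (i : ℝ) + n ≤ 16 * L := by exact_mod_cast h
  have := Pr_lab_Ico (V := V) (v, 1) (s := i / (16 * L)) (t := (i + n) / (16 * L))
    (by positivity) (by gcongr; linarith [(Nat.cast_nonneg n : (0 : ℝ) ≤ n)])
    ((div_le_one hL').2 h')
  rw [show ((i : ℝ) + n) / (16 * L) - i / (16 * L) = n / (16 * L) by ring] at this
  rw [← this]
  refine Pr_congr fun y => ?_
  have h0 : (0 : ℝ) ≤ 16 * L * (y (v, 1) : ℝ) := mul_nonneg hL'.le (y (v, 1)).2.1
  unfold pos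
  rw [Nat.le_floor_iff h0, Nat.floor_lt h0, div_le_iff₀ hL', lt_div_iff₀ hL', mul_comm (16 * (L : ℝ))]
  push_cast
  rfl

namespace Setup

variable (S : Setup G Δ)

/-- Numerical hypotheses. -/
structure Num : Prop where
  θ0 : 0 ≤ S.θ
  q0 : 0 < S.q
  θR : S.θ * S.R = S.q
  R1 : 1 ≤ S.R
  LR : S.L ≤ S.R
  L1 : 1 ≤ S.L
  qΔ : 400 * S.q * Δ ≤ 1
  three : 3 ≤ Δ
  ps0 : 0 ≤ S.ps
  ps1 : S.ps ≤ 1

variable {S} {o : V}

lemma Num.q1 (h : S.Num) : S.q ≤ 1 / 1200 := by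
  have h3 : (3 : ℝ) ≤ Δ := by exact_mod_cast h.three
  have := h.qΔ
  have := h.q0
  nlinarith

lemma Num.θq (h : S.Num) : S.θ ≤ S.q := by
  have h1 : (1 : ℝ) ≤ S.R := by exact_mod_cast h.R1
  have := h.θR
  have := h.θ0
  nlinarith

lemma Num.qlen (h : S.Num) : S.q * S.l.length ≤ 1 / 400 := by
  have h1 : (S.l.length : ℝ) ≤ Δ := by exact_mod_cast S.len
  have := h.qΔ
  have := h.q0
  nlinarith

lemma pair (S : Setup G Δ) (x : Y V) : Pair G (S.c.σ x S.a) (S.c.σ x S.b) :=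
  (S.c.proper x).pair S.ab

lemma pr_FR (hF : FlipStmt G Δ o) (h : S.Num) (x : Y V) (v : V) :
    Pr (nu V) (fun y => S.FR S.R (x, y) v) ≤ 7 * S.q := by
  have h1 := h.q1
  have h2 := h.θq
  have := hF.rf_le _ _ (S.pair x) S.θ S.q h.θ0 (by linarith) h.q0.le (by linarith) S.R 0 v
  have h3 := h.θR
  refine this.trans ?_
  nlinarith

lemma pr_FR' (hF : FlipStmt G Δ o) (h : S.Num) (x : Y V) (v : V) :
    Pr (nu V) (fun y => S.FR (S.R + S.L) (x, y) v) ≤ 9 * S.q := by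
  have h1 := h.q1
  have h2 := h.θq
  have := hF.rf_le _ _ (S.pair x) S.θ S.q h.θ0 (by linarith) h.q0.le (by linarith)
    (S.R + S.L) 0 v
  have h3 := h.θR
  have h4 : (S.L : ℝ) ≤ S.R := by exact_mod_cast h.LR
  have h5 := mul_le_mul_of_nonneg_left h4 h.θ0
  refine this.trans ?_
  push_cast
  nlinarith

lemma pr_Lv (h : S.Num) (x : Y V) (v : V) :
    Pr (nu V) (fun y => S.Lv (x, y) v) ≤ ind (S.Sr x v) / 16 := by
  by_cases hs : S.Sr x v
  · have hL : (0 : ℝ) < S.L := by exact_mod_cast h.L1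
    have := pr_pos h.L1 v 1 S.L (by have := h.L1; omega)
    rw [ind_pos hs, show (1 : ℝ) / 16 = S.L / (16 * S.L) by field_simp, ← this]
    refine Pr_mono fun y hy => ?_
    have := S.k_range _ _ hy
    simp only [k] at this
    omega
  · rw [Pr_false fun y hy => hs hy.1, ind_neg hs]; norm_num

lemma pr_Lv' (h : S.Num) (x : Y V) (v : V) : Pr (nu V) (fun y => S.Lv (x, y) v) ≤ 1 / 16 :=
  (pr_Lv h x v).trans (by linarith [ind_le_one (S.Sr x v)])

lemma sum_sr (S : Setup G Δ) (x : Y V) (v : V) {ι : Type} (s : Finset ι) (j : ι → ℕ)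
    (hj : ∀ i ∈ s, j i ≤ S.L) (hinj : ∀ i ∈ s, ∀ i' ∈ s, j i = j i' → i = i') :
    ∑ i ∈ s, ind (S.Sr x (back (S.c.σ x S.a) (S.c.σ x S.b) (j i) v)) ≤ 1 := by
  rw [← ind_pos trivial]
  exact sum_ind_le (fun _ _ _ => trivial) fun i hi i' hi' h1 h2 =>
    hinj i hi i' hi' (src_back_unique (S.c.proper x) h1 h2 (hj i hi) (hj i' hi'))

lemma sum_sr' (S : Setup G Δ) (x : Y V) (v : V) :
    ∑ j ∈ Finset.range (S.L + 1), ind (S.Sr x (back (S.c.σ x S.a) (S.c.σ x S.b) j v)) ≤ 1 :=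
  S.sum_sr x v _ id (fun i hi => by simpa [Nat.lt_succ_iff] using hi) fun _ _ _ _ h => h

/-- The vertex lies on a live track. -/
def OnT (S : Setup G Δ) (z : Y V × Y V) (v : V) : Prop :=
  ∃ j, j ≤ S.L ∧ S.Lv z (back (S.c.σ z.1 S.a) (S.c.σ z.1 S.b) j v)

lemma pr_OnT (h : S.Num) (x : Y V) (v : V) : Pr (nu V) (fun y => S.OnT (x, y) v) ≤ 1 / 16 := by
  refine (Pr_le_sum (s := Finset.range (S.L + 1))
    (F := fun j y => S.Lv (x, y) (back (S.c.σ x S.a) (S.c.σ x S.b) j v))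
    fun y ⟨j, h1, h2⟩ => ⟨j, by simpa [Nat.lt_succ_iff] using h1, h2⟩).trans ?_
  refine (Finset.sum_le_sum fun j _ => pr_Lv h x _).trans ?_
  rw [← Finset.sum_div]
  have := S.sum_sr' x v
  linarith

lemma OnT.not_F {z : Y V × Y V} {v : V} (h : S.OnT z v) : ¬ S.FR S.R z v := by
  obtain ⟨j, h1, h2⟩ := h
  have := (S.ok z).nF _ h2 j h1
  rwa [walk_back ((S.c.proper _).inv _) ((S.c.proper _).inv _)] at this

lemma onT_of_Wn {z : Y V × Y V} {v : V} (h : S.Wn z v) : S.OnT z v := by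
  obtain ⟨j, h1, h2, _⟩ := h
  exact ⟨j, h1, h2⟩

lemma onT_of_PP {z : Y V × Y V} {v : V} {κ : V → ℕ}
    (h : PP (S.c.σ z.1 S.a) (S.c.σ z.1 S.b) S.L (S.Lv z) κ v) : S.OnT z v := by
  obtain ⟨j, h1, h2, _⟩ := h
  exact ⟨j, h1, h2⟩

lemma pr_A (hF : FlipStmt G Δ o) (h : S.Num) (x : Y V) (v : V) (p : Fin Δ)
    (hp : p = S.a ∨ p = S.b) :
    S.q / 4 ≤ Pr (nu V) (fun y => S.A (x, y) v = S.c.σ x p v ∧
      (S.c.σ x p v ≠ v → ¬ S.Wn (x, y) (S.c.σ x p v))) := by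
  have h1 := h.q1
  have h0 := h.q0
  by_cases hpα : p = S.α
  · subst hpα
    have key := one_sub_Pr_le (μ := nu V)
      (E := fun y => (S.FR S.R (x, y) v ∨ S.FR S.R (x, y) (S.c.σ x S.α v)) ∨
        (S.OnT (x, y) v ∨ S.OnT (x, y) (S.c.σ x S.α v)) ∨ S.Lv (x, y) (S.mu x v))
      (E' := fun y => S.A (x, y) v = S.c.σ x S.α v ∧
        (S.c.σ x S.α v ≠ v → ¬ S.Wn (x, y) (S.c.σ x S.α v))) (fun y hy => by
        simp only [not_or] at hy
        refine ⟨(S.ok (x, y)).shift_stay S.hα ?_ ?_ (fun hl => hy.2.1.1 ⟨0, Nat.zero_le _, hl⟩)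
          hy.2.2, fun _ hw => hy.2.1.2 (onT_of_Wn hw)⟩
        · rintro (hh | hh)
          · exact hy.1.1 hh
          · exact hy.2.1.1 (onT_of_PP hh)
        · rintro (hh | hh)
          · exact hy.1.2 hh
          · exact hy.2.1.2 (onT_of_PP hh))
    have b1 := Pr_or_le (μ := nu V) (E := fun y => (S.FR S.R (x, y) v ∨
        S.FR S.R (x, y) (S.c.σ x S.α v)) ∨
        (S.OnT (x, y) v ∨ S.OnT (x, y) (S.c.σ x S.α v)) ∨ S.Lv (x, y) (S.mu x v)) fun y hy => hy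
    have b2 := Pr_or_le (μ := nu V) (E := fun y => S.FR S.R (x, y) v ∨
        S.FR S.R (x, y) (S.c.σ x S.α v)) fun y hy => hy
    have b3 := Pr_or_le (μ := nu V) (E := fun y =>
        (S.OnT (x, y) v ∨ S.OnT (x, y) (S.c.σ x S.α v)) ∨ S.Lv (x, y) (S.mu x v)) fun y hy => hy
    have b4 := Pr_or_le (μ := nu V) (E := fun y =>
        S.OnT (x, y) v ∨ S.OnT (x, y) (S.c.σ x S.α v)) fun y hy => hy
    have := pr_FR hF h x v
    have := pr_FR hF h x (S.c.σ x S.α v)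
    have := pr_OnT h x v
    have := pr_OnT h x (S.c.σ x S.α v)
    have := pr_Lv' h x (S.mu x v)
    linarith
  · have key : S.q / 2 ≤ Pr (nu V)
        (fun y => S.FR S.R (x, y) v ∧ S.FR S.R (x, y) (S.c.σ x p v)) := by
      have := hF.rf_ge _ _ (S.pair x) S.θ S.q h.θ0 (by linarith) S.R h.R1 h.θR 0 v
      rcases hp with rfl | rfl
      · exact this.1
      · exact this.2
    refine le_trans (by linarith) (key.trans (Pr_mono fun y hy => ⟨?_, fun _ hw => ?_⟩))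
    · exact (S.ok (x, y)).shift_flip S.hα hp hpα hy.1 hy.2
    · exact (onT_of_Wn hw).not_F hy.2

lemma pr_C (hF : FlipStmt G Δ o) (h : S.Num) (x : Y V) (v : V) (p : Fin Δ) (ha : p ≠ S.a)
    (hb : p ≠ S.b) : S.q / 4 ≤ Pr (nu V) (fun y => S.C (x, y) v = S.c.σ x p v) := by
  have h1 := h.q1
  have h2 := h.qlen
  exact hF.seq_ge S.γ S.θ S.q h.θ0 (by linarith) S.R h.R1 h.θR S.l S.hγl S.nodup (by linarith)
    _ (S.c.proper x) v p ((S.hl p).2 ⟨ha, hb⟩)

lemma pr_Act (h : S.Num) (x : Y V) (v : V) :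
    Pr (nu V) (fun y => S.Act (x, y) v) = S.ps * ind (S.Rn x v) := by
  by_cases hr : S.Rn x v
  · rw [ind_pos hr, mul_one, ← Pr_lab_lt (v, 2) h.ps0 h.ps1]
    exact Pr_congr fun y => by simp [Act, hr]
  · rw [ind_neg hr, mul_zero]
    exact Pr_false fun y hy => hr hy.1

lemma closedA_univ (S : Setup G Δ) (x : Y V) : S.ClosedA x Set.univ :=
  ⟨fun _ _ => trivial, fun _ _ => trivial, fun _ _ => trivial⟩

lemma pr_Wn (hF : FlipStmt G Δ o) (h : S.Num) (x : Y V) (v : V) (j : ℕ) (h1 : S.W + 2 ≤ j)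
    (h2 : j + S.W ≤ S.L) (h3 : alt S.b S.a j = S.α)
    (hs : S.Sr x (back (S.c.σ x S.a) (S.c.σ x S.b) j v)) :
    S.W / (32 * S.L) ≤ Pr (nu V) (fun y => S.Wn (x, y) v) := by
  set u := back (S.c.σ x S.a) (S.c.σ x S.b) j v with hu
  have hm : ∀ R w, Measurable fun y => S.FR R (x, y) w := fun R w =>
    ((S.ip_FR R).at w).comp measurable_prodMk_left
  have hi := Pr_indep (V := V)
    (E := fun y => ¬ (S.FR (S.R + S.L) (x, y) u ∨ S.FR S.R (x, y) (S.mu x u)))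
    (F := fun y => j - S.W ≤ pos S.L y u ∧ pos S.L y u < j - S.W + S.W)
    ((hm _ _).or (hm _ _)).not
    ((in_pos (G := G) S.L (fun n => j - S.W ≤ n ∧ n < j - S.W + S.W)).at u)
    (D := {i | i.2 = 0}) (D' := {i | i.2 = 1})
    (fun y y' hh => by
      have h0 : ∀ v ∈ Set.univ, y (v, 0) = y' (v, 0) := fun v _ => hh (v, 0) rfl
      simp only [(S.closedA_univ x).FR h0 _ (Set.mem_univ _)])
    (fun y y' hh => by simp only [pos, hh (u, 1) rfl])
    (by rw [Set.disjoint_left]; intro i (e1 : i.2 = 0) (e2 : i.2 = 1); omega)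
  rw [pr_pos h.L1 u _ _ (by omega), Pr_not ((hm _ _).or (hm _ _))] at hi
  have b1 := Pr_or_le (μ := nu V)
    (E := fun y => S.FR (S.R + S.L) (x, y) u ∨ S.FR S.R (x, y) (S.mu x u)) fun y hy => hy
  have b2 := pr_FR' hF h x u
  have b3 := pr_FR hF h x (S.mu x u)
  have hq := h.q1
  have hL : (0 : ℝ) < S.L := by exact_mod_cast h.L1
  have hW : (0 : ℝ) ≤ S.W / (16 * S.L) := by positivity
  calc (S.W : ℝ) / (32 * S.L) = 1 / 2 * (S.W / (16 * S.L)) := by field_simp; ring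
    _ ≤ _ := mul_le_mul_of_nonneg_right (by linarith) hW
    _ = _ := hi.symm
    _ ≤ _ := Pr_mono fun y hy => ?_
  simp only [not_or] at hy
  have e : S.k (x, y) u = pos S.L y u := rfl
  exact ⟨j, by omega, ⟨hs, hy.1.1, hy.1.2, by rw [e]; omega, by rw [e]; omega⟩,
    by rw [← hu, e]; omega, by rw [← hu, e]; omega, h3⟩

/-- The vertex is untouched by the random changes. -/
def Good (S : Setup G Δ) (z : Y V × Y V) (v : V) : Prop :=
  ¬ S.FR S.R z v ∧ ¬ S.Lv z v ∧ ¬ S.Lv z (S.mu z.1 v) ∧ ∀ p, S.τ z p v = S.c.σ z.1 p v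

lemma ip_Good (S : Setup G Δ) : IP (G := G) act2 S.Good :=
  (S.ip_FR _).not.and (S.ip_Lv.not.and ((S.ip_Lv.comp S.hmu.toEM.fst).not.and
    (IP.forall fun p => IP.eq (S.ec_τ.em p) (S.ec_σ.em p))))

lemma pr_change (hF : FlipStmt G Δ o) (h : S.Num) (x : Y V) (v : V) :
    Pr (nu V) (fun y => ∃ p, S.τ (x, y) p v ≠ S.c.σ x p v) ≤ 21 * S.q * Δ := by
  have h1 := h.q1
  have h2 : (S.l.length : ℝ) ≤ Δ := by exact_mod_cast S.len
  have := hF.seq_change S.γ S.θ S.q h.θ0 (by linarith) S.R h.R1 h.θR S.l S.hγl S.nodup _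
    (S.c.proper x) v
  refine this.trans ?_
  have := h.q0
  nlinarith

lemma pr_not_Good (hF : FlipStmt G Δ o) (h : S.Num) (x : Y V) (v : V) :
    Pr (nu V) (fun y => ¬ S.Good (x, y) v) ≤ 1 / 4 := by
  have b1 := Pr_or_le (μ := nu V) (E := fun y => ¬ S.Good (x, y) v)
    (E₁ := fun y => S.FR S.R (x, y) v ∨ S.Lv (x, y) v)
    (E₂ := fun y => S.Lv (x, y) (S.mu x v) ∨ ∃ p, S.τ (x, y) p v ≠ S.c.σ x p v) fun y hy => by
      by_contra hn
      simp only [not_or, not_exists, not_not] at hn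
      exact hy ⟨hn.1.1, hn.1.2, hn.2.1, hn.2.2⟩
  have b2 := Pr_or_le (μ := nu V) (E := fun y => S.FR S.R (x, y) v ∨ S.Lv (x, y) v)
    fun y hy => hy
  have b3 := Pr_or_le (μ := nu V)
    (E := fun y => S.Lv (x, y) (S.mu x v) ∨ ∃ p, S.τ (x, y) p v ≠ S.c.σ x p v) fun y hy => hy
  have := pr_FR hF h x v
  have := pr_Lv' h x v
  have := pr_Lv' h x (S.mu x v)
  have := pr_change hF h x v
  have := h.q1
  have := h.qΔ
  linarith

lemma pr_Good2 (hF : FlipStmt G Δ o) (h : S.Num) (x : Y V) (v w : V) :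
    1 / 2 ≤ Pr (nu V) (fun y => S.Good (x, y) v ∧ S.Good (x, y) w) := by
  have key := one_sub_Pr_le (μ := nu V)
    (E := fun y => ¬ S.Good (x, y) v ∨ ¬ S.Good (x, y) w)
    (E' := fun y => S.Good (x, y) v ∧ S.Good (x, y) w) fun y hy => by tauto
  have b1 := Pr_or_le (μ := nu V) (E := fun y => ¬ S.Good (x, y) v ∨ ¬ S.Good (x, y) w)
    fun y hy => hy
  have := pr_not_Good hF h x v
  have := pr_not_Good hF h x w
  linarith

lemma good_dep (hF : FlipStmt G Δ o) (x : Y V) (v : V) :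
    DependsOn (fun y => S.Good (x, y) v) {i | i.2 ≠ 2} := by
  intro y y' hh
  have h0 : ∀ v ∈ Set.univ, y (v, 0) = y' (v, 0) := fun v _ => hh (v, 0) (by simp)
  have h1 : ∀ v ∈ Set.univ, y (v, 1) = y' (v, 1) := fun v _ => hh (v, 1) (by simp)
  have h3 : ∀ p, S.τ (x, y) p v = S.τ (x, y') p v := by
    intro p
    by_cases hp : p ∈ S.γ :: S.l
    · exact (hF.seq_loc S.γ S.θ S.q S.R y' y S.l (S.c.σ x) (S.c.σ x) Set.univ S.hγl
        (fun p _ => ⟨fun _ _ => trivial, fun _ _ => rfl⟩)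
        (fun w _ n hn => hh (w, n) (by simp; omega)) p hp).eq v trivial
    · simp only [List.mem_cons, not_or] at hp
      simp only [τ, hF.seq_other _ _ _ _ _ _ _ _ hp.1 hp.2]
  simp only [Good, (S.closedA_univ x).FR h0 _ (Set.mem_univ _),
    (S.closedA_univ x).Lv h0 h1 (Set.mem_univ _), h3]

lemma Good.hole (hF : FlipStmt G Δ o) {z : Y V × Y V} {v : V} (h : S.Good z v) {p : Fin Δ}
    (hp : S.c.σ z.1 p v = v) : S.fin z p v = v :=
  (S.ok z).shift_keep (S.compat hF z) h.1 h.2.1 h.2.2.1 ((h.2.2.2 p).trans hp)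

lemma Good.unc (hF : FlipStmt G Δ o) {z : Y V × Y V} {v w : V} (h : S.Good z v)
    (hu : Unc G (S.c.σ z.1) v w) : Unc G (S.fin z) v w :=
  (S.ok z).shift_unc (S.compat hF z) h.2.1 h.2.2.1 hu

lemma dn_fin (hF : FlipStmt G Δ o) (h : S.Num) (p p' : Fin Δ) :
    S.c.Dn o p p' / 2 ≤ (FC.ofEC (S.ec_fin hF)).Dn o p p' := by
  rw [FC.ofEC_dn, div_eq_inv_mul, ← one_div]
  refine Pr_prod_ge ((IP.dn (S.ec_fin hF) p p').at o) ((IP.dn S.c.ec p p').at o) ?_
  rintro x ⟨h1, u, h2, h3⟩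
  exact (pr_Good2 hF h x o u).trans (Pr_mono fun y hy =>
    ⟨hy.1.hole hF h1, u, hy.1.unc hF h2, hy.2.hole hF h3⟩)

/-- An active runner whose uncoloured edge survives. -/
def Intact (S : Setup G Δ) (hF : FlipStmt G Δ o) (z : Y V × Y V) (v : V) : Prop :=
  S.Act z v ∧ S.fin z S.α v = v ∧ ∃ u, Unc G (S.fin z) v u ∧ S.fin z S.β u = u

lemma pr_intact (hF : FlipStmt G Δ o) (h : S.Num) :
    S.ps / 2 * S.c.Dn o S.α S.β ≤ Pr ((nu V).prod (nu V)) (fun z => S.Intact hF z o) := by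
  refine Pr_prod_ge ((S.ip_Act.and (IP.dn (S.ec_fin hF) S.α S.β)).at o) (S.ip_Rn.at o) ?_
  rintro x ⟨h1, u, h2, h3⟩
  have hm : ∀ w, Measurable fun y => S.Good (x, y) w := fun w =>
    (S.ip_Good.at w).comp measurable_prodMk_left
  have hi := Pr_indep (V := V) (E := fun y => S.Good (x, y) o ∧ S.Good (x, y) u)
    (F := fun y => (y (o, 2) : ℝ) < S.ps) ((hm o).and (hm u)) (meas_lab_lt _ _)
    (D := {i | i.2 ≠ 2}) (D' := {i | i.2 = 2})
    (fun y y' hh => by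
      have e1 := good_dep (S := S) hF x o hh
      have e2 := good_dep (S := S) hF x u hh
      simp only at e1 e2
      simp only [e1, e2])
    (fun y y' hh => by simp only [hh (o, 2) rfl])
    (by rw [Set.disjoint_left]; intro i e1 e2; exact e1 e2)
  rw [Pr_lab_lt _ h.ps0 h.ps1] at hi
  have := pr_Good2 hF h x o u
  have h0 := h.ps0
  calc S.ps / 2 = 1 / 2 * S.ps := by ring
    _ ≤ _ := mul_le_mul_of_nonneg_right this h0
    _ = _ := hi.symm
    _ ≤ _ := Pr_mono fun y hy => ⟨⟨⟨h1, u, h2, h3⟩, hy.2⟩, hy.1.1.hole hF h1, u,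
      hy.1.1.unc hF h2, hy.1.2.hole hF h3⟩

lemma pr_act_eq (h : S.Num) :
    Pr ((nu V).prod (nu V)) (fun z => S.Act z o) = S.ps * S.c.Dn o S.α S.β := by
  rw [Pr_prod (S.ip_Act.at o)]
  simp only [pr_Act h]
  rw [integral_const_mul, ← Pr_eq (S.ip_Rn.at o)]
  rfl

end Setup

end Pool.Agent.MP_93f6c7_pr

end

section

/-! Global estimates: holes, cost, success and conflicts. -/

set_option autoImplicit false
set_option linter.unusedSectionVars false
set_option linter.unusedVariables false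
open MeasureTheory Function
open scoped Classical

namespace Pool.Agent.MP_93f6c7_pr

variable {V : Type} [MeasurableSpace V] [DiscreteMeasurableSpace V] [Countable V]
  {G : SimpleGraph V} [G.LocallyFinite] {Δ : ℕ}

namespace Setup

variable {S : Setup G Δ} {o : V}

/-- Density of sources. -/
noncomputable def s0 (S : Setup G Δ) (o : V) : ℝ := Pr (nu V) (fun x => S.Sr x o)

lemma s0_le (S : Setup G Δ) (o : V) : S.s0 o ≤ S.c.hol o :=
  (Pr_mono fun x hx => hx.2.1).trans (Finset.single_le_sum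
    (f := fun p => Pr (nu V) (fun y => S.c.σ y p o = o)) (fun _ _ => Pr_nonneg _)
    (Finset.mem_univ S.b))

lemma pr_sr_back (hs : HasSwaps G) (S : Setup G Δ) (o : V) (j : ℕ) :
    Pr (nu V) (fun x => S.Sr x (back (S.c.σ x S.a) (S.c.σ x S.b) j o)) = S.s0 o :=
  Pr_mtp_back hs act_mp S.ip_Sr (S.c.ec.ei _) (S.c.ec.ei _) j o

lemma pr_Lv_le (S : Setup G Δ) (o : V) :
    Pr ((nu V).prod (nu V)) (fun z => S.Lv z o) ≤ S.s0 o :=
  (Pr_mono fun z hz => hz.1).trans (Pr_fst (S.ip_Sr.at o)).le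

lemma pr_out (hs : HasSwaps G) (S : Setup G Δ) (o : V) :
    Pr ((nu V).prod (nu V)) (fun z => Out (S.c.σ z.1 S.a) (S.c.σ z.1 S.b) S.L (S.Lv z) (S.k' z)
      (S.c.σ z.1 S.a) o) +
    Pr ((nu V).prod (nu V)) (fun z => Out (S.c.σ z.1 S.a) (S.c.σ z.1 S.b) S.L (S.Lv z) (S.k' z)
      (S.c.σ z.1 S.b) o) ≤ Pr ((nu V).prod (nu V)) (fun z => S.Lv z o) := by
  have hip : ∀ j, IP (G := G) act2 (fun z v => S.Lv z v ∧ S.k' z v = j + 1) := fun j =>
    S.ip_Lv.and (S.in_k' (fun n => n = j + 1))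
  have key : ∀ p, p = S.a ∨ p = S.b →
      Pr ((nu V).prod (nu V)) (fun z => Out (S.c.σ z.1 S.a) (S.c.σ z.1 S.b) S.L (S.Lv z) (S.k' z)
        (S.c.σ z.1 p) o) ≤ ∑ j ∈ Finset.range (S.L + 1), ind (alt S.a S.b j = p) *
          Pr ((nu V).prod (nu V)) (fun z => S.Lv z o ∧ S.k' z o = j + 1) := by
    intro p hp
    refine (Pr_le_sum (s := Finset.range (S.L + 1)) (F := fun j z => alt S.a S.b j = p ∧
      (S.Lv z (back (S.c.σ z.1 S.a) (S.c.σ z.1 S.b) j o) ∧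
        S.k' z (back (S.c.σ z.1 S.a) (S.c.σ z.1 S.b) j o) = j + 1)) fun z hz => ?_).trans
      (Finset.sum_le_sum fun j _ => ?_)
    · obtain ⟨j, h1, h2, h3, h4⟩ := (S.ok z).out_elim (fun v hv => (S.k'_range z v hv).2) hp hz
      exact ⟨j, by simpa [Nat.lt_succ_iff] using h1, h4, h2, h3⟩
    · by_cases hj : alt S.a S.b j = p
      · rw [ind_pos hj, one_mul,
          ← Pr_mtp_back hs act2_mp (hip j) (S.ec_σ.ei S.a) (S.ec_σ.ei S.b) j o]
        exact Pr_mono fun z hz => hz.2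
      · rw [ind_neg hj, zero_mul, Pr_false fun z hz => hj hz.1]
  refine (add_le_add (key _ (Or.inl rfl)) (key _ (Or.inr rfl))).trans ?_
  rw [← Finset.sum_add_distrib]
  refine le_trans (Finset.sum_le_sum fun j _ => ?_) (sum_Pr_le (s := Finset.range (S.L + 1))
    (F := fun j z => S.Lv z o ∧ S.k' z o = j + 1) (S.ip_Lv.at o) (fun j _ => (hip j).at o)
    (fun z j _ h => h.1) fun z i _ j _ h1 h2 => by have := h1.2; have := h2.2; omega)
  rw [← add_mul]
  refine mul_le_of_le_one_left (Pr_nonneg _) ?_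
  by_cases hj : alt S.a S.b j = S.a
  · rw [ind_pos hj, ind_neg (by rw [hj]; exact S.ab)]; norm_num
  · rw [ind_neg hj, zero_add]; exact ind_le_one _

lemma hol_fin (hs : HasSwaps G) (hF : FlipStmt G Δ o) (h : S.Num) {e : ℝ} (he : S.c.hol o ≤ e)
    (hθ : S.θ ≤ S.q * e) :
    (FC.ofEC (S.ec_fin hF)).hol o ≤ S.c.hol o + (16 * Δ + 8) * S.q * e := by
  rw [FC.ofEC_hol]
  have hq := h.q1
  have hq0 := h.q0
  have hθq := h.θq
  have hlen : (S.l.length : ℝ) ≤ Δ := by exact_mod_cast S.len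
  have he0 : 0 ≤ e := (S.c.hol_nonneg o).trans he
  have ia := S.ec_σ.ei S.a
  have ib := S.ec_σ.ei S.b
  have oa := IP.out ia.toEM ib.toEM S.L S.ip_Lv S.in_k' ia.toEM
  have ob := IP.out ia.toEM ib.toEM S.L S.ip_Lv S.in_k' ib.toEM
  have m1 := (IF.holes S.ec_τ).bm o
  have m2 := (IP.bd (S.ip_FR S.R) ia.toEM).at o
  have m3 := (IP.bd (S.ip_FR S.R) ib.toEM).at o
  have m4 := oa.at o
  have m5 := (oa.comp ia.toEM).at o
  have m6 := ob.at o
  have m7 := (ob.comp ib.toEM).at o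
  have m8 := S.ip_Lv.at o
  have m9 := (S.ip_Lv.comp S.hmu.toEM.fst).at o
  have key := int_mono (μ := (nu V).prod (nu V)) ((IF.holes (S.ec_fin hF)).bm o)
    (((((m1.add (BM.ind m2)).add (BM.ind m3)).add ((BM.ind m4).add (BM.ind m5))).add
      ((BM.ind m6).add (BM.ind m7))).sub ((BM.ind m8).add (BM.ind m9)))
    fun z => (S.ok z).holes_shift (S.compat hF z)
      (fun v hv => by have := S.k'_range z v hv; omega) o
  rw [int_sub ((((m1.add (BM.ind m2)).add (BM.ind m3)).add ((BM.ind m4).add (BM.ind m5))).add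
      ((BM.ind m6).add (BM.ind m7))) ((BM.ind m8).add (BM.ind m9)),
    int_add (((m1.add (BM.ind m2)).add (BM.ind m3)).add ((BM.ind m4).add (BM.ind m5)))
      ((BM.ind m6).add (BM.ind m7)),
    int_add ((m1.add (BM.ind m2)).add (BM.ind m3)) ((BM.ind m4).add (BM.ind m5)),
    int_add (m1.add (BM.ind m2)) (BM.ind m3), int_add m1 (BM.ind m2),
    int_add (BM.ind m4) (BM.ind m5), int_add (BM.ind m6) (BM.ind m7),
    int_add (BM.ind m8) (BM.ind m9), ← Pr_eq m2, ← Pr_eq m3, ← Pr_eq m4, ← Pr_eq m5, ← Pr_eq m6,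
    ← Pr_eq m7, ← Pr_eq m8, ← Pr_eq m9, Pr_mtp hs act2_mp oa ia o, Pr_mtp hs act2_mp ob ib o,
    Pr_mtp hs act2_mp S.ip_Lv S.hmu.fst o] at key
  have b1 := hF.seq_holes S.c S.γ S.θ S.q e h.θ0 hq0.le (by linarith) hθ (by linarith) he S.R S.l
    S.hγl S.nodup (by have := h.qlen; linarith)
  have b2 := hF.rf_bd S.c S.a S.b S.ab S.θ S.q h.θ0 (by linarith) hq0.le (by linarith) S.R 0 S.a
    (Or.inl rfl)
  have b3 := hF.rf_bd S.c S.a S.b S.ab S.θ S.q h.θ0 (by linarith) hq0.le (by linarith) S.R 0 S.b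
    (Or.inr rfl)
  have b4 := pr_out hs S o
  have b5 : S.q * S.c.hol o ≤ S.q * e := mul_le_mul_of_nonneg_left he hq0.le
  have b6 : S.q * S.l.length * e ≤ S.q * Δ * e := by gcongr
  refine key.trans ?_
  simp only [τ, FR] at *
  nlinarith

lemma cost_fin (hs : HasSwaps G) (hF : FlipStmt G Δ o) (h : S.Num) :
    Pr ((nu V).prod (nu V)) (fun z => ∃ p, S.fin z p o ≠ S.c.σ z.1 p o) ≤
      21 * S.q * Δ + 21 * S.q + (3 * S.L + 5) * S.s0 o := by
  have ia := S.ec_σ.ei S.a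
  have ib := S.ec_σ.ei S.b
  have ipp := IP.pp ia.toEM ib.toEM S.L S.ip_Lv S.in_k'
  have iP := (S.ip_FR S.R).or ipp
  set P : Y V × Y V → V → Prop := fun z v => S.FR S.R z v ∨
    PP (S.c.σ z.1 S.a) (S.c.σ z.1 S.b) S.L (S.Lv z) (S.k' z) v with hP
  have b0 : Pr ((nu V).prod (nu V)) (fun z => P z o) ≤ 7 * S.q + (S.L + 1) * S.s0 o := by
    refine (Pr_or_le fun z hz => hz).trans (add_le_add
      (Pr_prod_le_const ((S.ip_FR S.R).at o) fun x => pr_FR hF h x o) ?_)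
    refine (Pr_le_sum (s := Finset.range (S.L + 1))
      (F := fun j z => S.Sr z.1 (back (S.c.σ z.1 S.a) (S.c.σ z.1 S.b) j o))
      fun z ⟨j, h1, h2, _⟩ => ⟨j, by simpa [Nat.lt_succ_iff] using h1, h2.1⟩).trans ?_
    rw [Finset.sum_congr rfl fun j _ => (Pr_fst (ν := nu V)
      ((S.ip_Sr.comp ((S.c.ec.em S.a).back (S.c.ec.em S.b) j)).at o)).trans (pr_sr_back hs S o j)]
    simp
  have b1 := Pr_or_le (μ := (nu V).prod (nu V))
    (E := fun z => ∃ p, S.fin z p o ≠ S.c.σ z.1 p o)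
    (E₁ := fun z => (∃ p, S.τ z p o ≠ S.c.σ z.1 p o) ∨ P z o)
    (E₂ := fun z => (P z (S.c.σ z.1 S.a o) ∨ P z (S.c.σ z.1 S.b o)) ∨
      (S.Lv z o ∨ S.Lv z (S.mu z.1 o))) fun z hz => by
      by_contra hn
      simp only [not_or, not_exists, not_not] at hn
      obtain ⟨p, hp⟩ := hz
      exact hp (((S.ok z).shift_same (S.compat hF z) hn.1.2 hn.2.1.1 hn.2.1.2 hn.2.2.1
        hn.2.2.2 p).trans (hn.1.1 p))
  have b2 := Pr_or_le (μ := (nu V).prod (nu V))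
    (E := fun z => (∃ p, S.τ z p o ≠ S.c.σ z.1 p o) ∨ P z o) fun z hz => hz
  have b3 := Pr_or_le (μ := (nu V).prod (nu V))
    (E := fun z => (P z (S.c.σ z.1 S.a o) ∨ P z (S.c.σ z.1 S.b o)) ∨
      (S.Lv z o ∨ S.Lv z (S.mu z.1 o))) fun z hz => hz
  have b4 := Pr_or_le (μ := (nu V).prod (nu V))
    (E := fun z => P z (S.c.σ z.1 S.a o) ∨ P z (S.c.σ z.1 S.b o)) fun z hz => hz
  have b5 := Pr_or_le (μ := (nu V).prod (nu V))
    (E := fun z => S.Lv z o ∨ S.Lv z (S.mu z.1 o)) fun z hz => hz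
  rw [Pr_mtp hs act2_mp iP ia o, Pr_mtp hs act2_mp iP ib o] at b4
  rw [Pr_mtp hs act2_mp S.ip_Lv S.hmu.fst o] at b5
  have b6 := pr_Lv_le S o
  have b7 : Pr ((nu V).prod (nu V)) (fun z => ∃ p, S.τ z p o ≠ S.c.σ z.1 p o) ≤ 21 * S.q * Δ :=
    Pr_prod_le_const ((IP.changed S.ec_σ S.ec_τ).at o) fun x => pr_change hF h x o
  linarith

lemma sh_fin (hs : HasSwaps G) (hF : FlipStmt G Δ o) (h : S.Num) :
    S.ps / 2 * S.c.Dn o S.α S.β ≤ (FC.ofEC (S.ec_fin hF)).Sh o S.α S.γ S.β (2 * S.m + 1) +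
      Pr ((nu V).prod (nu V)) (fun z => S.Ar S.m z o) +
      ∑ t ∈ Finset.range S.m, Pr ((nu V).prod (nu V)) (fun z => S.Ar t z o ∧ S.Bd' z o) := by
  refine (pr_intact hF h).trans ?_
  rw [FC.ofEC_sh, ← Pr_mtp_walk hs act2_mp (S.ip_Ar S.m) S.ei_C S.ei_A (2 * S.m + 1) o,
    Finset.sum_congr rfl fun t _ => (Pr_mtp_walk hs act2_mp ((S.ip_Ar t).and S.ip_Bd') S.ei_C
      S.ei_A (2 * t + 1) o).symm]
  refine (Pr_or_le (E₂ := fun z => ∃ t ∈ Finset.range S.m,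
    S.Ar t z (walk (S.C z) (S.A z) (2 * t + 1) o) ∧
      S.Bd' z (walk (S.C z) (S.A z) (2 * t + 1) o)) fun z hz => ?_).trans
    (add_le_add (Pr_or_le fun z hz => hz) (Pr_le_sum fun z hz => hz))
  by_contra hn
  simp only [not_or] at hn
  refine hn.1.2 ((S.ok z).survive (S.compat hF z) (S.k_range z) S.hα S.γa S.γb rfl
    (fun _ => Iff.rfl) hz.1 (fun t ht h1 h2 => hn.2 ⟨t, Finset.mem_range.2 ht, h1, h2⟩) le_rfl ?_)
  by_contra hf
  exact hn.1.1 ⟨hz.2.1, hf, hz.2.2⟩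

/-- The occupation density. -/
noncomputable def H (S : Setup G Δ) : Y V → V → ℝ := occ S.A S.C S.Wn S.Act S.m

lemma if_H (S : Setup G Δ) : IF (G := G) act S.H :=
  IF.sum (s := Finset.range S.m) fun t _ => IF.Pr (S.ip_Ar t)

lemma pr_three (hG : G.IsAcyclic) (hF : FlipStmt G Δ o) (h : S.Num) (hW : S.W + 2 ≤ S.L)
    (x : Y V) (v : V) (hv : S.Sr x v) {j j' : ℕ} (hj : j ≤ S.L) (hj' : j' ≤ S.L) (hne : j' ≠ j)
    (t t' : ℕ) :
    Pr (nu V) (fun y => S.Ar t (x, y) (walk (S.c.σ x S.a) (S.c.σ x S.b) j v) ∧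
      (S.Ar t' (x, y) (walk (S.c.σ x S.a) (S.c.σ x S.b) j' v) ∧
        (j - S.W ≤ pos S.L y v ∧ pos S.L y v < j - S.W + (S.W + 2)))) =
      Pr (nu V) (fun y => S.Ar t (x, y) (walk (S.c.σ x S.a) (S.c.σ x S.b) j v)) *
      (Pr (nu V) (fun y => S.Ar t' (x, y) (walk (S.c.σ x S.a) (S.c.σ x S.b) j' v)) *
        ((S.W + 2 : ℕ) / (16 * S.L))) := by
  have M := S.markov hG hF
  have inva := (S.c.proper x).inv S.a
  have invb := (S.c.proper x).inv S.b
  have hmem : ∀ i, v ∈ {w | S.SA x (walk (S.c.σ x S.a) (S.c.σ x S.b) i v) w ∨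
      w = walk (S.c.σ x S.a) (S.c.σ x S.b) i v} := fun i => by
    have := (closedA_DA (S := S) x (walk (S.c.σ x S.a) (S.c.σ x S.b) i v)).back i (Or.inr rfl)
    rwa [back_walk inva invb] at this
  have hsa : ∀ i i', i ≤ S.L → i' ≤ S.L → i' ≠ i →
      S.SA x (walk (S.c.σ x S.a) (S.c.σ x S.b) i v) (walk (S.c.σ x S.a) (S.c.σ x S.b) i' v) :=
    fun i i' hi hi' hii => ((closedA_DA (S := S) x _).walk i' (hmem i)).resolve_right
      fun e => hii (src_unique (S.c.proper x) hv hv hi' hi e).2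
  have hΩ : ∀ i, (v, 1) ∈ S.ΩA x (walk (S.c.σ x S.a) (S.c.σ x S.b) i v) := fun i =>
    (hmem i).imp id fun e => ⟨e, by norm_num⟩
  have hm : ∀ t w, Measurable fun y => S.Ar t (x, y) w := fun t w =>
    ((S.ip_Ar t).at w).comp measurable_prodMk_left
  have hp := (in_pos (G := G) S.L (fun n => j - S.W ≤ n ∧ n < j - S.W + (S.W + 2))).at v
  have dp : ∀ i, DependsOn (fun y => j - S.W ≤ pos S.L y v ∧ pos S.L y v < j - S.W + (S.W + 2))
      (S.ΩA x (walk (S.c.σ x S.a) (S.c.σ x S.b) i v)) := fun i y y' hh => by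
    simp only [pos, hh _ (hΩ i)]
  rw [Pr_indep (hm _ _) ((hm _ _).and hp) (M.arr_dep x t _) (D' := S.ΩA x _) ?_
      (M.disj x _).symm,
    Pr_indep (hm _ _) hp (M.arr_dep x t' _) (dp j') (M.disj x _).symm,
    pr_pos h.L1 v _ _ (by omega)]
  intro y y' hh
  have e1 := M.arr_dep x t' _ fun i hi =>
    hh i (ΩB_subset hG (hsa j j' hj hj' hne) (hsa j' j hj' hj hne.symm) hi)
  have e2 := dp j hh
  exact congrArg₂ And e1 e2

lemma pr_conf_pt (hG : G.IsAcyclic) (hF : FlipStmt G Δ o) (h : S.Num) (hW : S.W + 2 ≤ S.L)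
    (x : Y V) (z : V) :
    ∑ t ∈ Finset.range S.m, Pr (nu V) (fun y => S.Ar t (x, y) z ∧ S.Bd' (x, y) z) ≤
      ∑ j ∈ Finset.range (S.L + 1), ∑ j' ∈ Finset.range (S.L + 1),
        ind (j ≤ j' + S.W + 1 ∧ j' ≤ j + S.W + 1) * ((S.W + 2 : ℕ) / (16 * S.L)) *
          (ind (S.Sr x (back (S.c.σ x S.a) (S.c.σ x S.b) j z)) * (S.H x z *
            S.H x (walk (S.c.σ x S.a) (S.c.σ x S.b) j' (back (S.c.σ x S.a) (S.c.σ x S.b) j z)))) := by
  have inva := (S.c.proper x).inv S.a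
  have invb := (S.c.proper x).inv S.b
  set f := S.c.σ x S.a with hf
  set g := S.c.σ x S.b with hg
  have step : ∀ t, Pr (nu V) (fun y => S.Ar t (x, y) z ∧ S.Bd' (x, y) z) ≤
      ∑ j ∈ Finset.range (S.L + 1), ∑ j' ∈ Finset.range (S.L + 1), ∑ t' ∈ Finset.range S.m,
        ind (j ≤ j' + S.W + 1 ∧ j' ≤ j + S.W + 1) * ((S.W + 2 : ℕ) / (16 * S.L)) *
          (ind (S.Sr x (back f g j z)) * (Pr (nu V) (fun y => S.Ar t (x, y) z) *
            Pr (nu V) (fun y => S.Ar t' (x, y) (walk f g j' (back f g j z))))) := by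
    intro t
    let E : ℕ → ℕ → ℕ → Y V → Prop := fun j j' t' y =>
      (j' ≠ j ∧ (j ≤ j' + S.W + 1 ∧ j' ≤ j + S.W + 1) ∧ S.Sr x (back f g j z)) ∧
      (S.Ar t (x, y) z ∧ (S.Ar t' (x, y) (walk f g j' (back f g j z)) ∧
        (j - S.W ≤ pos S.L y (back f g j z) ∧ pos S.L y (back f g j z) < j - S.W + (S.W + 2))))
    refine (Pr_le_sum (s := Finset.range (S.L + 1)) (F := fun j y =>
      ∃ j' ∈ Finset.range (S.L + 1), ∃ t' ∈ Finset.range S.m, E j j' t' y) ?_).trans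
      (Finset.sum_le_sum fun j hj => (Pr_le_sum fun y hy => hy).trans
        (Finset.sum_le_sum fun j' hj' => (Pr_le_sum fun y hy => hy).trans
          (Finset.sum_le_sum fun t' _ => ?_)))
    · rintro y ⟨h1, j, ⟨z1, z2, z3, z4⟩, j', n1, n2, n3, t', n4, n5⟩
      have hk := S.k_range _ _ z2
      have e : S.k (x, y) (back f g j z) = pos S.L y (back f g j z) := rfl
      simp only [← hf, ← hg, e] at z3 z4 n2 n3 hk
      refine ⟨j, Finset.mem_range.2 (by omega), j', Finset.mem_range.2 (by omega), t',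
        Finset.mem_range.2 n4, ⟨n1, by omega, z2.1⟩, h1, n5, by omega, by omega⟩
    · by_cases hc : j' ≠ j ∧ (j ≤ j' + S.W + 1 ∧ j' ≤ j + S.W + 1) ∧ S.Sr x (back f g j z)
      · have := pr_three hG hF h hW x _ hc.2.2 (j := j) (j' := j')
          (by simpa [Nat.lt_succ_iff] using hj) (by simpa [Nat.lt_succ_iff] using hj') hc.1 t t'
        rw [← hf, ← hg, walk_back inva invb] at this
        rw [ind_pos hc.2.1, ind_pos hc.2.2]
        refine (Pr_mono fun y hy => hy.2).trans (this.trans_le (le_of_eq ?_))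
        ring
      · rw [Pr_false fun y hy => hc hy.1]
        have := ind_nonneg (j ≤ j' + S.W + 1 ∧ j' ≤ j + S.W + 1)
        have := ind_nonneg (S.Sr x (back f g j z))
        have := Pr_nonneg (μ := nu V) (fun y => S.Ar t (x, y) z)
        have := Pr_nonneg (μ := nu V) (fun y => S.Ar t' (x, y) (walk f g j' (back f g j z)))
        positivity
  refine (Finset.sum_le_sum fun t _ => step t).trans (le_of_eq ?_)
  rw [Finset.sum_comm]
  refine Finset.sum_congr rfl fun j _ => ?_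
  rw [Finset.sum_comm]
  refine Finset.sum_congr rfl fun j' _ => ?_
  simp only [← Finset.mul_sum, ← Finset.sum_mul]
  rfl

lemma card_near (L W j : ℕ) :
    ∑ j' ∈ Finset.range (L + 1), ind (j ≤ j' + W + 1 ∧ j' ≤ j + W + 1) ≤ 2 * W + 3 := by
  have e : ∀ j', ind (j ≤ j' + W + 1 ∧ j' ≤ j + W + 1) =
      if j ≤ j' + W + 1 ∧ j' ≤ j + W + 1 then (1 : ℝ) else 0 := fun j' => by
    unfold ind; congr
  simp only [e]
  rw [Finset.sum_boole]
  have : ((Finset.range (L + 1)).filter fun j' => j ≤ j' + W + 1 ∧ j' ≤ j + W + 1).card ≤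
      2 * W + 3 := by
    refine (Finset.card_le_card (t := Finset.Icc (j - (W + 1)) (j + W + 1)) fun i hi => ?_).trans ?_
    · simp only [Finset.mem_filter, Finset.mem_Icc] at hi ⊢; omega
    · rw [Nat.card_Icc]; omega
  exact_mod_cast this

lemma conf_le (hG : G.IsAcyclic) (hs : HasSwaps G) (hF : FlipStmt G Δ o) (h : S.Num)
    (hW : S.W + 2 ≤ S.L) (hb : ℝ) :
    ∑ t ∈ Finset.range S.m, Pr ((nu V).prod (nu V)) (fun z => S.Ar t z o ∧ S.Bd' z o) ≤
      (2 * S.W + 3) * ((S.W + 2 : ℕ) / (16 * S.L)) *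
        (2 * hb ^ 2 * ((S.L + 1) * S.s0 o) + 2 * ∫ x, (S.H x o - hb) ^ 2 ∂(nu V)) := by
  have ia := S.c.ec.ei S.a
  have ib := S.c.ec.ei S.b
  set ζ : ℝ := (S.W + 2 : ℕ) / (16 * S.L) with hζ
  have hζ0 : 0 ≤ ζ := by positivity
  have iS : ∀ j, IF (G := G) act (fun x v => ind (S.Sr x (back (S.c.σ x S.a) (S.c.σ x S.b) j v))) :=
    fun j => (S.ip_Sr.comp (ia.toEM.back ib.toEM j)).ind
  let u : ℕ → ℝ := fun j =>
    ∫ x, ind (S.Sr x (back (S.c.σ x S.a) (S.c.σ x S.b) j o)) * S.H x o ^ 2 ∂(nu V)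
  have iΦ : ∀ j', IF (G := G) act (fun x v => ind (S.Sr x v) *
      S.H x (walk (S.c.σ x S.a) (S.c.σ x S.b) j' v) ^ 2) := fun j' =>
    S.ip_Sr.ind.mul (S.if_H.comp (ia.toEM.walk ib.toEM j')).sq
  have hu : ∀ j j', ∫ x, ind (S.Sr x (back (S.c.σ x S.a) (S.c.σ x S.b) j o)) *
      S.H x (walk (S.c.σ x S.a) (S.c.σ x S.b) j' (back (S.c.σ x S.a) (S.c.σ x S.b) j o)) ^ 2
        ∂(nu V) = u j' := by
    intro j j'
    rw [int_mtp_back hs act_mp (iΦ j') ia ib j o, ← int_mtp_back hs act_mp (iΦ j') ia ib j' o]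
    simp only [walk_back ((S.c.proper _).inv _) ((S.c.proper _).inv _)]
    rfl
  have bH := S.if_H.bm o
  have bW : ∀ j j', BM fun x => S.H x (walk (S.c.σ x S.a) (S.c.σ x S.b) j'
      (back (S.c.σ x S.a) (S.c.σ x S.b) j o)) := fun j j' =>
    (S.if_H.comp ((ia.toEM.walk ib.toEM j').comp (ia.toEM.back ib.toEM j))).bm o
  have hpair : ∀ j j', ∫ x, ind (S.Sr x (back (S.c.σ x S.a) (S.c.σ x S.b) j o)) * (S.H x o *
      S.H x (walk (S.c.σ x S.a) (S.c.σ x S.b) j' (back (S.c.σ x S.a) (S.c.σ x S.b) j o)))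
        ∂(nu V) ≤ (u j + u j') / 2 := by
    intro j j'
    rw [← hu j j', ← int_add (((iS j).bm o).mul bH.sq) (((iS j).bm o).mul (bW j j').sq),
      ← integral_div]
    refine int_mono (((iS j).bm o).mul (bH.mul (bW j j'))) ?_ fun x => ?_
    · simpa only [div_eq_mul_inv] using
        ((((iS j).bm o).mul bH.sq).add (((iS j).bm o).mul (bW j j').sq)).mul (BM.const _)
    · have := ind_nonneg (S.Sr x (back (S.c.σ x S.a) (S.c.σ x S.b) j o))
      nlinarith [mul_nonneg this (sq_nonneg (S.H x o - S.H x (walk (S.c.σ x S.a) (S.c.σ x S.b) j'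
        (back (S.c.σ x S.a) (S.c.σ x S.b) j o))))]
  have hu0 : ∀ j, 0 ≤ u j := fun j => integral_nonneg fun x => mul_nonneg (ind_nonneg _) (sq_nonneg _)
  have hsum : ∑ j ∈ Finset.range (S.L + 1), u j ≤
      2 * hb ^ 2 * ((S.L + 1) * S.s0 o) + 2 * ∫ x, (S.H x o - hb) ^ 2 ∂(nu V) := by
    have e1 : ((S.L : ℝ) + 1) * S.s0 o = ∫ x, ∑ j ∈ Finset.range (S.L + 1),
        ind (S.Sr x (back (S.c.σ x S.a) (S.c.σ x S.b) j o)) ∂(nu V) := by
      rw [int_sum fun j _ => (iS j).bm o, Finset.sum_congr rfl fun j _ =>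
        (Pr_eq ((S.ip_Sr.comp (ia.toEM.back ib.toEM j)).at o)).symm.trans (pr_sr_back hs S o j)]
      simp
    have bS := BM.sum (s := Finset.range (S.L + 1)) fun j _ => (iS j).bm o
    have bV := (bH.sub (BM.const hb)).sq
    rw [← int_sum fun j _ => ((iS j).bm o).mul bH.sq, e1, ← integral_const_mul,
      ← integral_const_mul, ← int_add ((BM.const _).mul bS) ((BM.const _).mul bV)]
    refine int_mono (BM.sum fun j _ => ((iS j).bm o).mul bH.sq)
      (((BM.const _).mul bS).add ((BM.const _).mul bV)) fun x => ?_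
    rw [← Finset.sum_mul]
    have h1 := S.sum_sr' x o
    have h0 : 0 ≤ ∑ j ∈ Finset.range (S.L + 1),
        ind (S.Sr x (back (S.c.σ x S.a) (S.c.σ x S.b) j o)) :=
      Finset.sum_nonneg fun _ _ => ind_nonneg _
    nlinarith [mul_nonneg h0 (sq_nonneg (S.H x o - 2 * hb)),
      mul_nonneg (sub_nonneg.2 h1) (sq_nonneg (S.H x o - hb))]
  have bT : ∀ j j', BM fun x => ind (j ≤ j' + S.W + 1 ∧ j' ≤ j + S.W + 1) * ζ *
      (ind (S.Sr x (back (S.c.σ x S.a) (S.c.σ x S.b) j o)) * (S.H x o *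
        S.H x (walk (S.c.σ x S.a) (S.c.σ x S.b) j' (back (S.c.σ x S.a) (S.c.σ x S.b) j o)))) :=
    fun j j' => (BM.const _).mul (((iS j).bm o).mul (bH.mul (bW j j')))
  have bP : ∀ t, BM fun x => Pr (nu V) (fun y => S.Ar t (x, y) o ∧ S.Bd' (x, y) o) := fun t =>
    BM.Pr (((S.ip_Ar t).and S.ip_Bd').at o) _
  rw [Finset.sum_congr rfl fun t _ => Pr_prod (((S.ip_Ar t).and S.ip_Bd').at o),
    ← int_sum fun t _ => bP t]
  refine (int_mono (BM.sum fun t _ => bP t) (BM.sum fun j _ => BM.sum fun j' _ => bT j j')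
    fun x => pr_conf_pt hG hF h hW x o).trans ?_
  rw [int_sum fun j _ => BM.sum fun j' _ => bT j j',
    Finset.sum_congr rfl fun j _ => int_sum fun j' _ => bT j j']
  simp only [integral_const_mul]
  refine (Finset.sum_le_sum fun j _ => Finset.sum_le_sum fun j' _ =>
    mul_le_mul_of_nonneg_left (hpair j j') (mul_nonneg (ind_nonneg _) hζ0)).trans ?_
  have hA : ∑ j ∈ Finset.range (S.L + 1), ∑ j' ∈ Finset.range (S.L + 1),
      ind (j ≤ j' + S.W + 1 ∧ j' ≤ j + S.W + 1) * u j ≤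
      (2 * S.W + 3) * ∑ j ∈ Finset.range (S.L + 1), u j := by
    rw [Finset.mul_sum]
    refine Finset.sum_le_sum fun j _ => ?_
    rw [← Finset.sum_mul]
    exact mul_le_mul_of_nonneg_right (card_near _ _ _) (hu0 j)
  have hB : ∑ j ∈ Finset.range (S.L + 1), ∑ j' ∈ Finset.range (S.L + 1),
      ind (j ≤ j' + S.W + 1 ∧ j' ≤ j + S.W + 1) * u j' ≤
      (2 * S.W + 3) * ∑ j ∈ Finset.range (S.L + 1), u j := by
    rw [Finset.sum_comm]
    simpa only [and_comm] using hA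
  have e : ∑ j ∈ Finset.range (S.L + 1), ∑ j' ∈ Finset.range (S.L + 1),
      ind (j ≤ j' + S.W + 1 ∧ j' ≤ j + S.W + 1) * ζ * ((u j + u j') / 2) =
      ζ / 2 * (∑ j ∈ Finset.range (S.L + 1), ∑ j' ∈ Finset.range (S.L + 1),
        ind (j ≤ j' + S.W + 1 ∧ j' ≤ j + S.W + 1) * u j +
      ∑ j ∈ Finset.range (S.L + 1), ∑ j' ∈ Finset.range (S.L + 1),
        ind (j ≤ j' + S.W + 1 ∧ j' ≤ j + S.W + 1) * u j') := by
    simp only [← Finset.sum_add_distrib, Finset.mul_sum]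
    exact Finset.sum_congr rfl fun j _ => Finset.sum_congr rfl fun j' _ => by ring
  rw [e]
  have hW0 : (0 : ℝ) ≤ 2 * S.W + 3 := by positivity
  calc _ ≤ ζ / 2 * (2 * ((2 * S.W + 3) * ∑ j ∈ Finset.range (S.L + 1), u j)) :=
        mul_le_mul_of_nonneg_left (by linarith) (by positivity)
    _ = (2 * S.W + 3) * ζ * ∑ j ∈ Finset.range (S.L + 1), u j := by ring
    _ ≤ _ := mul_le_mul_of_nonneg_left hsum (mul_nonneg hW0 hζ0)

/-- The window estimate: a lower bound for the killing rate on a large set. -/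
lemma window_le (hs : HasSwaps G) (hF : FlipStmt G Δ o) (h : S.Num) (n : ℕ)
    (hn : 3 * S.W + 3 + 2 * n ≤ S.L) {hb : ℝ} (hb0 : 0 ≤ hb) :
    S.W / (32 * S.L) * (hb ^ 2 * (n * S.s0 o)) ≤
      2 * hb * ∫ x, S.H x o * Pr (nu V) (fun y => S.Wn (x, y) o) ∂(nu V) +
        S.W / (32 * S.L) * ∫ x, (S.H x o - hb) ^ 2 ∂(nu V) := by
  have ia := S.c.ec.ei S.a
  have ib := S.c.ec.ei S.b
  obtain ⟨ε, hε, hα⟩ : ∃ ε, ε ≤ 1 ∧ ∀ i, alt S.b S.a (2 * i + ε) = S.α := by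
    rcases S.hα with e | e
    · exact ⟨1, le_rfl, fun i => by rw [alt_odd, e]⟩
    · exact ⟨0, Nat.zero_le _, fun i => by rw [add_zero, alt_even, e]⟩
  set κ : ℝ := S.W / (32 * S.L) with hκ
  have hκ0 : 0 ≤ κ := by positivity
  let j : ℕ → ℕ := fun i => 2 * (S.W + 1 + i) + ε
  have iS : ∀ j, IF (G := G) act (fun x v => ind (S.Sr x (back (S.c.σ x S.a) (S.c.σ x S.b) j v))) :=
    fun j => (S.ip_Sr.comp (ia.toEM.back ib.toEM j)).ind
  have e1 : (n : ℝ) * S.s0 o = ∫ x, ∑ i ∈ Finset.range n,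
      ind (S.Sr x (back (S.c.σ x S.a) (S.c.σ x S.b) (j i) o)) ∂(nu V) := by
    rw [int_sum fun i _ => (iS (j i)).bm o, Finset.sum_congr rfl fun i _ =>
      (Pr_eq ((S.ip_Sr.comp (ia.toEM.back ib.toEM (j i))).at o)).symm.trans
        (pr_sr_back hs S o (j i))]
    simp
  have bH := S.if_H.bm o
  have bS := BM.sum (s := Finset.range n) fun i _ => (iS (j i)).bm o
  have bV := (bH.sub (BM.const hb)).sq
  have bK := bH.mul (BM.Pr (S.ip_Wn.at o) (nu V))
  rw [e1, ← integral_const_mul, ← integral_const_mul, ← integral_const_mul, ← integral_const_mul,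
    ← int_add ((BM.const _).mul bK) ((BM.const _).mul bV)]
  refine int_mono ((BM.const _).mul ((BM.const _).mul bS))
    (((BM.const _).mul bK).add ((BM.const _).mul bV)) fun x => ?_
  set vg := ∑ i ∈ Finset.range n, ind (S.Sr x (back (S.c.σ x S.a) (S.c.σ x S.b) (j i) o)) with hvg
  have h1 : vg ≤ 1 := S.sum_sr x o _ j
    (fun i hi => by have := Finset.mem_range.1 hi; simp only [j]; omega)
    fun i _ i' _ e => by simp only [j] at e; omega
  have h0 : 0 ≤ vg := Finset.sum_nonneg fun _ _ => ind_nonneg _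
  have h2 : κ * vg ≤ Pr (nu V) (fun y => S.Wn (x, y) o) := by
    by_cases hex : ∃ i ∈ Finset.range n, S.Sr x (back (S.c.σ x S.a) (S.c.σ x S.b) (j i) o)
    · obtain ⟨i, hi, hsr⟩ := hex
      have := Finset.mem_range.1 hi
      exact (mul_le_of_le_one_right hκ0 h1).trans (pr_Wn hF h x o (j i)
        (by simp only [j]; omega) (by simp only [j]; omega) (hα _) hsr)
    · rw [hvg, Finset.sum_eq_zero fun i hi => ind_neg fun hh => hex ⟨i, hi, hh⟩, mul_zero]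
      exact Pr_nonneg _
  have hH : 0 ≤ S.H x o := occ_nonneg _ _ _
  have h3 := mul_le_mul_of_nonneg_left h2 (mul_nonneg hb0 hH)
  nlinarith [mul_nonneg hκ0 (mul_nonneg h0 (sq_nonneg (S.H x o))),
    mul_nonneg hκ0 (mul_nonneg (sub_nonneg.2 h1) (sq_nonneg (S.H x o - hb)))]

end Setup

end Pool.Agent.MP_93f6c7_pr

end
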