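import Mathlib

section

/-!
# Factor of iid edge colourings of the regular tree: definitions

A (not necessarily complete) proper edge colouring is stored as a family of involutions
`σ p : V → V`, one for each colour `p`: `σ p v` is the other end of the edge of colour `p` at `v`,
and `σ p v = v` when colour `p` is missing at `v` (a hole).
-/

set_option autoImplicit false
open MeasureTheory
open scoped Classical

namespace Pool.Agent.MP_93f6c7_pr

/-- The label space: countably many uniform labels at each vertex. -/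
abbrev Y (V : Type) : Type := V × ℕ → unitInterval

/-- The product measure on the label space. -/
noncomputable def nu (V : Type) : Measure (Y V) :=
  Measure.infinitePi (fun _ : V × ℕ => (volume : Measure unitInterval))

instance nu_prob (V : Type) : IsProbabilityMeasure (nu V) := by
  unfold nu; infer_instance

variable {V : Type}

/-- The action of a graph automorphism on labels. -/
def act {G : SimpleGraph V} (φ : G ≃g G) (y : Y V) : Y V := fun i => y (φ i.1, i.2)

/-- Reindexing of the labels at each vertex. -/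
def reix (j : ℕ → ℕ) (y : Y V) : Y V := fun i => y (i.1, j i.2)

/-- The probability of an event, as a real number. -/
noncomputable def Pr {Z : Type} [MeasurableSpace Z] (μ : Measure Z) (E : Z → Prop) : ℝ :=
  μ.real {z | E z}

/-- Regular tree of degree at least three. -/
structure RT (G : SimpleGraph V) [G.LocallyFinite] (Δ : ℕ) : Prop where
  tree : G.IsTree
  reg : ∀ v, G.degree v = Δ
  three : 3 ≤ Δ

/-- Every edge can be reversed by an automorphism. -/
def HasSwaps (G : SimpleGraph V) : Prop :=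
  ∀ u w, G.Adj u w → ∃ φ : G ≃g G, φ u = w ∧ φ w = u

/-- Spectral gap for bounded equivariant functions of the labels. -/
def HasGap (G : SimpleGraph V) [G.LocallyFinite] (o : V) : Prop :=
  ∀ (H : Y V → V → ℝ) (g : Y V → ℝ) (B : ℝ), (∀ v, Measurable (fun y => H y v)) →
    Measurable g → (∀ y v, |H y v| ≤ B) → (∀ y, |g y| ≤ B) →
    (∀ (φ : G ≃g G) y v, H (act φ y) v = H y (φ v)) →
    ∫ y, (H y o - ∫ x, H x o ∂(nu V)) ^ 2 ∂(nu V) ≤
      6 * ∑ w ∈ G.neighborFinset o, ∫ y, (H y w - g y) ^ 2 ∂(nu V)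

/-- The alternating walk `v, f v, g (f v), ...`. -/
def walk (f g : V → V) : ℕ → V → V
  | 0, v => v
  | n + 1, v => walk g f n (f v)

/-- The first `n` steps of the alternating walk all move. -/
def Free (f g : V → V) : ℕ → V → Prop
  | 0, _ => True
  | n + 1, v => f v ≠ v ∧ Free g f n (f v)

/-- Proper edge colouring of a subset of the edges. -/
structure Proper (G : SimpleGraph V) {Δ : ℕ} (σ : Fin Δ → V → V) : Prop where
  inv : ∀ p, Function.Involutive (σ p)
  adj : ∀ p v, σ p v ≠ v → G.Adj v (σ p v)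
  disj : ∀ p q v, p ≠ q → σ p v ≠ v → σ p v ≠ σ q v

/-- The edge `v w` is uncoloured. -/
def Unc (G : SimpleGraph V) {Δ : ℕ} (σ : Fin Δ → V → V) (v w : V) : Prop :=
  G.Adj v w ∧ ∀ p, σ p v ≠ w

/-- A factor of iid proper colouring of a subset of the edges. -/
structure FC [MeasurableSpace V] (G : SimpleGraph V) (Δ : ℕ) where
  σ : Y V → Fin Δ → V → V
  meas : Measurable σ
  proper : ∀ y, Proper G (σ y)
  eqv : ∀ (φ : G ≃g G) y p v, φ (σ (act φ y) p v) = σ y p (φ v)

variable [MeasurableSpace V] {G : SimpleGraph V} {Δ : ℕ}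

/-- Expected number of holes at the root. -/
noncomputable def FC.hol (c : FC G Δ) (o : V) : ℝ :=
  ∑ p : Fin Δ, Pr (nu V) (fun y => c.σ y p o = o)

/-- `c'` differs from (a reindexed copy of) `c` at the root with probability at most `ε`. -/
def FC.Near (c c' : FC G Δ) (o : V) (ε : ℝ) : Prop :=
  ∃ j : ℕ → ℕ, Function.Injective j ∧
    Pr (nu V) (fun y => ∃ p, c'.σ y p o ≠ c.σ (reix j y) p o) ≤ ε

/-- The root misses `α` and has an uncoloured edge to a vertex missing `β`. -/
noncomputable def FC.Dn (c : FC G Δ) (o : V) (α β : Fin Δ) : ℝ :=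
  Pr (nu V) (fun y => c.σ y α o = o ∧ ∃ u, Unc G (c.σ y) o u ∧ c.σ y β u = u)

/-- As `Dn`, and the `γ α` alternating path from the root has fewer than `l` edges. -/
noncomputable def FC.Sh (c : FC G Δ) (o : V) (α γ β : Fin Δ) (l : ℕ) : ℝ :=
  Pr (nu V) (fun y => c.σ y α o = o ∧ ¬ Free (c.σ y γ) (c.σ y α) l o ∧
    ∃ u, Unc G (c.σ y) o u ∧ c.σ y β u = u)

/-- As `Dn b a`, and the `a b` alternating path from the root has at least `l` edges. -/
noncomputable def FC.Lg (c : FC G Δ) (o : V) (a b : Fin Δ) (l : ℕ) : ℝ :=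
  Pr (nu V) (fun y => c.σ y b o = o ∧ Free (c.σ y a) (c.σ y b) l o ∧
    ∃ u, Unc G (c.σ y) o u ∧ c.σ y a u = u)

/-- The main probabilistic lemma. -/
def RunStmt (G : SimpleGraph V) (Δ : ℕ) (o : V) : Prop :=
  ∀ δ : ℝ, 0 < δ → ∃ κ : ℝ, 0 < κ ∧ ∃ (C : ℝ) (N₀ : ℕ), ∀ N : ℕ, N₀ ≤ N → ∀ e : ℝ, 0 < e →
    e ≤ 1 / (N : ℝ) ^ 8 → ∃ L l : ℕ, (L : ℝ) * e ≤ C / N ∧ (l : ℝ) * e ≤ C / N ∧
      ∀ (c : FC G Δ) (a b γ α β : Fin Δ), a ≠ b → γ ≠ a → γ ≠ b → (α = a ∨ α = b) →
        c.hol o ≤ e → δ * e ≤ c.Lg o a b L → δ * e ≤ c.Dn o α β →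
        ∃ c' : FC G Δ, c.Near c' o (C / N) ∧ c'.hol o ≤ c.hol o + C / N * e ∧
          κ * e ≤ c'.Sh o α γ β l ∧ c.Dn o b a / 2 ≤ c'.Dn o b a

/-- One improvement step. -/
def ImproveStmt (G : SimpleGraph V) (Δ : ℕ) (o : V) : Prop :=
  ∃ κ : ℝ, 0 < κ ∧
    (∀ c : FC G Δ, ∃ c' : FC G Δ, c.Near c' o 1 ∧ c'.hol o ≤ (1 - κ) * c.hol o) ∧
    ∃ (C : ℝ) (N₀ : ℕ), ∀ N : ℕ, N₀ ≤ N → ∀ c : FC G Δ, c.hol o ≤ 1 / (N : ℝ) ^ 9 →
      ∃ c' : FC G Δ, c.Near c' o (C / N) ∧ c'.hol o ≤ (1 - κ) * c.hol o

end Pool.Agent.MP_93f6c7_pr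

end

section

/-! Half trees and non-backtracking sequences in acyclic graphs. -/

set_option autoImplicit false
open scoped Classical

namespace Pool.Agent.MP_93f6c7_pr

variable {V : Type} {G : SimpleGraph V}

/-- `v` is reached from `z` by a walk avoiding `w`. -/
inductive Avoid (G : SimpleGraph V) (w z : V) : V → Prop
  | refl : z ≠ w → Avoid G w z z
  | step {v v' : V} : Avoid G w z v → G.Adj v v' → v' ≠ w → Avoid G w z v'

lemma Avoid.ne {w z v : V} (h : Avoid G w z v) : v ≠ w := by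
  cases h with
  | refl h => exact h
  | step _ _ h => exact h

lemma Avoid.exists_walk {w z v : V} (h : Avoid G w z v) :
    ∃ p : G.Walk z v, w ∉ p.support := by
  induction h with
  | refl h => exact ⟨SimpleGraph.Walk.nil, by simpa using h.symm⟩
  | step _ hadj hne ih =>
    obtain ⟨p, hp⟩ := ih
    refine ⟨p.concat hadj, ?_⟩
    simp [hp, hne.symm]

lemma Avoid.unique (hG : G.IsAcyclic) {w z z' v : V} (h : Avoid G w z v) (h' : Avoid G w z' v)
    (a : G.Adj w z) (a' : G.Adj w z') : z = z' := by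
  by_contra hne
  obtain ⟨p, hp⟩ := h.exists_walk
  obtain ⟨p', hp'⟩ := h'.exists_walk
  have hq : w ∉ (p.append p'.reverse).support := by
    simp [hp, hp']
  let q := (p.append p'.reverse).toPath
  have hq2 : w ∉ q.1.support := fun hh => hq (SimpleGraph.Walk.support_toPath_subset_support _ hh)
  let r : G.Walk z z' := SimpleGraph.Walk.cons a.symm (SimpleGraph.Walk.cons a' SimpleGraph.Walk.nil)
  have hr : r.IsPath := by
    simp [r, SimpleGraph.Walk.isPath_def, a.ne', a'.ne, hne]
  have : q = ⟨r, hr⟩ := (hG.subsingleton_path _ _).elim _ _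
  apply hq2
  rw [this]
  simp [r]

lemma Avoid.nest (hG : G.IsAcyclic) {w z z' v : V} (a : G.Adj w z) (a' : G.Adj z z')
    (hne : z' ≠ w) (h : Avoid G z z' v) : Avoid G w z v := by
  induction h with
  | refl _ => exact (Avoid.refl a.ne').step a' hne
  | step hv hadj hne' ih =>
    refine ih.step hadj ?_
    rintro rfl
    exact hne ((hv.step hadj hne').unique hG (Avoid.refl a.ne) a' a.symm)

lemma nb_avoid (hG : G.IsAcyclic) (s : ℕ → V) (n : ℕ) (h1 : ∀ i < n, G.Adj (s i) (s (i + 1)))
    (h2 : ∀ i, i + 2 ≤ n → s (i + 2) ≠ s i) :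
    ∀ d i, i + 1 + d ≤ n → Avoid G (s i) (s (i + 1)) (s (i + 1 + d)) := by
  intro d
  induction d with
  | zero => intro i hi; exact Avoid.refl (h1 i (by omega)).ne'
  | succ d ih =>
    intro i hi
    have := ih (i + 1) (by omega)
    have e : i + 1 + (d + 1) = i + 1 + 1 + d := by omega
    rw [e]
    exact Avoid.nest hG (h1 i (by omega)) (h1 (i + 1) (by omega)) (h2 i (by omega)) this

lemma nb_ne (hG : G.IsAcyclic) (s : ℕ → V) (n : ℕ) (h1 : ∀ i < n, G.Adj (s i) (s (i + 1)))
    (h2 : ∀ i, i + 2 ≤ n → s (i + 2) ≠ s i) {i j : ℕ} (hij : i < j) (hj : j ≤ n) :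
    s j ≠ s i := by
  have := nb_avoid hG s n h1 h2 (j - i - 1) i (by omega)
  have e : i + 1 + (j - i - 1) = j := by omega
  rw [e] at this
  exact this.ne

/-- The vertices behind the neighbours `z` of `w` with `P z`. -/
def Side (G : SimpleGraph V) (w : V) (P : V → Prop) (v : V) : Prop :=
  ∃ z, G.Adj w z ∧ P z ∧ Avoid G w z v

lemma Side.ne {w v : V} {P : V → Prop} (h : Side G w P v) : v ≠ w := by
  obtain ⟨z, _, _, h⟩ := h
  exact h.ne

lemma Side.base {w z : V} {P : V → Prop} (a : G.Adj w z) (hP : P z) : Side G w P z :=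
  ⟨z, a, hP, Avoid.refl a.ne'⟩

lemma Side.step {w v v' : V} {P : V → Prop} (h : Side G w P v) (a : G.Adj v v') (hne : v' ≠ w) :
    Side G w P v' := by
  obtain ⟨z, h1, h2, h⟩ := h
  exact ⟨z, h1, h2, h.step a hne⟩

lemma Side.disj (hG : G.IsAcyclic) {w v : V} {P Q : V → Prop} (hPQ : ∀ z, P z → ¬ Q z)
    (h : Side G w P v) (h' : Side G w Q v) : False := by
  obtain ⟨z, h1, h2, h⟩ := h
  obtain ⟨z', h1', h2', h'⟩ := h'
  have := h.unique hG h' h1 h1'
  subst this
  exact hPQ _ h2 h2'

/-- If a vertex of a side is adjacent to the centre, it is one of the selected neighbours. -/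
lemma Side.of_adj (hG : G.IsAcyclic) {w v : V} {P : V → Prop} (h : Side G w P v)
    (a : G.Adj w v) : P v := by
  obtain ⟨z, h1, h2, h⟩ := h
  have := h.unique hG (Avoid.refl a.ne') h1 a
  subst this
  exact h2

lemma Side.subset {o z v : V} {P Q : V → Prop} (hz : Side G o P z) (ho : ¬ Side G z Q o)
    (h : Side G z Q v) : Side G o P v := by
  obtain ⟨w, h1, h2, h⟩ := h
  induction h with
  | refl _ =>
    refine hz.step h1 ?_
    rintro rfl
    exact ho (Side.base h1 h2)
  | step hv hadj hne ih =>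
    refine ih.step hadj ?_
    rintro rfl
    exact ho ⟨w, h1, h2, hv.step hadj hne⟩

end Pool.Agent.MP_93f6c7_pr

end

section

set_option autoImplicit false
open SimpleGraph

namespace Pool.Agent.MP_93f6c7_pr

namespace Swap

variable {V : Type} {G : SimpleGraph V}

/-- A map of a tree to itself that is bijective on neighbourhoods is an automorphism. -/
theorem iso_of_local (hG : G.IsTree) (φ : V → V)
    (h : ∀ v, Set.BijOn φ (G.neighborSet v) (G.neighborSet (φ v))) :
    ∃ ψ : G ≃g G, ∀ v, ψ v = φ v := by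
  let f : G →g G := ⟨φ, fun {a b} hab => (h a).mapsTo hab⟩
  have hpath : ∀ (x y : V) (p : G.Walk x y), p.IsPath → (p.map f).IsPath := by
    intro x y p
    induction p with
    | nil => intro _; simp
    | @cons x z y hxz q ih =>
      intro hp
      rw [Walk.cons_isPath_iff] at hp
      rw [Walk.map_cons, Walk.cons_isPath_iff]
      refine ⟨ih hp.1, fun hmem => ?_⟩
      have h1 := hG.isAcyclic.eq_snd_of_adj_start (ih hp.1) (f.map_adj hxz).symm hmem
      cases q with
      | nil =>
        simp only [Walk.map_nil, Walk.support_nil, List.mem_singleton] at hmem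
        exact (f.map_adj hxz).ne hmem
      | @cons _ t _ hzt r =>
        simp only [Walk.map_cons, Walk.snd_cons] at h1
        have : x = t := (h z).injOn hxz.symm hzt h1
        exact hp.2 (by rw [this]; simp)
  have hinj : Function.Injective φ := by
    intro x y hxy
    obtain ⟨p, hp, -⟩ := hG.existsUnique_path x y
    have h1 := hpath x y p hp
    cases p with
    | nil => rfl
    | cons hxz q =>
      exfalso
      rw [Walk.map_cons, Walk.cons_isPath_iff] at h1
      refine h1.2 ?_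
      have e : f x = f y := hxy
      have e2 : ∀ t, t = f y → t ∈ (Walk.map f q).support := by
        rintro t rfl
        exact Walk.end_mem_support _
      exact e2 _ e
  have hsurj : Function.Surjective φ := by
    intro y
    obtain ⟨x0⟩ := hG.connected.nonempty
    have : ∀ (a b : V) (p : G.Walk a b), (∃ x, φ x = a) → ∃ x, φ x = b := by
      intro a b p
      induction p with
      | nil => exact id
      | cons hab q ih =>
        rintro ⟨x, rfl⟩
        obtain ⟨t, -, ht⟩ := (h x).surjOn hab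
        exact ih ⟨t, ht⟩
    obtain ⟨p⟩ := hG.connected.preconnected (φ x0) y
    exact this _ _ p ⟨x0, rfl⟩
  refine ⟨⟨Equiv.ofBijective φ ⟨hinj, hsurj⟩, fun {a b} => ⟨fun hab => ?_, fun hab =>
    (h a).mapsTo hab⟩⟩, fun _ => rfl⟩
  obtain ⟨t, ht, htb⟩ := (h a).surjOn hab
  rw [← hinj htb]
  exact ht

theorem exists_bij [G.LocallyFinite] {Δ : ℕ} (hr : ∀ v, G.degree v = Δ) (v z v' z' : V) :
    ∃ f : V → V, Set.BijOn f (G.neighborSet v) (G.neighborSet v') ∧
      (G.Adj v z → G.Adj v' z' → f z = z') := by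
  classical
  have e : G.neighborSet v ≃ G.neighborSet v' :=
    Fintype.equivOfCardEq (by rw [card_neighborSet_eq_degree, card_neighborSet_eq_degree, hr, hr])
  have key : ∀ e : G.neighborSet v ≃ G.neighborSet v',
      Set.BijOn (fun x => if hx : x ∈ G.neighborSet v then (e ⟨x, hx⟩ : V) else x)
        (G.neighborSet v) (G.neighborSet v') := by
    intro e
    refine ⟨fun x hx => ?_, fun x hx y hy hxy => ?_, fun y hy => ?_⟩
    · simp only [dif_pos hx]; exact (e ⟨x, hx⟩).2
    · simp only [dif_pos hx, dif_pos hy] at hxy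
      exact congrArg Subtype.val (e.injective (Subtype.ext hxy))
    · refine ⟨(e.symm ⟨y, hy⟩).1, (e.symm ⟨y, hy⟩).2, ?_⟩
      simp only [dif_pos (e.symm ⟨y, hy⟩).2, Subtype.coe_eta, Equiv.apply_symm_apply]
  by_cases hz : G.Adj v z ∧ G.Adj v' z'
  · refine ⟨_, key (e.trans (Equiv.swap (e ⟨z, hz.1⟩) ⟨z', hz.2⟩)), fun h1 _ => ?_⟩
    have hm : z ∈ G.neighborSet v := h1
    simp only [dif_pos hm, Equiv.trans_apply, Equiv.swap_apply_left]
  · exact ⟨_, key e, fun h1 h2 => absurd ⟨h1, h2⟩ hz⟩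

/-- The image vertex and the local map, transported along a walk to the root. -/
def tr (B : V → V → V → V → V → V) (u : V) (s : V × (V → V)) :
    {v : V} → G.Walk v u → V × (V → V)
  | _, .nil => s
  | v, @Walk.cons _ _ _ z _ _ p =>
    ((tr B u s p).2 v, B v z ((tr B u s p).2 v) (tr B u s p).1)

end Swap

open Swap in
theorem hasSwaps {V : Type} {G : SimpleGraph V} [G.LocallyFinite] {Δ : ℕ} (h : RT G Δ) :
    HasSwaps G := by
  intro u w huw
  choose B hB1 hB2 using exists_bij (G := G) h.reg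
  choose P hP hPu using fun v => h.tree.existsUnique_path v u
  let s : V × (V → V) := (w, B u w w u)
  have hbij : ∀ (v : V) (p : G.Walk v u),
      Set.BijOn (tr B u s p).2 (G.neighborSet v) (G.neighborSet (tr B u s p).1) := by
    intro v p
    cases p with
    | nil => exact hB1 _ _ _ _
    | cons hvz q => exact hB1 _ _ _ _
  let φ : V → V := fun v => (tr B u s (P v)).1
  have hstep : ∀ (v x : V) (hxv : G.Adj x v), x ∉ (P v).support → P x = Walk.cons hxv (P v) :=
    fun v x hxv hx => (hPu x _ ((Walk.cons_isPath_iff _ _).mpr ⟨hP v, hx⟩)).symm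
  have hloc : ∀ v x, G.Adj v x → φ x = (tr B u s (P v)).2 x := by
    intro v x hvx
    by_cases hx : x ∈ (P v).support
    · have hv : v ∉ (P x).support := by
        intro hv
        have h1 := h.tree.isAcyclic.eq_snd_of_adj_start (hP v) hvx hx
        have h2 : P x = ((P v).tail.copy h1.symm rfl) :=
          (hPu x _ (by simpa using (hP v).tail)).symm
        rw [h2, Walk.support_copy] at hv
        have hn : ¬ (P v).Nil := by
          intro hnil
          have := hnil.eq
          subst this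
          rw [Walk.isPath_iff_eq_nil.mp (hP v)] at hx
          simp only [Walk.support_nil, List.mem_singleton] at hx
          exact hvx.ne hx.symm
        have h3 := (hP v).support_nodup
        rw [← Walk.cons_support_tail hn] at h3
        exact (List.nodup_cons.mp h3).1 hv
      have e := hstep x v hvx hv
      rw [e]
      refine (hB2 _ _ _ _ hvx ?_).symm
      exact ((hbij x (P x)).mapsTo hvx.symm).symm
    · have e := hstep v x hvx.symm hx
      simp only [φ]
      rw [e]
      rfl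
  obtain ⟨ψ, hψ⟩ := iso_of_local h.tree φ fun v =>
    (hbij v (P v)).congr fun x hx => (hloc v x hx).symm
  have hPu0 : P u = Walk.nil := Walk.isPath_iff_eq_nil.mp (hP u)
  refine ⟨ψ, ?_, ?_⟩
  · rw [hψ]; simp only [φ]; rw [hPu0]; rfl
  · rw [hψ, hloc u w huw, hPu0]
    exact hB2 _ _ _ _ huw huw.symm

end Pool.Agent.MP_93f6c7_pr

end

section

set_option autoImplicit false
open MeasureTheory Filter Topology
open scoped Classical

namespace Pool.Agent.MP_93f6c7_pr

namespace Fin'

theorem exists_seq {A : Type} (R : A → A → ℝ → Prop) (h : A → ℝ) (h0 : ∀ c, 0 ≤ h c) (c0 : A)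
    {κ : ℝ} (hκ : 0 < κ) (H1 : ∀ c, ∃ c', R c c' 1 ∧ h c' ≤ (1 - κ) * h c) (C : ℝ) (N₀ : ℕ)
    (H2 : ∀ N : ℕ, N₀ ≤ N → ∀ c, h c ≤ 1 / (N : ℝ) ^ 9 →
      ∃ c', R c c' (C / N) ∧ h c' ≤ (1 - κ) * h c) :
    ∃ (c : ℕ → A) (ε : ℕ → ℝ), Summable ε ∧ Summable (fun n => h (c n)) ∧
      ∀ n, R (c n) (c (n + 1)) (ε n) := by
  set θ : ℝ := 1 - min κ (1 / 2) with hθ
  have hθ0 : 0 < θ := by have := min_le_right κ (1 / 2); linarith
  have hθ1 : θ < 1 := by have := lt_min hκ (by norm_num : (0 : ℝ) < 1 / 2); linarith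
  have hθκ : 1 - κ ≤ θ := by have := min_le_left κ (1 / 2); linarith
  have ht : Tendsto (fun n : ℕ => h c0 / θ * (((n + 1 : ℕ) : ℝ) ^ 18 * θ ^ (n + 1))) atTop
      (𝓝 (h c0 / θ * 0)) :=
    ((tendsto_pow_const_mul_const_pow_of_abs_lt_one 18 (r := θ)
      (abs_lt.2 ⟨by linarith, hθ1⟩)).comp (tendsto_add_atTop_nat 1)).const_mul _
  rw [mul_zero] at ht
  obtain ⟨n0, hn0⟩ := eventually_atTop.1
    ((ht.eventually (gt_mem_nhds one_pos)).and (eventually_ge_atTop N₀))
  set ε : ℕ → ℝ := fun n => if n < n0 then 1 else C / (((n + 1) ^ 2 : ℕ) : ℝ) with hε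
  have step : ∀ (n : ℕ) (c : A), h c ≤ h c0 * θ ^ n →
      ∃ c', R c c' (ε n) ∧ h c' ≤ h c0 * θ ^ (n + 1) := by
    intro n c hc
    have key : ∀ c', h c' ≤ (1 - κ) * h c → h c' ≤ h c0 * θ ^ (n + 1) := fun c' hc' => by
      have e1 : (1 - κ) * h c ≤ θ * h c := mul_le_mul_of_nonneg_right hθκ (h0 c)
      have e2 : θ * h c ≤ θ * (h c0 * θ ^ n) := mul_le_mul_of_nonneg_left hc hθ0.le
      rw [pow_succ]; linarith
    by_cases hn : n < n0
    · obtain ⟨c', h1, h2⟩ := H1 c
      exact ⟨c', by simpa [hε, hn] using h1, key c' h2⟩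
    · obtain ⟨h3, h4⟩ := hn0 n (not_lt.1 hn)
      obtain ⟨c', h1, h2⟩ := H2 ((n + 1) ^ 2) (by nlinarith) c (by
        refine hc.trans ?_
        rw [le_div_iff₀ (by positivity)]
        refine le_trans (le_of_eq ?_) h3.le
        push_cast
        field_simp
        ring)
      exact ⟨c', by simpa only [hε, hn, if_false] using h1, key c' h2⟩
  choose f hf1 hf2 using step
  let u : (n : ℕ) → {c : A // h c ≤ h c0 * θ ^ n} := fun n =>
    Nat.rec ⟨c0, by simp⟩ (fun n c => ⟨f n c.1 c.2, hf2 n c.1 c.2⟩) n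
  refine ⟨fun n => (u n).1, ε, ?_, ?_, fun n => hf1 n (u n).1 (u n).2⟩
  · rw [← summable_nat_add_iff n0]
    have : Summable fun n : ℕ => C * (1 / ((n + (n0 + 1) : ℕ) : ℝ) ^ 2) :=
      ((summable_nat_add_iff (n0 + 1)).2 (Real.summable_one_div_nat_pow.2 one_lt_two)).mul_left C
    refine this.congr fun n => ?_
    simp only [hε, not_lt.2 (Nat.le_add_left n0 n), if_false]
    push_cast
    ring
  · exact Summable.of_nonneg_of_le (fun n => h0 _) (fun n => (u n).2)
      ((summable_geometric_of_lt_one hθ0.le hθ1).mul_left _)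

theorem exists_J (j : ℕ → ℕ → ℕ) (hj : ∀ n, Function.Injective (j n)) :
    ∃ J : ℕ → ℕ → ℕ × ℕ, (∀ n, Function.Injective (J n)) ∧ ∀ n m, J (n + 1) (j n m) = J n m := by
  let J : ℕ → ℕ → ℕ × ℕ := fun n => Nat.rec (fun m => (0, m))
    (fun n J => Function.extend (j n) J fun m => (n + 1, m)) n
  have hJ : ∀ n, J (n + 1) = Function.extend (j n) (J n) fun m => (n + 1, m) := fun n => rfl
  have key : ∀ n, Function.Injective (J n) ∧ ∀ m, (J n m).1 ≤ n := by
    intro n
    induction n with
    | zero => exact ⟨fun a b hab => (Prod.ext_iff.1 hab).2, fun m => le_rfl⟩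
    | succ n ih =>
      have hv : ∀ m, (∃ m', j n m' = m ∧ J (n + 1) m = J n m') ∨ J (n + 1) m = (n + 1, m) := by
        intro m
        by_cases hm : ∃ m', j n m' = m
        · obtain ⟨m', rfl⟩ := hm
          exact Or.inl ⟨m', rfl, by rw [hJ, (hj n).extend_apply]⟩
        · exact Or.inr (by rw [hJ, Function.extend_apply' _ _ _ hm])
      constructor
      · intro a b hab
        rcases hv a with ⟨a', rfl, ha⟩ | ha <;> rcases hv b with ⟨b', rfl, hb⟩ | hb <;>
          rw [ha, hb] at hab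
        · rw [ih.1 hab]
        · have := ih.2 a'; rw [hab] at this; simp at this
        · have := ih.2 b'; rw [← hab] at this; simp at this
        · exact (Prod.ext_iff.1 hab).2
      · intro m
        rcases hv m with ⟨m', -, ha⟩ | ha <;> rw [ha]
        exact (ih.2 m').trans (Nat.le_succ n)
  exact ⟨J, fun n => (key n).1, fun n m => by rw [hJ, (hj n).extend_apply]⟩

/-- The product measure on single labels. -/
noncomputable def mu (V : Type) : Measure (V → unitInterval) :=
  Measure.infinitePi (fun _ : V => (volume : Measure unitInterval))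

theorem mp_r (V : Type) {g : unitInterval → ℕ × ℕ → unitInterval} (hg : Measurable g)
    (hg' : volume.map g = Measure.infinitePi fun _ : ℕ × ℕ => (volume : Measure unitInterval))
    {J : ℕ → ℕ × ℕ} (hJ : Function.Injective J) :
    MeasurePreserving (fun (x : V → unitInterval) (i : V × ℕ) => g (x i.1) (J i.2)) (mu V)
      (nu V) := by
  have h1 : MeasurePreserving (fun (x : V → unitInterval) (v : V) => g (x v)) (mu V)
      (Measure.infinitePi fun _ : V =>
        Measure.infinitePi fun _ : ℕ × ℕ => (volume : Measure unitInterval)) :=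
    ⟨by fun_prop, by
      rw [mu, Measure.infinitePi_map_pi (f := fun _ : V => g) _ fun _ => hg]
      simp only [hg']⟩
  have h2 : MeasurePreserving (MeasurableEquiv.curry V (ℕ × ℕ) unitInterval).symm
      (Measure.infinitePi fun _ : V =>
        Measure.infinitePi fun _ : ℕ × ℕ => (volume : Measure unitInterval))
      (Measure.infinitePi fun _ : V × (ℕ × ℕ) => (volume : Measure unitInterval)) :=
    ⟨by fun_prop, Measure.infinitePi_map_curry_symm fun _ _ => volume⟩
  have h3 : MeasurePreserving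
      (fun (z : V × (ℕ × ℕ) → unitInterval) (i : V × ℕ) => z (i.1, J i.2))
      (Measure.infinitePi fun _ : V × (ℕ × ℕ) => (volume : Measure unitInterval)) (nu V) :=
    ⟨by fun_prop, Measure.map_infinitePi_infinitePi_of_inj (f := fun i : V × ℕ => (i.1, J i.2))
      fun a b hab => Prod.ext (Prod.ext_iff.1 hab).1 (hJ (Prod.ext_iff.1 hab).2)⟩
  exact (h3.comp h2).comp h1

theorem mp_perm {V : Type} {φ : V → V} (hφ : Function.Injective φ) :
    MeasurePreserving (fun (x : V → unitInterval) (i : V) => x (φ i)) (mu V) (mu V) :=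
  ⟨by fun_prop, Measure.map_infinitePi_infinitePi_of_inj hφ⟩

theorem ae_eventually_not {Z W : Type} [MeasurableSpace Z] [MeasurableSpace W] {μ : Measure Z}
    {ν : Measure W} [IsFiniteMeasure ν] {r : ℕ → Z → W} (hr : ∀ n, MeasurePreserving (r n) μ ν)
    (E : ℕ → W → Prop) {ε : ℕ → ℝ} (hε : Summable ε) (hE : ∀ n, Pr ν (E n) ≤ ε n) :
    ∀ᵐ x ∂μ, ∀ᶠ n in atTop, ¬ E n (r n x) := by
  refine ae_eventually_notMem (s := fun n => r n ⁻¹' {y | E n y}) (ne_top_of_le_ne_top
    (b := ∑' n, ENNReal.ofReal (ε n)) ?_ (ENNReal.tsum_le_tsum fun n => ?_))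
  · rw [← ENNReal.ofReal_tsum_of_nonneg (fun n => le_trans measureReal_nonneg (hE n)) hε]
    exact ENNReal.ofReal_ne_top
  · refine ((hr n).measure_preimage_le _).trans ?_
    rw [← ofReal_measureReal (measure_ne_top ν _)]
    exact ENNReal.ofReal_le_ofReal (hE n)

theorem exists_iso {V : Type} {G : SimpleGraph V} (hs : HasSwaps G) {u v : V} (w : G.Walk u v) :
    ∃ φ : G ≃g G, φ u = v := by
  induction w with
  | nil => exact ⟨SimpleGraph.Iso.refl, rfl⟩
  | cons h p ih =>
    obtain ⟨φ, hφ⟩ := ih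
    obtain ⟨ψ, hψ, -⟩ := hs _ _ h
    exact ⟨ψ.trans φ, by simp [hψ, hφ]⟩

theorem countable_of_connected {V : Type} {G : SimpleGraph V} [G.LocallyFinite]
    (hc : G.Connected) : Countable V := by
  obtain ⟨o⟩ := hc.nonempty
  have hB : ∀ (n : ℕ) (u : V), {v | ∃ w : G.Walk u v, w.length = n}.Countable := by
    intro n
    induction n with
    | zero =>
      intro u
      refine (Set.countable_singleton u).mono ?_
      rintro v ⟨w, hw⟩
      exact (SimpleGraph.Walk.eq_of_length_eq_zero hw).symm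
    | succ n ih =>
      intro u
      refine ((G.neighborSet u).toFinite.countable.biUnion fun v _ => ih v).mono ?_
      rintro v ⟨w, hw⟩
      cases w with
      | nil => simp at hw
      | cons h p => exact Set.mem_biUnion h ⟨p, by simpa using hw⟩
  rw [← Set.countable_univ_iff]
  refine (Set.countable_iUnion fun n => hB n o).mono fun v _ => ?_
  obtain ⟨w⟩ := hc o v
  exact Set.mem_iUnion.2 ⟨_, w, rfl⟩

/-- A chosen element satisfying a predicate, if there is one. -/
noncomputable def pick {B : Type} (b : B) (P : B → Prop) : B := if h : ∃ p, P p then h.choose else b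

theorem pick_spec {B : Type} (b : B) {P : B → Prop} (h : ∃ p, P p) : P (pick b P) := by
  rw [pick, dif_pos h]; exact h.choose_spec

section Limit

variable {V : Type} {G : SimpleGraph V} {Δ : ℕ}

/-- Colour `p` is eventually on the pair `e`. -/
def Q (t : ℕ → Fin Δ → V → V) (e : Sym2 V) (p : Fin Δ) : Prop :=
  ∃ u v, e = s(u, v) ∧ ∃ N, ∀ n, N ≤ n → t n p u = v

/-- The table at `v` stabilises and has no hole. -/
def GoodAt (t : ℕ → Fin Δ → V → V) (v : V) : Prop :=
  (∀ᶠ n in atTop, ¬ ∃ p, t (n + 1) p v ≠ t n p v) ∧ ∀ᶠ n in atTop, ¬ ∃ p, t n p v = v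

theorem Q_map (φ : G ≃g G) {t t' : ℕ → Fin Δ → V → V} (h : ∀ n p v, φ (t' n p v) = t n p (φ v))
    (e : Sym2 V) : Q t' e = Q t (Sym2.map φ e) := by
  funext p
  apply propext
  constructor
  · rintro ⟨u, v, rfl, N, hN⟩
    exact ⟨φ u, φ v, by simp, N, fun n hn => by rw [← h, hN n hn]⟩
  · rintro ⟨u, v, he, N, hN⟩
    refine ⟨φ.symm u, φ.symm v, ?_, N, fun n hn => ?_⟩
    · have : Sym2.map φ.symm (Sym2.map φ e) = e := by
        rw [Sym2.map_map]; simp
      rw [← this, he]; simp
    · apply φ.injective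
      rw [h]; simpa using hN n hn

theorem GoodAt.map (φ : G ≃g G) {t t' : ℕ → Fin Δ → V → V}
    (h : ∀ n p v, φ (t' n p v) = t n p (φ v)) {v : V} (hv : GoodAt t' v) : GoodAt t (φ v) := by
  constructor
  · filter_upwards [hv.1] with n hn
    rintro ⟨p, hp⟩
    exact hn ⟨p, fun e => hp (by rw [← h, ← h, e])⟩
  · filter_upwards [hv.2] with n hn
    rintro ⟨p, hp⟩
    exact hn ⟨p, φ.injective (by rw [h]; exact hp)⟩

theorem Q.ev {t : ℕ → Fin Δ → V → V} (ht : ∀ n, Proper G (t n)) {u v : V} {p : Fin Δ}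
    (h : Q t s(u, v) p) : ∀ᶠ n in atTop, t n p u = v := by
  obtain ⟨a, b, he, N, hN⟩ := h
  filter_upwards [eventually_ge_atTop N] with n hn
  rcases Sym2.eq_iff.1 he with ⟨rfl, rfl⟩ | ⟨rfl, rfl⟩
  · exact hN n hn
  · rw [← hN n hn]; exact (ht n).inv p _

theorem GoodAt.exists_Q [G.LocallyFinite] {t : ℕ → Fin Δ → V → V} (ht : ∀ n, Proper G (t n))
    {u v : V} (hd : G.degree u = Δ) (hu : GoodAt t u) (huv : G.Adj u v) : ∃ p, Q t s(u, v) p := by
  obtain ⟨N, hN⟩ := eventually_atTop.1 (hu.1.and hu.2)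
  have h1 : ∀ n, N ≤ n → ∀ p, t n p u = t N p u := by
    intro n hn
    induction n, hn using Nat.le_induction with
    | base => exact fun _ => rfl
    | succ n hn ih =>
      intro p
      rw [← ih p]
      by_contra hc
      exact (hN n hn).1 ⟨p, hc⟩
  have h2 : ∀ p, t N p u ≠ u := fun p hp => (hN N le_rfl).2 ⟨p, hp⟩
  let f : Fin Δ → G.neighborSet u := fun p => ⟨t N p u, (ht N).adj p u (h2 p)⟩
  have hf : Function.Injective f := fun p q hpq => by
    by_contra hc
    exact (ht N).disj p q u hc (h2 p) (congrArg Subtype.val hpq)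
  have hb : Function.Bijective f := (Fintype.bijective_iff_injective_and_card f).2
    ⟨hf, by rw [Fintype.card_fin, SimpleGraph.card_neighborSet_eq_degree, hd]⟩
  obtain ⟨p, hp⟩ := hb.2 ⟨v, huv⟩
  exact ⟨p, u, v, rfl, N, fun n hn => (h1 n hn p).trans (congrArg Subtype.val hp)⟩

end Limit

theorem hol_nonneg {V : Type} [MeasurableSpace V] {G : SimpleGraph V} {Δ : ℕ} (c : FC G Δ)
    (o : V) : 0 ≤ c.hol o := Finset.sum_nonneg fun _ _ => measureReal_nonneg

theorem Pr_hole_le {V : Type} [MeasurableSpace V] {G : SimpleGraph V} {Δ : ℕ} (c : FC G Δ)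
    (o : V) : Pr (nu V) (fun y => ∃ p, c.σ y p o = o) ≤ c.hol o := by
  have : {y | ∃ p, c.σ y p o = o} = ⋃ p, {y | c.σ y p o = o} := by ext y; simp
  rw [Pr, this]
  exact measureReal_iUnion_fintype_le _

/-- The empty colouring. -/
def empty {V : Type} [MeasurableSpace V] (G : SimpleGraph V) (Δ : ℕ) : FC G Δ where
  σ := fun _ _ v => v
  meas := measurable_const
  proper := fun _ => ⟨fun _ _ => rfl, fun _ _ h => (h rfl).elim, fun _ _ _ _ h => (h rfl).elim⟩
  eqv := fun _ _ _ _ => rfl

theorem main {V : Type} [MeasurableSpace V] [DiscreteMeasurableSpace V] [Countable V]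
    {G : SimpleGraph V} [G.LocallyFinite] {Δ : ℕ} (hG : RT G Δ) (hs : HasSwaps G) (o : V)
    (hI : ImproveStmt G Δ o) :
    ∃ F : (V → unitInterval) → (Sym2 V → Fin Δ),
      Measurable F ∧
      (∀ (φ : G ≃g G) (x : V → unitInterval) (e : Sym2 V),
        F (fun i : V => x (φ i)) e = F x (Sym2.map φ e)) ∧
      ∀ᵐ x ∂(mu V), ∀ u v w : V, G.Adj u v → G.Adj u w → v ≠ w → F x s(u, v) ≠ F x s(u, w) := by
  obtain ⟨κ, hκ, H1, C, N₀, H2⟩ := hI
  obtain ⟨c, ε, hε, hh, hc⟩ := exists_seq (fun (c c' : FC G Δ) ε => c.Near c' o ε)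
    (fun c => c.hol o) (fun c => hol_nonneg c o) (empty G Δ) hκ H1 C N₀ H2
  choose j hj hj' using hc
  obtain ⟨J, hJ, hJj⟩ := exists_J j hj
  obtain ⟨g, hg, hg'⟩ := Measure.exists_measurable_map_eq
    (Measure.infinitePi fun _ : ℕ × ℕ => (volume : Measure unitInterval))
  let r : ℕ → (V → unitInterval) → Y V := fun n x i => g (x i.1) (J n i.2)
  have hr : ∀ n, MeasurePreserving (r n) (mu V) (nu V) := fun n => mp_r V hg hg' (hJ n)
  have hre : ∀ n x, reix (j n) (r (n + 1) x) = r n x := fun n x => by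
    funext i
    simp only [reix, r, hJj]
  let t : (V → unitInterval) → ℕ → Fin Δ → V → V := fun x n => (c n).σ (r n x)
  have hte : ∀ (φ : G ≃g G) (x : V → unitInterval) n p v,
      φ (t (fun i => x (φ i)) n p v) = t x n p (φ v) := fun φ x n p v =>
    (c n).eqv φ (r n x) p v
  have htp : ∀ x n, Proper G (t x n) := fun x n => (c n).proper _
  have htm : ∀ n p u, Measurable fun x => t x n p u := fun n p u =>
    (measurable_pi_apply u).comp ((measurable_pi_apply p).comp
      ((c n).meas.comp (hr n).measurable))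
  have go : ∀ᵐ x ∂(mu V), GoodAt (t x) o := by
    have h1 := ae_eventually_not (fun n => hr (n + 1))
      (fun n y => ∃ p, (c (n + 1)).σ y p o ≠ (c n).σ (reix (j n) y) p o) hε hj'
    have h2 := ae_eventually_not hr (fun n y => ∃ p, (c n).σ y p o = o) hh
      fun n => Pr_hole_le (c n) o
    filter_upwards [h1, h2] with x hx1 hx2
    refine ⟨?_, hx2⟩
    simpa only [hre] using hx1
  have ga : ∀ᵐ x ∂(mu V), ∀ v, GoodAt (t x) v := by
    rw [ae_all_iff]
    intro v
    obtain ⟨w⟩ := hG.tree.connected o v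
    obtain ⟨φ, rfl⟩ := exists_iso hs w
    filter_upwards [(mp_perm (φ := φ) φ.injective).quasiMeasurePreserving.ae go] with x hx
    exact hx.map φ (hte φ x)
  let b : Fin Δ := ⟨0, by have := hG.three; omega⟩
  refine ⟨fun x e => pick b (Q (t x) e), ?_, fun φ x e => ?_, ?_⟩
  · refine measurable_pi_lambda _ fun e => ?_
    refine (Measurable.of_discrete (f := pick b)).comp (measurable_pi_lambda _ fun p => ?_)
    exact Measurable.exists fun u => Measurable.exists fun v => measurable_const.and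
      (Measurable.exists fun N => Measurable.forall fun n => measurable_const.imp
        ((htm n p u).eq_const v))
  · exact congrArg (pick b) (Q_map φ (hte φ x) e)
  · filter_upwards [ga] with x hx u v w huv huw hvw he
    have h1 := pick_spec b ((hx u).exists_Q (htp x) (hG.reg u) huv)
    have h2 := pick_spec b ((hx u).exists_Q (htp x) (hG.reg u) huw)
    rw [← he] at h2
    obtain ⟨n, hn1, hn2⟩ := ((h1.ev (htp x)).and (h2.ev (htp x))).exists
    exact hvw (hn1.symm.trans hn2)

end Fin'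

theorem final_of_improve
    (H : ∀ (V : Type) [MeasurableSpace V] [DiscreteMeasurableSpace V] [Countable V]
      (G : SimpleGraph V) [G.LocallyFinite] (Δ : ℕ), RT G Δ →
        HasSwaps G ∧ ∀ o : V, ImproveStmt G Δ o) :
    ∀ (Δ : ℕ), 3 ≤ Δ → ∀ (V : Type) (G : SimpleGraph V), G.IsTree →
      (∀ v : V, (G.neighborSet v).ncard = Δ) →
      ∃ F : (V → unitInterval) → (Sym2 V → Fin Δ),
        Measurable F ∧
        (∀ (φ : G ≃g G) (x : V → unitInterval) (e : Sym2 V),
          F (fun i : V => x ((⇑φ) i)) e = F x (Sym2.map (⇑φ) e)) ∧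
        ∀ᵐ x ∂(Measure.infinitePi (fun _ : V => (volume : Measure unitInterval))),
          ∀ u v w : V, G.Adj u v → G.Adj u w → v ≠ w →
            F x s(u, v) ≠ F x s(u, w) := by
  intro Δ hΔ V G hT hd
  letI : G.LocallyFinite := fun v =>
    (Set.finite_of_ncard_ne_zero (by rw [hd v]; omega)).fintype
  letI : MeasurableSpace V := ⊤
  haveI : DiscreteMeasurableSpace V := ⟨fun _ => trivial⟩
  haveI : Countable V := Fin'.countable_of_connected hT.connected
  have hG : RT G Δ := ⟨hT, fun v => by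
    rw [← hd v, ← SimpleGraph.card_neighborSet_eq_degree, Set.ncard_eq_toFinset_card',
      Set.toFinset_card], hΔ⟩
  obtain ⟨o⟩ := hT.connected.nonempty
  obtain ⟨hs, hI⟩ := H V G Δ hG
  exact Fin'.main hG hs o (hI o)

end Pool.Agent.MP_93f6c7_pr

end
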