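import Mathlib
import Pool.Agent.Mg.S19483.G2d2f3f

section

/-!
# Abstract Efron-Stein decomposition and the Schur test
-/

set_option autoImplicit false
open scoped Classical

namespace Pool.Agent.MP_93f6c7_pr.Gap

open Finset

/-- A commuting family of self-adjoint projections indexed by sets of coordinates. -/
structure Proj (E J : Type) [AddCommGroup E] [Module ℝ E] where
  β : E →ₗ[ℝ] E →ₗ[ℝ] ℝ
  P : Set J → E →ₗ[ℝ] E
  symm : ∀ a b, β a b = β b a
  pos : ∀ a, 0 ≤ β a a
  PP : ∀ T T' a, P T (P T' a) = P (T ∩ T') a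
  adj : ∀ T a b, β (P T a) b = β a (P T b)

variable {E J : Type} [AddCommGroup E] [Module ℝ E] (D : Proj E J)

/-- The bilinear form of the Efron-Stein component. -/
noncomputable def Proj.Q (S : Finset J) (R : Set J) (a b : E) : ℝ :=
  ∑ T ∈ S.powerset, (-1) ^ (S.card + T.card) * D.β (D.P (T ∪ R) a) b

theorem Proj.Q_insert {S : Finset J} {j : J} (hj : j ∉ S) (R : Set J) (a b : E) :
    D.Q (insert j S) R a b = D.Q S (insert j R) a b - D.Q S R a b := by
  simp only [Proj.Q]
  rw [sum_powerset_insert hj, sub_eq_neg_add, ← sum_neg_distrib]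
  congr 1
  · refine sum_congr rfl fun T _ => ?_
    rw [card_insert_of_notMem hj, add_right_comm, pow_succ]; ring
  · refine sum_congr rfl fun T hT => ?_
    have h1 : j ∉ T := fun h => hj (mem_powerset.1 hT h)
    rw [card_insert_of_notMem hj, card_insert_of_notMem h1, coe_insert, Set.insert_union,
      Set.union_insert, show S.card + 1 + (T.card + 1) = S.card + T.card + 2 by ring, pow_add]
    norm_num

theorem Proj.sum_Q (U : Finset J) (R : Set J) (a b : E) :
    ∑ S ∈ U.powerset, D.Q S R a b = D.β (D.P (U ∪ R) a) b := by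
  induction U using Finset.induction_on generalizing R with
  | empty => simp [Proj.Q]
  | insert j U hj ih =>
    rw [sum_powerset_insert hj, sum_congr rfl fun S hS =>
      D.Q_insert (fun h => hj (mem_powerset.1 hS h)) R a b, sum_sub_distrib, ih, ih, coe_insert,
      Set.insert_union, Set.union_insert]
    ring

theorem Proj.P_pos (T : Set J) (a : E) : 0 ≤ D.β (D.P T a) a := by
  have := D.pos (D.P T a)
  rwa [D.adj, D.PP, Set.inter_self, ← D.adj] at this

theorem Proj.P_le (T : Set J) (a : E) : D.β (D.P T a) a ≤ D.β a a := by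
  have := D.pos (a - D.P T a)
  simp only [map_sub, LinearMap.sub_apply] at this
  rw [D.adj T a (D.P T a), D.PP, Set.inter_self, ← D.adj] at this
  linarith

theorem Proj.Q_nonneg (S : Finset J) (R : Set J) (h : ∀ j ∈ S, j ∉ R) (a : E) :
    0 ≤ D.Q S R a a := by
  induction S using Finset.induction_on generalizing R a with
  | empty => simpa [Proj.Q] using D.P_pos R a
  | insert j S hj ih =>
    have h1 := ih (insert j R) (fun i hi hi' => by
      rcases hi' with rfl | hi'
      · exact hj hi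
      · exact h i (mem_insert_of_mem hi) hi') (a - D.P {j}ᶜ a)
    refine h1.trans (le_of_eq ?_)
    rw [D.Q_insert hj]
    simp only [Proj.Q]
    rw [← sum_sub_distrib]
    refine sum_congr rfl fun T hT => ?_
    have h2 : j ∉ T := fun h => hj (mem_powerset.1 hT h)
    have h3 : j ∉ R := h j (mem_insert_self _ _)
    have h4 : ((T : Set J) ∪ insert j R) ∩ {j}ᶜ = (T : Set J) ∪ R := by
      ext i; simp only [Set.mem_inter_iff, Set.mem_union, mem_coe, Set.mem_insert_iff,
        Set.mem_compl_iff, Set.mem_singleton_iff]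
      constructor
      · rintro ⟨h5 | h5 | h5, h6⟩
        exacts [Or.inl h5, absurd h5 h6, Or.inr h5]
      · rintro (h5 | h5)
        · exact ⟨Or.inl h5, fun e => h2 (e ▸ h5)⟩
        · exact ⟨Or.inr (Or.inr h5), fun e => h3 (e ▸ h5)⟩
    simp only [map_sub, LinearMap.sub_apply]
    rw [← D.adj {j}ᶜ, ← D.adj {j}ᶜ, D.PP, D.PP, D.PP, Set.inter_comm {j}ᶜ, h4, Set.inter_comm {j}ᶜ,
      ← h4, Set.inter_assoc, Set.inter_self]
    ring

theorem Proj.Q_expand (S : Finset J) (R : Set J) (a b : E) (x y : ℝ) :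
    D.Q S R (x • a - y • b) (x • a - y • b) =
      x ^ 2 * D.Q S R a a - 2 * x * y * D.Q S R a b + y ^ 2 * D.Q S R b b := by
  simp only [Proj.Q, mul_sum, ← sum_sub_distrib, ← sum_add_distrib]
  refine sum_congr rfl fun T _ => ?_
  simp only [map_sub, map_smul, LinearMap.sub_apply, LinearMap.smul_apply, smul_eq_mul]
  rw [D.symm (D.P _ b) a, ← D.adj]
  ring

theorem Proj.two_Q_le (S : Finset J) (a b : E) {x y : ℝ} (hx : 0 < x) (hxy : 1 ≤ x * y) :
    2 * D.Q S ∅ a b ≤ x * D.Q S ∅ a a + y * D.Q S ∅ b b := by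
  have h1 := D.Q_nonneg S ∅ (by simp) (x • a - (1 : ℝ) • b)
  have h2 := D.Q_nonneg S ∅ (by simp) b
  rw [D.Q_expand] at h1
  refine le_of_mul_le_mul_left ?_ hx
  nlinarith

/-- The proportion of the elements of `S` in `A`. -/
noncomputable def frac (A : Set J) (S : Finset J) : ℝ := (S.filter (· ∈ A)).card / S.card

theorem frac_nonneg (A : Set J) (S : Finset J) : 0 ≤ frac A S := by unfold frac; positivity

theorem frac_le_one (A : Set J) (S : Finset J) : frac A S ≤ 1 :=
  div_le_one_of_le₀ (by exact_mod_cast card_filter_le _ _) (Nat.cast_nonneg _)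

theorem sum_frac_le {W : Type} (N : Finset W) (A : W → Set J)
    (hA : ∀ w ∈ N, ∀ w' ∈ N, ∀ j, j ∈ A w → j ∈ A w' → w = w') (S : Finset J) :
    ∑ w ∈ N, frac (A w) S ≤ 1 := by
  simp only [frac]
  rw [← sum_div]
  refine div_le_one_of_le₀ ?_ (Nat.cast_nonneg _)
  rw [← Nat.cast_sum, ← card_biUnion]
  · exact_mod_cast card_le_card (biUnion_subset.2 fun w _ => filter_subset _ _)
  · intro w hw w' hw' hne
    refine disjoint_left.2 fun j h1 h2 => hne ?_
    exact hA w hw w' hw' j (mem_filter.1 h1).2 (mem_filter.1 h2).2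

theorem frac_map (A : Set J) (σ : J ≃ J) (hσ : ∀ j, σ j ∈ A ↔ j ∉ A) {S : Finset J}
    (hS : S.Nonempty) : frac A (S.map σ.toEmbedding) = 1 - frac A S := by
  have h0 : (0 : ℝ) < S.card := by exact_mod_cast hS.card_pos
  have h1 := card_filter_add_card_filter_not (s := S) (· ∈ A)
  rw [frac, frac, filter_map, card_map, card_map, eq_sub_iff_add_eq, ← add_div,
    div_eq_one_iff_eq h0.ne', ← h1]
  push_cast
  rw [add_comm]
  congr 3
  ext j
  simp [hσ]

theorem Proj.Q_map (σ : J ≃ J) {a f : E}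
    (h : ∀ T : Set J, D.β (D.P T a) a = D.β (D.P (σ '' T) f) f) (S : Finset J) :
    D.Q S ∅ a a = D.Q (S.map σ.toEmbedding) ∅ f f := by
  simp only [Proj.Q, Set.union_empty]
  refine sum_bij (fun T _ => T.map σ.toEmbedding) (fun T hT => ?_) (fun T _ T' _ e => ?_)
    (fun T hT => ?_) fun T _ => ?_
  · exact mem_powerset.2 (map_subset_map.2 (mem_powerset.1 hT))
  · exact map_injective _ e
  · obtain ⟨T', h1, h2⟩ := subset_map_iff.1 (mem_powerset.1 hT)
    exact ⟨T', mem_powerset.2 h1, h2.symm⟩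
  · rw [card_map, card_map, coe_map, h]; rfl

theorem Proj.weighted_le {W : Type} (N : Finset W) (A : W → Set J)
    (hA : ∀ w ∈ N, ∀ w' ∈ N, ∀ j, j ∈ A w → j ∈ A w' → w = w') (U : Finset J) (f : E) :
    ∑ w ∈ N, ∑ S ∈ U.powerset, (2 / 3 + 5 / 6 * frac (A w) S) * D.Q S ∅ f f ≤
      (2 / 3 * N.card + 5 / 6) * D.β f f := by
  rw [sum_comm]
  calc _ ≤ ∑ S ∈ U.powerset, (2 / 3 * N.card + 5 / 6) * D.Q S ∅ f f := by
        refine sum_le_sum fun S _ => ?_
        rw [← sum_mul, sum_add_distrib, ← mul_sum, sum_const, nsmul_eq_mul]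
        refine mul_le_mul_of_nonneg_right ?_ (D.Q_nonneg S ∅ (by simp) f)
        linarith [sum_frac_le N A hA S]
    _ ≤ _ := by
        rw [← mul_sum, D.sum_Q]
        exact mul_le_mul_of_nonneg_left (D.P_le _ f) (by positivity)

theorem Proj.schur {W : Type} (N : Finset W) (A : W → Set J)
    (hA : ∀ w ∈ N, ∀ w' ∈ N, ∀ j, j ∈ A w → j ∈ A w' → w = w') (σ : W → J ≃ J)
    (hσ : ∀ w ∈ N, ∀ j, σ w j ∈ A w ↔ j ∉ A w) (a : W → E) (f g : E)
    (h0 : ∀ w ∈ N, D.P ∅ (a w) = 0)
    (ha : ∀ w ∈ N, ∀ T : Set J, D.β (D.P T (a w)) (a w) = D.β (D.P (σ w '' T) f) f)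
    (U : Finset J) :
    2 * ∑ w ∈ N, D.β (D.P U (a w)) g ≤ (2 / 3 * N.card + 5 / 6) * (D.β f f + D.β g g) := by
  have h1 := D.weighted_le N A hA U g
  have h2 := D.weighted_le N A hA (N.biUnion fun w => U.map (σ w).toEmbedding) f
  rw [mul_add, mul_sum]
  refine le_trans ?_ (add_le_add h2 h1)
  rw [← sum_add_distrib]
  refine sum_le_sum fun w hw => ?_
  have h3 := D.sum_Q U ∅ (a w) g
  rw [Set.union_empty] at h3
  have h4 : ∑ S ∈ U.powerset, (2 / 3 + 5 / 6 * frac (A w) (S.map (σ w).toEmbedding)) *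
      D.Q (S.map (σ w).toEmbedding) ∅ f f ≤
      ∑ S ∈ (N.biUnion fun w => U.map (σ w).toEmbedding).powerset,
        (2 / 3 + 5 / 6 * frac (A w) S) * D.Q S ∅ f f := by
    refine (sum_map U.powerset ⟨fun S : Finset J => S.map (σ w).toEmbedding, map_injective _⟩
      fun S => (2 / 3 + 5 / 6 * frac (A w) S) * D.Q S ∅ f f).symm.trans_le ?_
    refine sum_le_sum_of_subset_of_nonneg (fun S hS => ?_) fun S _ _ =>
      mul_nonneg (by linarith [frac_nonneg (A w) S]) (D.Q_nonneg S ∅ (by simp) f)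
    obtain ⟨S', h5, rfl⟩ := mem_map.1 hS
    exact mem_powerset.2 ((map_subset_map.2 (mem_powerset.1 h5)).trans
      (subset_biUnion_of_mem (fun w => U.map (σ w).toEmbedding) hw))
  rw [← h3, mul_sum]
  refine le_trans ?_ (add_le_add h4 le_rfl)
  rw [← sum_add_distrib]
  refine sum_le_sum fun S _ => ?_
  have h5 := frac_nonneg (A w) S
  have h6 := frac_le_one (A w) S
  rw [← D.Q_map (σ w) (ha w hw)]
  rcases S.eq_empty_or_nonempty with rfl | hS
  · have := D.Q_nonneg ∅ ∅ (by simp) g
    have e : ∀ b, D.Q ∅ ∅ (a w) b = 0 := fun b => by simp [Proj.Q, h0 w hw]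
    rw [e, e, mul_zero, mul_zero, zero_add]
    positivity
  · rw [frac_map _ _ (hσ w hw) hS]
    exact D.two_Q_le S _ _ (by linarith) (by nlinarith)

end Pool.Agent.MP_93f6c7_pr.Gap

end

section

/-!
# Spectral gap for Bernoulli labels on a regular tree
-/

set_option autoImplicit false
open MeasureTheory Filter Topology
open scoped Classical

namespace Pool.Agent.MP_93f6c7_pr

namespace Gap

variable {V : Type}

/-- Bounded measurable functions of the labels. -/
def BM (V : Type) : Submodule ℝ (Y V → ℝ) where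
  carrier := {f | Measurable f ∧ ∃ B, ∀ y, |f y| ≤ B}
  add_mem' := fun {f g} ⟨h1, B, h2⟩ ⟨h3, C, h4⟩ => ⟨h1.add h3, B + C, fun y =>
    (abs_add_le _ _).trans (add_le_add (h2 y) (h4 y))⟩
  zero_mem' := ⟨measurable_const, 0, fun _ => by simp⟩
  smul_mem' := fun c f ⟨h1, B, h2⟩ => ⟨h1.const_mul c, |c| * B, fun y => by
    rw [Pi.smul_apply, smul_eq_mul, abs_mul]
    exact mul_le_mul_of_nonneg_left (h2 y) (abs_nonneg c)⟩

theorem integrable_of_bdd {Z : Type} [MeasurableSpace Z] {μ : Measure Z} [IsFiniteMeasure μ]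
    {f : Z → ℝ} (h : Measurable f) {B : ℝ} (hB : ∀ y, |f y| ≤ B) : Integrable f μ :=
  Integrable.of_bound h.aestronglyMeasurable B (Eventually.of_forall hB)

theorem BM.mul {f g : Y V → ℝ} (hf : f ∈ BM V) (hg : g ∈ BM V) : (fun y => f y * g y) ∈ BM V := by
  obtain ⟨h1, B, h2⟩ := hf
  obtain ⟨h3, C, h4⟩ := hg
  refine ⟨h1.mul h3, B * C, fun y => ?_⟩
  rw [abs_mul]
  exact mul_le_mul (h2 y) (h4 y) (abs_nonneg _) ((abs_nonneg _).trans (h2 y))

theorem BM.int {f : Y V → ℝ} (hf : f ∈ BM V) : Integrable f (nu V) :=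
  let ⟨h1, _, h2⟩ := hf
  integrable_of_bdd h1 h2

/-- Labels from `y` on `T` and from `y'` elsewhere. -/
noncomputable def pw (T : Set (V × ℕ)) (y y' : Y V) : Y V := fun i => if i ∈ T then y i else y' i

theorem pw_pw (T T' : Set (V × ℕ)) (y y' y'' : Y V) :
    pw T' (pw T y y') y'' = pw (T ∩ T') y (pw T' y' y'') := by
  ext i
  by_cases h : i ∈ T <;> by_cases h' : i ∈ T' <;> simp [pw, h, h']

theorem pw_same (T : Set (V × ℕ)) (y y' y'' : Y V) : pw T (pw T y y') y'' = pw T y y'' := by
  ext i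
  by_cases h : i ∈ T <;> simp [pw, h]

theorem pw_empty (y y' : Y V) : pw ∅ y y' = y' := by
  ext i
  simp [pw]

theorem meas_pw (T : Set (V × ℕ)) : Measurable fun z : Y V × Y V => pw T z.1 z.2 := by
  refine measurable_pi_lambda _ fun i => ?_
  by_cases h : i ∈ T <;> simp only [pw, h, if_true, if_false] <;> fun_prop

theorem mp_pw (T : Set (V × ℕ)) :
    MeasurePreserving (fun z : Y V × Y V => pw T z.1 z.2) ((nu V).prod (nu V)) (nu V) := by
  refine ⟨meas_pw T, Measure.eq_infinitePi _ fun s t ht => ?_⟩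
  rw [Measure.map_apply (meas_pw T) (MeasurableSet.pi s.countable_toSet fun i _ => ht i)]
  have : (fun z : Y V × Y V => pw T z.1 z.2) ⁻¹' Set.pi s t =
      Set.pi (s.filter (· ∈ T)) t ×ˢ Set.pi (s.filter (· ∉ T)) t := by
    ext z
    simp only [Set.mem_preimage, Set.mem_pi, Finset.mem_coe, Set.mem_prod, Finset.mem_filter]
    constructor
    · intro h
      exact ⟨fun i hi => by simpa [pw, hi.2] using h i hi.1,
        fun i hi => by simpa [pw, hi.2] using h i hi.1⟩
    · intro h i hi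
      by_cases h1 : i ∈ T
      · simpa [pw, h1] using h.1 i ⟨hi, h1⟩
      · simpa [pw, h1] using h.2 i ⟨hi, h1⟩
  rw [this, Measure.prod_prod, nu, Measure.infinitePi_pi _ fun i _ => ht i,
    Measure.infinitePi_pi _ fun i _ => ht i, Finset.prod_filter_mul_prod_filter_not]

theorem integral_pw (T : Set (V × ℕ)) {f : Y V → ℝ} (hf : f ∈ BM V) :
    ∫ y, ∫ y', f (pw T y y') ∂(nu V) ∂(nu V) = ∫ y, f y ∂(nu V) := by
  obtain ⟨h1, B, h2⟩ := hf
  rw [← integral_prod (fun z : Y V × Y V => f (pw T z.1 z.2))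
    (integrable_of_bdd (h1.comp (meas_pw T)) fun _ => h2 _), ← (mp_pw T).map_eq,
    integral_map (meas_pw T).aemeasurable h1.aestronglyMeasurable, (mp_pw T).map_eq]

theorem BM.comp_pw {f : Y V → ℝ} (hf : f ∈ BM V) (T : Set (V × ℕ)) (y : Y V) :
    (fun y' => f (pw T y y')) ∈ BM V :=
  let ⟨h1, B, h2⟩ := hf
  ⟨h1.comp ((meas_pw T).comp measurable_prodMk_left), B, fun _ => h2 _⟩

theorem abs_P_le {f : Y V → ℝ} {B : ℝ} (h : ∀ y, |f y| ≤ B) (T : Set (V × ℕ)) (y : Y V) :
    |∫ y', f (pw T y y') ∂(nu V)| ≤ B := by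
  simpa using norm_integral_le_of_norm_le_const (μ := nu V)
    (f := fun y' => f (pw T y y')) (C := B) (Eventually.of_forall fun _ => h _)

/-- Averaging over the coordinates outside `T`. -/
noncomputable def PT (T : Set (V × ℕ)) : BM V →ₗ[ℝ] BM V where
  toFun f := ⟨fun y => ∫ y', f.1 (pw T y y') ∂(nu V),
    (StronglyMeasurable.integral_prod_right' (f := fun z : Y V × Y V => f.1 (pw T z.1 z.2))
      (f.2.1.comp (meas_pw T)).stronglyMeasurable).measurable,
    let ⟨B, h⟩ := f.2.2; ⟨B, abs_P_le h T⟩⟩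
  map_add' f g := Subtype.ext (funext fun y => integral_add (BM.int (BM.comp_pw f.2 T y))
    (BM.int (BM.comp_pw g.2 T y)))
  map_smul' c _ := Subtype.ext (funext fun _ => integral_const_mul c _)

theorem PT_apply (T : Set (V × ℕ)) (f : BM V) (y : Y V) :
    (PT T f).1 y = ∫ y', f.1 (pw T y y') ∂(nu V) := rfl

/-- The inner product. -/
noncomputable def ip : BM V →ₗ[ℝ] BM V →ₗ[ℝ] ℝ :=
  LinearMap.mk₂ ℝ (fun f g => ∫ y, f.1 y * g.1 y ∂(nu V))
    (fun f f' g => by
      rw [← integral_add (BM.int (BM.mul f.2 g.2)) (BM.int (BM.mul f'.2 g.2))]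
      simp [add_mul])
    (fun c f g => by simp [mul_assoc, integral_const_mul])
    (fun f g g' => by
      rw [← integral_add (BM.int (BM.mul f.2 g.2)) (BM.int (BM.mul f.2 g'.2))]
      simp [mul_add])
    (fun c f g => by simp [mul_left_comm _ c, integral_const_mul])

theorem ip_apply (f g : BM V) : ip f g = ∫ y, f.1 y * g.1 y ∂(nu V) := rfl

theorem ip_symm (f g : BM V) : ip f g = ip g f := by simp only [ip_apply, mul_comm]

theorem ip_PT (T : Set (V × ℕ)) (f g : BM V) : ip (PT T f) g = ip (PT T f) (PT T g) := by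
  rw [ip_apply, ip_apply, ← integral_pw T (BM.mul (PT T f).2 g.2)]
  refine integral_congr_ae (Eventually.of_forall fun y => ?_)
  simp only [PT_apply, pw_same, integral_const_mul]

/-- The projections. -/
noncomputable def D (V : Type) : Proj (BM V) (V × ℕ) where
  β := ip
  P := PT
  symm := ip_symm
  pos a := integral_nonneg fun _ => mul_self_nonneg _
  PP T T' a := Subtype.ext (funext fun y => by
    simp only [PT_apply]
    rw [← integral_pw T' (BM.comp_pw a.2 (T ∩ T') y)]
    simp only [pw_pw])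
  adj T a b := by rw [ip_PT, ip_symm a, ip_PT T b a, ip_symm]

theorem abs_ip_le {a : BM V} {B : ℝ} (h : ∀ y, |a.1 y| ≤ B) (x : BM V) :
    |ip a x| ≤ B * ∫ y, ‖x.1 y‖ ∂(nu V) := by
  rw [← integral_const_mul, ip_apply, ← Real.norm_eq_abs]
  refine norm_integral_le_of_norm_le ((BM.int x.2).norm.const_mul B)
    (Eventually.of_forall fun y => ?_)
  rw [norm_mul]
  exact mul_le_mul_of_nonneg_right (h y) (norm_nonneg _)

theorem tendsto_ip [Countable V] (a g : BM V) :
    Tendsto (fun U : Finset (V × ℕ) => ip (PT U a) g) atTop (𝓝 (ip a g)) := by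
  obtain ⟨B, hB⟩ := a.2.2
  have hB0 : 0 ≤ B := (abs_nonneg _).trans (hB fun _ => 0)
  have key : ∀ c : BM V, Continuous c.1 →
      Tendsto (fun U : Finset (V × ℕ) => ip a (PT U c)) atTop (𝓝 (ip a c)) := by
    intro c hc
    obtain ⟨C, hC⟩ := c.2.2
    refine tendsto_integral_filter_of_dominated_convergence (fun _ => B * C)
      (Eventually.of_forall fun U => (BM.int (BM.mul a.2 (PT U c).2)).aestronglyMeasurable)
      (Eventually.of_forall fun U => Eventually.of_forall fun y => ?_) (integrable_const _)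
      (Eventually.of_forall fun y => Tendsto.const_mul _ ?_)
    · rw [norm_mul]
      exact mul_le_mul (hB y) (abs_P_le hC _ y) (norm_nonneg _) hB0
    · have h1 := tendsto_integral_filter_of_dominated_convergence (μ := nu V) (l := atTop)
        (F := fun (U : Finset (V × ℕ)) y' => c.1 (pw U y y'))
        (f := fun _ => c.1 y) (fun _ => C)
        (Eventually.of_forall fun U => (BM.int (BM.comp_pw c.2 U y)).aestronglyMeasurable)
        (Eventually.of_forall fun U => Eventually.of_forall fun y' => hC _) (integrable_const _)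
        (Eventually.of_forall fun y' => (hc.tendsto y).comp (tendsto_pi_nhds.2 fun i =>
          tendsto_const_nhds.congr' (by
            filter_upwards [eventually_ge_atTop {i}] with U hU
            have : i ∈ (U : Set (V × ℕ)) := hU (Finset.mem_singleton_self i)
            simp [pw, this])))
      simpa [PT_apply] using h1
  refine Metric.tendsto_nhds.2 fun ε hε => ?_
  obtain ⟨c, hc, -⟩ := (BM.int g.2).exists_boundedContinuous_integral_sub_le
    (ε := ε / (3 * (B + 1))) (by positivity)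
  let c' : BM V := ⟨c, c.continuous.measurable, ‖c‖, fun y => c.norm_coe_le_norm y⟩
  have h1 : B * ∫ y, ‖(g - c').1 y‖ ∂(nu V) ≤ ε / 3 := by
    refine (mul_le_mul_of_nonneg_left hc hB0).trans ?_
    rw [mul_div_assoc', div_le_div_iff₀ (by positivity) (by positivity)]
    nlinarith
  filter_upwards [Metric.tendsto_nhds.1 (key c' c.continuous) (ε / 3) (by positivity)] with U hU
  have h2 := abs_le.1 ((abs_ip_le hB (g - c')).trans h1)
  have h3 := abs_le.1 ((abs_ip_le (a := PT U a) (abs_P_le hB _) (g - c')).trans h1)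
  have h4 : ip (PT U a) c' = ip a (PT U c') := (D V).adj _ _ _
  rw [map_sub] at h2 h3
  rw [Real.dist_eq, abs_lt] at hU ⊢
  constructor <;> linarith [hU.1, hU.2, h2.1, h2.2, h3.1, h3.2]

variable {G : SimpleGraph V}

theorem meas_act (φ : G ≃g G) : Measurable (act φ : Y V → Y V) :=
  measurable_pi_lambda _ fun _ => measurable_pi_apply _

theorem mp_act (φ : G ≃g G) : MeasurePreserving (act φ) (nu V) (nu V) :=
  ⟨meas_act φ, Measure.map_infinitePi_infinitePi_of_inj
    (P := fun _ : V × ℕ => (volume : Measure unitInterval)) (f := fun i : V × ℕ => (φ i.1, i.2))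
    (φ.toEquiv.prodCongr (Equiv.refl ℕ)).injective⟩

theorem integral_act (φ : G ≃g G) {f : Y V → ℝ} (hf : Measurable f) :
    ∫ y, f (act φ y) ∂(nu V) = ∫ y, f y ∂(nu V) := by
  rw [← integral_map (meas_act φ).aemeasurable hf.aestronglyMeasurable, (mp_act φ).map_eq]

theorem ip_act (φ : G ≃g G) {a f : BM V} (h : ∀ y, a.1 y = f.1 (act φ y)) (T : Set (V × ℕ)) :
    ip (PT T a) a = ip (PT ((φ.toEquiv.prodCongr (Equiv.refl ℕ)).symm '' T) f) f := by
  rw [ip_apply, ip_apply, ← integral_act φ (BM.mul (PT _ f).2 f.2).1]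
  congr 1
  ext y
  rw [h, PT_apply, PT_apply, ← integral_act φ (BM.comp_pw f.2 _ (act φ y)).1]
  congr 2
  ext y'
  rw [h, Equiv.image_eq_preimage_symm]
  rfl

theorem dist_iso (hG : G.Connected) (φ : G ≃g G) (u v : V) : G.dist (φ u) (φ v) = G.dist u v := by
  have key : ∀ (ψ : G ≃g G) (u v : V), G.dist (ψ u) (ψ v) ≤ G.dist u v := fun ψ u v => by
    obtain ⟨p, hp⟩ := hG.exists_walk_length_eq_dist u v
    simpa [hp] using SimpleGraph.dist_le (p.map ψ.toHom)
  refine le_antisymm (key φ u v) ?_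
  simpa using key φ.symm (φ u) (φ v)

theorem eq_penultimate (hG : G.IsTree) {v o w : V} {q : G.Walk v o} (hq : q.IsPath)
    (hw : G.Adj o w) (h : G.dist v w < G.dist v o) : w = q.penultimate := by
  obtain ⟨p, hp, hp'⟩ := hG.connected.exists_path_of_dist v w
  refine hG.isAcyclic.eq_penultimate_of_adj_end hq hw
    (hG.isAcyclic.mem_support_of_ne_mem_support_of_adj_of_isPath hq hp hw fun ho => ?_)
  have h1 := SimpleGraph.dist_le (p.takeUntil o ho)
  have h2 := p.length_takeUntil_le_length ho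
  omega

end Gap

open Gap in
theorem hasGap {V : Type} [Countable V] {G : SimpleGraph V} [G.LocallyFinite] {Δ : ℕ}
    (h : RT G Δ) (hs : HasSwaps G) (o : V) : HasGap G o := by
  intro H g B hH hg hHB hgB heq
  set m := ∫ x, H x o ∂(nu V) with hm
  have hb : ∀ x : ℝ, |x| ≤ B → |x - m| ≤ B + |m| := fun x hx =>
    (abs_sub _ _).trans (add_le_add hx le_rfl)
  let a : V → BM V := fun w => ⟨fun y => H y w - m, (hH w).sub_const m, _, fun y => hb _ (hHB y w)⟩
  let g' : BM V := ⟨fun y => g y - m, hg.sub_const m, _, fun y => hb _ (hgB y)⟩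
  have hφ : ∀ w, ∃ φ : G ≃g G, G.Adj o w → φ o = w ∧ φ w = o := fun w => by
    by_cases hw : G.Adj o w
    · exact (hs o w hw).imp fun _ h _ => h
    · exact ⟨SimpleGraph.Iso.refl, fun h => absurd h hw⟩
  choose φ hφ using hφ
  have ha : ∀ w ∈ G.neighborFinset o, ∀ y, (a w).1 y = (a o).1 (act (φ w) y) := fun w hw y => by
    change H y w - m = H (act (φ w) y) o - m
    rw [heq, (hφ w (by simpa using hw)).1]
  have h0 : ∫ y, (a o).1 y ∂(nu V) = 0 := by
    change ∫ y, H y o - m ∂(nu V) = 0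
    rw [integral_sub (integrable_of_bdd (hH o) fun y => hHB y o) (integrable_const _)]
    simp [hm]
  have key := fun U => (D V).schur (G.neighborFinset o)
    (fun w => {j : V × ℕ | G.dist j.1 w < G.dist j.1 o}) (fun w hw w' hw' j h1 h2 => by
      obtain ⟨q, hq, -⟩ := h.tree.connected.exists_path_of_dist j.1 o
      rw [eq_penultimate h.tree hq (by simpa using hw) h1,
        eq_penultimate h.tree hq (by simpa using hw') h2])
    (fun w => ((φ w).toEquiv.prodCongr (Equiv.refl ℕ)).symm) (fun w hw j => by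
      have hw' : G.Adj o w := by simpa using hw
      have h1 := dist_iso h.tree.connected (φ w) ((φ w).symm j.1) w
      have h2 := dist_iso h.tree.connected (φ w) ((φ w).symm j.1) o
      have h3 := h.tree.dist_ne_of_adj j.1 hw'
      rw [RelIso.apply_symm_apply, (hφ w hw').2] at h1
      rw [RelIso.apply_symm_apply, (hφ w hw').1] at h2
      change G.dist ((φ w).symm j.1) w < G.dist ((φ w).symm j.1) o ↔
        ¬ G.dist j.1 w < G.dist j.1 o
      omega) a (a o) g' (fun w hw => Subtype.ext (funext fun y => by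
      change ∫ y', (a w).1 (pw ∅ y y') ∂(nu V) = 0
      simp only [pw_empty, ha w hw]
      rw [integral_act (φ w) (a o).2.1, h0])) (fun w hw T => ip_act (φ w) (ha w hw) T) U
  have lim := le_of_tendsto' ((tendsto_finsetSum (G.neighborFinset o)
    fun w _ => tendsto_ip (a w) g').const_mul 2) key
  rw [SimpleGraph.card_neighborFinset_eq_degree, h.reg] at lim
  have e1 : ∫ y, (H y o - m) ^ 2 ∂(nu V) = ip (a o) (a o) := by simp only [ip_apply, sq, a]
  have e2 : ∀ w ∈ G.neighborFinset o, ∫ y, (H y w - g y) ^ 2 ∂(nu V) =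
      ip (a o) (a o) + ip g' g' - 2 * ip (a w) g' := fun w hw => by
    have e3 : ip (a w) (a w) = ip (a o) (a o) := by
      simp only [ip_apply, ha w hw]
      exact integral_act (φ w) (BM.mul (a o).2 (a o).2).1
    have e4 : ∫ y, (H y w - g y) ^ 2 ∂(nu V) = ip (a w - g') (a w - g') := by
      rw [ip_apply]
      congr 1
      ext y
      change _ = (H y w - m - (g y - m)) * (H y w - m - (g y - m))
      ring
    rw [e4]
    simp only [map_sub, LinearMap.sub_apply]
    rw [e3, ip_symm g' (a w)]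
    ring
  rw [e1, Finset.sum_congr rfl e2, Finset.sum_sub_distrib, Finset.sum_const, ← Finset.mul_sum,
    SimpleGraph.card_neighborFinset_eq_degree, h.reg, nsmul_eq_mul]
  have p1 : 0 ≤ ip (a o) (a o) := (D V).pos _
  have p2 : 0 ≤ ip g' g' := (D V).pos _
  have p3 : (3 : ℝ) ≤ Δ := by exact_mod_cast h.three
  change 2 * ∑ w ∈ G.neighborFinset o, ip (a w) g' ≤
    (2 / 3 * Δ + 5 / 6) * (ip (a o) (a o) + ip g' g') at lim
  nlinarith

end Pool.Agent.MP_93f6c7_pr

end
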