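import Pool.Agent.Mg.S19483.G8ed91f

section

/-! The improvement step from the main probabilistic lemma. -/

set_option autoImplicit false
set_option linter.unusedSectionVars false
set_option linter.unusedVariables false
open MeasureTheory Function
open scoped Classical

namespace Pool.Agent.MP_93f6c7_pr
namespace Imp

variable {V : Type} {G : SimpleGraph V} {Δ : ℕ}
variable [MeasurableSpace V] [DiscreteMeasurableSpace V] [Countable V] [G.LocallyFinite]

lemma exists_third (h : 3 ≤ Δ) (a b : Fin Δ) : ∃ γ : Fin Δ, γ ≠ a ∧ γ ≠ b := by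
  by_contra hn
  push Not at hn
  have hsub : (Finset.univ : Finset (Fin Δ)) ⊆ {a, b} := fun x _ => by
    by_cases hx : x = a
    · simp [hx]
    · simp [hn x hx]
  have h1 := Finset.card_le_card hsub
  have h2 : ({a, b} : Finset (Fin Δ)).card ≤ 2 := Finset.card_le_two
  rw [Finset.card_univ, Fintype.card_fin] at h1
  omega

/-- The unconditional improvement, with no control of the cost. -/
lemma first (h : RT G Δ) (hs : HasSwaps G) (o : V) {δ : ℝ} (hδ : 0 < δ)
    (hδΔ : δ * (Δ : ℝ) ^ 2 = 1 / 2) (c : FC G Δ) :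
    ∃ c' : FC G Δ, c.Near c' o 1 ∧
      c'.hol o ≤ c.hol o - (1 / 2 : ℝ) ^ (2 * Δ) / 16 * (δ * c.hol o) := by
  obtain ⟨a, b, hab⟩ := exists_dn h o c
  have hρ : (0 : ℝ) ≤ (1 / 2 : ℝ) ^ (2 * Δ) := by positivity
  have h0 := c.hol_nonneg o
  have hD0 : 0 ≤ c.Dn o b a := Pr_nonneg _
  have hD : δ * c.hol o ≤ c.Dn o b a / 2 := by
    have := mul_le_mul_of_nonneg_left hab hδ.le
    rw [← mul_assoc, hδΔ] at this
    linarith
  rcases hD0.eq_or_lt with hz | hpos
  · refine ⟨c, near_one (FC.Near.refl c o), ?_⟩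
    have h1 : δ * c.hol o = 0 := le_antisymm (by linarith) (by positivity)
    rw [h1]; linarith
  by_cases e : b = a
  · subst e
    obtain ⟨c1, n1, h1⟩ := M1 h o c b
    refine ⟨c1, near_one n1, h1.trans ?_⟩
    have := mul_le_mul_of_nonneg_left (show δ * c.hol o / 16 ≤ c.Dn o b b by linarith) hρ
    linarith
  · obtain ⟨L, hL⟩ := exists_nat_gt (2 / c.Dn o b a)
    have h1 := lg_le hs o c a b L
    have h2 := dn_split o c a b (2 * L + 1)
    have h3 : c.Lg o a b (2 * L + 1) ≤ c.Dn o b a / 2 := by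
      rw [div_lt_iff₀ hpos] at hL
      by_contra hn
      push Not at hn
      have : ((L : ℝ) + 1) * (c.Dn o b a / 2) ≤ ((L : ℝ) + 1) * c.Lg o a b (2 * L + 1) :=
        mul_le_mul_of_nonneg_left hn.le (by positivity)
      linarith
    obtain ⟨c1, n1, h4⟩ := M3 h hs o c e (2 * L + 1)
    refine ⟨c1, near_one n1, h4.trans ?_⟩
    have := mul_le_mul_of_nonneg_left
      (show δ * c.hol o ≤ c.Sh o b a a (2 * L + 1) by linarith) (show 0 ≤ _ / 16 by positivity :
        (0 : ℝ) ≤ (1 / 2 : ℝ) ^ (2 * Δ) / 16)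
    linarith

/-- The conclusion of the main lemma for fixed parameters, with error `t`. -/
def RunAt (G : SimpleGraph V) (Δ : ℕ) (o : V) (δ κ t e : ℝ) : Prop :=
  ∃ L l : ℕ, (L : ℝ) * e ≤ t ∧ (l : ℝ) * e ≤ t ∧
    ∀ (c : FC G Δ) (a b γ α β : Fin Δ), a ≠ b → γ ≠ a → γ ≠ b → (α = a ∨ α = b) →
      c.hol o ≤ e → δ * e ≤ c.Lg o a b L → δ * e ≤ c.Dn o α β →
      ∃ c' : FC G Δ, c.Near c' o t ∧ c'.hol o ≤ c.hol o + t * e ∧
        κ * e ≤ c'.Sh o α γ β l ∧ c.Dn o b a / 2 ≤ c'.Dn o b a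

lemma RunAt.mono {o : V} {δ κ t t' e : ℝ} (h : RunAt G Δ o δ κ t e) (he : 0 ≤ e) (ht : t ≤ t') :
    RunAt G Δ o δ κ t' e := by
  obtain ⟨L, l, h1, h2, h3⟩ := h
  refine ⟨L, l, h1.trans ht, h2.trans ht, fun c a b γ α β a1 a2 a3 a4 a5 a6 a7 => ?_⟩
  obtain ⟨c', b1, b2, b3, b4⟩ := h3 c a b γ α β a1 a2 a3 a4 a5 a6 a7
  have := mul_le_mul_of_nonneg_right ht he
  exact ⟨c', b1.mono ht, by linarith, b3, b4⟩

lemma cost3 {L : ℕ} {x e t : ℝ} (hx0 : 0 ≤ x) (hx : x ≤ e) (hL : (L : ℝ) * e ≤ t) (he : e ≤ t) :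
    (2 * (L : ℝ) + 3) * x ≤ 5 * t := by
  have := mul_le_mul_of_nonneg_left hx (show (0 : ℝ) ≤ 2 * (L : ℝ) + 3 by positivity)
  linarith

lemma cost2 {L : ℕ} {x e t : ℝ} (hx0 : 0 ≤ x) (hx : x ≤ e) (hL : (L : ℝ) * e ≤ t) (he : e ≤ t) :
    2 * ((L : ℝ) + 1) * x ≤ 4 * t := by
  have := mul_le_mul_of_nonneg_left hx (show (0 : ℝ) ≤ 2 * ((L : ℝ) + 1) by positivity)
  linarith

/-- The cheap improvement. -/
lemma second (h : RT G Δ) (hs : HasSwaps G) (o : V) {δ δ₂ κ₁ κ₂ g t e : ℝ} (hδ : 0 < δ)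
    (hδΔ : δ * (Δ : ℝ) ^ 2 = 1 / 2) (he : 0 < e) (het : e ≤ t) (ht : t ≤ 1 / 4)
    (h21 : δ₂ * (16 * Δ) ≤ κ₁) (h22 : δ₂ ≤ δ / 256) (hg0 : 0 ≤ g) (hg1 : g ≤ δ / 256)
    (hg2 : g ≤ κ₂) (R1 : RunAt G Δ o (δ / 2) κ₁ t e) (R2 : RunAt G Δ o δ₂ κ₂ t e)
    (c : FC G Δ) (hc : e = 2 * c.hol o) :
    ∃ c' : FC G Δ, c.Near c' o (11 * t) ∧
      c'.hol o ≤ c.hol o + 2 * (t * e) - (1 / 2 : ℝ) ^ (2 * Δ) / 16 * (g * e) := by
  obtain ⟨a, b, hab⟩ := exists_dn h o c
  have hρ : (0 : ℝ) ≤ (1 / 2 : ℝ) ^ (2 * Δ) := by positivity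
  have hρ' : (0 : ℝ) ≤ (1 / 2 : ℝ) ^ (2 * Δ) / 16 := by positivity
  have hΔ : (0 : ℝ) < Δ := by have := h.three; positivity
  have h0 := c.hol_nonneg o
  have ht0 : 0 ≤ t := by linarith
  have hte : 0 ≤ t * e := by positivity
  have hte' : t * e ≤ e / 4 := by nlinarith
  have hδe : 0 ≤ δ * e := by positivity
  have hD : δ * e ≤ c.Dn o b a := by
    have := mul_le_mul_of_nonneg_left hab hδ.le
    rw [← mul_assoc, hδΔ] at this
    rw [hc]
    linarith
  have hge : g * e ≤ δ * e / 256 := by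
    have := mul_le_mul_of_nonneg_right hg1 he.le
    linarith
  by_cases hba : b = a
  · subst hba
    obtain ⟨c1, n1, h1⟩ := M1 h o c b
    refine ⟨c1, n1.mono (by linarith), h1.trans ?_⟩
    have := mul_le_mul_of_nonneg_left (show g * e / 16 ≤ c.Dn o b b by linarith) hρ
    linarith
  obtain ⟨L1, l1, a1, a2, R1⟩ := R1
  obtain ⟨L2, l2, b1, b2, R2⟩ := R2
  have hsp := dn_split o c a b L1
  by_cases hS : δ * e / 2 ≤ c.Sh o b a a L1
  · obtain ⟨c1, n1, h1⟩ := M3 h hs o c hba L1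
    have := cost3 h0 (by linarith) a1 het
    refine ⟨c1, n1.mono (by linarith), h1.trans ?_⟩
    have := mul_le_mul_of_nonneg_left (show g * e ≤ c.Sh o b a a L1 by linarith) hρ'
    linarith
  push Not at hS
  obtain ⟨γ, hγa, hγb⟩ := exists_third h.three a b
  obtain ⟨c1, n1, h1, s1, d1⟩ := R1 c a b γ b a (Ne.symm hba) hγa hγb (Or.inr rfl) (by linarith)
    (by linarith) (by linarith)
  have h10 := c1.hol_nonneg o
  obtain ⟨c2, n2, h2, s2, d2⟩ := M2 h hs o c1 hγb.symm a b a l1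
  have h20 := c2.hol_nonneg o
  have k2 := cost2 h10 (by linarith) a2 het
  have hsp2 := dn_split o c2 a b L2
  by_cases hS2 : δ * e / 256 ≤ c2.Sh o b a a L2
  · obtain ⟨c3, n3, h3⟩ := M3 h hs o c2 hba L2
    have := cost3 h20 (by linarith) b1 het
    refine ⟨c3, ((n1.trans n2).trans n3).mono (by linarith), h3.trans ?_⟩
    have := mul_le_mul_of_nonneg_left (show g * e ≤ c2.Sh o b a a L2 by linarith) hρ'
    linarith
  push Not at hS2
  have hδ2 : δ₂ * e ≤ δ * e / 256 := by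
    have := mul_le_mul_of_nonneg_right h22 he.le
    linarith
  have hsym : δ₂ * e ≤ c2.Dn o a γ := by
    have e1 := dn_symm h hs o c2 γ a
    have e2 := mul_le_mul_of_nonneg_right h21 he.le
    refine le_of_mul_le_mul_left ?_ hΔ
    linarith
  obtain ⟨c3, n3, h3, s3, -⟩ := R2 c2 a b γ a γ (Ne.symm hba) hγa hγb (Or.inl rfl) (by linarith)
    (by linarith) hsym
  have h30 := c3.hol_nonneg o
  obtain ⟨c4, n4, h4⟩ := M3 h hs o c3 hγa.symm l2
  have k4 := cost3 h30 (by linarith) b2 het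
  refine ⟨c4, (((n1.trans n2).trans n3).trans n4).mono (by linarith), h4.trans ?_⟩
  have e3 := mul_le_mul_of_nonneg_right hg2 he.le
  have := mul_le_mul_of_nonneg_left (show g * e ≤ c3.Sh o a γ γ l2 by linarith) hρ'
  linarith

end Imp

open _root_.Pool.Agent.MP_93f6c7_pr.Imp in
theorem improve_of_run {V : Type} [MeasurableSpace V] [DiscreteMeasurableSpace V] [Countable V]
    {G : SimpleGraph V} [G.LocallyFinite] {Δ : ℕ} (h : RT G Δ) (hs : HasSwaps G) (o : V)
    (hrun : RunStmt G Δ o) : ImproveStmt G Δ o := by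
  have hΔ : (0 : ℝ) < Δ := by have := h.three; positivity
  obtain ⟨δ, hδ, hδΔ⟩ : ∃ δ : ℝ, 0 < δ ∧ δ * (Δ : ℝ) ^ 2 = 1 / 2 :=
    ⟨1 / (2 * (Δ : ℝ) ^ 2), by positivity, by field_simp⟩
  obtain ⟨κ₁, hκ₁, C₁, N₁, R1⟩ := hrun (δ / 2) (by positivity)
  obtain ⟨δ₂, hδ₂, h21, h22⟩ : ∃ δ₂ : ℝ, 0 < δ₂ ∧ δ₂ * (16 * Δ) ≤ κ₁ ∧ δ₂ ≤ δ / 256 :=
    ⟨min (κ₁ / (16 * Δ)) (δ / 256), by positivity,
      (le_div_iff₀ (by positivity)).1 (min_le_left _ _), min_le_right _ _⟩
  obtain ⟨κ₂, hκ₂, C₂, N₂, R2⟩ := hrun δ₂ hδ₂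
  obtain ⟨g, hg, hg1, hg2⟩ : ∃ g : ℝ, 0 < g ∧ g ≤ δ / 256 ∧ g ≤ κ₂ :=
    ⟨min (δ / 256) κ₂, by positivity, min_le_left _ _, min_le_right _ _⟩
  obtain ⟨ρ, hρ, hρ'⟩ : ∃ ρ : ℝ, 0 < ρ ∧ ρ = (1 / 2 : ℝ) ^ (2 * Δ) / 16 :=
    ⟨_, by positivity, rfl⟩
  refine ⟨ρ * g, by positivity, fun c => ?_, ?_⟩
  · obtain ⟨c', n1, h1⟩ := first h hs o hδ hδΔ c
    refine ⟨c', n1, h1.trans ?_⟩
    rw [← hρ']
    have h0 := c.hol_nonneg o
    have := mul_le_mul_of_nonneg_left (mul_le_mul_of_nonneg_right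
      (show g ≤ δ by linarith) h0) hρ.le
    linarith
  obtain ⟨K, hK1, hK2, hK3⟩ : ∃ K : ℝ, C₁ ≤ K ∧ C₂ ≤ K ∧ 1 ≤ K :=
    ⟨max (max C₁ C₂) 1, (le_max_left _ _).trans (le_max_left _ _),
      (le_max_right _ _).trans (le_max_left _ _), le_max_right _ _⟩
  obtain ⟨N₃, hN₃⟩ := exists_nat_ge (max (4 * K) (4 * K / (ρ * g)))
  refine ⟨11 * K, max (max N₁ N₂) N₃, fun N hN c hc => ?_⟩
  have hN1 : N₁ ≤ N := ((le_max_left _ _).trans (le_max_left _ _)).trans hN
  have hN2 : N₂ ≤ N := ((le_max_right _ _).trans (le_max_left _ _)).trans hN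
  have hN3 : (N₃ : ℝ) ≤ N := by exact_mod_cast (le_max_right _ _).trans hN
  have hNa : 4 * K ≤ N := ((le_max_left _ _).trans hN₃).trans hN3
  have hNb : 4 * K / (ρ * g) ≤ N := ((le_max_right _ _).trans hN₃).trans hN3
  have hN0 : (0 : ℝ) < N := by linarith
  have h0 := c.hol_nonneg o
  rcases h0.eq_or_lt with hz | hpos
  · refine ⟨c, (FC.Near.refl c o).mono (by positivity), ?_⟩
    rw [← hz]; simp
  have he8 : 2 * c.hol o ≤ 1 / (N : ℝ) ^ 8 := by
    have e1 : 2 * (1 / (N : ℝ) ^ 9) ≤ 1 / (N : ℝ) ^ 8 := by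
      rw [mul_one_div, div_le_div_iff₀ (by positivity) (by positivity), pow_succ _ 8]
      have : (0 : ℝ) < (N : ℝ) ^ 8 := by positivity
      nlinarith
    linarith
  have he1 : 2 * c.hol o ≤ K / N := by
    refine he8.trans ?_
    have e1 : (N : ℝ) ≤ (N : ℝ) ^ 8 := le_self_pow₀ (by linarith) (by norm_num)
    exact div_le_div₀ (by linarith) hK3 hN0 e1
  have ht : K / N ≤ 1 / 4 := by
    rw [div_le_iff₀ hN0]; linarith
  have ht2 : K / N ≤ ρ * g / 4 := by
    rw [div_le_iff₀ (by positivity)] at hNb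
    rw [div_le_iff₀ hN0]; linarith
  have R1' : RunAt G Δ o (δ / 2) κ₁ (C₁ / N) (2 * c.hol o) :=
    R1 N hN1 _ (by linarith) he8
  have R2' : RunAt G Δ o δ₂ κ₂ (C₂ / N) (2 * c.hol o) :=
    R2 N hN2 _ (by linarith) he8
  obtain ⟨c', n1, h1⟩ := second h hs o hδ hδΔ (by linarith) he1 ht h21 h22 hg.le hg1 hg2
    (R1'.mono (by linarith) (div_le_div_of_nonneg_right hK1 hN0.le))
    (R2'.mono (by linarith) (div_le_div_of_nonneg_right hK2 hN0.le)) c rfl
  refine ⟨c', n1.mono (le_of_eq (by ring)), h1.trans ?_⟩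
  rw [← hρ']
  have := mul_le_mul_of_nonneg_right ht2 h0
  linarith

end Pool.Agent.MP_93f6c7_pr

end

section

/-! Estimates on a single random flip set. -/

set_option autoImplicit false
set_option linter.unusedSectionVars false
set_option linter.unusedVariables false
open MeasureTheory Function
open scoped Classical

namespace Pool.Agent.MP_93f6c7_pr
namespace RFl

variable {V : Type} {G : SimpleGraph V} {Δ : ℕ}

lemma mk_comm (f g : V → V) (θ q : ℝ) (k : ℕ) (y : Y V) :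
    Mk f g θ q k y = Mk g f θ q k y := by
  funext u
  unfold Mk
  rw [or_comm (a := f u = u)]

lemma rf_comm (f g : V → V) (θ q : ℝ) (R k : ℕ) (y : Y V) :
    RF f g θ q R k y = RF g f θ q R k y := by
  funext v
  unfold RF
  rw [mk_comm f g]
  exact propext ball_comm

lemma rf_congr (f g : V → V) (θ q : ℝ) (R k : ℕ) {y y' : Y V} (h : ∀ v, y (v, k) = y' (v, k)) :
    RF f g θ q R k y = RF f g θ q R k y' := by
  have : Mk f g θ q k y = Mk f g θ q k y' := by
    funext u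
    unfold Mk
    rw [h u]
  unfold RF
  rw [this]

lemma both {f g : V → V} {M : V → Prop} {R i : ℕ} {v : V} (h : Free f g i v) (hi : i ≤ R)
    (hM : M (walk f g i v)) (h1 : 1 ≤ i ∨ f v = v) :
    Ball f g R M v ∧ Ball f g R M (f v) := by
  have h0 : Ball f g R M v := ⟨i, hi, Or.inl ⟨h, hM⟩⟩
  refine ⟨h0, ?_⟩
  rcases h1 with h1 | h1
  · obtain ⟨j, rfl⟩ : ∃ j, i = j + 1 := ⟨i - 1, by omega⟩
    exact ⟨j, by omega, Or.inr ⟨h.2, hM⟩⟩
  · rwa [h1]

lemma exists_stop {f g : V → V} {R : ℕ} {v : V} (h : ¬ Free f g R v) :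
    ∃ i, i < R ∧ Free f g i v ∧ alt f g i (walk f g i v) = walk f g i v := by
  induction R with
  | zero => exact absurd trivial h
  | succ R ih =>
    by_cases h' : Free f g R v
    · refine ⟨R, Nat.lt_succ_self R, h', ?_⟩
      by_contra hn
      exact h ((free_succ' _ _ _ _).2 ⟨h', hn⟩)
    · obtain ⟨i, h1, h2⟩ := ih h'
      exact ⟨i, by omega, h2⟩

lemma pow_le_aux {θ q : ℝ} {R : ℕ} (h0 : 0 ≤ θ) (h1 : θ ≤ 1) (hq : q ≤ 1) (h : θ * R = q) :
    (1 - θ) ^ R ≤ 1 - q / 2 := by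
  have hq0 : 0 ≤ q := by rw [← h]; positivity
  have e1 : 1 + (R : ℝ) * θ ≤ (1 + θ) ^ R := one_add_mul_le_pow (by linarith) R
  have e2 : (1 - θ) ^ R * (1 + θ) ^ R ≤ 1 := by
    rw [← mul_pow]
    exact pow_le_one₀ (by nlinarith) (by nlinarith)
  have e3 : 0 ≤ (1 - θ) ^ R := pow_nonneg (by linarith) R
  have e4 : (1 - θ) ^ R * (1 + q) ≤ 1 := by
    refine le_trans (mul_le_mul_of_nonneg_left ?_ e3) e2
    linarith
  by_contra hn
  push Not at hn
  nlinarith

lemma pow_le_lin {t : ℝ} (ht : 0 ≤ t) {n : ℕ} (h : 2 * t * n ≤ 1) :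
    (1 + t) ^ n ≤ 1 + 2 * t * n := by
  induction n with
  | zero => simp
  | succ n ih =>
    push_cast at h ⊢
    have h' : 2 * t * n ≤ 1 := by nlinarith
    have := mul_le_mul_of_nonneg_right (ih h') (show 0 ≤ 1 + t by linarith)
    rw [pow_succ]
    nlinarith

variable [MeasurableSpace V] [DiscreteMeasurableSpace V] [Countable V] [G.LocallyFinite]

/-! ### Plain measurability -/

section meas
variable {Z : Type} [MeasurableSpace Z] {f g : Z → V → V} {M : Z → V → Prop}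

lemma meas_walk (hf : Measurable f) (hg : Measurable g) (n : ℕ) :
    Measurable fun z => walk (f z) (g z) n := by
  induction n generalizing f g with
  | zero => exact measurable_const
  | succ n ih =>
    exact measurable_pi_lambda _ fun v =>
      meas_app (f := fun z => walk (g z) (f z) n) (ih hg hf) (meas_at hf v)

lemma meas_free (hf : Measurable f) (hg : Measurable g) (n : ℕ) :
    Measurable fun z => Free (f z) (g z) n := by
  induction n generalizing f g with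
  | zero => exact measurable_const
  | succ n ih =>
    exact measurable_pi_lambda _ fun v =>
      (meas_ne (meas_at hf v) measurable_const).and (meas_app (ih hg hf) (meas_at hf v))

lemma meas_ball (hf : Measurable f) (hg : Measurable g) (hM : Measurable M) (R : ℕ) :
    Measurable fun z => Ball (f z) (g z) R (M z) :=
  measurable_pi_lambda _ fun v => Measurable.exists fun i => measurable_const.and
    (((meas_at (meas_free hf hg i) v).and (meas_app hM (meas_at (meas_walk hf hg i) v))).or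
      ((meas_at (meas_free hg hf i) v).and (meas_app hM (meas_at (meas_walk hg hf i) v))))

lemma meas_rf (hf : Measurable f) (hg : Measurable g) {y : Z → Y V} (hy : Measurable y)
    (θ q : ℝ) (R k : ℕ) : Measurable fun z => RF (f z) (g z) θ q R k (y z) :=
  meas_ball hf hg (measurable_pi_lambda _ fun v => ((meas_lab_lt (v, k) θ).comp hy).or
    (((meas_eq (meas_at hf v) measurable_const).or (meas_eq (meas_at hg v) measurable_const)).and
      ((meas_lab_lt (v, k) q).comp hy))) R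

lemma meas_flip1 (hM : Measurable M) (hf : Measurable f) (hg : Measurable g) :
    Measurable fun z => flip1 (M z) (f z) (g z) :=
  measurable_pi_lambda _ fun v => meas_ite (meas_at hM v)
    (meas_ite (meas_app hM (meas_at hg v)) (meas_at hg v) measurable_const)
    (meas_ite (meas_app hM (meas_at hf v)) measurable_const (meas_at hf v))

lemma meas_flipC {s : Z → Fin Δ → V → V} (hM : Measurable M) (hs : Measurable s)
    (a b : Fin Δ) : Measurable fun z => flipC (M z) a b (s z) := by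
  refine measurable_pi_lambda _ fun p => ?_
  unfold flipC
  split_ifs
  · exact meas_flip1 hM (meas_at hs a) (meas_at hs b)
  · exact meas_flip1 hM (meas_at hs b) (meas_at hs a)
  · exact meas_at hs p

lemma meas_seqF {s : Z → Fin Δ → V → V} (hs : Measurable s) {y : Z → Y V} (hy : Measurable y)
    (γ : Fin Δ) (θ q : ℝ) (R : ℕ) (l : List (Fin Δ)) :
    Measurable fun z => seqF γ θ q R (y z) l (s z) := by
  induction l generalizing s with
  | nil => exact hs
  | cons x l ih =>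
    exact ih (meas_flipC (meas_rf (meas_at hs γ) (meas_at hs x) hy θ q R _) hs γ x)

end meas

lemma rf_le {f g : V → V} (hp : Pair G f g) {θ q : ℝ} (h0 : 0 ≤ θ) (h1 : θ ≤ 1) (h2 : 0 ≤ q)
    (h3 : q ≤ 1) (R k : ℕ) (v : V) :
    Pr (nu V) (fun y => RF f g θ q R k y v) ≤ 2 * (R + 1) * θ + 3 * q := by
  obtain ⟨B, b1, -, b3⟩ := Imp.exists_three hp.inv1 hp.inv2 v
  refine le_trans (Pr_or_le (E₁ := fun y => ∃ i ∈ Finset.range (R + 1),
    (y (walk f g i v, k) : ℝ) < θ ∨ (y (walk g f i v, k) : ℝ) < θ)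
    (E₂ := fun y => ∃ w ∈ B, (y (w, k) : ℝ) < q) fun y hy => ?_) (add_le_add ?_ ?_)
  · by_cases hA : ∃ i ∈ Finset.range (R + 1),
        (y (walk f g i v, k) : ℝ) < θ ∨ (y (walk g f i v, k) : ℝ) < θ
    · exact Or.inl hA
    right
    have hb : Ball f g R (fun u => (f u = u ∨ g u = u) ∧ (y (u, k) : ℝ) < q) v := by
      obtain ⟨i, hi, ⟨a1, a2 | a2⟩ | ⟨a1, a2 | a2⟩⟩ := hy
      · exact absurd ⟨i, Finset.mem_range.2 (by omega), Or.inl a2⟩ hA
      · exact ⟨i, hi, Or.inl ⟨a1, a2⟩⟩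
      · exact absurd ⟨i, Finset.mem_range.2 (by omega), Or.inr a2⟩ hA
      · exact ⟨i, hi, Or.inr ⟨a1, a2⟩⟩
    obtain ⟨w, hw, hM⟩ := b3 _ R (fun u hu => hu.1) hb
    exact ⟨w, hw, hM.2⟩
  · refine le_trans (Pr_le_sum fun y hy => hy) ?_
    refine le_trans (Finset.sum_le_sum (g := fun _ => 2 * θ) fun i _ => ?_) ?_
    · refine le_trans (Pr_or_le fun y hy => hy) ?_
      rw [Pr_lab_lt _ h0 h1, Pr_lab_lt _ h0 h1]
      linarith
    · rw [Finset.sum_const, Finset.card_range, nsmul_eq_mul]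
      push_cast
      exact le_of_eq (by ring)
  · refine le_trans (Pr_le_sum fun y hy => hy) ?_
    rw [Finset.sum_congr rfl fun w _ => Pr_lab_lt (w, k) h2 h3, Finset.sum_const, nsmul_eq_mul]
    exact mul_le_mul_of_nonneg_right (by exact_mod_cast b1) h2

lemma theta_le {θ q : ℝ} (h0 : 0 ≤ θ) {R : ℕ} (hR : 1 ≤ R) (h : θ * R = q) : θ ≤ q := by
  have : (1 : ℝ) ≤ R := by exact_mod_cast hR
  nlinarith

lemma rf_le7 {f g : V → V} (hp : Pair G f g) {θ q : ℝ} (h0 : 0 ≤ θ) (h3 : q ≤ 1) {R : ℕ}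
    (hR : 1 ≤ R) (h : θ * R = q) (k : ℕ) (v : V) :
    Pr (nu V) (fun y => RF f g θ q R k y v) ≤ 7 * q := by
  have h1 := theta_le h0 hR h
  have := rf_le hp h0 (h1.trans h3) (h0.trans h1) h3 R k v
  linarith

lemma rf_ge (hG : G.IsAcyclic) {f g : V → V} (hp : Pair G f g) {θ q : ℝ} (h0 : 0 ≤ θ)
    (h3 : q ≤ 1) {R : ℕ} (hR : 1 ≤ R) (h : θ * R = q) (k : ℕ) (v : V) :
    q / 2 ≤ Pr (nu V) (fun y => RF f g θ q R k y v ∧ RF f g θ q R k y (f v)) := by
  have h1 := theta_le h0 hR h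
  by_cases hf : Free f g R v
  · let s : Finset (V × ℕ) := (Finset.range R).image fun i => (walk f g (i + 1) v, k)
    have hc : s.card = R := by
      rw [Finset.card_image_of_injOn, Finset.card_range]
      intro i hi j hj hij
      simp only [Finset.coe_range, Set.mem_Iio, Prod.mk.injEq, and_true] at hi hj hij
      by_contra hne
      rcases lt_or_gt_of_ne hne with hl | hl
      · exact hp.walk_inj hG hf (show i + 1 < j + 1 by omega) (by omega) hij.symm
      · exact hp.walk_inj hG hf (show j + 1 < i + 1 by omega) (by omega) hij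
    have hb := Pr_box s (fun _ u => ¬ (u : ℝ) < θ) fun _ => (meas_unit_lt θ).not
    rw [Pr_not (meas_unit_lt θ), Pr_unit_lt h0 (h1.trans h3), Finset.prod_const, hc] at hb
    have h4 := pow_le_aux h0 (h1.trans h3) h3 h
    have h5 := one_sub_Pr_le (μ := nu V) (E := fun y => ∀ i ∈ s, ¬ (y i : ℝ) < θ)
      (E' := fun y => RF f g θ q R k y v ∧ RF f g θ q R k y (f v)) fun y hy => by
        push Not at hy
        obtain ⟨i, hi, hy⟩ := hy
        obtain ⟨j, hj, rfl⟩ := Finset.mem_image.1 hi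
        have hj' := Finset.mem_range.1 hj
        exact both (hf.mono (show j + 1 ≤ R by omega)) (by omega) (Or.inl hy) (Or.inl (by omega))
    linarith
  · obtain ⟨i, hi, a1, a2⟩ := exists_stop hf
    have hend : f (walk f g i v) = walk f g i v ∨ g (walk f g i v) = walk f g i v := by
      rcases alt_cases f g i with e | e <;> rw [e.1] at a2
      · exact Or.inl a2
      · exact Or.inr a2
    have h4 := Pr_lab_lt (walk f g i v, k) (h0.trans h1) h3
    have h5 := Pr_mono (μ := nu V) (E := fun y => (y (walk f g i v, k) : ℝ) < q)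
      (E' := fun y => RF f g θ q R k y v ∧ RF f g θ q R k y (f v)) fun y hy => by
        refine both a1 hi.le (Or.inr ⟨hend, hy⟩) ?_
        rcases Nat.eq_zero_or_pos i with rfl | hpos
        · exact Or.inr a2
        · exact Or.inl hpos
    linarith

lemma rf_ge' (hG : G.IsAcyclic) {f g : V → V} (hp : Pair G f g) {θ q : ℝ} (h0 : 0 ≤ θ)
    (h3 : q ≤ 1) {R : ℕ} (hR : 1 ≤ R) (h : θ * R = q) (k : ℕ) (v : V) :
    q / 2 ≤ Pr (nu V) (fun y => RF f g θ q R k y v ∧ RF f g θ q R k y (g v)) := by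
  simp only [rf_comm f g]
  exact rf_ge hG hp.symm h0 h3 hR h k v

/-- A fresh label is independent of an event that does not look at its slice. -/
lemma Pr_fresh {E : Y V × Y V → Prop} (hE : Measurable E) {k : ℕ}
    (hd : ∀ x, DependsOn (fun y => E (x, y)) {i | i.2 ≠ k}) (o : V) {q : ℝ} (h2 : 0 ≤ q)
    (h3 : q ≤ 1) :
    Pr ((nu V).prod (nu V)) (fun z => E z ∧ (z.2 (o, k) : ℝ) < q) =
      q * Pr ((nu V).prod (nu V)) E := by
  have hm : Measurable fun z : Y V × Y V => E z ∧ (z.2 (o, k) : ℝ) < q :=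
    hE.and ((meas_lab_lt (o, k) q).comp measurable_snd)
  rw [Pr_prod hm, Pr_prod hE, ← integral_const_mul]
  congr 1; funext x
  have := Pr_indep (E := fun y => E (x, y)) (F := fun y => (y (o, k) : ℝ) < q)
    (hE.comp measurable_prodMk_left) (meas_lab_lt (o, k) q) (hd x) (D' := {i | i.2 = k})
    (fun y y' hh => by simp only [hh (o, k) rfl])
    (Set.disjoint_left.2 fun i h1 h2 => h1 h2)
  rw [Pr_lab_lt _ h2 h3, mul_comm] at this
  exact this

lemma rf_bd1 (hs : HasSwaps G) (o : V) {f g : Y V × Y V → V → V} (hf : EI (G := G) act2 f)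
    (hg : EI (G := G) act2 g) {θ q : ℝ} (h0 : 0 ≤ θ) (h1 : θ ≤ 1) (h2 : 0 ≤ q) (h3 : q ≤ 1)
    (R : ℕ) {k : ℕ} (df : ∀ x, DependsOn (fun y => f (x, y)) {i | i.2 ≠ k})
    (dg : ∀ x, DependsOn (fun y => g (x, y)) {i | i.2 ≠ k}) :
    Pr ((nu V).prod (nu V)) (fun z => Bd (RF (f z) (g z) θ q R k z.2) (f z) o) ≤
      2 * θ + 2 * q * Pr ((nu V).prod (nu V)) (fun z => f z o = o ∨ g z o = o) := by
  have hH : IP (G := G) act2 (fun z v => f z v = v ∨ g z v = v) :=
    (IP.fix hf.toEM).or (IP.fix hg.toEM)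
  have hM : IP (G := G) act2 (fun z => Mk (f z) (g z) θ q k z.2) :=
    (IP.lab k θ).snd.or (hH.and (IP.lab k q).snd)
  have e1 := Pr_mtp_walk (μ := (nu V).prod (nu V)) hs act2_mp hM hg hf R o
  have e2 := Pr_mtp_walk (μ := (nu V).prod (nu V)) hs act2_mp hM hf hg (R + 1) o
  have e3 := Pr_or_le (μ := (nu V).prod (nu V))
    (E := fun z => Bd (RF (f z) (g z) θ q R k z.2) (f z) o)
    (E₁ := fun z => Mk (f z) (g z) θ q k z.2 (walk (g z) (f z) R o))
    (E₂ := fun z => Mk (f z) (g z) θ q k z.2 (walk (f z) (g z) (R + 1) o)) fun z hz => by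
      by_cases ha : RF (f z) (g z) θ q R k z.2 o
      · exact Or.inl (Ball.boundary (hf.inv z) ha fun hb => hz ⟨fun _ => hb, fun _ => ha⟩).2.2
      · have hb : RF (f z) (g z) θ q R k z.2 (f z o) := by
          by_contra hb
          exact hz ⟨fun h => absurd h ha, fun h => absurd h hb⟩
        exact Or.inr (Ball.boundary (hf.inv z) hb (by rw [hf.inv z]; exact ha)).2.2
  have e4 := Pr_or_le (μ := (nu V).prod (nu V)) (E := fun z => Mk (f z) (g z) θ q k z.2 o)
    fun z hz => hz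
  have e5 : Pr ((nu V).prod (nu V)) (fun z => (z.2 (o, k) : ℝ) < θ) = θ :=
    (Pr_map measurePreserving_snd (meas_lab_lt (o, k) θ)).trans (Pr_lab_lt _ h0 h1)
  have e6 := Pr_fresh (hH.at o) (k := k) (fun x y y' hh => by
    have a1 : f (x, y) = f (x, y') := df x hh
    have a2 : g (x, y) = g (x, y') := dg x hh
    simp only [a1, a2]) o h2 h3
  linarith

lemma Pr_two_le {s : Y V × Y V → Fin Δ → V → V} (h : EC (G := G) act2 s) (o : V) {a b : Fin Δ}
    (hab : a ≠ b) : Pr ((nu V).prod (nu V)) (fun z => s z a o = o ∨ s z b o = o) ≤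
      ∫ z, holes (s z) o ∂((nu V).prod (nu V)) := by
  have hm := ((IP.fix (h.em a)).or (IP.fix (h.em b))).at o
  rw [Pr_eq hm]
  refine int_mono (BM.ind hm) ((IF.holes h).bm o) fun z => (ind_or_le _ _).trans ?_
  rw [holes_split hab]
  exact le_add_of_nonneg_right (Finset.sum_nonneg fun _ _ => ind_nonneg _)

lemma rf_bd (hs : HasSwaps G) (o : V) {s : Y V × Y V → Fin Δ → V → V} (h : EC (G := G) act2 s)
    {a b : Fin Δ} (hab : a ≠ b) {θ q : ℝ} (h0 : 0 ≤ θ) (h1 : θ ≤ 1) (h2 : 0 ≤ q) (h3 : q ≤ 1)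
    (R : ℕ) {k : ℕ} (hd : ∀ x, DependsOn (fun y => s (x, y)) {i | i.2 ≠ k}) {p : Fin Δ}
    (hp : p = a ∨ p = b) :
    Pr ((nu V).prod (nu V)) (fun z => Bd (RF (s z a) (s z b) θ q R k z.2) (s z p) o) ≤
      2 * θ + 2 * q * ∫ z, holes (s z) o ∂((nu V).prod (nu V)) := by
  have dd : ∀ c x, DependsOn (fun y => s (x, y) c) {i | i.2 ≠ k} := fun c x y y' hh => by
    have : s (x, y) = s (x, y') := hd x hh
    simp only [this]
  rcases hp with rfl | rfl
  · refine (rf_bd1 hs o (h.ei p) (h.ei b) h0 h1 h2 h3 R (dd p) (dd b)).trans ?_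
    have := mul_le_mul_of_nonneg_left (Pr_two_le h o hab) h2
    linarith
  · simp only [fun z => rf_comm (s z a) (s z p)]
    refine (rf_bd1 hs o (h.ei p) (h.ei a) h0 h1 h2 h3 R (dd p) (dd a)).trans ?_
    have := mul_le_mul_of_nonneg_left (Pr_two_le h o hab.symm) h2
    linarith

end RFl
end Pool.Agent.MP_93f6c7_pr

end

section

/-! Estimates on successive random flips. -/

set_option autoImplicit false
set_option linter.unusedSectionVars false
set_option linter.unusedVariables false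
open MeasureTheory Function
open scoped Classical

namespace Pool.Agent.MP_93f6c7_pr
namespace RFl

variable {V : Type} {G : SimpleGraph V} {Δ : ℕ}

/-- One stage of the sequence of flips. -/
noncomputable def st (γ x : Fin Δ) (θ q : ℝ) (R : ℕ) (y : Y V) (σ : Fin Δ → V → V) :
    Fin Δ → V → V := flipC (RF (σ γ) (σ x) θ q R (3 + x.val) y) γ x σ

variable {γ : Fin Δ} {θ q : ℝ} {R : ℕ}

lemma seq_cons (y : Y V) (x : Fin Δ) (l : List (Fin Δ)) (σ : Fin Δ → V → V) :
    seqF γ θ q R y (x :: l) σ = seqF γ θ q R y l (st γ x θ q R y σ) := rfl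

lemma st_congr {y y' : Y V} {x : Fin Δ} (h : ∀ v, y (v, 3 + x.val) = y' (v, 3 + x.val))
    (σ : Fin Δ → V → V) : st γ x θ q R y σ = st γ x θ q R y' σ := by
  unfold st
  rw [rf_congr _ _ _ _ _ _ h]

lemma seq_congr {y y' : Y V} {l : List (Fin Δ)}
    (h : ∀ x ∈ l, ∀ v, y (v, 3 + x.val) = y' (v, 3 + x.val)) (σ : Fin Δ → V → V) :
    seqF γ θ q R y l σ = seqF γ θ q R y' l σ := by
  induction l generalizing σ with
  | nil => rfl
  | cons x l ih =>
    rw [seq_cons, seq_cons, st_congr (h x (by simp)), ih fun p hp => h p (by simp [hp])]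

lemma seq_unc (y : Y V) {l : List (Fin Δ)} {σ : Fin Δ → V → V} (hl : γ ∉ l) {v w : V}
    (h : Unc G σ v w) : Unc G (seqF γ θ q R y l σ) v w := by
  induction l generalizing σ with
  | nil => exact h
  | cons x l ih =>
    simp only [List.mem_cons, not_or] at hl
    exact ih hl.2 (h.flipC hl.1 _)

lemma seq_other (y : Y V) {l : List (Fin Δ)} (σ : Fin Δ → V → V) {p : Fin Δ} (h1 : p ≠ γ)
    (h2 : p ∉ l) : seqF γ θ q R y l σ p = σ p := by
  induction l generalizing σ with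
  | nil => rfl
  | cons x l ih =>
    simp only [List.mem_cons, not_or] at h2
    rw [seq_cons, ih _ h2.2]
    exact flipC_other h1 h2.1

lemma seq_cases (y : Y V) {l : List (Fin Δ)} (σ : Fin Δ → V → V) (hl : γ ∉ l) (v : V) :
    seqF γ θ q R y l σ γ v = v ∨ ∃ p ∈ γ :: l, seqF γ θ q R y l σ γ v = σ p v := by
  induction l generalizing σ with
  | nil => exact Or.inr ⟨γ, by simp, rfl⟩
  | cons x l ih =>
    simp only [List.mem_cons, not_or] at hl
    rw [seq_cons]
    rcases ih (st γ x θ q R y σ) hl.2 with e | ⟨p, hp, e⟩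
    · exact Or.inl e
    rcases flipC_cases hl.1 (RF (σ γ) (σ x) θ q R (3 + x.val) y) σ p v with e' | e'
    · exact Or.inl (e.trans e')
    refine Or.inr ⟨_, ?_, e.trans e'⟩
    have hp' : p ∈ γ :: x :: l := by
      simp only [List.mem_cons] at hp ⊢
      tauto
    split_ifs
    · rw [Equiv.swap_apply_def]
      split_ifs
      · simp
      · simp
      · exact hp'
    · exact hp'

variable [MeasurableSpace V] [DiscreteMeasurableSpace V] [Countable V] [G.LocallyFinite]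

lemma seq_loc {y y' : Y V} {l : List (Fin Δ)} {σ σ' : Fin Δ → V → V} {D : Set V}
    {P : Fin Δ → Prop} (hl : γ ∉ l) (hγ : P γ) (hP : ∀ x ∈ l, P x)
    (h : ∀ p, P p → Loc id D (σ' p) (σ p)) (hy : ∀ v ∈ D, ∀ k, 3 ≤ k → y' (v, k) = y (v, k)) :
    ∀ p, P p → Loc id D (seqF γ θ q R y' l σ' p) (seqF γ θ q R y l σ p) := by
  induction l generalizing σ σ' with
  | nil => exact h
  | cons x l ih =>
    simp only [List.mem_cons, not_or] at hl
    have hx := hP x (by simp)
    refine ih hl.2 (fun p hp => hP p (by simp [hp])) fun p hp => ?_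
    have hF : ∀ v ∈ D, RF (σ' γ) (σ' x) θ q R (3 + x.val) y' v ↔
        RF (σ γ) (σ x) θ q R (3 + x.val) y (id v) := fun v hv =>
      Loc.rf (h γ hγ) (h x hx) (fun u hu => hy u hu _ (by omega)) R hv
    by_cases ha : p = γ
    · subst ha
      rw [flipC_left, flipC_left]
      exact (h p hγ).flip1 (h x hx) hF
    by_cases hb : p = x
    · subst hb
      rw [flipC_right hl.1, flipC_right hl.1]
      exact (h p hx).flip1 (h γ hγ) hF
    · rw [flipC_other ha hb, flipC_other ha hb]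
      exact h p hp

lemma meas_st {Z : Type} [MeasurableSpace Z] {s : Z → Fin Δ → V → V} (hs : Measurable s)
    {y : Z → Y V} (hy : Measurable y) (x : Fin Δ) :
    Measurable fun z => st γ x θ q R (y z) (s z) :=
  meas_flipC (meas_rf (meas_at hs γ) (meas_at hs x) hy θ q R _) hs γ x

/-- The first stage is independent of the labels used by the later stages. -/
lemma Pr_stage {x : Fin Δ} {l : List (Fin Δ)} (hx : x ∉ l) (σ : Fin Δ → V → V)
    {E : (Fin Δ → V → V) × (Fin Δ → V → V) → Prop} (hE : Measurable E) :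
    Measurable (fun z : Y V × Y V =>
      E (st γ x θ q R z.1 σ, seqF γ θ q R z.2 l (st γ x θ q R z.1 σ))) ∧
    Pr (nu V) (fun y => E (st γ x θ q R y σ, seqF γ θ q R y l (st γ x θ q R y σ))) =
      Pr ((nu V).prod (nu V)) (fun z =>
        E (st γ x θ q R z.1 σ, seqF γ θ q R z.2 l (st γ x θ q R z.1 σ))) := by
  have h1 : Measurable fun z : Y V × Y V => st γ x θ q R z.1 σ :=
    meas_st measurable_const measurable_fst x
  have hm : Measurable (fun z : Y V × Y V =>
      E (st γ x θ q R z.1 σ, seqF γ θ q R z.2 l (st γ x θ q R z.1 σ))) :=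
    hE.comp (h1.prodMk (meas_seqF h1 measurable_snd γ θ q R l))
  refine ⟨hm, Pr_freeze hm {i | i.2 = 3 + x.val} (fun y' y₁ y₂ hh => ?_) (fun y y₁ y₂ hh => ?_)⟩
  · simp only [st_congr (fun v => hh (v, 3 + x.val) rfl) σ]
  · have := seq_congr (γ := γ) (θ := θ) (q := q) (R := R) (y := y₁) (y' := y₂) (l := l)
      (fun p hp v => hh (v, 3 + p.val) fun e => hx (by
        have e' : 3 + p.val = 3 + x.val := e
        have : p = x := Fin.ext (by omega)
        rwa [← this])) (st γ x θ q R y σ)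
    simp only [this]

lemma meas_ev (p : Fin Δ) (v : V) : Measurable fun s : Fin Δ → V → V => s p v :=
  meas_at (meas_at measurable_id p) v

lemma seq_change (h0 : 0 ≤ θ) (h3 : q ≤ 1) (hR : 1 ≤ R) (h : θ * R = q) {l : List (Fin Δ)}
    (hl : γ ∉ l) (hn : l.Nodup) {σ : Fin Δ → V → V} (hσ : Proper G σ) (v : V) :
    Pr (nu V) (fun y => ∃ p, seqF γ θ q R y l σ p v ≠ σ p v) ≤ 21 * q * l.length := by
  induction l generalizing σ with
  | nil => simpa using (Pr_false (μ := nu V) fun y ⟨p, hp⟩ => hp rfl).le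
  | cons x l ih =>
    simp only [List.mem_cons, not_or] at hl
    rw [List.nodup_cons] at hn
    have hp := hσ.pair hl.1
    have e1 := Pr_or_le (μ := nu V) (E := fun y => ∃ p, seqF γ θ q R y (x :: l) σ p v ≠ σ p v)
      (E₁ := fun y => RF (σ γ) (σ x) θ q R (3 + x.val) y v ∨
        RF (σ γ) (σ x) θ q R (3 + x.val) y (σ γ v) ∨ RF (σ γ) (σ x) θ q R (3 + x.val) y (σ x v))
      (E₂ := fun y => ∃ p, seqF γ θ q R y l (st γ x θ q R y σ) p v ≠ st γ x θ q R y σ p v)
      fun y ⟨p, hp⟩ => by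
        by_contra hh
        simp only [not_or, not_exists, Ne, not_not] at hh
        exact hp ((hh.2 p).trans (flipC_eq hl.1 hh.1.1 hh.1.2.1 hh.1.2.2 p))
    have e2 := Pr_or_le (μ := nu V) (E := fun y => RF (σ γ) (σ x) θ q R (3 + x.val) y v ∨
        RF (σ γ) (σ x) θ q R (3 + x.val) y (σ γ v) ∨ RF (σ γ) (σ x) θ q R (3 + x.val) y (σ x v))
      fun y hy => hy
    have e3 := Pr_or_le (μ := nu V) (E := fun y =>
        RF (σ γ) (σ x) θ q R (3 + x.val) y (σ γ v) ∨ RF (σ γ) (σ x) θ q R (3 + x.val) y (σ x v))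
      fun y hy => hy
    have a1 := rf_le7 hp h0 h3 hR h (3 + x.val) v
    have a2 := rf_le7 hp h0 h3 hR h (3 + x.val) (σ γ v)
    have a3 := rf_le7 hp h0 h3 hR h (3 + x.val) (σ x v)
    obtain ⟨m1, m2⟩ := Pr_stage (γ := γ) (θ := θ) (q := q) (R := R) hn.1 σ
      (E := fun s => ∃ p, s.2 p v ≠ s.1 p v) (Measurable.exists fun p =>
        meas_ne ((meas_ev p v).comp measurable_snd) ((meas_ev p v).comp measurable_fst))
    have e4 := Pr_prod_le_const (μ := nu V) (ν := nu V) m1 fun y =>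
      ih hl.2 hn.2 (hσ.flipC hl.1 (RF (σ γ) (σ x) θ q R (3 + x.val) y))
    rw [← m2] at e4
    simp only [List.length_cons]
    push_cast
    linarith

lemma seq_stay (h0 : 0 ≤ θ) (h3 : q ≤ 1) (hR : 1 ≤ R) (h : θ * R = q) {l : List (Fin Δ)}
    (hl : γ ∉ l) (hn : l.Nodup) (hq : 42 * q * l.length ≤ 1) {σ : Fin Δ → V → V}
    (hσ : Proper G σ) (v : V) :
    1 / 2 ≤ Pr (nu V) (fun y => seqF γ θ q R y l σ γ v = σ γ v) := by
  have e1 := seq_change h0 h3 hR h hl hn hσ v
  have e2 := one_sub_Pr_le (μ := nu V) (E := fun y => ∃ p, seqF γ θ q R y l σ p v ≠ σ p v)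
    (E' := fun y => seqF γ θ q R y l σ γ v = σ γ v) fun y hy => by
      by_contra hh
      exact hy ⟨γ, hh⟩
  linarith

lemma seq_ge (hG : G.IsAcyclic) (h0 : 0 ≤ θ) (h3 : q ≤ 1) (hR : 1 ≤ R) (h : θ * R = q)
    {l : List (Fin Δ)} (hl : γ ∉ l) (hn : l.Nodup) (hq : 42 * q * l.length ≤ 1)
    {σ : Fin Δ → V → V} (hσ : Proper G σ) (v : V) {p : Fin Δ} (hp : p ∈ l) :
    q / 4 ≤ Pr (nu V) (fun y => seqF γ θ q R y l σ γ v = σ p v) := by
  induction l generalizing σ with
  | nil => simp at hp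
  | cons x l ih =>
    simp only [List.mem_cons, not_or] at hl
    rw [List.nodup_cons] at hn
    have hq0 : 0 ≤ q := h0.trans (theta_le h0 hR h)
    have hq' : 42 * q * l.length ≤ 1 := by
      simp only [List.length_cons] at hq
      push_cast at hq
      linarith
    obtain ⟨m1, m2⟩ := Pr_stage (γ := γ) (θ := θ) (q := q) (R := R) hn.1 σ
      (E := fun s => s.2 γ v = σ p v)
      (meas_eq ((meas_ev γ v).comp measurable_snd) measurable_const)
    refine le_trans ?_ m2.ge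
    rcases List.mem_cons.1 hp with rfl | hp'
    · have hm : Measurable fun y : Y V => RF (σ γ) (σ p) θ q R (3 + p.val) y :=
        meas_rf measurable_const measurable_const measurable_id θ q R _
      have e1 := Pr_prod_ge (μ := nu V) (ν := nu V) m1
        ((meas_at hm v).and (meas_at hm (σ p v))) (c := 1 / 2) fun y hy => by
          have := seq_stay h0 h3 hR h hl.2 hn.2 hq'
            (hσ.flipC hl.1 (RF (σ γ) (σ p) θ q R (3 + p.val) y)) v
          rw [flipC_left, flip1_in hy.1 hy.2] at this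
          exact this
      have e2 := rf_ge' hG (hσ.pair hl.1) h0 h3 hR h (3 + p.val) v
      linarith
    · have e1 := Pr_prod_ge (μ := nu V) (ν := nu V) m1 (A := fun _ => True) measurable_const
        (c := q / 4) fun y _ => by
          have := ih hl.2 hn.2 hq' (hσ.flipC hl.1 (RF (σ γ) (σ x) θ q R (3 + x.val) y)) hp'
          rw [flipC_other (show p ≠ γ from fun e => hl.2 (e ▸ hp'))
            (show p ≠ x from fun e => hn.1 (e ▸ hp'))] at this
          exact this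
      rw [Pr_true fun _ => trivial, mul_one] at e1
      exact e1

lemma seq_holes (hs : HasSwaps G) (o : V) {e : ℝ} (h0 : 0 ≤ θ) (h1 : θ ≤ 1) (h2 : 0 ≤ q)
    (h3 : q ≤ 1) (he : θ ≤ q * e) {l : List (Fin Δ)} (hl : γ ∉ l) (hn : l.Nodup)
    {s : Y V × Y V → Fin Δ → V → V} (h : EC (G := G) act2 s)
    (hd : ∀ x, DependsOn (fun y => s (x, y)) {i | ∀ p ∈ l, i.2 ≠ 3 + p.val}) :
    ∫ z, holes (seqF γ θ q R z.2 l (s z)) o ∂((nu V).prod (nu V)) + e ≤
      (1 + 4 * q) ^ l.length * (∫ z, holes (s z) o ∂((nu V).prod (nu V)) + e) := by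
  induction l generalizing s with
  | nil => simp [seqF]
  | cons x l ih =>
    simp only [List.mem_cons, not_or] at hl
    rw [List.nodup_cons] at hn
    have hF : IP (G := G) act2 (fun z => RF (s z γ) (s z x) θ q R (3 + x.val) z.2) :=
      IP.rf (h.em γ) (h.em x) measurable_snd (fun _ _ => rfl) θ q R _
    have h' : EC (G := G) act2 (fun z => st γ x θ q R z.2 (s z)) := h.flipC hl.1 hF
    have e1 := ih hl.2 hn.2 h' (fun z y y' hh => by
      have a1 : s (z, y) = s (z, y') := hd z fun i hi => hh i fun p hp => hi p (by simp [hp])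
      simp only [a1]
      refine st_congr (fun v => hh (v, 3 + x.val) fun p hp e => hn.1 ?_) _
      have e' : 3 + x.val = 3 + p.val := e
      have : x = p := Fin.ext (by omega)
      rwa [this])
    have hd' : ∀ z, DependsOn (fun y => s (z, y)) {i | i.2 ≠ 3 + x.val} := fun z y y' hh =>
      hd z fun i hi => hh i (hi x (by simp))
    have b1 := rf_bd hs o h hl.1 h0 h1 h2 h3 R hd' (Or.inl rfl)
    have b2 := rf_bd hs o h hl.1 h0 h1 h2 h3 R hd' (Or.inr rfl)
    have m1 := (IP.bd hF (h.em γ)).at o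
    have m2 := (IP.bd hF (h.em x)).at o
    have e2 := int_mono (μ := (nu V).prod (nu V)) ((IF.holes h').bm o)
      ((((IF.holes h).bm o).add (BM.ind m1)).add (BM.ind m2)) fun z => holes_flipC hl.1 _ _ o
    rw [int_add (((IF.holes h).bm o).add (BM.ind m1)) (BM.ind m2),
      int_add ((IF.holes h).bm o) (BM.ind m1), ← Pr_eq m1, ← Pr_eq m2] at e2
    refine e1.trans ?_
    rw [List.length_cons, pow_succ, mul_assoc]
    exact mul_le_mul_of_nonneg_left (by linarith) (by positivity)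

end RFl

theorem flipStmt {V : Type} [MeasurableSpace V] [DiscreteMeasurableSpace V] [Countable V]
    {G : SimpleGraph V} [G.LocallyFinite] {Δ : ℕ} (h : RT G Δ) (hs : HasSwaps G) (o : V) :
    FlipStmt G Δ o where
  rf_le := fun _ _ hp _ _ h0 h1 h2 h3 R k v => RFl.rf_le hp h0 h1 h2 h3 R k v
  rf_ge := fun _ _ hp _ _ h0 h3 _ hR he k v =>
    ⟨RFl.rf_ge h.tree.isAcyclic hp h0 h3 hR he k v, RFl.rf_ge' h.tree.isAcyclic hp h0 h3 hR he k v⟩
  rf_bd := fun c a b hab θ q h0 h1 h2 h3 R k p hp => by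
    have := RFl.rf_bd hs o c.ec.fst hab h0 h1 h2 h3 R (k := k) (fun _ _ _ _ => rfl) hp
    rwa [Imp.int_fst_holes] at this
  seq_unc := fun _ _ _ _ y _ _ hl _ _ hu => RFl.seq_unc y hl hu
  seq_other := fun _ _ _ _ y _ σ _ h1 h2 => RFl.seq_other y σ h1 h2
  seq_cases := fun _ _ _ _ y _ σ hl v => RFl.seq_cases y σ hl v
  seq_loc := fun γ _ _ _ _ _ l _ _ _ hl h1 hy =>
    RFl.seq_loc (P := fun p => p ∈ γ :: l) hl (by simp) (fun x hx => by simp [hx]) h1 hy
  seq_change := fun _ _ _ h0 h3 _ hR he _ hl hn _ hσ v => RFl.seq_change h0 h3 hR he hl hn hσ v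
  seq_ge := fun γ _ q h0 h3 _ hR he l hl hn hq σ hσ v p hp => by
    rcases List.mem_cons.1 hp with rfl | hp
    · have := RFl.seq_stay h0 h3 hR he hl hn hq hσ v
      linarith
    · exact RFl.seq_ge h.tree.isAcyclic h0 h3 hR he hl hn hq hσ v hp
  seq_holes := fun c γ θ q e h0 h2 h3 he h1 hc R l hl hn hq => by
    have e1 := RFl.seq_holes (R := R) hs o h0 h1 h2 h3 he hl hn c.ec.fst (fun _ _ _ _ => rfl)
    rw [Imp.int_fst_holes] at e1
    have e2 := RFl.pow_le_lin (t := 4 * q) (by linarith) (n := l.length) (by linarith)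
    have e3 := c.hol_nonneg o
    have e4 := mul_le_mul_of_nonneg_right e2 (show 0 ≤ c.hol o + e by linarith)
    have e5 := mul_le_mul_of_nonneg_left hc (show 0 ≤ 8 * q * l.length by positivity)
    linarith

end Pool.Agent.MP_93f6c7_pr

end

section

/-! One-step operators of the killed chain: Markov property, adjoints, masses. -/

set_option autoImplicit false
set_option linter.unusedSectionVars false
set_option linter.unusedVariables false
open MeasureTheory Function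
open scoped Classical

namespace Pool.Agent.MP_93f6c7_pr
namespace L2

variable {V : Type} [MeasurableSpace V] [DiscreteMeasurableSpace V] [Countable V]
  {G : SimpleGraph V} [G.LocallyFinite]

/-- The value of `F` after a surviving step along `τ`. -/
noncomputable def Ker (τ : Y V × Y V → V → V) (P : Y V × Y V → V → Prop) (F : Y V → V → ℝ)
    (z : Y V × Y V) (v : V) : ℝ := ind (τ z v ≠ v ∧ P z (τ z v)) * F z.1 (τ z v)

/-- The one-step operator. -/
noncomputable def Op (τ : Y V × Y V → V → V) (P : Y V × Y V → V → Prop) (F : Y V → V → ℝ)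
    (x : Y V) (v : V) : ℝ := ∫ y, Ker τ P F (x, y) v ∂(nu V)

variable {τ : Y V × Y V → V → V} {P : Y V × Y V → V → Prop} {F H : Y V → V → ℝ}

lemma if_integral {Φ : Y V × Y V → V → ℝ} (h : IF (G := G) act2 Φ) :
    IF (G := G) act (fun x v => ∫ y, Φ (x, y) v ∂(nu V)) := by
  obtain ⟨B, hB⟩ := h.bdd
  refine ⟨measurable_pi_lambda _ fun v => ((h.bm v).integral (nu V)).meas, ⟨B, fun x v => ?_⟩,
    fun φ x v => ?_⟩
  · have := norm_integral_le_of_norm_le_const (μ := nu V) (f := fun y => Φ (x, y) v) (C := B)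
      (Filter.Eventually.of_forall fun y => hB _ _)
    simpa using this
  · rw [← int_map (act_mp φ) (f := fun y => Φ (act φ x, y) v) ((h.bm v).left _).meas]
    congr 1
    funext y
    exact h.inv φ (x, y) v

lemma if_ker (hτ : EI (G := G) act2 τ) (hP : IP (G := G) act2 P) (hF : IF (G := G) act F) :
    IF (G := G) act2 (Ker τ P F) :=
  (((IP.fix hτ.toEM).not.and (hP.comp hτ.toEM)).ind).mul (hF.fst.comp hτ.toEM)

lemma if_op (hτ : EI (G := G) act2 τ) (hP : IP (G := G) act2 P) (hF : IF (G := G) act F) :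
    IF (G := G) act (Op τ P F) := if_integral (if_ker hτ hP hF)

lemma op_nonneg (hF : ∀ x v, 0 ≤ F x v) (x : Y V) (v : V) : 0 ≤ Op τ P F x v :=
  integral_nonneg fun _ => mul_nonneg (ind_nonneg _) (hF _ _)

lemma op_le (hτ : EI (G := G) act2 τ) (hP : IP (G := G) act2 P) (hF : IF (G := G) act F)
    {c : ℝ} (hc : 0 ≤ c) (h : ∀ x v, F x v ≤ c) (x : Y V) (v : V) : Op τ P F x v ≤ c := by
  have := int_mono (μ := nu V) (((if_ker hτ hP hF).bm v).left x) (BM.const c) (fun y => by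
    unfold Ker
    by_cases hh : τ (x, y) v ≠ v ∧ P (x, y) (τ (x, y) v)
    · rw [ind_pos hh, one_mul]; exact h _ _
    · rw [ind_neg hh, zero_mul]; exact hc)
  rwa [int_const] at this

lemma op_sum (hτ : EI (G := G) act2 τ) (hP : IP (G := G) act2 P) {Fs : ℕ → Y V → V → ℝ}
    (hF : ∀ t, IF (G := G) act (Fs t)) (s : Finset ℕ) (x : Y V) (v : V) :
    Op τ P (fun x v => ∑ t ∈ s, Fs t x v) x v = ∑ t ∈ s, Op τ P (Fs t) x v := by
  unfold Op
  rw [← int_sum fun t _ => ((if_ker hτ hP (hF t)).bm v).left x]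
  congr 1
  funext y
  unfold Ker
  rw [Finset.mul_sum]

lemma decomp {t v : V} (hadj : t ≠ v → G.Adj v t) (Q : V → Prop) (f : V → ℝ) :
    ind (t ≠ v ∧ Q t) * f t = ∑ w ∈ G.neighborFinset v, ind (t = w ∧ Q w) * f w := by
  by_cases h : t = v
  · rw [ind_neg (fun hh => hh.1 h), zero_mul]
    refine (Finset.sum_eq_zero fun w hw => ?_).symm
    rw [ind_neg, zero_mul]
    rintro ⟨rfl, -⟩
    have : G.Adj v t := by simpa using hw
    exact this.ne h.symm
  · rw [Finset.sum_eq_single t]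
    · congr 1
      exact ind_congr ⟨fun hh => ⟨rfl, hh.2⟩, fun hh => ⟨h, hh.2⟩⟩
    · intro w _ hw
      rw [ind_neg (fun hh => hw hh.1.symm), zero_mul]
    · intro hh
      exact absurd (by simpa using hadj h) hh

/-- Markov property. -/
lemma markov (hτ : EI (G := G) act2 τ) (hP : IP (G := G) act2 P)
    {K : Y V × Y V → V → Prop} (hK : IP (G := G) act2 K) (x : Y V) (v : V)
    {D D' : V → Set (V × ℕ)} (hD : ∀ w, Disjoint (D w) (D' w))
    (h1 : ∀ w, DependsOn (fun y => τ (x, y) v = w ∧ P (x, y) w) (D w))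
    (h2 : ∀ w, DependsOn (fun y => K (x, y) w) (D' w)) :
    Pr (nu V) (fun y => (τ (x, y) v ≠ v ∧ P (x, y) (τ (x, y) v)) ∧ K (x, y) (τ (x, y) v)) =
      Op τ P (fun x w => Pr (nu V) (fun y => K (x, y) w)) x v := by
  have m0 : Measurable fun y => (τ (x, y) v ≠ v ∧ P (x, y) (τ (x, y) v)) ∧
      K (x, y) (τ (x, y) v) :=
    ((((IP.fix hτ.toEM).not.and (hP.comp hτ.toEM)).and (hK.comp hτ.toEM)).at v).comp
      measurable_prodMk_left
  have m1 : ∀ w, Measurable fun y => τ (x, y) v = w ∧ P (x, y) w := fun w =>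
    (meas_eq ((meas_at hτ.meas v).comp measurable_prodMk_left) measurable_const).and
      ((hP.at w).comp measurable_prodMk_left)
  have m2 : ∀ w, Measurable fun y => K (x, y) w := fun w => (hK.at w).comp measurable_prodMk_left
  rw [Pr_eq m0]
  unfold Op Ker
  have e1 : ∀ y, ind ((τ (x, y) v ≠ v ∧ P (x, y) (τ (x, y) v)) ∧ K (x, y) (τ (x, y) v)) =
      ∑ w ∈ G.neighborFinset v, ind (τ (x, y) v = w ∧ P (x, y) w) * ind (K (x, y) w) := fun y => by
    rw [ind_and]
    exact decomp (hτ.adj _ v) (P (x, y)) (fun w => ind (K (x, y) w))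
  have e2 : ∀ y, ind (τ (x, y) v ≠ v ∧ P (x, y) (τ (x, y) v)) *
      Pr (nu V) (fun y' => K (x, y') (τ (x, y) v)) =
      ∑ w ∈ G.neighborFinset v, ind (τ (x, y) v = w ∧ P (x, y) w) *
        Pr (nu V) (fun y' => K (x, y') w) := fun y =>
    decomp (hτ.adj _ v) (P (x, y)) (fun w => Pr (nu V) (fun y' => K (x, y') w))
  simp only [e1, e2]
  rw [int_sum fun w _ => (BM.ind (m1 w)).mul (BM.ind (m2 w)),
    int_sum fun w _ => (BM.ind (m1 w)).mul (BM.const _)]
  refine Finset.sum_congr rfl fun w _ => ?_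
  rw [int_indep (BM.ind (m1 w)) (BM.ind (m2 w)) (fun _ _ hh => congrArg ind (h1 w hh))
    (fun _ _ hh => congrArg ind (h2 w hh)) (hD w), integral_mul_const, Pr_eq (m2 w)]

/-- Adjoint formula. -/
lemma adjoint (hs : HasSwaps G) (hτ : EI (G := G) act2 τ) (hP : IP (G := G) act2 P)
    (hF : IF (G := G) act F) (hH : IF (G := G) act H) (o : V) :
    ∫ x, H x o * Op τ P F x o ∂(nu V) =
      ∫ z, ind (τ z o ≠ o ∧ P z o) * H z.1 (τ z o) * F z.1 o ∂((nu V).prod (nu V)) := by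
  have hf : IF (G := G) act2 (fun z w => ind (τ z w ≠ w ∧ P z w) * H z.1 (τ z w) * F z.1 w) :=
    ((((IP.fix hτ.toEM).not.and hP).ind).mul (hH.fst.comp hτ.toEM)).mul hF.fst
  rw [← int_mtp hs act2_mp hf hτ o, int_prod ((hf.comp hτ.toEM).bm o)]
  congr 1
  funext x
  unfold Op Ker
  rw [← integral_const_mul]
  congr 1
  funext y
  simp only [hτ.inv _ o]
  rw [ind_congr (show (o ≠ τ (x, y) o ∧ P (x, y) (τ (x, y) o)) ↔
    (τ (x, y) o ≠ o ∧ P (x, y) (τ (x, y) o)) from and_congr ne_comm Iff.rfl)]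
  ring

lemma mass (hs : HasSwaps G) (hτ : EI (G := G) act2 τ) (hP : IP (G := G) act2 P)
    (hF : IF (G := G) act F) (o : V) :
    ∫ x, Op τ P F x o ∂(nu V) =
      ∫ z, ind (τ z o ≠ o ∧ P z o) * F z.1 o ∂((nu V).prod (nu V)) := by
  have := adjoint hs hτ hP hF (IF.const 1) o
  simpa only [one_mul, mul_one] using this

lemma int_fst_ind {E : Y V × Y V → Prop} (hE : Measurable E) {f : Y V → ℝ} (hf : BM f) :
    ∫ z, ind (E z) * f z.1 ∂((nu V).prod (nu V)) =
      ∫ x, f x * Pr (nu V) (fun y => E (x, y)) ∂(nu V) := by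
  rw [int_prod ((BM.ind hE).mul (hf.comp measurable_fst))]
  congr 1
  funext x
  rw [Pr_eq (E := fun y => E (x, y)) (hE.comp measurable_prodMk_left), ← integral_const_mul]
  congr 1
  funext y
  exact mul_comm _ _

lemma int_fst {f : Y V → ℝ} (hf : BM f) :
    ∫ z, f z.1 ∂((nu V).prod (nu V)) = ∫ x, f x ∂(nu V) :=
  int_map measurePreserving_fst hf.meas

/-- Mass bound: the mass lost is at least the mass on any event `E` that kills the step. -/
lemma mass_le (hs : HasSwaps G) (hτ : EI (G := G) act2 τ) (hP : IP (G := G) act2 P)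
    (hF : IF (G := G) act F) (h0 : ∀ x v, 0 ≤ F x v) (o : V) {E : Y V × Y V → Prop}
    (hE : Measurable E) (hk : ∀ z, E z → ¬ (τ z o ≠ o ∧ P z o)) :
    ∫ x, Op τ P F x o ∂(nu V) ≤
      ∫ x, F x o ∂(nu V) - ∫ x, F x o * Pr (nu V) (fun y => E (x, y)) ∂(nu V) := by
  have b1 : BM fun z : Y V × Y V => F z.1 o := (hF.bm o).comp measurable_fst
  rw [mass hs hτ hP hF o, ← int_fst_ind hE (hF.bm o), ← int_fst (hF.bm o),
    ← int_sub b1 ((BM.ind hE).mul b1)]
  refine int_mono ((BM.ind (((IP.fix hτ.toEM).not.and hP).at o)).mul b1)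
    (b1.sub ((BM.ind hE).mul b1)) fun z => ?_
  have := h0 z.1 o
  by_cases h : E z
  · rw [ind_neg (hk z h), ind_pos h]; linarith
  · rw [ind_neg h]
    have := ind_le_one (τ z o ≠ o ∧ P z o)
    nlinarith

variable {A C : Y V × Y V → V → V} {Wn Act : Y V × Y V → V → Prop}
  {ΩA ΩB : Y V → V → Set (V × ℕ)}

/-- arrival probabilities -/
noncomputable def hh (A C : Y V × Y V → V → V) (Wn Act : Y V × Y V → V → Prop) (t : ℕ)
    (x : Y V) (v : V) : ℝ :=
  Pr (nu V) (fun y => Arr (A (x, y)) (C (x, y)) (Wn (x, y)) (Act (x, y)) t v)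

/-- the `C` step -/
noncomputable abbrev Cop (C : Y V × Y V → V → V) := Op C (fun _ _ => True)
/-- the `A` step -/
noncomputable abbrev Aop (A : Y V × Y V → V → V) (Wn : Y V × Y V → V → Prop) :=
  Op A (fun z v => ¬ Wn z v)

lemma if_hh (M : Markov G A C Wn Act ΩA ΩB) (t : ℕ) : IF (G := G) act (hh A C Wn Act t) :=
  IF.Pr (M.ip_arr t)

lemma depC' (M : Markov G A C Wn Act ΩA ΩB) (x : Y V) (v w : V) :
    DependsOn (fun y => C (x, y) v = w ∧ True) (ΩB x w) := by
  refine dep_of_imp fun y y' hy h => ⟨?_, trivial⟩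
  have e : C (x, y) w = C (x, y') w := M.depC x w hy
  have e1 : C (x, y) w = v := by rw [← h.1, M.eiC.inv]
  rw [← e1, e, M.eiC.inv]

lemma depA' (M : Markov G A C Wn Act ΩA ΩB) (x : Y V) (v w : V) :
    DependsOn (fun y => A (x, y) v = w ∧ ¬ Wn (x, y) w) (ΩA x w) := by
  refine dep_of_imp fun y y' hy h => ⟨?_, ?_⟩
  · have e : A (x, y) w = A (x, y') w := M.depA x w hy
    have e1 : A (x, y) w = v := by rw [← h.1, M.eiA.inv]
    rw [← e1, e, M.eiA.inv]
  · have e : Wn (x, y) w = Wn (x, y') w := M.depW x w hy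
    rw [← e]; exact h.2

lemma hh_zero (M : Markov G A C Wn Act ΩA ΩB) :
    hh A C Wn Act 0 = Cop C (fun x w => Pr (nu V) (fun y => Act (x, y) w)) := by
  funext x v
  refine Eq.trans ?_ (markov M.eiC (IP.const True) M.ipAct x v (fun w => (M.disj x w).symm)
    (depC' M x v) (M.depAct x))
  exact Pr_congr fun y => ⟨fun h => ⟨⟨h.1, trivial⟩, h.2⟩, fun h => ⟨h.1.1, h.2⟩⟩

lemma hh_succ (M : Markov G A C Wn Act ΩA ΩB) (t : ℕ) :
    hh A C Wn Act (t + 1) = Cop C (Aop A Wn (hh A C Wn Act t)) := by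
  have hB : IP (G := G) act2 (fun z w => (A z w ≠ w ∧ ¬ Wn z (A z w)) ∧
      Arr (A z) (C z) (Wn z) (Act z) t (A z w)) :=
    ((IP.fix M.eiA.toEM).not.and (M.ipW.not.comp M.eiA.toEM)).and ((M.ip_arr t).comp M.eiA.toEM)
  have e : Aop A Wn (hh A C Wn Act t) = fun x w => Pr (nu V) (fun y =>
      (A (x, y) w ≠ w ∧ ¬ Wn (x, y) (A (x, y) w)) ∧
        Arr (A (x, y)) (C (x, y)) (Wn (x, y)) (Act (x, y)) t (A (x, y) w)) := by
    funext x w
    exact (markov M.eiA M.ipW.not (M.ip_arr t) x w (M.disj x) (depA' M x w)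
      (M.arr_dep x t)).symm
  funext x v
  rw [e]
  refine Eq.trans ?_ (markov M.eiC (IP.const True) hB x v (fun w => (M.disj x w).symm)
    (depC' M x v) ?_)
  · exact Pr_congr fun y => ⟨fun h => ⟨⟨h.1, trivial⟩, ⟨h.2.1, h.2.2.1⟩, h.2.2.2⟩,
      fun h => ⟨h.1.1, h.2.1.1, h.2.1.2, h.2.2⟩⟩
  · intro w
    refine dep_of_imp fun y y' hy h => ?_
    obtain ⟨⟨h2, h3⟩, h4⟩ := h
    have e2 : A (x, y) w = A (x, y') w := M.depA x _ hy
    have e3 : Wn (x, y) (A (x, y) w) = Wn (x, y') (A (x, y') w) := M.depW' x _ hy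
    have e4 := M.arr_dep x t (A (x, y) w) fun i hi => hy i (M.nestA x y _ h2 hi)
    refine ⟨⟨e2 ▸ h2, e3 ▸ h3⟩, ?_⟩
    rw [← e2]; exact e4.mp h4

lemma hh_nonneg (t : ℕ) (x : Y V) (v : V) : 0 ≤ hh A C Wn Act t x v := Pr_nonneg _

lemma cop_mass (hs : HasSwaps G) (M : Markov G A C Wn Act ΩA ΩB) (hF : IF (G := G) act F)
    (h0 : ∀ x v, 0 ≤ F x v) (o : V) : ∫ x, Cop C F x o ∂(nu V) ≤ ∫ x, F x o ∂(nu V) := by
  have := mass_le hs M.eiC (IP.const True) hF h0 o (E := fun _ => False) measurable_const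
    (fun _ h => h.elim)
  simp only [Pr_false (μ := nu V) (E := fun _ => False) (fun _ h => h), mul_zero,
    integral_zero, sub_zero] at this
  exact this

lemma mass_zero (hs : HasSwaps G) (M : Markov G A C Wn Act ΩA ΩB) (o : V) :
    ∫ x, hh A C Wn Act 0 x o ∂(nu V) ≤ Pr ((nu V).prod (nu V)) (fun z => Act z o) := by
  rw [hh_zero M, Pr_prod (M.ipAct.at o)]
  exact cop_mass hs M (IF.Pr M.ipAct) (fun _ _ => Pr_nonneg _) o

lemma mass_succ (hs : HasSwaps G) (M : Markov G A C Wn Act ΩA ΩB) (o : V) (t : ℕ) :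
    ∫ x, hh A C Wn Act (t + 1) x o ∂(nu V) ≤ ∫ x, hh A C Wn Act t x o ∂(nu V) -
      ∫ x, hh A C Wn Act t x o * Pr (nu V) (fun y => Wn (x, y) o) ∂(nu V) := by
  rw [hh_succ M]
  refine (cop_mass hs M (if_op M.eiA M.ipW.not (if_hh M t))
    (op_nonneg (hh_nonneg t)) o).trans ?_
  exact mass_le hs M.eiA M.ipW.not (if_hh M t) (hh_nonneg t) o (M.ipW.at o)
    (fun z h hn => hn.2 h)

lemma occ_eq (m : ℕ) : occ A C Wn Act m = fun x v => ∑ t ∈ Finset.range m, hh A C Wn Act t x v :=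
  rfl

lemma claim2 (hs : HasSwaps G) (M : Markov G A C Wn Act ΩA ΩB) (o : V) (m : ℕ) :
    ∫ x, occ A C Wn Act m x o * Pr (nu V) (fun y => Wn (x, y) o) ∂(nu V) ≤
      Pr ((nu V).prod (nu V)) (fun z => Act z o) := by
  have key : ∫ x, occ A C Wn Act m x o * Pr (nu V) (fun y => Wn (x, y) o) ∂(nu V) +
      ∫ x, hh A C Wn Act m x o ∂(nu V) ≤ ∫ x, hh A C Wn Act 0 x o ∂(nu V) := by
    induction m with
    | zero => simp [occ]
    | succ m ih =>
      have e : ∫ x, occ A C Wn Act (m + 1) x o * Pr (nu V) (fun y => Wn (x, y) o) ∂(nu V) =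
          ∫ x, occ A C Wn Act m x o * Pr (nu V) (fun y => Wn (x, y) o) ∂(nu V) +
          ∫ x, hh A C Wn Act m x o * Pr (nu V) (fun y => Wn (x, y) o) ∂(nu V) := by
        rw [← int_add (((M.if_occ m).bm o).mul ((IF.Pr M.ipW).bm o))
          (((if_hh M m).bm o).mul ((IF.Pr M.ipW).bm o))]
        congr 1
        funext x
        simp only [occ_eq, Finset.sum_range_succ]
        ring
      have := mass_succ hs M o m
      linarith
  have h1 : 0 ≤ ∫ x, hh A C Wn Act m x o ∂(nu V) := integral_nonneg fun x => hh_nonneg m x o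
  have h2 := mass_zero hs M o
  linarith

lemma claim3 (hs : HasSwaps G) (M : Markov G A C Wn Act ΩA ΩB) (o : V) (m : ℕ) :
    (m : ℝ) * Pr ((nu V).prod (nu V)) (fun z => Arr (A z) (C z) (Wn z) (Act z) m o) ≤
      ∫ x, occ A C Wn Act m x o ∂(nu V) := by
  have anti : Antitone fun t => ∫ x, hh A C Wn Act t x o ∂(nu V) := by
    refine antitone_nat_of_succ_le fun t => ?_
    have h1 := mass_succ hs M o t
    have h2 : 0 ≤ ∫ x, hh A C Wn Act t x o * Pr (nu V) (fun y => Wn (x, y) o) ∂(nu V) :=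
      integral_nonneg fun x => mul_nonneg (hh_nonneg t x o) (Pr_nonneg _)
    linarith
  rw [Pr_prod ((M.ip_arr m).at o), occ_eq]
  simp only
  rw [int_sum fun t _ => (if_hh M t).bm o]
  have := Finset.card_nsmul_le_sum (Finset.range m) (fun t => ∫ x, hh A C Wn Act t x o ∂(nu V))
    (∫ x, hh A C Wn Act m x o ∂(nu V)) (fun t ht => anti (Finset.mem_range.1 ht).le)
  rw [Finset.card_range, nsmul_eq_mul] at this
  exact this

lemma occ_sub (M : Markov G A C Wn Act ΩA ΩB) (m : ℕ) (x : Y V) (v : V) :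
    occ A C Wn Act m x v - Cop C (Aop A Wn (occ A C Wn Act m)) x v ≤ hh A C Wn Act 0 x v := by
  have e1 : Aop A Wn (occ A C Wn Act m) =
      fun x v => ∑ t ∈ Finset.range m, Aop A Wn (hh A C Wn Act t) x v := by
    funext x v
    exact op_sum M.eiA M.ipW.not (if_hh M) _ x v
  have e2 : Cop C (Aop A Wn (occ A C Wn Act m)) x v =
      ∑ t ∈ Finset.range m, hh A C Wn Act (t + 1) x v := by
    rw [e1]
    refine (op_sum M.eiC (IP.const True) (fun t => if_op M.eiA M.ipW.not (if_hh M t)) _ x v).trans ?_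
    exact Finset.sum_congr rfl fun t _ => by rw [hh_succ M]
  have e3 := Finset.sum_range_succ' (fun t => hh A C Wn Act t x v) m
  have e4 := Finset.sum_range_succ (fun t => hh A C Wn Act t x v) m
  have e5 := hh_nonneg (A := A) (C := C) (Wn := Wn) (Act := Act) m x v
  rw [e2, occ_eq]
  simp only
  linarith

end L2
end Pool.Agent.MP_93f6c7_pr

end

section

/-! Square estimates for the occupation density of the killed chain. -/

set_option autoImplicit false
set_option linter.unusedSectionVars false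
set_option linter.unusedVariables false
open MeasureTheory Function
open scoped Classical

namespace Pool.Agent.MP_93f6c7_pr
namespace L2

variable {V : Type} [MeasurableSpace V] [DiscreteMeasurableSpace V] [Countable V]
  {G : SimpleGraph V} [G.LocallyFinite] {Δ : ℕ}
  {τ : Y V × Y V → V → V} {P : Y V × Y V → V → Prop} {H : Y V → V → ℝ}
  {A C : Y V × Y V → V → V} {Wn Act : Y V × Y V → V → Prop} {ΩA ΩB : Y V → V → Set (V × ℕ)}

lemma ker_sq (hs : HasSwaps G) (hτ : EI (G := G) act2 τ) (hP : IP (G := G) act2 P)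
    (hH : IF (G := G) act H) (o : V) :
    ∫ z, Ker τ P H z o ^ 2 ∂((nu V).prod (nu V)) ≤ ∫ x, H x o ^ 2 ∂(nu V) -
      ∫ x, H x o ^ 2 * Pr (nu V) (fun y => τ (x, y) o = o) ∂(nu V) := by
  have e : ∀ z, Ker τ P H z o ^ 2 = Ker τ P (fun x v => H x v ^ 2) z o := fun z => by
    unfold Ker
    rw [mul_pow, pow_two (ind _), ind_mul_self]
  simp only [e]
  rw [int_prod ((if_ker hτ hP hH.sq).bm o)]
  exact mass_le hs hτ hP hH.sq (fun _ _ => sq_nonneg _) o ((IP.fix hτ.toEM).at o)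
    (fun z h hn => hn.1 h)

/-- value after an `A` step from the root -/
noncomputable def UU (A : Y V × Y V → V → V) (Wn : Y V × Y V → V → Prop) (H : Y V → V → ℝ)
    (o : V) (z : Y V × Y V) : ℝ := Ker A (fun z v => ¬ Wn z v) H z o

/-- value after a `C` step from the root -/
noncomputable def WW (C : Y V × Y V → V → V) (H : Y V → V → ℝ) (o : V) (z : Y V × Y V) : ℝ :=
  Ker C (fun _ _ => True) H z o

lemma bm_UU (M : Markov G A C Wn Act ΩA ΩB) (hH : IF (G := G) act H) (o : V) :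
    BM (UU A Wn H o) := (if_ker M.eiA M.ipW.not hH).bm o

lemma bm_WW (M : Markov G A C Wn Act ΩA ΩB) (hH : IF (G := G) act H) (o : V) :
    BM (WW C H o) := (if_ker M.eiC (IP.const True) hH).bm o

lemma cross (hs : HasSwaps G) (M : Markov G A C Wn Act ΩA ΩB) (hH : IF (G := G) act H) (o : V) :
    ∫ x, H x o * Cop C (Aop A Wn H) x o ∂(nu V) =
      ∫ z, UU A Wn H o z * WW C H o z ∂((nu V).prod (nu V)) := by
  have hA := if_op M.eiA M.ipW.not hH
  refine (adjoint hs M.eiC (IP.const True) hA hH o).trans ?_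
  refine (int_prod ((bm_WW M hH o).mul ((hA.bm o).comp measurable_fst))).trans ?_
  rw [int_prod ((bm_UU M hH o).mul (bm_WW M hH o))]
  congr 1
  funext x
  have dU : DependsOn (fun y => UU A Wn H o (x, y)) (ΩA x o) := by
    intro y y' hy
    have e2 : A (x, y) o = A (x, y') o := M.depA x _ hy
    have e3 : Wn (x, y) (A (x, y) o) = Wn (x, y') (A (x, y') o) := M.depW' x _ hy
    simp only [UU, Ker]
    rw [e3, e2]
  have dW : DependsOn (fun y => WW C H o (x, y)) (ΩB x o) := by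
    intro y y' hy
    have e2 : C (x, y) o = C (x, y') o := M.depC x _ hy
    simp only [WW, Ker]
    rw [e2]
  rw [int_indep ((bm_UU M hH o).left x) ((bm_WW M hH o).left x) dU dW (M.disj x o)]
  simp only
  rw [integral_mul_const, mul_comm]
  rfl

/-- conditional mean square difference -/
noncomputable def e1 (A C : Y V × Y V → V → V) (Wn : Y V × Y V → V → Prop) (H : Y V → V → ℝ)
    (o : V) (x : Y V) : ℝ := ∫ y, (UU A Wn H o (x, y) - WW C H o (x, y)) ^ 2 ∂(nu V)

/-- killing term -/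
noncomputable def e2 (A C : Y V × Y V → V → V) (H : Y V → V → ℝ) (o : V) (x : Y V) : ℝ :=
  H x o ^ 2 * Pr (nu V) (fun y => A (x, y) o = o) + H x o ^ 2 * Pr (nu V) (fun y => C (x, y) o = o)

lemma bm_e1 (M : Markov G A C Wn Act ΩA ΩB) (hH : IF (G := G) act H) (o : V) :
    BM (e1 A C Wn H o) := (((bm_UU M hH o).sub (bm_WW M hH o)).sq).integral (nu V)

lemma bm_e2 (M : Markov G A C Wn Act ΩA ΩB) (hH : IF (G := G) act H) (o : V) :
    BM (e2 A C H o) :=
  ((hH.bm o).sq.mul ((IF.Pr (IP.fix M.eiA.toEM)).bm o)).add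
    ((hH.bm o).sq.mul ((IF.Pr (IP.fix M.eiC.toEM)).bm o))

lemma e1_nonneg (o : V) (x : Y V) : 0 ≤ e1 A C Wn H o x := integral_nonneg fun _ => sq_nonneg _

lemma e2_nonneg (o : V) (x : Y V) : 0 ≤ e2 A C H o x :=
  add_nonneg (mul_nonneg (sq_nonneg _) (Pr_nonneg _)) (mul_nonneg (sq_nonneg _) (Pr_nonneg _))

lemma energy (hs : HasSwaps G) (M : Markov G A C Wn Act ΩA ΩB) (hH : IF (G := G) act H) (o : V) :
    ∫ x, e1 A C Wn H o x ∂(nu V) + ∫ x, e2 A C H o x ∂(nu V) ≤
      2 * (∫ x, H x o ^ 2 ∂(nu V) - ∫ x, H x o * Cop C (Aop A Wn H) x o ∂(nu V)) := by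
  have bU := bm_UU M hH o
  have bW := bm_WW M hH o
  have h1 : ∫ x, e1 A C Wn H o x ∂(nu V) =
      ∫ z, UU A Wn H o z ^ 2 ∂((nu V).prod (nu V)) + ∫ z, WW C H o z ^ 2 ∂((nu V).prod (nu V)) -
        2 * ∫ z, UU A Wn H o z * WW C H o z ∂((nu V).prod (nu V)) := by
    refine (int_prod ((bU.sub bW).sq)).symm.trans ?_
    rw [← integral_const_mul, ← int_add bU.sq bW.sq,
      ← int_sub (bU.sq.add bW.sq) ((BM.const 2).mul (bU.mul bW))]
    congr 1
    funext z
    ring
  have h2 : ∫ x, e2 A C H o x ∂(nu V) =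
      ∫ x, H x o ^ 2 * Pr (nu V) (fun y => A (x, y) o = o) ∂(nu V) +
      ∫ x, H x o ^ 2 * Pr (nu V) (fun y => C (x, y) o = o) ∂(nu V) :=
    int_add ((hH.bm o).sq.mul ((IF.Pr (IP.fix M.eiA.toEM)).bm o))
      ((hH.bm o).sq.mul ((IF.Pr (IP.fix M.eiC.toEM)).bm o))
  have h3 : ∫ z, UU A Wn H o z ^ 2 ∂((nu V).prod (nu V)) ≤ _ := ker_sq hs M.eiA M.ipW.not hH o
  have h4 : ∫ z, WW C H o z ^ 2 ∂((nu V).prod (nu V)) ≤ _ :=
    ker_sq hs M.eiC (IP.const True) hH o
  rw [cross hs M hH o, h1, h2]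
  linarith

lemma pair_le (M : Markov G A C Wn Act ΩA ΩB) (hH : IF (G := G) act H) (o : V) (x : Y V)
    {q : ℝ} (hq : 0 < q) {s s' : V}
    (h1 : q ≤ Pr (nu V) (fun y => A (x, y) o = s ∧ (s ≠ o → ¬ Wn (x, y) s)))
    (h2 : q ≤ Pr (nu V) (fun y => C (x, y) o = s')) :
    q ^ 2 * (ind (s ≠ o) * H x s - ind (s' ≠ o) * H x s') ^ 2 ≤ e1 A C Wn H o x := by
  have m1 : Measurable fun y => A (x, y) o = s ∧ (s ≠ o → ¬ Wn (x, y) s) :=
    (meas_eq ((meas_at M.eiA.meas o).comp measurable_prodMk_left) measurable_const).and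
      (measurable_const.imp ((M.ipW.at s).comp measurable_prodMk_left).not)
  have m2 : Measurable fun y => C (x, y) o = s' :=
    meas_eq ((meas_at M.eiC.meas o).comp measurable_prodMk_left) measurable_const
  have d1 : DependsOn (fun y => A (x, y) o = s ∧ (s ≠ o → ¬ Wn (x, y) s)) (ΩA x o) := by
    refine dep_of_imp fun y y' hy h => ?_
    have e2 : A (x, y) o = A (x, y') o := M.depA x _ hy
    have e3 : Wn (x, y) (A (x, y) o) = Wn (x, y') (A (x, y') o) := M.depW' x _ hy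
    rw [← e2, h.1] at e3
    exact ⟨e2 ▸ h.1, fun hso => e3 ▸ h.2 hso⟩
  have d2 : DependsOn (fun y => C (x, y) o = s') (ΩB x o) := by
    refine dep_of_imp fun y y' hy h => ?_
    have e2 : C (x, y) o = C (x, y') o := M.depC x _ hy
    exact e2 ▸ h
  have h3 := Pr_indep m1 m2 d1 d2 (M.disj x o)
  have h4 : q ^ 2 ≤ Pr (nu V) (fun y => (A (x, y) o = s ∧ (s ≠ o → ¬ Wn (x, y) s)) ∧
      C (x, y) o = s') := by
    rw [h3, pow_two]
    exact mul_le_mul h1 h2 hq.le (Pr_nonneg _)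
  refine (mul_le_mul_of_nonneg_right h4 (sq_nonneg _)).trans ?_
  rw [Pr_eq (m1.and m2), ← integral_mul_const]
  refine int_mono ((BM.ind (m1.and m2)).mul (BM.const _))
    ((((bm_UU M hH o).sub (bm_WW M hH o)).sq).left x) fun y => ?_
  by_cases h : (A (x, y) o = s ∧ (s ≠ o → ¬ Wn (x, y) s)) ∧ C (x, y) o = s'
  · rw [ind_pos h, one_mul]
    simp only [UU, WW, Ker]
    rw [h.1.1, h.2, ind_congr (show (s ≠ o ∧ ¬ Wn (x, y) s) ↔ s ≠ o from
      ⟨fun hh => hh.1, fun hh => ⟨hh, h.1.2 hh⟩⟩),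
      ind_congr (show (s' ≠ o ∧ True) ↔ s' ≠ o from and_iff_left trivial)]
  · rw [ind_neg h, zero_mul]
    exact sq_nonneg _

lemma gap_bound (h : RT G Δ) (hs : HasSwaps G) (o : V) (hgap : HasGap G o)
    {σ : Y V → Fin Δ → V → V} (hσ : EC (G := G) act σ) (M : Markov G A C Wn Act ΩA ΩB)
    (hH : IF (G := G) act H) {a b γ : Fin Δ} (hγa : γ ≠ a) (hγb : γ ≠ b) {q : ℝ} (hq : 0 < q)
    (hA : ∀ x p, p = a ∨ p = b → q ≤ Pr (nu V) (fun y => A (x, y) o = σ x p o ∧
      (σ x p o ≠ o → ¬ Wn (x, y) (σ x p o))))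
    (hC : ∀ x p, p ≠ a → p ≠ b → q ≤ Pr (nu V) (fun y => C (x, y) o = σ x p o)) :
    q ^ 2 * ∫ x, (H x o - ∫ x', H x' o ∂(nu V)) ^ 2 ∂(nu V) ≤
      48 * Δ * (∫ x, e1 A C Wn H o x ∂(nu V) + ∫ x, e2 A C H o x ∂(nu V)) := by
  have hq1 : q ≤ 1 := (hA (fun _ => 0) a (Or.inl rfl)).trans (Pr_le_one _)
  set Hp : Fin Δ → Y V → ℝ := fun p x => ind (σ x p o ≠ o) * H x (σ x p o) with hHp
  have bHp : ∀ p, BM (Hp p) := fun p =>
    (((IP.fix (hσ.em p)).not.ind).mul (hH.comp (hσ.em p))).bm o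
  have k1 : ∀ x p p', p = a ∨ p = b → p' ≠ a → p' ≠ b →
      q ^ 2 * (Hp p x - Hp p' x) ^ 2 ≤ e1 A C Wn H o x := fun x p p' hp ha hb =>
    pair_le M hH o x hq (hA x p hp) (hC x p' ha hb)
  have k2 : ∀ x p, q ^ 2 * (Hp p x - Hp γ x) ^ 2 ≤ 4 * e1 A C Wn H o x := by
    intro x p
    have n := e1_nonneg (A := A) (C := C) (Wn := Wn) (H := H) o x
    by_cases hp : p = a ∨ p = b
    · have := k1 x p γ hp hγa hγb
      linarith
    · push Not at hp
      have a1 := k1 x a p (Or.inl rfl) hp.1 hp.2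
      have a2 := k1 x a γ (Or.inl rfl) hγa hγb
      have a3 : (Hp p x - Hp γ x) ^ 2 ≤ 2 * (Hp a x - Hp p x) ^ 2 + 2 * (Hp a x - Hp γ x) ^ 2 := by
        nlinarith [sq_nonneg (Hp a x - Hp p x + (Hp a x - Hp γ x))]
      have a4 := mul_le_mul_of_nonneg_left a3 (sq_nonneg q)
      linarith
  have hole : IF (G := G) act (fun x v => ind (∃ p, σ x p v = v) * H x v ^ 2) :=
    ((IP.exists fun p => IP.fix (hσ.em p)).ind).mul hH.sq
  have k3 : ∀ x, q * (ind (∃ p, σ x p o = o) * H x o ^ 2) ≤ e2 A C H o x := by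
    intro x
    by_cases hh : ∃ p, σ x p o = o
    · rw [ind_pos hh, one_mul]
      obtain ⟨p, hp⟩ := hh
      unfold e2
      have n0 := sq_nonneg (H x o)
      have n1 : 0 ≤ Pr (nu V) (fun y => A (x, y) o = o) := Pr_nonneg _
      have n2 : 0 ≤ Pr (nu V) (fun y => C (x, y) o = o) := Pr_nonneg _
      by_cases hab : p = a ∨ p = b
      · have : q ≤ Pr (nu V) (fun y => A (x, y) o = o) :=
          (hA x p hab).trans (Pr_mono fun y hy => hy.1.trans hp)
        nlinarith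
      · push Not at hab
        have : q ≤ Pr (nu V) (fun y => C (x, y) o = o) :=
          (hC x p hab.1 hab.2).trans (Pr_mono fun y hy => hy.trans hp)
        nlinarith
    · rw [ind_neg hh, zero_mul, mul_zero]
      exact e2_nonneg o x
  have k4 : ∀ w, G.Adj o w → ∀ x, q ^ 2 * (H x w - Hp γ x) ^ 2 ≤
      8 * e1 A C Wn H o x + 2 * q * (q * (ind (∃ p, σ x p w = w) * H x w ^ 2)) := by
    intro w hw x
    have n := e1_nonneg (A := A) (C := C) (Wn := Wn) (H := H) o x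
    have n2 : 0 ≤ 2 * q * (q * (ind (∃ p, σ x p w = w) * H x w ^ 2)) := by
      have := ind_nonneg (∃ p, σ x p w = w)
      positivity
    by_cases hc : ∃ p, σ x p o = w
    · obtain ⟨p, hp⟩ := hc
      have e : Hp p x = H x w := by
        simp only [hHp]
        rw [hp, ind_pos hw.ne', one_mul]
      have := k2 x p
      rw [e] at this
      linarith
    · push Not at hc
      have hu : Unc G (σ x) o w := ⟨hw, hc⟩
      obtain ⟨p0, hp0⟩ := exists_hole h (hσ.proper x) hu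
      have hw' := exists_hole h (hσ.proper x) (hu.symm (hσ.proper x))
      have e : Hp p0 x = 0 := by
        simp only [hHp]
        rw [ind_neg (fun hh => hh hp0), zero_mul]
      have a1 := k2 x p0
      rw [e] at a1
      rw [ind_pos hw', one_mul]
      have a3 : (H x w - Hp γ x) ^ 2 ≤ 2 * H x w ^ 2 + 2 * (0 - Hp γ x) ^ 2 := by
        nlinarith [sq_nonneg (H x w + Hp γ x)]
      have a4 := mul_le_mul_of_nonneg_left a3 (sq_nonneg q)
      nlinarith
  have E1 : 0 ≤ ∫ x, e1 A C Wn H o x ∂(nu V) := integral_nonneg fun x => e1_nonneg o x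
  have E2 : 0 ≤ ∫ x, e2 A C H o x ∂(nu V) := integral_nonneg fun x => e2_nonneg o x
  have k5 : ∀ w ∈ G.neighborFinset o, q ^ 2 * ∫ x, (H x w - Hp γ x) ^ 2 ∂(nu V) ≤
      8 * (∫ x, e1 A C Wn H o x ∂(nu V) + ∫ x, e2 A C H o x ∂(nu V)) := by
    intro w hw
    have hw' : G.Adj o w := by simpa using hw
    have a1 := int_mono (μ := nu V) ((BM.const (q ^ 2)).mul ((hH.bm w).sub (bHp γ)).sq)
      (((BM.const 8).mul (bm_e1 M hH o)).add
        ((BM.const (2 * q)).mul ((BM.const q).mul (hole.bm w)))) (k4 w hw')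
    rw [int_add ((BM.const 8).mul (bm_e1 M hH o))
      ((BM.const (2 * q)).mul ((BM.const q).mul (hole.bm w)))] at a1
    simp only [integral_const_mul] at a1
    rw [int_nbr hs act_mp hole hw'] at a1
    have a2 := int_mono (μ := nu V) ((BM.const q).mul (hole.bm o)) (bm_e2 M hH o) k3
    simp only [integral_const_mul] at a2
    have a3 := mul_le_mul_of_nonneg_left a2 (show 0 ≤ 2 * q by positivity)
    nlinarith
  obtain ⟨B, hB⟩ := hH.bdd
  have g1 := hgap H (Hp γ) B (fun v => meas_at hH.meas v) (bHp γ).meas hB (fun x => by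
    simp only [hHp]
    rw [abs_mul]
    have := hB x (σ x γ o)
    have h1 := abs_ind_le (σ x γ o ≠ o)
    have h2 := abs_nonneg (H x (σ x γ o))
    nlinarith) hH.inv
  have g2 := Finset.sum_le_card_nsmul _ _ _ k5
  rw [← Finset.mul_sum, SimpleGraph.card_neighborFinset_eq_degree, h.reg, nsmul_eq_mul] at g2
  have g3 := mul_le_mul_of_nonneg_left g1 (sq_nonneg q)
  nlinarith

end L2

open L2 in
theorem l2Stmt {V : Type} [MeasurableSpace V] [DiscreteMeasurableSpace V] [Countable V]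
    {G : SimpleGraph V} [G.LocallyFinite] {Δ : ℕ} (h : RT G Δ) (hs : HasSwaps G) (o : V)
    (hgap : HasGap G o) : L2Stmt G Δ o := by
  intro σ A C Wn Act ΩA ΩB hσ M a b γ hγa hγb q hq hA hC ps hps m f hb s2 g0 hf hhb hs2 hg0
  refine ⟨?_, hf ▸ claim2 hs M o m, hhb ▸ claim3 hs M o m⟩
  have hH := M.if_occ m
  set H := occ A C Wn Act m with hHdef
  have hΔ : (3 : ℝ) ≤ Δ := by exact_mod_cast h.three
  have hg : 0 < g0 := by rw [hg0]; positivity
  have hps0 : 0 ≤ ps := (Pr_nonneg _).trans (hps (fun _ => 0) o)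
  have hb0 : 0 ≤ hb := hhb ▸ integral_nonneg fun x => occ_nonneg m x o
  have b0 := (if_hh M 0).bm o
  have bH := hH.bm o
  have bK := (if_op M.eiC (IP.const True) (if_op M.eiA M.ipW.not hH)).bm o
  have h0le : ∀ x, hh A C Wn Act 0 x o ≤ ps := fun x => by
    rw [hh_zero M]
    exact op_le M.eiC (IP.const True) (IF.Pr M.ipAct) hps0 hps x o
  have m0 : ∫ x, hh A C Wn Act 0 x o ∂(nu V) ≤ f := hf ▸ mass_zero hs M o
  have gb := gap_bound h hs o hgap hσ M hH hγa hγb hq hA hC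
  have en := energy hs M hH o
  rw [← hhb, ← hs2] at gb
  set D := ∫ x, H x o ^ 2 ∂(nu V) - ∫ x, H x o * Cop C (Aop A Wn H) x o ∂(nu V) with hD
  have E1 : 0 ≤ ∫ x, e1 A C Wn H o x ∂(nu V) := integral_nonneg fun x => e1_nonneg o x
  have E2 : 0 ≤ ∫ x, e2 A C H o x ∂(nu V) := integral_nonneg fun x => e2_nonneg o x
  have d1 : g0 * s2 ≤ D := by
    rw [hg0, div_mul_eq_mul_div, div_le_iff₀ (by positivity)]
    have a1 : 48 * (Δ : ℝ) * (∫ x, e1 A C Wn H o x ∂(nu V) + ∫ x, e2 A C H o x ∂(nu V)) ≤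
        48 * (Δ : ℝ) * (2 * D) := by gcongr
    have a2 : 0 ≤ D := by linarith
    have a3 : 96 * (Δ : ℝ) ≤ 200 * (Δ : ℝ) ^ 2 := by nlinarith
    nlinarith
  have d2 : D ≤ g0 / 2 * s2 + (ps / (2 * g0) + hb) * ∫ x, hh A C Wn Act 0 x o ∂(nu V) := by
    rw [hD, ← int_sub bH.sq (bH.mul bK), hs2, ← integral_const_mul, ← integral_const_mul,
      ← int_add ((BM.const _).mul (bH.sub (BM.const _)).sq) ((BM.const _).mul b0)]
    refine int_mono (bH.sq.sub (bH.mul bK))
      (((BM.const _).mul (bH.sub (BM.const _)).sq).add ((BM.const _).mul b0)) fun x => ?_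
    have a1 := occ_sub M m x o
    have a2 : 0 ≤ H x o := occ_nonneg m x o
    have a3 := hh_nonneg (A := A) (C := C) (Wn := Wn) (Act := Act) 0 x o
    have a4 := h0le x
    set u := hh A C Wn Act 0 x o
    have a5 : H x o ^ 2 - H x o * Cop C (Aop A Wn H) x o ≤ H x o * u := by
      have := mul_le_mul_of_nonneg_left a1 a2
      nlinarith
    have a6 : (H x o - hb) * u ≤ g0 / 2 * (H x o - hb) ^ 2 + u ^ 2 / (2 * g0) := by
      have e : g0 / 2 * (H x o - hb) ^ 2 + u ^ 2 / (2 * g0) - (H x o - hb) * u =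
          (g0 * (H x o - hb) - u) ^ 2 / (2 * g0) := by field_simp; ring
      have : 0 ≤ (g0 * (H x o - hb) - u) ^ 2 / (2 * g0) := by positivity
      linarith
    have a7 : u ^ 2 / (2 * g0) ≤ ps / (2 * g0) * u := by
      rw [div_mul_eq_mul_div]
      gcongr
      nlinarith
    nlinarith
  have d3 : (ps / (2 * g0) + hb) * ∫ x, hh A C Wn Act 0 x o ∂(nu V) ≤
      (ps / (2 * g0) + hb) * f := by gcongr
  have e : ps * f / g0 = 2 * (ps / (2 * g0) * f) := by field_simp
  rw [e]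
  nlinarith

end Pool.Agent.MP_93f6c7_pr

end
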