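import Pool.Agent.Mg.S19483.G2d2f3f

section

/-! Alternating walks of two involutions. -/

set_option autoImplicit false
open Function
open scoped Classical

namespace Pool.Agent.MP_93f6c7_pr

variable {V : Type} {G : SimpleGraph V}

/-- `a, b, a, b, ...` -/
def alt {α : Type} (a b : α) : ℕ → α
  | 0 => a
  | n + 1 => alt b a n

@[simp] lemma alt_zero {α : Type} (a b : α) : alt a b 0 = a := rfl
lemma alt_succ {α : Type} (a b : α) (n : ℕ) : alt a b (n + 1) = alt b a n := rfl

lemma alt_cases {α : Type} (a b : α) (n : ℕ) :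
    (alt a b n = a ∧ alt b a n = b) ∨ (alt a b n = b ∧ alt b a n = a) := by
  induction n generalizing a b with
  | zero => simp
  | succ n ih => simp only [alt_succ]; rcases ih a b with h | h <;> tauto

lemma alt_map {α β : Type} (F : α → β) (a b : α) (n : ℕ) :
    F (alt a b n) = alt (F a) (F b) n := by
  induction n generalizing a b with
  | zero => rfl
  | succ n ih => exact ih b a

lemma alt_add {α : Type} (a b : α) (m n : ℕ) :
    alt a b (m + n) = alt (alt a b m) (alt b a m) n := by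
  induction m generalizing a b with
  | zero => simp
  | succ m ih =>
    have : m + 1 + n = (m + n) + 1 := by omega
    rw [this, alt_succ, alt_succ, alt_succ, ih]

lemma alt_even {α : Type} (a b : α) (n : ℕ) : alt a b (2 * n) = a := by
  induction n with
  | zero => rfl
  | succ n ih => exact ih

lemma alt_odd {α : Type} (a b : α) (n : ℕ) : alt a b (2 * n + 1) = b := alt_even b a n

lemma alt_parity {α : Type} (a b : α) (m n : ℕ) :
    (alt a b m = alt a b n ∧ alt b a m = alt b a n ∧ (m + n) % 2 = 0) ∨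
    (alt a b m = alt b a n ∧ alt b a m = alt a b n ∧ (m + n) % 2 = 1) := by
  rcases Nat.even_or_odd' m with ⟨m, rfl | rfl⟩ <;> rcases Nat.even_or_odd' n with ⟨n, rfl | rfl⟩ <;>
    simp only [alt_even, alt_odd, true_and] <;> omega

variable {f g : V → V}

@[simp] lemma walk_zero (f g : V → V) (v : V) : walk f g 0 v = v := rfl
lemma walk_succ (f g : V → V) (n : ℕ) (v : V) : walk f g (n + 1) v = walk g f n (f v) := rfl
@[simp] lemma free_zero (f g : V → V) (v : V) : Free f g 0 v := trivial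
lemma free_succ (f g : V → V) (n : ℕ) (v : V) :
    Free f g (n + 1) v ↔ f v ≠ v ∧ Free g f n (f v) := Iff.rfl

lemma walk_succ' (f g : V → V) (n : ℕ) (v : V) :
    walk f g (n + 1) v = alt f g n (walk f g n v) := by
  induction n generalizing f g v with
  | zero => rfl
  | succ n ih => rw [walk_succ, ih, alt_succ, walk_succ]

lemma free_succ' (f g : V → V) (n : ℕ) (v : V) :
    Free f g (n + 1) v ↔ Free f g n v ∧ alt f g n (walk f g n v) ≠ walk f g n v := by
  induction n generalizing f g v with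
  | zero => simp [free_succ]
  | succ n ih => rw [free_succ, ih, free_succ, alt_succ, walk_succ, and_assoc]

lemma Free.mono {m n : ℕ} {v : V} (h : Free f g n v) (hmn : m ≤ n) : Free f g m v := by
  induction hmn with
  | refl => exact h
  | step _ ih => exact ih ((free_succ' _ _ _ _).1 h).1

lemma Free.step {n i : ℕ} {v : V} (h : Free f g n v) (hi : i < n) :
    alt f g i (walk f g i v) ≠ walk f g i v :=
  ((free_succ' _ _ _ _).1 (h.mono hi)).2

lemma walk_add (f g : V → V) (m n : ℕ) (v : V) :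
    walk f g (m + n) v = walk (alt f g m) (alt g f m) n (walk f g m v) := by
  induction m generalizing f g v with
  | zero => simp
  | succ m ih =>
    have : m + 1 + n = (m + n) + 1 := by omega
    rw [this, walk_succ, ih, alt_succ, alt_succ, walk_succ]

lemma free_add (f g : V → V) (m n : ℕ) (v : V) :
    Free f g (m + n) v ↔ Free f g m v ∧ Free (alt f g m) (alt g f m) n (walk f g m v) := by
  induction m generalizing f g v with
  | zero => simp
  | succ m ih =>
    have : m + 1 + n = (m + n) + 1 := by omega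
    rw [this, free_succ, ih, alt_succ, alt_succ, walk_succ, free_succ, and_assoc]

/-- The inverse of `walk f g n`. -/
def back (f g : V → V) (n : ℕ) : V → V := walk (alt g f n) (alt f g n) n

@[simp] lemma back_zero (f g : V → V) (v : V) : back f g 0 v = v := rfl
lemma back_succ (f g : V → V) (n : ℕ) (v : V) :
    back f g (n + 1) v = back f g n (alt f g n v) := rfl

lemma alt_invol (hf : Involutive f) (hg : Involutive g) (n : ℕ) : Involutive (alt f g n) := by
  rcases alt_cases f g n with h | h <;> rw [h.1] <;> assumption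

lemma back_walk (hf : Involutive f) (hg : Involutive g) (n : ℕ) (v : V) :
    back f g n (walk f g n v) = v := by
  induction n with
  | zero => rfl
  | succ n ih => rw [back_succ, walk_succ', alt_invol hf hg n, ih]

lemma walk_back (hf : Involutive f) (hg : Involutive g) (n : ℕ) (v : V) :
    walk f g n (back f g n v) = v := by
  induction n generalizing v with
  | zero => rfl
  | succ n ih => rw [back_succ, walk_succ', ih, alt_invol hf hg n]

lemma walk_eq_iff (hf : Involutive f) (hg : Involutive g) (n : ℕ) (v z : V) :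
    walk f g n v = z ↔ v = back f g n z :=
  ⟨fun h => by rw [← h, back_walk hf hg], fun h => by rw [h, walk_back hf hg]⟩

lemma walk_rev (hf : Involutive f) (hg : Involutive g) {n i : ℕ} (hi : i ≤ n) (v : V) :
    walk (alt g f n) (alt f g n) i (walk f g n v) = walk f g (n - i) v := by
  induction i generalizing n with
  | zero => rfl
  | succ i ih =>
    obtain ⟨n, rfl⟩ : ∃ m, n = m + 1 := ⟨n - 1, by omega⟩
    rw [walk_succ, alt_succ, alt_succ, walk_succ', alt_invol hf hg n, ih (by omega)]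
    congr 1; omega

lemma Free.rev (hf : Involutive f) (hg : Involutive g) {n : ℕ} {v : V} (h : Free f g n v) :
    Free (alt g f n) (alt f g n) n (walk f g n v) := by
  induction n with
  | zero => trivial
  | succ n ih =>
    rw [free_succ'] at h
    rw [free_succ, alt_succ, alt_succ, walk_succ', alt_invol hf hg n]
    exact ⟨h.2.symm, ih h.1⟩

/-- The backward step at an interior point of a free walk moves. -/
lemma Free.back_step (hf : Involutive f) (hg : Involutive g) {n : ℕ} {v : V}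
    (h : Free f g (n + 1) v) :
    alt g f (n + 1) (walk f g (n + 1) v) = walk f g n v ∧
      walk f g n v ≠ walk f g (n + 1) v := by
  rw [free_succ'] at h
  rw [alt_succ, walk_succ', alt_invol hf hg n]
  exact ⟨rfl, h.2.symm⟩

lemma Free.not_end (hf : Involutive f) (hg : Involutive g) {n : ℕ} {v : V}
    (h : Free f g (n + 1) v) (hn : 1 ≤ n) :
    f (walk f g n v) ≠ walk f g n v ∧ g (walk f g n v) ≠ walk f g n v := by
  obtain ⟨n, rfl⟩ : ∃ m, n = m + 1 := ⟨n - 1, by omega⟩
  have h1 := h.step (Nat.lt_succ_self _)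
  have h2 := (h.mono (Nat.le_succ _)).back_step hf hg
  have h3 : alt g f (n + 1) (walk f g (n + 1) v) ≠ walk f g (n + 1) v := by
    rw [h2.1]; exact h2.2
  rcases alt_cases f g (n + 1) with h | h
  · rw [h.1] at h1; rw [h.2] at h3; exact ⟨h1, h3⟩
  · rw [h.1] at h1; rw [h.2] at h3; exact ⟨h3, h1⟩

/-- Initial segments of long alternating paths are disjoint. -/
lemma track_unique (hf : Involutive f) (hg : Involutive g) {L j j' : ℕ} {v v' : V}
    (h : g v = v) (h' : g v' = v') (hv : Free f g (2 * L + 1) v) (hv' : Free f g (2 * L + 1) v')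
    (hj : j ≤ L) (hj' : j' ≤ L) (he : walk f g j v = walk f g j' v') : v = v' ∧ j = j' := by
  wlog hle : j' ≤ j generalizing j j' v v'
  · obtain ⟨h1, h2⟩ := this h' h hv' hv hj' hj he.symm (by omega)
    exact ⟨h1.symm, h2.symm⟩
  have hb : back f g j' (walk f g j v) = v' := by rw [he, back_walk hf hg]
  rcases alt_parity f g j j' with ⟨h1, h2, _⟩ | ⟨h1, h2, h3⟩
  · have := walk_rev hf hg hle v
    rw [h1, h2] at this
    have e : walk f g (j - j') v = v' := by rw [← this]; exact hb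
    by_cases hjj : j = j'
    · subst hjj; simpa using e
    · have := ((hv.mono (show j - j' + 1 ≤ 2 * L + 1 by omega)).not_end hf hg (by omega)).2
      rw [e] at this
      exact absurd h' this
  · have := walk_add f g j j' v
    rw [h1, h2] at this
    have e : walk f g (j + j') v = v' := by rw [this]; exact hb
    have := ((hv.mono (show j + j' + 1 ≤ 2 * L + 1 by omega)).not_end hf hg (by omega)).2
    rw [e] at this
    exact absurd h' this

/-- A free walk contains at most one end after its start. -/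
lemma exists_end (hf : Involutive f) (hg : Involutive g) (z : V) :
    ∃ e, (∃ i, Free f g i z ∧ e = walk f g i z) ∧ ∀ i, 1 ≤ i → Free f g i z →
      (f (walk f g i z) = walk f g i z ∨ g (walk f g i z) = walk f g i z) → walk f g i z = e := by
  by_cases h : ∃ i, 1 ≤ i ∧ Free f g i z ∧
      (f (walk f g i z) = walk f g i z ∨ g (walk f g i z) = walk f g i z)
  · obtain ⟨i₀, h1, h2, h3⟩ := h
    refine ⟨walk f g i₀ z, ⟨i₀, h2, rfl⟩, fun i hi hfi he => ?_⟩
    rcases lt_trichotomy i i₀ with hlt | heq | hlt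
    · have := (h2.mono (show i + 1 ≤ i₀ by omega)).not_end hf hg hi
      tauto
    · rw [heq]
    · have := (hfi.mono (show i₀ + 1 ≤ i by omega)).not_end hf hg h1
      tauto
  · exact ⟨z, ⟨0, trivial, rfl⟩, fun i hi hfi he => absurd ⟨i, hi, hfi, he⟩ h⟩

/-- Two edge-disjoint matchings of `G`. -/
structure Pair (G : SimpleGraph V) (f g : V → V) : Prop where
  inv1 : Involutive f
  inv2 : Involutive g
  adj1 : ∀ v, f v ≠ v → G.Adj v (f v)
  adj2 : ∀ v, g v ≠ v → G.Adj v (g v)
  disj : ∀ v, f v ≠ v → f v ≠ g v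

lemma Pair.symm (h : Pair G f g) : Pair G g f :=
  ⟨h.inv2, h.inv1, h.adj2, h.adj1, fun v hv he => h.disj v (by rw [← he]; exact hv) he.symm⟩

lemma Pair.alt (h : Pair G f g) (n : ℕ) : Pair G (alt f g n) (alt g f n) := by
  rcases alt_cases f g n with e | e <;> rw [e.1, e.2]
  · exact h
  · exact h.symm

lemma Proper.pair {Δ : ℕ} {σ : Fin Δ → V → V} (h : Proper G σ) {a b : Fin Δ} (hab : a ≠ b) :
    Pair G (σ a) (σ b) :=
  ⟨h.inv a, h.inv b, h.adj a, h.adj b, fun v => h.disj a b v hab⟩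

lemma Pair.walk_adj (h : Pair G f g) {n i : ℕ} {v : V} (hv : Free f g n v) (hi : i < n) :
    G.Adj (walk f g i v) (walk f g (i + 1) v) := by
  rw [walk_succ']
  exact (h.alt i).adj1 _ (hv.step hi)

lemma Pair.walk_nb (h : Pair G f g) {n i : ℕ} {v : V} (hv : Free f g n v) (hi : i + 2 ≤ n) :
    walk f g (i + 2) v ≠ walk f g i v := by
  have h1 := hv.step (show i + 1 < n by omega)
  have h2 := (hv.mono (show i + 1 ≤ n by omega)).back_step h.inv1 h.inv2
  rw [walk_succ', ← h2.1]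
  exact (h.alt (i + 1)).disj _ h1

lemma Pair.walk_inj (hG : G.IsAcyclic) (h : Pair G f g) {n i j : ℕ} {v : V} (hv : Free f g n v)
    (hij : i < j) (hj : j ≤ n) : walk f g j v ≠ walk f g i v :=
  nb_ne hG (fun i => walk f g i v) n (fun _ hi => h.walk_adj hv hi)
    (fun _ hi => h.walk_nb hv hi) hij hj

lemma Pair.walk_ne (hG : G.IsAcyclic) (h : Pair G f g) {i : ℕ} {u v : V} (a : G.Adj u v)
    (h1 : f u ≠ v) (hv : Free f g i u) : walk f g i u ≠ v := by
  let s : ℕ → V := fun k => Nat.casesOn k v (fun k => walk f g k u)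
  have := nb_ne hG s (i + 1) ?_ ?_ (Nat.succ_pos i) le_rfl
  · exact this
  · intro k hk
    cases k with
    | zero => exact a.symm
    | succ k => exact h.walk_adj hv (by omega)
  · intro k hk
    cases k with
    | zero => exact h1
    | succ k => exact h.walk_nb hv (by omega)

/-! ### Transport along an injective map on a closed set -/

/-- `φ` transports `f'` to `f` on the set `D`, which is closed under `f'`. -/
structure Loc (φ : V → V) (D : Set V) (f' f : V → V) : Prop where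
  mem : ∀ v ∈ D, f' v ∈ D
  eq : ∀ v ∈ D, φ (f' v) = f (φ v)

variable {φ : V → V} {D : Set V} {f' g' : V → V}

lemma Loc.walk (hf : Loc φ D f' f) (hg : Loc φ D g' g) (n : ℕ) :
    Loc φ D (walk f' g' n) (walk f g n) := by
  induction n generalizing f g f' g' with
  | zero => exact ⟨fun v hv => hv, fun v _ => rfl⟩
  | succ n ih =>
    refine ⟨fun v hv => (ih hg hf).mem _ (hf.mem v hv), fun v hv => ?_⟩
    rw [walk_succ, walk_succ, (ih hg hf).eq _ (hf.mem v hv), hf.eq v hv]

lemma Loc.alt (hf : Loc φ D f' f) (hg : Loc φ D g' g) (n : ℕ) :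
    Loc φ D (alt f' g' n) (alt f g n) := by
  induction n generalizing f g f' g' with
  | zero => exact hf
  | succ n ih => exact ih hg hf

lemma Loc.back (hf : Loc φ D f' f) (hg : Loc φ D g' g) (n : ℕ) :
    Loc φ D (back f' g' n) (back f g n) :=
  (hg.alt hf n).walk (hf.alt hg n) n

lemma Loc.fix_iff (hφ : Injective φ) (hf : Loc φ D f' f) {v : V} (hv : v ∈ D) :
    f' v = v ↔ f (φ v) = φ v := by
  rw [← hf.eq v hv, hφ.eq_iff]

lemma Loc.free (hφ : Injective φ) (hf : Loc φ D f' f) (hg : Loc φ D g' g) (n : ℕ) {v : V}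
    (hv : v ∈ D) : Free f' g' n v ↔ Free f g n (φ v) := by
  induction n generalizing f g f' g' v with
  | zero => simp
  | succ n ih =>
    rw [free_succ, free_succ, ih hg hf (hf.mem v hv), hf.eq v hv, Ne, Ne, hf.fix_iff hφ hv]

end Pool.Agent.MP_93f6c7_pr

end

section

/-! Probability tools: indicators, bounded measurable functions, independence, mass transport. -/

set_option autoImplicit false
set_option linter.unusedSectionVars false
open MeasureTheory Function
open scoped Classical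

namespace Pool.Agent.MP_93f6c7_pr

/-- Real indicator of a proposition. -/
noncomputable def ind (p : Prop) : ℝ := if p then 1 else 0

lemma ind_pos {p : Prop} (h : p) : ind p = 1 := if_pos h
lemma ind_neg {p : Prop} (h : ¬ p) : ind p = 0 := if_neg h
lemma ind_nonneg (p : Prop) : 0 ≤ ind p := by unfold ind; split_ifs <;> norm_num
lemma ind_le_one (p : Prop) : ind p ≤ 1 := by unfold ind; split_ifs <;> norm_num
lemma abs_ind_le (p : Prop) : |ind p| ≤ 1 := by rw [abs_of_nonneg (ind_nonneg p)]; exact ind_le_one p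
lemma ind_and (p q : Prop) : ind (p ∧ q) = ind p * ind q := by
  unfold ind; by_cases p <;> by_cases q <;> simp [*]
lemma ind_not (p : Prop) : ind (¬ p) = 1 - ind p := by
  unfold ind; by_cases p <;> simp [*]
lemma ind_congr {p q : Prop} (h : p ↔ q) : ind p = ind q := by rw [propext h]
lemma ind_mono {p q : Prop} (h : p → q) : ind p ≤ ind q := by
  by_cases hp : p
  · rw [ind_pos hp, ind_pos (h hp)]
  · rw [ind_neg hp]; exact ind_nonneg q
lemma ind_or_le (p q : Prop) : ind (p ∨ q) ≤ ind p + ind q := by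
  unfold ind; by_cases p <;> by_cases q <;> simp [*]
lemma ind_mul_self (p : Prop) : ind p * ind p = ind p := by
  unfold ind; by_cases p <;> simp [*]
lemma ind_le_sum {ι : Type} {s : Finset ι} {p : Prop} {q : ι → Prop} (h : p → ∃ i ∈ s, q i) :
    ind p ≤ ∑ i ∈ s, ind (q i) := by
  by_cases hp : p
  · obtain ⟨i, hi, hq⟩ := h hp
    rw [ind_pos hp, ← ind_pos hq]
    exact Finset.single_le_sum (f := fun i => ind (q i)) (fun j _ => ind_nonneg _) hi
  · rw [ind_neg hp]; exact Finset.sum_nonneg fun j _ => ind_nonneg _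
lemma sum_ind_le {ι : Type} {s : Finset ι} {p : Prop} {q : ι → Prop}
    (h : ∀ i ∈ s, q i → p) (hu : ∀ i ∈ s, ∀ j ∈ s, q i → q j → i = j) :
    ∑ i ∈ s, ind (q i) ≤ ind p := by
  by_cases hq : ∃ i ∈ s, q i
  · obtain ⟨i, hi, hqi⟩ := hq
    rw [Finset.sum_eq_single i, ind_pos hqi, ind_pos (h i hi hqi)]
    · intro j hj hji
      exact ind_neg fun hqj => hji (hu j hj i hi hqj hqi)
    · intro h; exact absurd hi h
  · rw [Finset.sum_eq_zero fun i hi => ind_neg fun hqi => hq ⟨i, hi, hqi⟩]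
    exact ind_nonneg _

section general
variable {Z Z' : Type} [MeasurableSpace Z] [MeasurableSpace Z']

lemma meas_ind {E : Z → Prop} (h : Measurable E) : Measurable fun z => ind (E z) := by
  unfold ind
  exact Measurable.ite (measurableSet_setOfPred.2 h) measurable_const measurable_const

lemma meas_ite {β : Type} [MeasurableSpace β] {E : Z → Prop} {f g : Z → β} (h : Measurable E)
    (hf : Measurable f) (hg : Measurable g) [∀ z, Decidable (E z)] :
    Measurable fun z => if E z then f z else g z :=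
  Measurable.ite (measurableSet_setOfPred.2 h) hf hg

lemma meas_app {V β : Type} [MeasurableSpace V] [DiscreteMeasurableSpace V] [Countable V]
    [MeasurableSpace β] {f : Z → V → β} {v : Z → V} (hf : Measurable f) (hv : Measurable v) :
    Measurable fun z => f z (v z) := by
  have : Measurable fun p : Z × V => f p.1 p.2 :=
    measurable_from_prod_countable_left fun v => (measurable_pi_apply v).comp hf
  exact this.comp (measurable_id.prodMk hv)

lemma meas_at {ι β : Type} [MeasurableSpace β] {f : Z → ι → β} (hf : Measurable f) (v : ι) :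
    Measurable fun z => f z v := (measurable_pi_apply v).comp hf

lemma meas_eq {V : Type} [MeasurableSpace V] [DiscreteMeasurableSpace V] [Countable V]
    {v w : Z → V} (hv : Measurable v) (hw : Measurable w) : Measurable fun z => v z = w z := by
  have : Measurable fun p : V × V => p.1 = p.2 := Measurable.of_discrete
  exact this.comp (hv.prodMk hw)

lemma meas_ne {V : Type} [MeasurableSpace V] [DiscreteMeasurableSpace V] [Countable V]
    {v w : Z → V} (hv : Measurable v) (hw : Measurable w) : Measurable fun z => v z ≠ w z :=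
  (meas_eq hv hw).not

lemma meas_rel {V : Type} [MeasurableSpace V] [DiscreteMeasurableSpace V] [Countable V]
    (r : V → V → Prop) {v w : Z → V} (hv : Measurable v) (hw : Measurable w) :
    Measurable fun z => r (v z) (w z) := by
  have : Measurable fun p : V × V => r p.1 p.2 := Measurable.of_discrete
  exact this.comp (hv.prodMk hw)

lemma meas_le {v w : Z → ℝ} (hv : Measurable v) (hw : Measurable w) :
    Measurable fun z => v z ≤ w z := measurableSet_setOfPred.1 (measurableSet_le hv hw)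

/-- Bounded measurable real functions. -/
structure BM (f : Z → ℝ) : Prop where
  meas : Measurable f
  bdd : ∃ B, ∀ z, |f z| ≤ B

lemma BM.integrable {f : Z → ℝ} (h : BM f) {μ : Measure Z} [IsFiniteMeasure μ] :
    Integrable f μ := by
  obtain ⟨B, hB⟩ := h.bdd
  exact Integrable.of_bound h.meas.aestronglyMeasurable B (Filter.Eventually.of_forall hB)

lemma BM.const (c : ℝ) : BM (fun _ : Z => c) := ⟨measurable_const, |c|, fun _ => le_rfl⟩
lemma BM.ind {E : Z → Prop} (h : Measurable E) : BM (fun z => ind (E z)) :=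
  ⟨meas_ind h, 1, fun _ => abs_ind_le _⟩
lemma BM.add {f g : Z → ℝ} (hf : BM f) (hg : BM g) : BM (fun z => f z + g z) := by
  obtain ⟨A, hA⟩ := hf.bdd; obtain ⟨B, hB⟩ := hg.bdd
  exact ⟨hf.meas.add hg.meas, A + B, fun z => (abs_add_le _ _).trans (add_le_add (hA z) (hB z))⟩
lemma BM.sub {f g : Z → ℝ} (hf : BM f) (hg : BM g) : BM (fun z => f z - g z) := by
  obtain ⟨A, hA⟩ := hf.bdd; obtain ⟨B, hB⟩ := hg.bdd
  exact ⟨hf.meas.sub hg.meas, A + B, fun z => (abs_sub _ _).trans (add_le_add (hA z) (hB z))⟩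
lemma BM.mul {f g : Z → ℝ} (hf : BM f) (hg : BM g) : BM (fun z => f z * g z) := by
  obtain ⟨A, hA⟩ := hf.bdd; obtain ⟨B, hB⟩ := hg.bdd
  refine ⟨hf.meas.mul hg.meas, A * B, fun z => ?_⟩
  rw [abs_mul]
  exact mul_le_mul (hA z) (hB z) (abs_nonneg _) ((abs_nonneg _).trans (hA z))
lemma BM.sq {f : Z → ℝ} (hf : BM f) : BM (fun z => f z ^ 2) := by
  simpa only [pow_two] using hf.mul hf
lemma BM.sum {ι : Type} {s : Finset ι} {f : ι → Z → ℝ} (hf : ∀ i ∈ s, BM (f i)) :
    BM (fun z => ∑ i ∈ s, f i z) := by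
  induction s using Finset.induction_on with
  | empty => simpa using BM.const (Z := Z) 0
  | insert i s hi ih =>
    simp only [Finset.sum_insert hi]
    exact (hf i (by simp)).add (ih fun j hj => hf j (by simp [hj]))
lemma BM.comp {f : Z → ℝ} (hf : BM f) {T : Z' → Z} (hT : Measurable T) : BM (fun z => f (T z)) := by
  obtain ⟨A, hA⟩ := hf.bdd
  exact ⟨hf.meas.comp hT, A, fun z => hA _⟩
lemma BM.left {f : Z × Z' → ℝ} (hf : BM f) (z : Z) : BM (fun y => f (z, y)) :=
  hf.comp measurable_prodMk_left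
lemma BM.integral {f : Z × Z' → ℝ} (hf : BM f) (ν : Measure Z') [IsProbabilityMeasure ν] :
    BM (fun z => ∫ y, f (z, y) ∂ν) := by
  obtain ⟨A, hA⟩ := hf.bdd
  refine ⟨(hf.meas.stronglyMeasurable.integral_prod_right' (ν := ν)).measurable, A, fun z => ?_⟩
  have := norm_integral_le_of_norm_le_const (μ := ν) (f := fun y => f (z, y)) (C := A)
    (Filter.Eventually.of_forall fun y => hA _)
  simpa using this

variable {μ : Measure Z} [IsProbabilityMeasure μ] {ν : Measure Z'} [IsProbabilityMeasure ν]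

lemma int_mono {f g : Z → ℝ} (hf : BM f) (hg : BM g) (h : ∀ z, f z ≤ g z) :
    ∫ z, f z ∂μ ≤ ∫ z, g z ∂μ := integral_mono hf.integrable hg.integrable h

lemma int_add {f g : Z → ℝ} (hf : BM f) (hg : BM g) :
    ∫ z, f z + g z ∂μ = ∫ z, f z ∂μ + ∫ z, g z ∂μ := integral_add hf.integrable hg.integrable

lemma int_sub {f g : Z → ℝ} (hf : BM f) (hg : BM g) :
    ∫ z, f z - g z ∂μ = ∫ z, f z ∂μ - ∫ z, g z ∂μ := integral_sub hf.integrable hg.integrable

lemma int_sum {ι : Type} {s : Finset ι} {f : ι → Z → ℝ} (hf : ∀ i ∈ s, BM (f i)) :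
    ∫ z, ∑ i ∈ s, f i z ∂μ = ∑ i ∈ s, ∫ z, f i z ∂μ :=
  integral_finsetSum s fun i hi => (hf i hi).integrable

lemma int_const (c : ℝ) : ∫ _, c ∂μ = c := by simp

lemma int_prod {f : Z × Z' → ℝ} (hf : BM f) :
    ∫ z, f z ∂(μ.prod ν) = ∫ x, ∫ y, f (x, y) ∂ν ∂μ := integral_prod f hf.integrable

lemma int_map {T : Z → Z'} (hT : MeasurePreserving T μ ν) {f : Z' → ℝ} (hf : Measurable f) :
    ∫ z, f (T z) ∂μ = ∫ z, f z ∂ν := by
  rw [← hT.map_eq, integral_map hT.measurable.aemeasurable hf.aestronglyMeasurable]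

lemma Pr_eq {E : Z → Prop} (h : Measurable E) : Pr μ E = ∫ z, ind (E z) ∂μ := by
  unfold Pr
  rw [← integral_indicator_one (measurableSet_setOfPred.2 h)]
  congr 1

omit [IsProbabilityMeasure μ] in
lemma Pr_nonneg (E : Z → Prop) : 0 ≤ Pr μ E := measureReal_nonneg
lemma Pr_le_one (E : Z → Prop) : Pr μ E ≤ 1 := measureReal_le_one
lemma Pr_mono {E E' : Z → Prop} (h : ∀ z, E z → E' z) : Pr μ E ≤ Pr μ E' :=
  measureReal_mono h
omit [IsProbabilityMeasure μ] in
lemma Pr_congr {E E' : Z → Prop} (h : ∀ z, E z ↔ E' z) : Pr μ E = Pr μ E' := by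
  congr 1; funext z; exact propext (h z)
omit [IsProbabilityMeasure μ] in
lemma Pr_false {E : Z → Prop} (h : ∀ z, ¬ E z) : Pr μ E = 0 := by
  unfold Pr
  have : {z | E z} = ∅ := by ext z; simp [h z]
  simp [this]
lemma Pr_true {E : Z → Prop} (h : ∀ z, E z) : Pr μ E = 1 := by
  unfold Pr
  have : {z | E z} = Set.univ := by ext z; simp [h z]
  simp [this]
lemma Pr_or_le {E E₁ E₂ : Z → Prop} (h : ∀ z, E z → E₁ z ∨ E₂ z) :
    Pr μ E ≤ Pr μ E₁ + Pr μ E₂ :=
  (Pr_mono h).trans (measureReal_union_le _ _)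
lemma Pr_le_sum {ι : Type} {s : Finset ι} {E : Z → Prop} {F : ι → Z → Prop}
    (h : ∀ z, E z → ∃ i ∈ s, F i z) : Pr μ E ≤ ∑ i ∈ s, Pr μ (F i) := by
  refine le_trans (measureReal_mono (s₂ := ⋃ i ∈ s, {z | F i z}) (fun z hz => ?_) (measure_ne_top _ _))
    (measureReal_biUnion_finset_le _ _)
  simpa using h z hz
lemma Pr_not {E : Z → Prop} (h : Measurable E) : Pr μ (fun z => ¬ E z) = 1 - Pr μ E := by
  rw [Pr_eq h.not, Pr_eq h]
  simp only [ind_not]
  rw [int_sub (BM.const 1) (BM.ind h), int_const]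
lemma one_sub_Pr_le {E E' : Z → Prop} (h : ∀ z, ¬ E z → E' z) : 1 - Pr μ E ≤ Pr μ E' := by
  have := Pr_or_le (μ := μ) (E := fun _ => True) (E₁ := E) (E₂ := E') (fun z _ => by
    by_cases hz : E z
    · exact Or.inl hz
    · exact Or.inr (h z hz))
  rw [Pr_true fun _ => trivial] at this
  linarith
lemma sum_Pr_le {ι : Type} {s : Finset ι} {E : Z → Prop} {F : ι → Z → Prop} (hE : Measurable E)
    (hF : ∀ i ∈ s, Measurable (F i)) (h : ∀ z, ∀ i ∈ s, F i z → E z)
    (hu : ∀ z, ∀ i ∈ s, ∀ j ∈ s, F i z → F j z → i = j) :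
    ∑ i ∈ s, Pr μ (F i) ≤ Pr μ E := by
  rw [Finset.sum_congr rfl fun i hi => Pr_eq (μ := μ) (hF i hi), Pr_eq hE,
    ← int_sum fun i hi => BM.ind (hF i hi)]
  exact int_mono (BM.sum fun i hi => BM.ind (hF i hi)) (BM.ind hE)
    fun z => sum_ind_le (h z) (hu z)
lemma Pr_map {T : Z → Z'} (hT : MeasurePreserving T μ ν) {E : Z' → Prop} (h : Measurable E) :
    Pr μ (fun z => E (T z)) = Pr ν E := by
  rw [Pr_eq (E := fun z => E (T z)) (h.comp hT.measurable), Pr_eq h]
  exact int_map hT (meas_ind h)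
lemma BM.Pr {E : Z × Z' → Prop} (h : Measurable E) (ν : Measure Z') [IsProbabilityMeasure ν] :
    BM (fun z => Pr ν (fun y => E (z, y))) := by
  have := (BM.ind h).integral ν
  convert this using 2 with z
  exact Pr_eq (h.comp measurable_prodMk_left)
lemma Pr_prod {E : Z × Z' → Prop} (h : Measurable E) :
    Pr (μ.prod ν) E = ∫ x, Pr ν (fun y => E (x, y)) ∂μ := by
  rw [Pr_eq h, int_prod (BM.ind h)]
  congr 1; funext x
  exact (Pr_eq (h.comp measurable_prodMk_left)).symm
lemma Pr_fst {E : Z → Prop} (h : Measurable E) :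
    Pr (μ.prod ν) (fun z => E z.1) = Pr μ E := Pr_map measurePreserving_fst h

/-- Lower bound for a probability on a product space from a conditional lower bound. -/
lemma Pr_prod_ge {E : Z × Z' → Prop} {A : Z → Prop} (h : Measurable E) (hA : Measurable A)
    {c : ℝ} (hc : ∀ x, A x → c ≤ Pr ν (fun y => E (x, y))) :
    c * Pr μ A ≤ Pr (μ.prod ν) E := by
  rw [Pr_prod h, Pr_eq hA, ← integral_const_mul]
  refine int_mono ((BM.const c).mul (BM.ind hA)) (BM.Pr h ν) fun x => ?_
  by_cases hx : A x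
  · rw [ind_pos hx, mul_one]; exact hc x hx
  · rw [ind_neg hx, mul_zero]; exact Pr_nonneg _

/-- Upper bound for a probability on a product space from a conditional upper bound. -/
lemma Pr_prod_le {E : Z × Z' → Prop} {f : Z → ℝ} (h : Measurable E) (hf : BM f)
    (hc : ∀ x, Pr ν (fun y => E (x, y)) ≤ f x) :
    Pr (μ.prod ν) E ≤ ∫ x, f x ∂μ := by
  rw [Pr_prod h]
  exact int_mono (BM.Pr h ν) hf hc

lemma Pr_prod_le_const {E : Z × Z' → Prop} (h : Measurable E) {c : ℝ}
    (hc : ∀ x, Pr ν (fun y => E (x, y)) ≤ c) : Pr (μ.prod ν) E ≤ c := by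
  have := Pr_prod_le (μ := μ) h (BM.const c) hc
  rwa [int_const] at this

end general

end Pool.Agent.MP_93f6c7_pr

end

section

/-! Independence and mass transport on the label space. -/

set_option autoImplicit false
set_option linter.unusedSectionVars false
open MeasureTheory Function
open scoped Classical

namespace Pool.Agent.MP_93f6c7_pr

variable {V : Type}

lemma meas_pw (D : Set (V × ℕ)) : Measurable fun p : Y V × Y V => (D.piecewise p.1 p.2 : Y V) := by
  refine measurable_pi_lambda _ fun i => ?_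
  by_cases h : i ∈ D
  · simp only [Set.piecewise_eq_of_mem _ _ _ h]; fun_prop
  · simp only [Set.piecewise_eq_of_notMem _ _ _ h]; fun_prop

lemma pw_mp (D : Set (V × ℕ)) :
    MeasurePreserving (fun p : Y V × Y V => (D.piecewise p.1 p.2 : Y V)) ((nu V).prod (nu V))
      (nu V) := by
  refine ⟨meas_pw D, ?_⟩
  unfold nu
  refine Measure.eq_infinitePi _ fun s t ht => ?_
  rw [Measure.map_apply (meas_pw D) (MeasurableSet.pi s.countable_toSet fun i _ => ht i)]
  have : (fun p : Y V × Y V => (D.piecewise p.1 p.2 : Y V)) ⁻¹' (Set.pi s t) =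
      (Set.pi (s.filter (· ∈ D)) t) ×ˢ (Set.pi (s.filter (· ∉ D)) t) := by
    ext p
    simp only [Set.mem_preimage, Set.mem_pi, Finset.mem_coe, Set.mem_prod, Finset.mem_filter]
    constructor
    · intro h
      refine ⟨fun i hi => ?_, fun i hi => ?_⟩
      · have := h i hi.1
        rwa [Set.piecewise_eq_of_mem _ _ _ hi.2] at this
      · have := h i hi.1
        rwa [Set.piecewise_eq_of_notMem _ _ _ hi.2] at this
    · intro h i hi
      by_cases hD : i ∈ D
      · rw [Set.piecewise_eq_of_mem _ _ _ hD]; exact h.1 i ⟨hi, hD⟩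
      · rw [Set.piecewise_eq_of_notMem _ _ _ hD]; exact h.2 i ⟨hi, hD⟩
  rw [this, Measure.prod_prod, Measure.infinitePi_pi _ fun i _ => ht i,
    Measure.infinitePi_pi _ fun i _ => ht i, Finset.prod_filter_mul_prod_filter_not]

/-- Freezing lemma. -/
lemma int_freeze {Φ : Y V × Y V → ℝ} (h : BM Φ) (D : Set (V × ℕ))
    (h1 : ∀ y', DependsOn (fun y => Φ (y, y')) D)
    (h2 : ∀ y, DependsOn (fun y' => Φ (y, y')) Dᶜ) :
    ∫ y, Φ (y, y) ∂(nu V) = ∫ y, ∫ y', Φ (y, y') ∂(nu V) ∂(nu V) := by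
  have hm : Measurable fun y : Y V => Φ (y, y) := h.meas.comp (measurable_id.prodMk measurable_id)
  rw [← int_map (pw_mp D) hm, ← int_prod h]
  congr 1; funext p
  have e1 := h1 (D.piecewise p.1 p.2) (x := D.piecewise p.1 p.2) (y := p.1)
    fun i hi => Set.piecewise_eq_of_mem _ _ _ hi
  have e2 := @h2 p.1 (D.piecewise p.1 p.2) p.2
    fun i hi => Set.piecewise_eq_of_notMem _ _ _ hi
  exact e1.trans e2

lemma Pr_freeze {E : Y V × Y V → Prop} (h : Measurable E) (D : Set (V × ℕ))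
    (h1 : ∀ y', DependsOn (fun y => E (y, y')) D)
    (h2 : ∀ y, DependsOn (fun y' => E (y, y')) Dᶜ) :
    Pr (nu V) (fun y => E (y, y)) = Pr ((nu V).prod (nu V)) E := by
  rw [Pr_eq (E := fun y => E (y, y)) (h.comp (measurable_id.prodMk measurable_id)), Pr_eq h,
    int_prod (BM.ind h)]
  exact int_freeze (BM.ind h) D (fun y' _ _ hh => congrArg ind (h1 y' hh))
    (fun y' _ _ hh => congrArg ind (h2 y' hh))

lemma int_indep {f g : Y V → ℝ} (hf : BM f) (hg : BM g) {D D' : Set (V × ℕ)}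
    (h1 : DependsOn f D) (h2 : DependsOn g D') (hD : Disjoint D D') :
    ∫ y, f y * g y ∂(nu V) = (∫ y, f y ∂(nu V)) * ∫ y, g y ∂(nu V) := by
  have := int_freeze (Φ := fun p => f p.1 * g p.2)
    ((hf.comp measurable_fst).mul (hg.comp measurable_snd)) D
    (fun y' _ _ hh => by simp only [h1 hh])
    (fun y' _ _ hh => by
      simp only [h2 fun i hi => hh i (fun hD' => Set.disjoint_left.1 hD hD' hi)])
  simp only at this
  rw [this]
  simp only [integral_const_mul, integral_mul_const]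

lemma Pr_indep {E F : Y V → Prop} (hE : Measurable E) (hF : Measurable F) {D D' : Set (V × ℕ)}
    (h1 : DependsOn E D) (h2 : DependsOn F D') (hD : Disjoint D D') :
    Pr (nu V) (fun y => E y ∧ F y) = Pr (nu V) E * Pr (nu V) F := by
  rw [Pr_eq (hE.and hF), Pr_eq hE, Pr_eq hF]
  simp only [ind_and]
  exact int_indep (BM.ind hE) (BM.ind hF) (fun _ _ hh => congrArg ind (h1 hh))
    (fun _ _ hh => congrArg ind (h2 hh)) hD

lemma dep_of_imp {E : Y V → Prop} {D : Set (V × ℕ)}
    (h : ∀ y y' : Y V, (∀ i ∈ D, y i = y' i) → E y → E y') : DependsOn E D :=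
  fun y y' hh => propext ⟨h y y' hh, h y' y fun i hi => (hh i hi).symm⟩

lemma comp_inj_mp {ι : V × ℕ → V × ℕ} (hι : Injective ι) :
    MeasurePreserving (fun (y : Y V) (i : V × ℕ) => y (ι i)) (nu V) (nu V) :=
  ⟨by fun_prop, Measure.map_infinitePi_infinitePi_of_inj hι⟩

lemma reix_mp {j : ℕ → ℕ} (hj : Injective j) : MeasurePreserving (reix j) (nu V) (nu V) :=
  comp_inj_mp (ι := fun i => (i.1, j i.2)) fun a b h => by
    simp only [Prod.mk.injEq] at h
    exact Prod.ext h.1 (hj h.2)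

lemma meas_reix (j : ℕ → ℕ) : Measurable (reix j : Y V → Y V) := by
  unfold reix; fun_prop

lemma act_mp {G : SimpleGraph V} (φ : G ≃g G) : MeasurePreserving (act φ) (nu V) (nu V) :=
  comp_inj_mp (ι := fun i => (φ i.1, i.2)) fun a b h => by
    simp only [Prod.mk.injEq] at h
    exact Prod.ext (φ.injective h.1) h.2

/-- Splitting the labels into even and odd ones. -/
def split (y : Y V) : Y V × Y V := (reix (fun k => 2 * k) y, reix (fun k => 2 * k + 1) y)

lemma meas_split : Measurable (split : Y V → Y V × Y V) := (meas_reix _).prodMk (meas_reix _)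

lemma split_mp : MeasurePreserving split (nu V) ((nu V).prod (nu V)) := by
  have h1 : Injective fun k : ℕ => 2 * k := fun a b h => by simpa using h
  have h2 : Injective fun k : ℕ => 2 * k + 1 := fun a b h => by simpa using h
  have h := (reix_mp (V := V) h1).prod (reix_mp (V := V) h2)
  obtain ⟨D, hD⟩ : ∃ D : Set (V × ℕ), ∀ i, i ∈ D ↔ i.2 % 2 = 0 :=
    ⟨{i | i.2 % 2 = 0}, fun _ => Iff.rfl⟩
  have e : Prod.map (reix fun k => 2 * k) (reix fun k => 2 * k + 1) =
      split ∘ (fun p : Y V × Y V => (D.piecewise p.1 p.2 : Y V)) := by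
    funext p
    refine Prod.ext ?_ ?_
    · funext i
      exact (Set.piecewise_eq_of_mem D p.1 p.2 (i := (i.1, 2 * i.2)) (by simp [hD])).symm
    · funext i
      exact (Set.piecewise_eq_of_notMem D p.1 p.2 (i := (i.1, 2 * i.2 + 1)) (by simp [hD])).symm
  refine ⟨meas_split, ?_⟩
  conv_lhs => rw [← (pw_mp D).map_eq]
  rw [Measure.map_map meas_split (meas_pw D)]
  exact (congrArg (fun T => Measure.map T _) e.symm).trans h.map_eq

/-- The diagonal action on pairs of labels. -/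
def act2 {G : SimpleGraph V} (φ : G ≃g G) (p : Y V × Y V) : Y V × Y V := (act φ p.1, act φ p.2)

lemma act2_mp {G : SimpleGraph V} (φ : G ≃g G) :
    MeasurePreserving (act2 φ) ((nu V).prod (nu V)) ((nu V).prod (nu V)) :=
  (act_mp φ).prod (act_mp φ)

lemma split_act {G : SimpleGraph V} (φ : G ≃g G) (y : Y V) :
    split (act φ y) = act2 φ (split y) := rfl

/-! ### Probabilities of elementary events -/

lemma meas_lab (i : V × ℕ) : Measurable fun y : Y V => (y i : ℝ) := by fun_prop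

lemma Pr_lab (i : V × ℕ) {E : unitInterval → Prop} (hE : Measurable E) :
    Pr (nu V) (fun y => E (y i)) = Pr volume E :=
  Pr_map (measurePreserving_eval_infinitePi (fun _ : V × ℕ => (volume : Measure unitInterval)) i) hE

lemma Pr_Ico {s t : ℝ} (hs : 0 ≤ s) (hst : s ≤ t) (ht : t ≤ 1) :
    Pr (volume : Measure unitInterval) (fun u => s ≤ (u : ℝ) ∧ (u : ℝ) < t) = t - s := by
  have : {u : unitInterval | s ≤ (u : ℝ) ∧ (u : ℝ) < t} =
      Set.Ico (⟨s, hs, hst.trans ht⟩ : unitInterval) ⟨t, hs.trans hst, ht⟩ := by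
    ext u; simp [Set.mem_Ico, ← Subtype.coe_le_coe, ← Subtype.coe_lt_coe]
  unfold Pr
  rw [this, Measure.real, unitInterval.volume_Ico, ENNReal.toReal_ofReal (by simpa using hst)]

lemma Pr_lab_Ico (i : V × ℕ) {s t : ℝ} (hs : 0 ≤ s) (hst : s ≤ t) (ht : t ≤ 1) :
    Pr (nu V) (fun y => s ≤ (y i : ℝ) ∧ (y i : ℝ) < t) = t - s := by
  rw [← Pr_Ico hs hst ht]
  exact Pr_lab i (E := fun u => s ≤ (u : ℝ) ∧ (u : ℝ) < t)
    (measurableSet_setOfPred.1 (measurable_subtype_coe measurableSet_Ico))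

lemma Pr_lab_lt (i : V × ℕ) {t : ℝ} (h0 : 0 ≤ t) (ht : t ≤ 1) :
    Pr (nu V) (fun y => (y i : ℝ) < t) = t := by
  have := Pr_lab_Ico i le_rfl h0 ht
  rw [sub_zero] at this
  exact (Pr_congr fun y => by simp [(y i).2.1]).trans this

lemma meas_lab_lt (i : V × ℕ) (t : ℝ) : Measurable fun y : Y V => (y i : ℝ) < t :=
  measurableSet_setOfPred.1 (measurableSet_lt (meas_lab i) measurable_const)

/-- Product formula for events depending on distinct single labels. -/
lemma Pr_box (s : Finset (V × ℕ)) (E : V × ℕ → unitInterval → Prop)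
    (hE : ∀ i, Measurable (E i)) :
    Pr (nu V) (fun y => ∀ i ∈ s, E i (y i)) = ∏ i ∈ s, Pr volume (E i) := by
  unfold Pr nu
  have : {y : Y V | ∀ i ∈ s, E i (y i)} = Set.pi s (fun i => {u | E i u}) := by
    ext y; simp
  rw [this, Measure.real, Measure.infinitePi_pi _ fun i _ => measurableSet_setOfPred.2 (hE i),
    ENNReal.toReal_prod]
  rfl

lemma Pr_unit_lt {t : ℝ} (h0 : 0 ≤ t) (ht : t ≤ 1) :
    Pr (volume : Measure unitInterval) (fun u => (u : ℝ) < t) = t := by
  have := Pr_Ico le_rfl h0 ht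
  rw [sub_zero] at this
  exact (Pr_congr fun u => by simp [u.2.1]).trans this

lemma meas_unit_lt (t : ℝ) : Measurable fun u : unitInterval => (u : ℝ) < t :=
  measurableSet_setOfPred.1 (measurableSet_lt measurable_subtype_coe measurable_const)

/-- Fair coins at the vertices of `A` show heads and those of `B` show tails. -/
lemma Pr_coins (k : ℕ) (A B : Finset V) (hAB : Disjoint A B) {n : ℕ} (hn : A.card + B.card ≤ n) :
    (1 / 2 : ℝ) ^ n ≤ Pr (nu V) (fun y => (∀ v ∈ A, (y (v, k) : ℝ) < 1 / 2) ∧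
      ∀ v ∈ B, ¬ (y (v, k) : ℝ) < 1 / 2) := by
  let s : Finset (V × ℕ) := (A ∪ B).image fun v => (v, k)
  let E : V × ℕ → unitInterval → Prop := fun i u => (i.1 ∈ A ↔ (u : ℝ) < 1 / 2)
  have hE : ∀ i, Measurable (E i) := fun i => measurable_const.iff (meas_unit_lt _)
  have h1 := Pr_box s E hE
  have h2 : ∀ i, Pr volume (E i) = 1 / 2 := by
    intro i
    by_cases hi : i.1 ∈ A
    · exact (Pr_congr fun u => by simp [E, hi]).trans
        (Pr_unit_lt (t := 1 / 2) (by norm_num) (by norm_num))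
    · have := Pr_not (μ := volume) (meas_unit_lt (1 / 2))
      rw [Pr_unit_lt (t := 1 / 2) (by norm_num) (by norm_num)] at this
      exact ((Pr_congr fun u => by simp [E, hi]).trans this).trans (by norm_num)
  simp only [h2, Finset.prod_const] at h1
  have hc : s.card ≤ n :=
    Finset.card_image_le.trans ((Finset.card_union_le _ _).trans hn)
  refine le_trans (pow_le_pow_of_le_one (by norm_num) (by norm_num) hc) ?_
  rw [← h1]
  refine Pr_mono fun y hy => ⟨fun v hv => ?_, fun v hv => ?_⟩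
  · exact (hy (v, k) (Finset.mem_image_of_mem _ (Finset.mem_union_left _ hv))).1 hv
  · intro h
    exact Finset.disjoint_left.1 hAB
      ((hy (v, k) (Finset.mem_image_of_mem _ (Finset.mem_union_right _ hv))).2 h) hv

/-! ### Mass transport -/

section mtp
variable [MeasurableSpace V] [DiscreteMeasurableSpace V] [Countable V]
  {G : SimpleGraph V} [G.LocallyFinite]
  {Z : Type} [MeasurableSpace Z] {μ : Measure Z} [IsProbabilityMeasure μ]
  {a : (G ≃g G) → Z → Z}

/-- Bounded measurable invariant function of a point and a vertex. -/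
structure IF (a : (G ≃g G) → Z → Z) (f : Z → V → ℝ) : Prop where
  meas : Measurable f
  bdd : ∃ B, ∀ z v, |f z v| ≤ B
  inv : ∀ φ z v, f (a φ z) v = f z (φ v)

/-- Measurable invariant predicate of a point and a vertex. -/
structure IP (a : (G ≃g G) → Z → Z) (E : Z → V → Prop) : Prop where
  meas : Measurable E
  inv : ∀ φ z v, E (a φ z) v ↔ E z (φ v)

/-- Measurable equivariant map of the vertices. -/
structure EM (a : (G ≃g G) → Z → Z) (τ : Z → V → V) : Prop where
  meas : Measurable τ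
  eqv : ∀ (φ : G ≃g G) z v, φ (τ (a φ z) v) = τ z (φ v)

/-- Measurable equivariant matching. -/
structure EI (a : (G ≃g G) → Z → Z) (τ : Z → V → V) : Prop extends EM a τ where
  inv : ∀ z, Involutive (τ z)
  adj : ∀ z v, τ z v ≠ v → G.Adj v (τ z v)

lemma EM.loc {τ : Z → V → V} (h : EM a τ) (φ : G ≃g G) (z : Z) :
    Loc φ Set.univ (τ (a φ z)) (τ z) := ⟨fun _ _ => trivial, fun v _ => h.eqv φ z v⟩

lemma IF.bm {f : Z → V → ℝ} (h : IF a f) (v : V) : BM fun z => f z v := by
  obtain ⟨B, hB⟩ := h.bdd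
  exact ⟨meas_at h.meas v, B, fun z => hB z v⟩

lemma IF.bm' {f : Z → V → ℝ} (h : IF a f) {τ : Z → V} (hτ : Measurable τ) :
    BM fun z => f z (τ z) := by
  obtain ⟨B, hB⟩ := h.bdd
  exact ⟨meas_app h.meas hτ, B, fun z => hB z _⟩

lemma IP.at {E : Z → V → Prop} (h : IP a E) (v : V) : Measurable fun z => E z v :=
  meas_at h.meas v

lemma IP.ind {E : Z → V → Prop} (h : IP a E) : IF a (fun z v => ind (E z v)) :=
  ⟨measurable_pi_lambda _ fun v => meas_ind (h.at v), ⟨1, fun _ _ => abs_ind_le _⟩,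
    fun φ z v => ind_congr (h.inv φ z v)⟩

lemma IP.and {E F : Z → V → Prop} (h : IP a E) (h' : IP a F) :
    IP a (fun z v => E z v ∧ F z v) :=
  ⟨measurable_pi_lambda _ fun v => (h.at v).and (h'.at v),
    fun φ z v => and_congr (h.inv φ z v) (h'.inv φ z v)⟩

lemma IP.or {E F : Z → V → Prop} (h : IP a E) (h' : IP a F) :
    IP a (fun z v => E z v ∨ F z v) :=
  ⟨measurable_pi_lambda _ fun v => (h.at v).or (h'.at v),
    fun φ z v => or_congr (h.inv φ z v) (h'.inv φ z v)⟩

lemma IP.not {E : Z → V → Prop} (h : IP a E) : IP a (fun z v => ¬ E z v) :=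
  ⟨measurable_pi_lambda _ fun v => (h.at v).not, fun φ z v => not_congr (h.inv φ z v)⟩

lemma IP.const (p : Prop) : IP a (fun _ _ => p) := ⟨measurable_const, fun _ _ _ => Iff.rfl⟩

lemma IP.exists {ι : Type} [Countable ι] {E : ι → Z → V → Prop} (h : ∀ i, IP a (E i)) :
    IP a (fun z v => ∃ i, E i z v) :=
  ⟨measurable_pi_lambda _ fun v => Measurable.exists fun i => (h i).at v,
    fun φ z v => exists_congr fun i => (h i).inv φ z v⟩

lemma IP.forall {ι : Type} [Countable ι] {E : ι → Z → V → Prop} (h : ∀ i, IP a (E i)) :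
    IP a (fun z v => ∀ i, E i z v) :=
  ⟨measurable_pi_lambda _ fun v => Measurable.forall fun i => (h i).at v,
    fun φ z v => forall_congr' fun i => (h i).inv φ z v⟩

lemma IP.comp {E : Z → V → Prop} (h : IP a E) {τ : Z → V → V} (hτ : EM a τ) :
    IP a (fun z v => E z (τ z v)) :=
  ⟨measurable_pi_lambda _ fun v => meas_app h.meas (meas_at hτ.meas v),
    fun φ z v => by rw [h.inv, hτ.eqv]⟩

lemma IP.eq {τ τ' : Z → V → V} (hτ : EM a τ) (hτ' : EM a τ') :
    IP a (fun z v => τ z v = τ' z v) :=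
  ⟨measurable_pi_lambda _ fun v => meas_eq (meas_at hτ.meas v) (meas_at hτ'.meas v),
    fun φ z v => by rw [← hτ.eqv, ← hτ'.eqv, φ.injective.eq_iff]⟩

lemma EM.id : EM a (fun _ v => v) := ⟨measurable_const, fun _ _ _ => rfl⟩

lemma IP.fix {τ : Z → V → V} (hτ : EM a τ) : IP a (fun z v => τ z v = v) := IP.eq hτ EM.id

lemma EM.comp {τ τ' : Z → V → V} (h : EM a τ) (h' : EM a τ') :
    EM a (fun z v => τ z (τ' z v)) :=
  ⟨measurable_pi_lambda _ fun v => meas_app h.meas (meas_at h'.meas v),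
    fun φ z v => by rw [h.eqv, h'.eqv]⟩

lemma EM.alt {τ τ' : Z → V → V} (h : EM a τ) (h' : EM a τ') (n : ℕ) :
    EM a (fun z => alt (τ z) (τ' z) n) := by
  induction n generalizing τ τ' with
  | zero => exact h
  | succ n ih => exact ih h' h

lemma EI.alt {τ τ' : Z → V → V} (h : EI a τ) (h' : EI a τ') (n : ℕ) :
    EI a (fun z => alt (τ z) (τ' z) n) := by
  induction n generalizing τ τ' with
  | zero => exact h
  | succ n ih => exact ih h' h

lemma EM.walk {τ τ' : Z → V → V} (h : EM a τ) (h' : EM a τ') (n : ℕ) :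
    EM a (fun z => walk (τ z) (τ' z) n) := by
  induction n generalizing τ τ' with
  | zero => exact EM.id
  | succ n ih => exact (ih h' h).comp h

lemma EM.back {τ τ' : Z → V → V} (h : EM a τ) (h' : EM a τ') (n : ℕ) :
    EM a (fun z => back (τ z) (τ' z) n) := (h'.alt h n).walk (h.alt h' n) n

lemma IP.free {τ τ' : Z → V → V} (h : EM a τ) (h' : EM a τ') (n : ℕ) :
    IP a (fun z => Free (τ z) (τ' z) n) := by
  induction n generalizing τ τ' with
  | zero => exact IP.const True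
  | succ n ih => exact (IP.fix h).not.and ((ih h' h).comp h)

lemma EM.ite {E : Z → V → Prop} (hE : IP a E) {τ τ' : Z → V → V} (h : EM a τ) (h' : EM a τ')
    [∀ z v, Decidable (E z v)] : EM a (fun z v => if E z v then τ z v else τ' z v) := by
  refine ⟨measurable_pi_lambda _ fun v => meas_ite (hE.at v) (meas_at h.meas v)
    (meas_at h'.meas v), fun φ z v => ?_⟩
  by_cases hz : E z (φ v)
  · rw [if_pos hz, if_pos ((hE.inv φ z v).2 hz), h.eqv]
  · rw [if_neg hz, if_neg (mt (hE.inv φ z v).1 hz), h'.eqv]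

lemma IF.comp {f : Z → V → ℝ} (h : IF a f) {τ : Z → V → V} (hτ : EM a τ) :
    IF a (fun z v => f z (τ z v)) := by
  obtain ⟨B, hB⟩ := h.bdd
  exact ⟨measurable_pi_lambda _ fun v => meas_app h.meas (meas_at hτ.meas v),
    ⟨B, fun z v => hB _ _⟩, fun φ z v => by rw [h.inv, hτ.eqv]⟩

lemma IF.const (c : ℝ) : IF a (fun _ _ => c) :=
  ⟨measurable_const, ⟨|c|, fun _ _ => le_rfl⟩, fun _ _ _ => rfl⟩

lemma IF.mul {f g : Z → V → ℝ} (h : IF a f) (h' : IF a g) :
    IF a (fun z v => f z v * g z v) := by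
  obtain ⟨A, hA⟩ := h.bdd; obtain ⟨B, hB⟩ := h'.bdd
  refine ⟨measurable_pi_lambda _ fun v => (meas_at h.meas v).mul (meas_at h'.meas v),
    ⟨A * B, fun z v => ?_⟩, fun φ z v => by rw [h.inv, h'.inv]⟩
  rw [abs_mul]
  exact mul_le_mul (hA z v) (hB z v) (abs_nonneg _) ((abs_nonneg _).trans (hA z v))

lemma IF.add {f g : Z → V → ℝ} (h : IF a f) (h' : IF a g) :
    IF a (fun z v => f z v + g z v) := by
  obtain ⟨A, hA⟩ := h.bdd; obtain ⟨B, hB⟩ := h'.bdd
  exact ⟨measurable_pi_lambda _ fun v => (meas_at h.meas v).add (meas_at h'.meas v),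
    ⟨A + B, fun z v => (abs_add_le _ _).trans (add_le_add (hA z v) (hB z v))⟩,
    fun φ z v => by rw [h.inv, h'.inv]⟩

lemma IF.sub {f g : Z → V → ℝ} (h : IF a f) (h' : IF a g) :
    IF a (fun z v => f z v - g z v) := by
  obtain ⟨A, hA⟩ := h.bdd; obtain ⟨B, hB⟩ := h'.bdd
  exact ⟨measurable_pi_lambda _ fun v => (meas_at h.meas v).sub (meas_at h'.meas v),
    ⟨A + B, fun z v => (abs_sub _ _).trans (add_le_add (hA z v) (hB z v))⟩,
    fun φ z v => by rw [h.inv, h'.inv]⟩

lemma IF.sq {f : Z → V → ℝ} (h : IF a f) : IF a (fun z v => f z v ^ 2) := by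
  simpa only [pow_two] using h.mul h

lemma IF.sum {ι : Type} {s : Finset ι} {f : ι → Z → V → ℝ} (hf : ∀ i ∈ s, IF a (f i)) :
    IF a (fun z v => ∑ i ∈ s, f i z v) := by
  induction s using Finset.induction_on with
  | empty => simpa using IF.const (a := a) 0
  | insert i s hi ih =>
    simp only [Finset.sum_insert hi]
    exact (hf i (by simp)).add (ih fun j hj => hf j (by simp [hj]))

lemma int_nbr (hs : HasSwaps G) (ha : ∀ φ, MeasurePreserving (a φ) μ μ) {f : Z → V → ℝ}
    (hf : IF a f) {o w : V} (h : G.Adj o w) : ∫ z, f z w ∂μ = ∫ z, f z o ∂μ := by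
  obtain ⟨φ, h1, _⟩ := hs o w h
  rw [← int_map (ha φ) (meas_at hf.meas o)]
  simp only [hf.inv, h1]

lemma Pr_nbr (hs : HasSwaps G) (ha : ∀ φ, MeasurePreserving (a φ) μ μ) {E : Z → V → Prop}
    (hE : IP a E) {o w : V} (h : G.Adj o w) : Pr μ (fun z => E z w) = Pr μ (fun z => E z o) := by
  rw [Pr_eq (hE.at w), Pr_eq (hE.at o)]
  exact int_nbr hs ha hE.ind h

/-- Mass transport along an equivariant matching. -/
lemma int_mtp (hs : HasSwaps G) (ha : ∀ φ, MeasurePreserving (a φ) μ μ) {f : Z → V → ℝ}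
    (hf : IF a f) {τ : Z → V → V} (hτ : EI a τ) (o : V) :
    ∫ z, f z (τ z o) ∂μ = ∫ z, f z o ∂μ := by
  let s : Finset V := insert o (G.neighborFinset o)
  have hmem : ∀ z, τ z o ∈ s := fun z => by
    by_cases h : τ z o = o
    · simp [s, h]
    · simp [s, hτ.adj z o h]
  have hm : ∀ v w, Measurable fun z => τ z v = w := fun v w =>
    meas_eq (meas_at hτ.meas v) measurable_const
  have e1 : ∀ z, f z (τ z o) = ∑ w ∈ s, ind (τ z o = w) * f z w := fun z => by
    rw [Finset.sum_eq_single (τ z o), ind_pos rfl, one_mul]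
    · intro w _ hw; rw [ind_neg (Ne.symm hw), zero_mul]
    · intro h; exact absurd (hmem z) h
  have e2 : ∀ z, f z o = ∑ w ∈ s, ind (τ z o = w) * f z o := fun z => by
    rw [Finset.sum_eq_single (τ z o), ind_pos rfl, one_mul]
    · intro w _ hw; rw [ind_neg (Ne.symm hw), zero_mul]
    · intro h; exact absurd (hmem z) h
  rw [integral_congr_ae (Filter.Eventually.of_forall e1),
    integral_congr_ae (Filter.Eventually.of_forall e2),
    int_sum fun w _ => (BM.ind (hm o w)).mul (hf.bm w),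
    int_sum fun w _ => (BM.ind (hm o w)).mul (hf.bm o)]
  refine Finset.sum_congr rfl fun w hw => ?_
  rcases Finset.mem_insert.1 hw with rfl | hw
  · rfl
  · obtain ⟨φ, h1, h2⟩ := hs o w (by simpa using hw)
    rw [← int_map (ha φ) ((BM.ind (hm o w)).mul (hf.bm w)).meas]
    congr 1; funext z
    rw [hf.inv, h2]
    congr 1
    refine ind_congr ?_
    rw [← φ.injective.eq_iff, hτ.eqv, h1, h2]
    constructor
    · intro h; rw [← h, hτ.inv]
    · intro h; rw [← h, hτ.inv]

lemma int_mtp_walk (hs : HasSwaps G) (ha : ∀ φ, MeasurePreserving (a φ) μ μ) {f : Z → V → ℝ}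
    (hf : IF a f) {τ τ' : Z → V → V} (hτ : EI a τ) (hτ' : EI a τ') (n : ℕ) (o : V) :
    ∫ z, f z (walk (τ z) (τ' z) n o) ∂μ = ∫ z, f z o ∂μ := by
  induction n generalizing τ τ' with
  | zero => rfl
  | succ n ih =>
    rw [← ih hτ' hτ]
    exact int_mtp hs ha (hf.comp (hτ'.toEM.walk hτ.toEM n)) hτ o

lemma int_mtp_back (hs : HasSwaps G) (ha : ∀ φ, MeasurePreserving (a φ) μ μ) {f : Z → V → ℝ}
    (hf : IF a f) {τ τ' : Z → V → V} (hτ : EI a τ) (hτ' : EI a τ') (n : ℕ) (o : V) :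
    ∫ z, f z (back (τ z) (τ' z) n o) ∂μ = ∫ z, f z o ∂μ :=
  int_mtp_walk hs ha hf (hτ'.alt hτ n) (hτ.alt hτ' n) n o

lemma Pr_mtp (hs : HasSwaps G) (ha : ∀ φ, MeasurePreserving (a φ) μ μ) {E : Z → V → Prop}
    (hE : IP a E) {τ : Z → V → V} (hτ : EI a τ) (o : V) :
    Pr μ (fun z => E z (τ z o)) = Pr μ (fun z => E z o) := by
  rw [Pr_eq ((hE.comp hτ.toEM).at o), Pr_eq (hE.at o)]
  exact int_mtp hs ha hE.ind hτ o

lemma Pr_mtp_walk (hs : HasSwaps G) (ha : ∀ φ, MeasurePreserving (a φ) μ μ) {E : Z → V → Prop}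
    (hE : IP a E) {τ τ' : Z → V → V} (hτ : EI a τ) (hτ' : EI a τ') (n : ℕ) (o : V) :
    Pr μ (fun z => E z (walk (τ z) (τ' z) n o)) = Pr μ (fun z => E z o) := by
  rw [Pr_eq ((hE.comp (hτ.toEM.walk hτ'.toEM n)).at o), Pr_eq (hE.at o)]
  exact int_mtp_walk hs ha hE.ind hτ hτ' n o

lemma Pr_mtp_back (hs : HasSwaps G) (ha : ∀ φ, MeasurePreserving (a φ) μ μ) {E : Z → V → Prop}
    (hE : IP a E) {τ τ' : Z → V → V} (hτ : EI a τ) (hτ' : EI a τ') (n : ℕ) (o : V) :
    Pr μ (fun z => E z (back (τ z) (τ' z) n o)) = Pr μ (fun z => E z o) :=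
  Pr_mtp_walk hs ha hE (hτ'.alt hτ n) (hτ.alt hτ' n) n o

end mtp

end Pool.Agent.MP_93f6c7_pr

end

section

/-! Basic operations on colourings: Kempe flips on a vertex set, colouring a matching. -/

set_option autoImplicit false
set_option linter.unusedSectionVars false
set_option linter.unusedVariables false
open MeasureTheory Function
open scoped Classical

namespace Pool.Agent.MP_93f6c7_pr

variable {V : Type} {G : SimpleGraph V} {Δ : ℕ}

/-- New first matching after exchanging `f` and `g` inside `F`; edges leaving `F` are removed. -/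
noncomputable def flip1 (F : V → Prop) (f g : V → V) (v : V) : V :=
  if F v then (if F (g v) then g v else v) else (if F (f v) then v else f v)

/-- Exchange the colours `a` and `b` inside `F`, uncolour the `a b` edges leaving `F`. -/
noncomputable def flipC (F : V → Prop) (a b : Fin Δ) (σ : Fin Δ → V → V) : Fin Δ → V → V :=
  fun p => if p = a then flip1 F (σ a) (σ b) else if p = b then flip1 F (σ b) (σ a) else σ p

/-- Add to the matching `f` the edges of `m` whose ends are both free. -/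
noncomputable def col1 (f m : V → V) (v : V) : V :=
  if m v ≠ v ∧ f v = v ∧ f (m v) = m v then m v else f v

/-- Colour with `a` the edges of the matching `m` whose ends both miss `a`. -/
noncomputable def colourC (a : Fin Δ) (m : V → V) (σ : Fin Δ → V → V) : Fin Δ → V → V :=
  fun p => if p = a then col1 (σ a) m else σ p

/-- Number of holes at a vertex. -/
noncomputable def holes (σ : Fin Δ → V → V) (v : V) : ℝ := ∑ p : Fin Δ, ind (σ p v = v)

/-- The `f` edge at `v` leaves or enters `F`. -/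
def Bd (F : V → Prop) (f : V → V) (v : V) : Prop := ¬ (F v ↔ F (f v))

variable {F : V → Prop} {f g m : V → V} {v w : V} {a b p : Fin Δ} {σ : Fin Δ → V → V}

lemma flip1_in (h : F v) (h' : F (g v)) : flip1 F f g v = g v := by simp [flip1, h, h']
lemma flip1_out (h : ¬ F v) (h' : ¬ F (f v)) : flip1 F f g v = f v := by simp [flip1, h, h']
lemma flip1_in' (h : F v) (h' : ¬ F (g v)) : flip1 F f g v = v := by simp [flip1, h, h']
lemma flip1_out' (h : ¬ F v) (h' : F (f v)) : flip1 F f g v = v := by simp [flip1, h, h']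

lemma flip1_cases (F : V → Prop) (f g : V → V) (v : V) :
    flip1 F f g v = v ∨ (F v ∧ F (g v) ∧ flip1 F f g v = g v) ∨
      (¬ F v ∧ ¬ F (f v) ∧ flip1 F f g v = f v) := by
  by_cases h : F v
  · by_cases h' : F (g v)
    · exact Or.inr (Or.inl ⟨h, h', flip1_in h h'⟩)
    · exact Or.inl (flip1_in' h h')
  · by_cases h' : F (f v)
    · exact Or.inl (flip1_out' h h')
    · exact Or.inr (Or.inr ⟨h, h', flip1_out h h'⟩)

lemma flip1_invol (hf : Involutive f) (hg : Involutive g) : Involutive (flip1 F f g) := by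
  intro v
  rcases flip1_cases F f g v with h | ⟨h1, h2, h⟩ | ⟨h1, h2, h⟩
  · rw [h, h]
  · rw [h, flip1_in h2 (by rw [hg]; exact h1), hg]
  · rw [h, flip1_out h2 (by rw [hf]; exact h1), hf]

lemma flipC_left : flipC F a b σ a = flip1 F (σ a) (σ b) := by simp [flipC]
lemma flipC_right (hab : a ≠ b) : flipC F a b σ b = flip1 F (σ b) (σ a) := by
  simp [flipC, hab.symm]
lemma flipC_other (ha : p ≠ a) (hb : p ≠ b) : flipC F a b σ p = σ p := by simp [flipC, ha, hb]

lemma flipC_cases (hab : a ≠ b) (F : V → Prop) (σ : Fin Δ → V → V) (p : Fin Δ) (v : V) :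
    flipC F a b σ p v = v ∨
      flipC F a b σ p v = σ (if F v then Equiv.swap a b p else p) v := by
  by_cases ha : p = a
  · subst ha
    rw [flipC_left]
    rcases flip1_cases F (σ p) (σ b) v with h | ⟨h1, _, h⟩ | ⟨h1, _, h⟩
    · exact Or.inl h
    · right; rw [h, if_pos h1, Equiv.swap_apply_left]
    · right; rw [h, if_neg h1]
  by_cases hb : p = b
  · subst hb
    rw [flipC_right hab]
    rcases flip1_cases F (σ p) (σ a) v with h | ⟨h1, _, h⟩ | ⟨h1, _, h⟩
    · exact Or.inl h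
    · right; rw [h, if_pos h1, Equiv.swap_apply_right]
    · right; rw [h, if_neg h1]
  · right
    rw [flipC_other ha hb, Equiv.swap_apply_of_ne_of_ne ha hb, ite_self]

lemma Proper.flipC (h : Proper G σ) (hab : a ≠ b) (F : V → Prop) :
    Proper G (flipC F a b σ) := by
  refine ⟨fun p => ?_, fun p v hv => ?_, fun p q v hpq hv he => ?_⟩
  · by_cases ha : p = a
    · subst ha; rw [flipC_left]; exact flip1_invol (h.inv _) (h.inv _)
    by_cases hb : p = b
    · subst hb; rw [flipC_right hab]; exact flip1_invol (h.inv _) (h.inv _)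
    · rw [flipC_other ha hb]; exact h.inv p
  · rcases flipC_cases hab F σ p v with e | e
    · exact absurd e hv
    · rw [e] at hv ⊢; exact h.adj _ _ hv
  · rcases flipC_cases hab F σ p v with e | e
    · exact hv e
    rcases flipC_cases hab F σ q v with e' | e'
    · exact hv (he.trans e')
    rw [e] at hv
    rw [e, e'] at he
    refine h.disj _ _ v ?_ hv he
    split_ifs
    · exact fun hh => hpq ((Equiv.swap a b).injective hh)
    · exact hpq

lemma Unc.flipC (h : Unc G σ v w) (hab : a ≠ b) (F : V → Prop) : Unc G (flipC F a b σ) v w := by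
  refine ⟨h.1, fun p => ?_⟩
  rcases flipC_cases hab F σ p v with e | e <;> rw [e]
  · exact h.1.ne
  · exact h.2 _

lemma Unc.symm (hσ : Proper G σ) (h : Unc G σ v w) : Unc G σ w v :=
  ⟨h.1.symm, fun p e => h.2 p (by rw [← e, hσ.inv])⟩

lemma flipC_eq (hab : a ≠ b) (h : ¬ F v) (ha : ¬ F (σ a v)) (hb : ¬ F (σ b v)) (p : Fin Δ) :
    flipC F a b σ p v = σ p v := by
  by_cases hpa : p = a
  · subst hpa; rw [flipC_left, flip1_out h ha]
  by_cases hpb : p = b
  · subst hpb; rw [flipC_right hab, flip1_out h hb]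
  · rw [flipC_other hpa hpb]

/-- Holes outside `F` remain holes. -/
lemma flipC_hole (hab : a ≠ b) (h : ¬ F v) (hp : σ p v = v) : flipC F a b σ p v = v := by
  rcases flipC_cases hab F σ p v with e | e
  · exact e
  · rw [e, if_neg h, hp]

lemma flip1_holes (F : V → Prop) (f g : V → V) (v : V) :
    ind (flip1 F f g v = v) + ind (flip1 F g f v = v) ≤
      ind (f v = v) + ind (g v = v) + ind (Bd F f v) + ind (Bd F g v) := by
  have n1 := ind_nonneg (f v = v)
  have n2 := ind_nonneg (g v = v)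
  have l1 := ind_le_one (flip1 F f g v = v)
  have l2 := ind_le_one (flip1 F g f v = v)
  have n3 := ind_nonneg (Bd F f v)
  have n4 := ind_nonneg (Bd F g v)
  by_cases h : F v <;> by_cases h1 : F (f v) <;> by_cases h2 : F (g v) <;>
    simp only [flip1, h, h1, h2, if_true, if_false, Bd] at * <;>
    simp only [ind] at * <;> simp <;> linarith

lemma holes_split (hab : a ≠ b) (σ : Fin Δ → V → V) (v : V) :
    holes σ v = ind (σ a v = v) + ind (σ b v = v) +
      ∑ p ∈ (Finset.univ.erase a).erase b, ind (σ p v = v) := by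
  unfold holes
  rw [← Finset.add_sum_erase _ _ (Finset.mem_univ a),
    ← Finset.add_sum_erase _ _ (show b ∈ Finset.univ.erase a by simp [hab.symm]), add_assoc]

lemma holes_flipC (hab : a ≠ b) (F : V → Prop) (σ : Fin Δ → V → V) (v : V) :
    holes (flipC F a b σ) v ≤ holes σ v + ind (Bd F (σ a) v) + ind (Bd F (σ b) v) := by
  rw [holes_split hab, holes_split hab, flipC_left, flipC_right hab]
  have := flip1_holes F (σ a) (σ b) v
  have e : ∑ p ∈ (Finset.univ.erase a).erase b, ind (flipC F a b σ p v = v) =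
      ∑ p ∈ (Finset.univ.erase a).erase b, ind (σ p v = v) := by
    refine Finset.sum_congr rfl fun p hp => ?_
    simp only [Finset.mem_erase] at hp
    rw [flipC_other hp.2.1 hp.1]
  rw [e]; linarith

lemma holes_nonneg (σ : Fin Δ → V → V) (v : V) : 0 ≤ holes σ v :=
  Finset.sum_nonneg fun _ _ => ind_nonneg _

lemma ind_le_holes (σ : Fin Δ → V → V) (v : V) (p : Fin Δ) : ind (σ p v = v) ≤ holes σ v :=
  Finset.single_le_sum (f := fun p => ind (σ p v = v)) (fun _ _ => ind_nonneg _)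
    (Finset.mem_univ p)

lemma col1_pos (h1 : m v ≠ v) (h2 : f v = v) (h3 : f (m v) = m v) : col1 f m v = m v :=
  if_pos ⟨h1, h2, h3⟩
lemma col1_neg (h : ¬ (m v ≠ v ∧ f v = v ∧ f (m v) = m v)) : col1 f m v = f v := if_neg h
lemma col1_fix (h : m v = v) : col1 f m v = f v := col1_neg fun hh => hh.1 h

lemma col1_invol (hf : Involutive f) (hm : Involutive m) : Involutive (col1 f m) := by
  intro v
  by_cases h : m v ≠ v ∧ f v = v ∧ f (m v) = m v
  · rw [col1_pos h.1 h.2.1 h.2.2, col1_pos (by rw [hm]; exact h.1.symm) h.2.2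
      (by rw [hm]; exact h.2.1), hm]
  · rw [col1_neg h]
    by_cases hv : f v = v
    · rw [hv, col1_neg h, hv]
    · rw [col1_neg, hf]
      rw [hf]
      exact fun hh => hv hh.2.1.symm

lemma colourC_self : colourC a m σ a = col1 (σ a) m := by simp [colourC]
lemma colourC_other (h : p ≠ a) : colourC a m σ p = σ p := by simp [colourC, h]

lemma colourC_cases (a : Fin Δ) (m : V → V) (σ : Fin Δ → V → V) (p : Fin Δ) (v : V) :
    colourC a m σ p v = σ p v ∨
      (p = a ∧ m v ≠ v ∧ σ a v = v ∧ σ a (m v) = m v ∧ colourC a m σ p v = m v) := by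
  by_cases hp : p = a
  · subst hp
    rw [colourC_self]
    by_cases h : m v ≠ v ∧ σ p v = v ∧ σ p (m v) = m v
    · exact Or.inr ⟨rfl, h.1, h.2.1, h.2.2, col1_pos h.1 h.2.1 h.2.2⟩
    · exact Or.inl (col1_neg h)
  · exact Or.inl (by rw [colourC_other hp])

lemma colourC_fix (h : m v = v) (p : Fin Δ) : colourC a m σ p v = σ p v := by
  rcases colourC_cases a m σ p v with e | e
  · exact e
  · exact absurd h e.2.1

lemma Proper.colourC (h : Proper G σ) (a : Fin Δ) (hm : Involutive m)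
    (hu : ∀ v, m v ≠ v → Unc G σ v (m v)) : Proper G (colourC a m σ) := by
  refine ⟨fun p => ?_, fun p v hv => ?_, fun p q v hpq hv he => ?_⟩
  · by_cases hp : p = a
    · subst hp; rw [colourC_self]; exact col1_invol (h.inv _) hm
    · rw [colourC_other hp]; exact h.inv p
  · rcases colourC_cases a m σ p v with e | e
    · rw [e] at hv ⊢; exact h.adj _ _ hv
    · rw [e.2.2.2.2]; exact (hu v e.2.1).1
  · rcases colourC_cases a m σ p v with e | e <;> rcases colourC_cases a m σ q v with e' | e'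
    · rw [e] at hv; rw [e, e'] at he; exact h.disj p q v hpq hv he
    · rw [e, e'.2.2.2.2] at he; exact (hu v e'.2.1).2 p he
    · rw [e.2.2.2.2, e'] at he; exact (hu v e.2.1).2 q he.symm
    · exact hpq (e.1.trans e'.1.symm)

lemma Unc.colourC (h : Unc G σ v w) (hm : m v ≠ w) (a : Fin Δ) : Unc G (colourC a m σ) v w := by
  refine ⟨h.1, fun p => ?_⟩
  rcases colourC_cases a m σ p v with e | e
  · rw [e]; exact h.2 p
  · rw [e.2.2.2.2]; exact hm

lemma holes_colourC (a : Fin Δ) (m : V → V) (σ : Fin Δ → V → V) (v : V) :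
    holes (colourC a m σ) v = holes σ v - ind (m v ≠ v ∧ σ a v = v ∧ σ a (m v) = m v) := by
  unfold holes
  rw [← Finset.add_sum_erase _ _ (Finset.mem_univ a), ← Finset.add_sum_erase _ _ (Finset.mem_univ a)]
  have e : ∑ p ∈ Finset.univ.erase a, ind (colourC a m σ p v = v) =
      ∑ p ∈ Finset.univ.erase a, ind (σ p v = v) := by
    refine Finset.sum_congr rfl fun p hp => ?_
    rw [colourC_other (Finset.mem_erase.1 hp).1]
  rw [e, colourC_self]
  by_cases h : m v ≠ v ∧ σ a v = v ∧ σ a (m v) = m v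
  · rw [col1_pos h.1 h.2.1 h.2.2, ind_neg h.1, ind_pos h.2.1, ind_pos h]; ring
  · rw [col1_neg h, ind_neg h]; ring

/-! ### Holes and uncoloured edges -/

lemma exists_unc [G.LocallyFinite] (h : RT G Δ) (hσ : Proper G σ) (hp : σ p v = v) :
    ∃ w, Unc G σ v w := by
  by_contra hn
  push Not at hn
  have hsub : G.neighborFinset v ⊆ (Finset.univ.erase p).image fun q => σ q v := by
    intro w hw
    have hw' : G.Adj v w := by simpa using hw
    have := hn w
    unfold Unc at this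
    push Not at this
    obtain ⟨q, hq⟩ := this hw'
    refine Finset.mem_image.2 ⟨q, ?_, hq⟩
    simp only [Finset.mem_erase, Finset.mem_univ, and_true]
    rintro rfl
    exact hw'.ne (hp.symm.trans hq)
  have h1 := Finset.card_le_card hsub
  have h2 := Finset.card_image_le (s := Finset.univ.erase p) (f := fun q => σ q v)
  rw [SimpleGraph.card_neighborFinset_eq_degree, h.reg] at h1
  rw [Finset.card_erase_of_mem (Finset.mem_univ p), Finset.card_univ, Fintype.card_fin] at h2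
  have := h.three
  omega

lemma exists_hole [G.LocallyFinite] (h : RT G Δ) (hσ : Proper G σ) (hu : Unc G σ v w) :
    ∃ p, σ p v = v := by
  by_contra hn
  push Not at hn
  have hmem : ∀ p ∈ (Finset.univ : Finset (Fin Δ)), σ p v ∈ (G.neighborFinset v).erase w := by
    intro p _
    simp [hu.2 p, hσ.adj p v (hn p)]
  have hinj : Set.InjOn (fun p => σ p v) (Finset.univ : Finset (Fin Δ)) := by
    intro p _ q _ hpq
    by_contra hne
    exact hσ.disj p q v hne (hn p) hpq
  have h1 := Finset.card_le_card_of_injOn _ hmem hinj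
  rw [Finset.card_erase_of_mem (by simpa using hu.1), SimpleGraph.card_neighborFinset_eq_degree,
    h.reg, Finset.card_univ, Fintype.card_fin] at h1
  have := h.three
  omega

/-! ### Neighbourhoods of marked vertices along alternating paths -/

/-- Some vertex satisfying `M` lies within distance `R` on the alternating path through `v`. -/
def Ball (f g : V → V) (R : ℕ) (M : V → Prop) (v : V) : Prop :=
  ∃ i, i ≤ R ∧ ((Free f g i v ∧ M (walk f g i v)) ∨ (Free g f i v ∧ M (walk g f i v)))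

variable {M : V → Prop} {R : ℕ}

lemma Ball.symm (h : Ball f g R M v) : Ball g f R M v := by
  obtain ⟨i, hi, h⟩ := h
  exact ⟨i, hi, h.symm⟩

lemma ball_comm : Ball f g R M v ↔ Ball g f R M v := ⟨Ball.symm, Ball.symm⟩

lemma Ball.mono {R' : ℕ} (h : Ball f g R M v) (hR : R ≤ R') : Ball f g R' M v := by
  obtain ⟨i, hi, h⟩ := h
  exact ⟨i, hi.trans hR, h⟩

lemma Ball.self (h : M v) : Ball f g R M v := ⟨0, Nat.zero_le _, Or.inl ⟨trivial, h⟩⟩

lemma Ball.boundary (hf : Involutive f) (h : Ball f g R M v) (h' : ¬ Ball f g R M (f v)) :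
    f v ≠ v ∧ Free g f R v ∧ M (walk g f R v) := by
  have hne : f v ≠ v := fun e => h' (by rwa [e])
  refine ⟨hne, ?_⟩
  have key : ∀ i, i ≤ R → Free g f i v → M (walk g f i v) →
      Free g f R v ∧ M (walk g f R v) := by
    intro i hi h1 h2
    rcases hi.eq_or_lt with rfl | hlt
    · exact ⟨h1, h2⟩
    · refine absurd ⟨i + 1, hlt, Or.inl ⟨⟨?_, ?_⟩, ?_⟩⟩ h'
      · rw [hf]; exact hne.symm
      · rw [hf]; exact h1
      · rw [walk_succ, hf]; exact h2
  obtain ⟨i, hi, ⟨h1, h2⟩ | ⟨h1, h2⟩⟩ := h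
  · cases i with
    | zero => exact key 0 hi trivial h2
    | succ i => exact absurd ⟨i, by omega, Or.inr ⟨h1.2, h2⟩⟩ h'
  · exact key i hi h1 h2

lemma Ball.step (hf : Involutive f) (h : Ball f g R M (f v)) : Ball f g (R + 1) M v := by
  by_contra hn
  have := (h.mono (Nat.le_succ R)).boundary hf (by rw [hf]; exact hn)
  have h2 := h.boundary hf (by rw [hf]; exact fun hh => hn (hh.mono (Nat.le_succ R)))
  rw [hf] at h2
  exact hn ⟨R + 1, le_rfl, Or.inl ⟨⟨h2.1.symm, h2.2.1⟩, h2.2.2⟩⟩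

lemma Ball.walk (hf : Involutive f) (hg : Involutive g) {j : ℕ}
    (h : Ball f g R M (walk f g j v)) : Ball f g (R + j) M v := by
  induction j generalizing f g v with
  | zero => exact h
  | succ j ih => exact ((ih hg hf h.symm).symm.step hf)

section loc
variable {φ : V → V} {D : Set V} {f' g' m' : V → V} {F' M' : V → Prop}

lemma Loc.flip1 (hf : Loc φ D f' f) (hg : Loc φ D g' g) (hF : ∀ v ∈ D, F' v ↔ F (φ v)) :
    Loc φ D (flip1 F' f' g') (flip1 F f g) := by
  refine ⟨fun v hv => ?_, fun v hv => ?_⟩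
  · rcases flip1_cases F' f' g' v with h | ⟨_, _, h⟩ | ⟨_, _, h⟩ <;> rw [h]
    · exact hv
    · exact hg.mem v hv
    · exact hf.mem v hv
  · unfold Pool.Agent.MP_93f6c7_pr.flip1
    rw [hF v hv, hF _ (hg.mem v hv), hF _ (hf.mem v hv), hf.eq v hv, hg.eq v hv]
    split_ifs
    · exact hg.eq v hv
    · rfl
    · rfl
    · exact hf.eq v hv

lemma Loc.col1 (hφ : Injective φ) (hf : Loc φ D f' f) (hm : Loc φ D m' m) :
    Loc φ D (col1 f' m') (col1 f m) := by
  refine ⟨fun v hv => ?_, fun v hv => ?_⟩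
  · unfold Pool.Agent.MP_93f6c7_pr.col1
    split_ifs
    · exact hm.mem v hv
    · exact hf.mem v hv
  · unfold Pool.Agent.MP_93f6c7_pr.col1
    have e : (m' v ≠ v ∧ f' v = v ∧ f' (m' v) = m' v) ↔
        (m (φ v) ≠ φ v ∧ f (φ v) = φ v ∧ f (m (φ v)) = m (φ v)) := by
      rw [Ne, Ne, hm.fix_iff hφ hv, hf.fix_iff hφ hv, hf.fix_iff hφ (hm.mem v hv), hm.eq v hv]
    by_cases h : m' v ≠ v ∧ f' v = v ∧ f' (m' v) = m' v
    · rw [if_pos h, if_pos (e.1 h)]; exact hm.eq v hv
    · rw [if_neg h, if_neg (mt e.2 h)]; exact hf.eq v hv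

lemma Loc.ball (hφ : Injective φ) (hf : Loc φ D f' f) (hg : Loc φ D g' g)
    (hM : ∀ v ∈ D, M' v ↔ M (φ v)) (R : ℕ) {v : V} (hv : v ∈ D) :
    Ball f' g' R M' v ↔ Ball f g R M (φ v) := by
  refine exists_congr fun i => and_congr Iff.rfl ?_
  rw [hf.free hφ hg i hv, hg.free hφ hf i hv, hM _ ((hf.walk hg i).mem v hv),
    hM _ ((hg.walk hf i).mem v hv), (hf.walk hg i).eq v hv, (hg.walk hf i).eq v hv]

end loc

/-! ### Random colourings on a space with an action -/

section random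
variable [MeasurableSpace V] [DiscreteMeasurableSpace V] [Countable V] [G.LocallyFinite]
  {Z : Type} [MeasurableSpace Z] {μ : Measure Z} [IsProbabilityMeasure μ]
  {T : (G ≃g G) → Z → Z}

/-- Measurable equivariant proper colouring. -/
structure EC (T : (G ≃g G) → Z → Z) (σ : Z → Fin Δ → V → V) : Prop where
  em : ∀ p, EM T (fun z => σ z p)
  proper : ∀ z, Proper G (σ z)

variable {s : Z → Fin Δ → V → V} {E : Z → V → Prop} {τ τ' : Z → V → V}

lemma EC.ei (h : EC T s) (p : Fin Δ) : EI T (fun z => s z p) :=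
  { h.em p with inv := fun z => (h.proper z).inv p, adj := fun z => (h.proper z).adj p }

lemma FC.ec (c : FC G Δ) : EC (G := G) act c.σ :=
  ⟨fun p => ⟨meas_at c.meas p, fun φ y v => c.eqv φ y p v⟩, c.proper⟩

lemma EM.flip1 (hE : IP T E) (h : EM T τ) (h' : EM T τ') :
    EM T (fun z => flip1 (E z) (τ z) (τ' z)) :=
  EM.ite hE (EM.ite (hE.comp h') h' EM.id) (EM.ite (hE.comp h) EM.id h)

lemma EM.col1 (h : EM T τ) (h' : EM T τ') : EM T (fun z => col1 (τ z) (τ' z)) :=
  EM.ite ((IP.fix h').not.and ((IP.fix h).and ((IP.fix h).comp h'))) h' h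

lemma EC.flipC (h : EC T s) (hab : a ≠ b) (hE : IP T E) :
    EC T (fun z => flipC (E z) a b (s z)) := by
  refine ⟨fun p => ?_, fun z => (h.proper z).flipC hab _⟩
  by_cases ha : p = a
  · subst ha; simp only [flipC_left]; exact EM.flip1 hE (h.em _) (h.em _)
  by_cases hb : p = b
  · subst hb; simp only [flipC_right hab]; exact EM.flip1 hE (h.em _) (h.em _)
  · simp only [flipC_other ha hb]; exact h.em p

lemma EC.colourC (h : EC T s) (a : Fin Δ) (hτ : EM T τ) (hi : ∀ z, Involutive (τ z))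
    (hu : ∀ z v, τ z v ≠ v → Unc G (s z) v (τ z v)) :
    EC T (fun z => colourC a (τ z) (s z)) := by
  refine ⟨fun p => ?_, fun z => (h.proper z).colourC a (hi z) (hu z)⟩
  by_cases ha : p = a
  · subst ha; simp only [colourC_self]; exact EM.col1 (h.em _) hτ
  · simp only [colourC_other ha]; exact h.em p

lemma IP.ball (hE : IP T E) (h : EM T τ) (h' : EM T τ') (R : ℕ) :
    IP T (fun z => Ball (τ z) (τ' z) R (E z)) :=
  IP.exists fun i => (IP.const _).and
    (((IP.free h h' i).and (hE.comp (h.walk h' i))).or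
      ((IP.free h' h i).and (hE.comp (h'.walk h i))))

lemma IP.bd (hE : IP T E) (h : EM T τ) : IP T (fun z => Bd (E z) (τ z)) :=
  ⟨measurable_pi_lambda _ fun v => ((hE.at v).iff ((hE.comp h).at v)).not,
    fun φ z v => not_congr (iff_congr (hE.inv φ z v) ((hE.comp h).inv φ z v))⟩

lemma IP.adj (h : EM T τ) (h' : EM T τ') : IP T (fun z v => G.Adj (τ z v) (τ' z v)) :=
  ⟨measurable_pi_lambda _ fun v => meas_rel G.Adj (meas_at h.meas v) (meas_at h'.meas v),
    fun φ z v => by rw [← h.eqv, ← h'.eqv, φ.map_adj_iff]⟩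

lemma IP.unc (h : EC T s) (hτ : EM T τ) : IP T (fun z v => Unc G (s z) v (τ z v)) :=
  (IP.adj EM.id hτ).and (IP.forall fun p => (IP.eq (h.em p) hτ).not)

/-- There is an uncoloured edge to a vertex satisfying `E`. -/
lemma IP.exUnc (h : EC T s) (hE : IP T E) :
    IP T (fun z v => ∃ u, Unc G (s z) v u ∧ E z u) := by
  refine ⟨measurable_pi_lambda _ fun v => Measurable.exists fun u => ?_, fun φ z v => ?_⟩
  · exact (measurable_const.and (Measurable.forall fun p =>
      meas_ne (meas_at (h.em p).meas v) measurable_const)).and (hE.at u)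
  · have key : ∀ u, Unc G (s (T φ z)) v u ↔ Unc G (s z) (φ v) (φ u) := fun u =>
      and_congr φ.map_adj_iff.symm (forall_congr' fun p => by
        rw [← (h.em p).eqv, Ne, Ne, φ.injective.eq_iff])
    constructor
    · rintro ⟨u, h1, h2⟩
      exact ⟨φ u, (key u).1 h1, (hE.inv φ z u).1 h2⟩
    · rintro ⟨u, h1, h2⟩
      obtain ⟨u, rfl⟩ := φ.surjective u
      exact ⟨u, (key u).2 h1, (hE.inv φ z u).2 h2⟩

lemma IF.holes (h : EC T s) : IF T (fun z => holes (s z)) :=
  IF.sum fun p _ => (IP.fix (h.em p)).ind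

lemma IP.changed {s' : Z → Fin Δ → V → V} (h : EC T s) (h' : EC T s') :
    IP T (fun z v => ∃ p, s' z p v ≠ s z p v) :=
  IP.exists fun p => (IP.eq (h'.em p) (h.em p)).not

lemma int_holes (h : EC T s) (o : V) :
    ∫ z, holes (s z) o ∂μ = ∑ p : Fin Δ, Pr μ (fun z => s z p o = o) := by
  unfold holes
  rw [int_sum fun p _ => BM.ind ((IP.fix (h.em p)).at o)]
  exact Finset.sum_congr rfl fun p _ => (Pr_eq ((IP.fix (h.em p)).at o)).symm

lemma FC.hol_eq (c : FC G Δ) (o : V) : c.hol o = ∫ y, holes (c.σ y) o ∂(nu V) :=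
  (int_holes c.ec o).symm

lemma FC.hol_nonneg (c : FC G Δ) (o : V) : 0 ≤ c.hol o :=
  Finset.sum_nonneg fun _ _ => Pr_nonneg _

/-! Pulling back along equivariant maps. -/

variable {Z' : Type} [MeasurableSpace Z'] {T' : (G ≃g G) → Z' → Z'} {r : Z' → Z}

lemma EM.pull (h : EM T τ) (hr : Measurable r) (he : ∀ φ z, r (T' φ z) = T φ (r z)) :
    EM T' (fun z => τ (r z)) := ⟨h.meas.comp hr, fun φ z v => by rw [he, h.eqv]⟩
lemma EI.pull (h : EI T τ) (hr : Measurable r) (he : ∀ φ z, r (T' φ z) = T φ (r z)) :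
    EI T' (fun z => τ (r z)) :=
  { h.toEM.pull hr he with inv := fun z => h.inv (r z), adj := fun z => h.adj (r z) }
lemma IP.pull (h : IP T E) (hr : Measurable r) (he : ∀ φ z, r (T' φ z) = T φ (r z)) :
    IP T' (fun z => E (r z)) := ⟨h.meas.comp hr, fun φ z v => by rw [he, h.inv]⟩
lemma IF.pull {f : Z → V → ℝ} (h : IF T f) (hr : Measurable r)
    (he : ∀ φ z, r (T' φ z) = T φ (r z)) : IF T' (fun z => f (r z)) := by
  obtain ⟨B, hB⟩ := h.bdd
  exact ⟨h.meas.comp hr, ⟨B, fun z => hB _⟩, fun φ z v => by rw [he, h.inv]⟩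
lemma EC.pull (h : EC T s) (hr : Measurable r) (he : ∀ φ z, r (T' φ z) = T φ (r z)) :
    EC T' (fun z => s (r z)) := ⟨fun p => (h.em p).pull hr he, fun z => h.proper (r z)⟩

lemma EM.fst {τ : Y V → V → V} (h : EM (G := G) act τ) : EM (G := G) act2 (fun z => τ z.1) :=
  h.pull measurable_fst fun _ _ => rfl
lemma EI.fst {τ : Y V → V → V} (h : EI (G := G) act τ) : EI (G := G) act2 (fun z => τ z.1) :=
  h.pull measurable_fst fun _ _ => rfl
lemma IP.fst {E : Y V → V → Prop} (h : IP (G := G) act E) : IP (G := G) act2 (fun z => E z.1) :=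
  h.pull measurable_fst fun _ _ => rfl
lemma IF.fst {f : Y V → V → ℝ} (h : IF (G := G) act f) : IF (G := G) act2 (fun z => f z.1) :=
  h.pull measurable_fst fun _ _ => rfl
lemma EC.fst {s : Y V → Fin Δ → V → V} (h : EC (G := G) act s) :
    EC (G := G) act2 (fun z => s z.1) := h.pull measurable_fst fun _ _ => rfl
lemma EM.snd {τ : Y V → V → V} (h : EM (G := G) act τ) : EM (G := G) act2 (fun z => τ z.2) :=
  h.pull measurable_snd fun _ _ => rfl
lemma EI.snd {τ : Y V → V → V} (h : EI (G := G) act τ) : EI (G := G) act2 (fun z => τ z.2) :=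
  h.pull measurable_snd fun _ _ => rfl
lemma IP.snd {E : Y V → V → Prop} (h : IP (G := G) act E) : IP (G := G) act2 (fun z => E z.2) :=
  h.pull measurable_snd fun _ _ => rfl

/-- The label `k` at a vertex is below `t`. -/
lemma IP.lab (k : ℕ) (t : ℝ) : IP (G := G) act (fun (y : Y V) v => (y (v, k) : ℝ) < t) :=
  ⟨measurable_pi_lambda _ fun v => meas_lab_lt _ t, fun _ _ _ => Iff.rfl⟩

/-- A colouring on pairs of labels gives a factor of iid colouring. -/
def FC.ofEC {s : Y V × Y V → Fin Δ → V → V} (h : EC (G := G) act2 s) : FC G Δ where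
  σ := fun y => s (split y)
  meas := measurable_pi_lambda _ fun p => (h.em p).meas.comp meas_split
  proper := fun y => h.proper _
  eqv := fun φ y p v => (h.em p).eqv φ (split y) v

variable {s2 : Y V × Y V → Fin Δ → V → V}

lemma FC.ofEC_hol (h : EC (G := G) act2 s2) (o : V) :
    (FC.ofEC h).hol o = ∫ z, holes (s2 z) o ∂((nu V).prod (nu V)) := by
  rw [FC.hol_eq]
  exact int_map split_mp ((IF.holes h).bm o).meas

lemma FC.ofEC_near (c : FC G Δ) (h : EC (G := G) act2 s2) (o : V) {ε : ℝ}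
    (hε : Pr ((nu V).prod (nu V)) (fun z => ∃ p, s2 z p o ≠ c.σ z.1 p o) ≤ ε) :
    c.Near (FC.ofEC h) o ε :=
  ⟨fun k => 2 * k, fun _ _ h => by simpa using h,
    (Pr_map split_mp ((IP.changed c.ec.fst h).at o)).trans_le hε⟩

lemma IP.dn (h : EC T s) (α β : Fin Δ) :
    IP T (fun z v => s z α v = v ∧ ∃ u, Unc G (s z) v u ∧ s z β u = u) :=
  (IP.fix (h.em α)).and (IP.exUnc h (IP.fix (h.em β)))

lemma IP.sh (h : EC T s) (α γ β : Fin Δ) (l : ℕ) :
    IP T (fun z v => s z α v = v ∧ ¬ Free (s z γ) (s z α) l v ∧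
      ∃ u, Unc G (s z) v u ∧ s z β u = u) :=
  (IP.fix (h.em α)).and ((IP.free (h.em γ) (h.em α) l).not.and (IP.exUnc h (IP.fix (h.em β))))

lemma IP.lg (h : EC T s) (a b : Fin Δ) (l : ℕ) :
    IP T (fun z v => s z b v = v ∧ Free (s z a) (s z b) l v ∧
      ∃ u, Unc G (s z) v u ∧ s z a u = u) :=
  (IP.fix (h.em b)).and ((IP.free (h.em a) (h.em b) l).and (IP.exUnc h (IP.fix (h.em a))))

lemma FC.ofEC_dn (h : EC (G := G) act2 s2) (o : V) (α β : Fin Δ) :
    (FC.ofEC h).Dn o α β = Pr ((nu V).prod (nu V))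
      (fun z => s2 z α o = o ∧ ∃ u, Unc G (s2 z) o u ∧ s2 z β u = u) :=
  Pr_map split_mp ((IP.dn h α β).at o)

lemma FC.ofEC_sh (h : EC (G := G) act2 s2) (o : V) (α γ β : Fin Δ) (l : ℕ) :
    (FC.ofEC h).Sh o α γ β l = Pr ((nu V).prod (nu V))
      (fun z => s2 z α o = o ∧ ¬ Free (s2 z γ) (s2 z α) l o ∧
        ∃ u, Unc G (s2 z) o u ∧ s2 z β u = u) :=
  Pr_map split_mp ((IP.sh h α γ β l).at o)

lemma FC.Near.refl (c : FC G Δ) (o : V) : c.Near c o 0 :=
  ⟨id, injective_id, (Pr_false fun _ ⟨_, hp⟩ => hp rfl).le⟩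

lemma FC.Near.mono {c c' : FC G Δ} {o : V} {ε ε' : ℝ} (h : c.Near c' o ε) (hε : ε ≤ ε') :
    c.Near c' o ε' := by
  obtain ⟨j, hj, h⟩ := h
  exact ⟨j, hj, h.trans hε⟩

lemma FC.Near.trans {c c' c'' : FC G Δ} {o : V} {ε ε' : ℝ} (h : c.Near c' o ε)
    (h' : c'.Near c'' o ε') : c.Near c'' o (ε + ε') := by
  obtain ⟨j, hj, h⟩ := h
  obtain ⟨j', hj', h'⟩ := h'
  refine ⟨j' ∘ j, hj'.comp hj, ?_⟩
  have hm : Measurable fun y => ∃ p, c'.σ y p o ≠ c.σ (reix j y) p o :=
    (IP.changed (c.ec.pull (T' := act) (meas_reix j) fun _ _ => rfl) c'.ec).at o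
  rw [← Pr_map (reix_mp hj') hm] at h
  refine le_trans (Pr_or_le fun y hy => ?_) (add_le_add h h')
  by_contra hn
  push Not at hn
  obtain ⟨p, hp⟩ := hy
  exact hp ((hn.2 p).trans (hn.1 p))

end random

end Pool.Agent.MP_93f6c7_pr

end

section

/-! A random matching containing each edge with probability bounded below. -/

set_option autoImplicit false
set_option linter.unusedSectionVars false
set_option linter.unusedVariables false
open MeasureTheory Function
open scoped Classical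

namespace Pool.Agent.MP_93f6c7_pr

variable {V : Type} {G : SimpleGraph V} {Δ : ℕ}

/-- Both ends of the edge are marked and all their other neighbours are unmarked. -/
def Sel (G : SimpleGraph V) (t : Y V) (v w : V) : Prop :=
  G.Adj v w ∧ (t (v, 0) : ℝ) < 1 / 2 ∧ (t (w, 0) : ℝ) < 1 / 2 ∧
    (∀ z, G.Adj v z → z ≠ w → ¬ (t (z, 0) : ℝ) < 1 / 2) ∧
    (∀ z, G.Adj w z → z ≠ v → ¬ (t (z, 0) : ℝ) < 1 / 2)

/-- The matching formed by the selected edges. -/
noncomputable def mat (G : SimpleGraph V) (t : Y V) (v : V) : V :=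
  if h : ∃ w, Sel G t v w then h.choose else v

variable {t : Y V} {v w : V}

lemma Sel.symm (h : Sel G t v w) : Sel G t w v :=
  ⟨h.1.symm, h.2.2.1, h.2.1, h.2.2.2.2, h.2.2.2.1⟩

lemma Sel.unique {w' : V} (h : Sel G t v w) (h' : Sel G t v w') : w = w' := by
  by_contra hne
  exact h'.2.2.2.1 w h.1 hne h.2.2.1

lemma Sel.mat_eq (h : Sel G t v w) : mat G t v = w := by
  have hex : ∃ w, Sel G t v w := ⟨w, h⟩
  rw [mat, dif_pos hex]
  exact hex.choose_spec.unique h

lemma mat_cases (G : SimpleGraph V) (t : Y V) (v : V) :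
    Sel G t v (mat G t v) ∨ (mat G t v = v ∧ ∀ w, ¬ Sel G t v w) := by
  by_cases h : ∃ w, Sel G t v w
  · obtain ⟨w, hw⟩ := h
    left; rw [hw.mat_eq]; exact hw
  · right; exact ⟨by rw [mat, dif_neg h], fun w hw => h ⟨w, hw⟩⟩

lemma mat_invol (G : SimpleGraph V) (t : Y V) : Involutive (mat G t) := by
  intro v
  rcases mat_cases G t v with h | h
  · exact h.symm.mat_eq
  · rw [h.1, h.1]

lemma sel_act (φ : G ≃g G) (t : Y V) (v w : V) :
    Sel G (act φ t) v w ↔ Sel G t (φ v) (φ w) := by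
  have key : ∀ v w : V, (∀ z, G.Adj v z → z ≠ w → ¬ (act φ t (z, 0) : ℝ) < 1 / 2) ↔
      (∀ z, G.Adj (φ v) z → z ≠ φ w → ¬ (t (z, 0) : ℝ) < 1 / 2) := by
    intro v w
    constructor
    · intro h z h1 h2
      obtain ⟨z, rfl⟩ := φ.surjective z
      exact h z (φ.map_adj_iff.1 h1) fun e => h2 (by rw [e])
    · intro h z h1 h2
      exact h (φ z) (φ.map_adj_iff.2 h1) fun e => h2 (φ.injective e)
  unfold Sel
  rw [key, key, φ.map_adj_iff]
  rfl

variable [MeasurableSpace V] [DiscreteMeasurableSpace V] [Countable V] [G.LocallyFinite]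

lemma meas_sel (v w : V) : Measurable fun t : Y V => Sel G t v w :=
  measurable_const.and ((meas_lab_lt _ _).and ((meas_lab_lt _ _).and
    ((Measurable.forall fun z => measurable_const.imp (measurable_const.imp
      (meas_lab_lt _ _).not)).and
    (Measurable.forall fun z => measurable_const.imp (measurable_const.imp
      (meas_lab_lt _ _).not)))))

lemma mat_ei : EI (G := G) act (mat G) := by
  refine { meas := measurable_pi_lambda _ fun v => measurable_to_countable' fun w => ?_,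
           eqv := fun φ t v => ?_, inv := mat_invol G, adj := fun t v h => ?_ }
  · have : (fun t => mat G t v) ⁻¹' {w} =
        {t | Sel G t v w ∨ (v = w ∧ ∀ w', ¬ Sel G t v w')} := by
      ext t
      simp only [Set.mem_preimage, Set.mem_singleton_iff, Set.mem_ofPred_eq]
      constructor
      · rintro rfl
        rcases mat_cases G t v with h | h
        · exact Or.inl h
        · exact Or.inr ⟨h.1.symm, h.2⟩
      · rintro (h | ⟨rfl, h⟩)
        · exact h.mat_eq
        · rcases mat_cases G t v with h' | h'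
          · exact absurd h' (h _)
          · exact h'.1
    rw [this]
    exact measurableSet_setOfPred.2 ((meas_sel v w).or (measurable_const.and
      (Measurable.forall fun w' => (meas_sel v w').not)))
  · rcases mat_cases G (act φ t) v with h | h
    · exact ((sel_act φ t _ _).1 h).mat_eq.symm
    · rw [h.1]
      rcases mat_cases G t (φ v) with h' | h'
      · obtain ⟨w, hw⟩ := φ.surjective (mat G t (φ v))
        rw [← hw] at h'
        exact absurd ((sel_act φ t _ _).2 h') (h.2 w)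
      · exact h'.1.symm
  · rcases mat_cases G t v with h' | h'
    · exact h'.1
    · exact absurd h'.1 h

lemma Pr_mat (h : RT G Δ) (hvw : G.Adj v w) :
    (1 / 2 : ℝ) ^ (2 * Δ) ≤ Pr (nu V) (fun t => mat G t v = w) := by
  have hΔ := h.three
  have := Pr_coins (V := V) 0 {v, w}
    ((G.neighborFinset v).erase w ∪ (G.neighborFinset w).erase v) ?_ (n := 2 * Δ) ?_
  · refine this.trans (Pr_mono fun t ht => Sel.mat_eq ⟨hvw, ht.1 v (by simp), ht.1 w (by simp),
      fun z h1 h2 => ht.2 z (by simp [h1, h2]), fun z h1 h2 => ht.2 z (by simp [h1, h2])⟩)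
  · simp
  · have h1 := Finset.card_union_le ((G.neighborFinset v).erase w) ((G.neighborFinset w).erase v)
    rw [Finset.card_erase_of_mem (by simpa using hvw),
      Finset.card_erase_of_mem (by simpa using hvw.symm),
      SimpleGraph.card_neighborFinset_eq_degree, SimpleGraph.card_neighborFinset_eq_degree,
      h.reg, h.reg] at h1
    have h2 : ({v, w} : Finset V).card ≤ 2 := Finset.card_le_two
    omega

end Pool.Agent.MP_93f6c7_pr

end

section

/-! Definitions for the main probabilistic lemma: random flips and the killed chain. -/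

set_option autoImplicit false
set_option linter.unusedSectionVars false
set_option linter.unusedVariables false
open MeasureTheory Function
open scoped Classical

namespace Pool.Agent.MP_93f6c7_pr

variable {V : Type} {G : SimpleGraph V} {Δ : ℕ}

/-- Marked vertices: probability `θ` in general, `q` at the ends of alternating paths. -/
def Mk (f g : V → V) (θ q : ℝ) (k : ℕ) (y : Y V) (u : V) : Prop :=
  (y (u, k) : ℝ) < θ ∨ ((f u = u ∨ g u = u) ∧ (y (u, k) : ℝ) < q)

/-- The random set in which two colours are exchanged. -/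
def RF (f g : V → V) (θ q : ℝ) (R k : ℕ) (y : Y V) : V → Prop := Ball f g R (Mk f g θ q k y)

/-- Successive random exchanges of the colour `γ` with the colours of a list. -/
noncomputable def seqF (γ : Fin Δ) (θ q : ℝ) (R : ℕ) (y : Y V) :
    List (Fin Δ) → (Fin Δ → V → V) → (Fin Δ → V → V)
  | [], σ => σ
  | x :: l, σ => seqF γ θ q R y l (flipC (RF (σ γ) (σ x) θ q R (3 + x.val) y) γ x σ)

/-- The alternating path traced backwards from `z` (first a `C` step) survives `t` rounds and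
ends at an active vertex. -/
def Arr (A C : V → V) (Wn Act : V → Prop) : ℕ → V → Prop
  | 0, z => C z ≠ z ∧ Act (C z)
  | t + 1, z => C z ≠ z ∧ A (C z) ≠ C z ∧ ¬ Wn (A (C z)) ∧ Arr A C Wn Act t (A (C z))

/-- Conditional expected number of arrivals at a vertex. -/
noncomputable def occ (A C : Y V × Y V → V → V) (Wn Act : Y V × Y V → V → Prop) (m : ℕ)
    (x : Y V) (v : V) : ℝ :=
  ∑ t ∈ Finset.range m,
    Pr (nu V) (fun y => Arr (A (x, y)) (C (x, y)) (Wn (x, y)) (Act (x, y)) t v)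

variable [MeasurableSpace V] [DiscreteMeasurableSpace V] [Countable V] [G.LocallyFinite]

/-- The independence structure that makes the alternating path a Markov chain. -/
structure Markov (G : SimpleGraph V) (A C : Y V × Y V → V → V) (Wn Act : Y V × Y V → V → Prop)
    (ΩA ΩB : Y V → V → Set (V × ℕ)) : Prop where
  eiA : EI (G := G) act2 A
  eiC : EI (G := G) act2 C
  ipW : IP (G := G) act2 Wn
  ipAct : IP (G := G) act2 Act
  disj : ∀ x v, Disjoint (ΩA x v) (ΩB x v)
  depC : ∀ x v, DependsOn (fun y => C (x, y) v) (ΩB x v)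
  depA : ∀ x v, DependsOn (fun y => A (x, y) v) (ΩA x v)
  depW : ∀ x v, DependsOn (fun y => Wn (x, y) v) (ΩA x v)
  depW' : ∀ x v, DependsOn (fun y => Wn (x, y) (A (x, y) v)) (ΩA x v)
  depAct : ∀ x v, DependsOn (fun y => Act (x, y) v) (ΩA x v)
  nestC : ∀ x y v, C (x, y) v ≠ v → ΩA x (C (x, y) v) ⊆ ΩB x v
  nestA : ∀ x y v, A (x, y) v ≠ v → ΩB x (A (x, y) v) ⊆ ΩA x v

section
variable {Z : Type} [MeasurableSpace Z] {T : (G ≃g G) → Z → Z}

lemma IP.arr {A C : Z → V → V} {Wn Act : Z → V → Prop} (hA : EM T A) (hC : EM T C)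
    (hW : IP T Wn) (hAct : IP T Act) (t : ℕ) :
    IP T (fun z => Arr (A z) (C z) (Wn z) (Act z) t) := by
  induction t with
  | zero => exact (IP.fix hC).not.and (hAct.comp hC)
  | succ t ih =>
    exact (IP.fix hC).not.and (((IP.fix hA).not.comp hC).and
      ((hW.comp (hA.comp hC)).not.and (ih.comp (hA.comp hC))))

lemma IP.rf {f g : Z → V → V} (hf : EM T f) (hg : EM T g) {y : Z → Y V} (hy : Measurable y)
    (he : ∀ φ z, y (T φ z) = act φ (y z)) (θ q : ℝ) (R k : ℕ) :
    IP T (fun z => RF (f z) (g z) θ q R k (y z)) :=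
  IP.ball (((IP.lab k θ).pull hy he).or
    (((IP.fix hf).or (IP.fix hg)).and ((IP.lab k q).pull hy he))) hf hg R

lemma EC.seqF {γ : Fin Δ} {s : Z → Fin Δ → V → V} (h : EC T s) {y : Z → Y V} (hy : Measurable y)
    (he : ∀ φ z, y (T φ z) = act φ (y z)) (θ q : ℝ) (R : ℕ) {l : List (Fin Δ)} (hl : γ ∉ l) :
    EC T (fun z => seqF γ θ q R (y z) l (s z)) := by
  induction l generalizing s with
  | nil => exact h
  | cons x l ih =>
    simp only [List.mem_cons, not_or] at hl
    exact ih (h.flipC hl.1 (IP.rf (h.em γ) (h.em x) hy he θ q R _)) hl.2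

end

lemma Loc.rf {f g : V → V} {D : Set V} {f' g' : V → V} (hf : Loc id D f' f) (hg : Loc id D g' g)
    {θ q : ℝ} {k : ℕ} {y y' : Y V} (hy : ∀ v ∈ D, y' (v, k) = y (v, k)) (R : ℕ) {v : V}
    (hv : v ∈ D) : RF f' g' θ q R k y' v ↔ RF f g θ q R k y v :=
  Loc.ball injective_id hf hg (fun u hu => by
    unfold Mk
    rw [hf.fix_iff injective_id hu, hg.fix_iff injective_id hu, hy u hu]
    rfl) R hv

variable {A C : Y V × Y V → V → V} {Wn Act : Y V × Y V → V → Prop}
  {ΩA ΩB : Y V → V → Set (V × ℕ)}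

lemma Markov.ip_arr (M : Markov G A C Wn Act ΩA ΩB) (t : ℕ) :
    IP (G := G) act2 (fun z => Arr (A z) (C z) (Wn z) (Act z) t) :=
  IP.arr M.eiA.toEM M.eiC.toEM M.ipW M.ipAct t

lemma Markov.arr_dep (M : Markov G A C Wn Act ΩA ΩB) (x : Y V) (t : ℕ) (v : V) :
    DependsOn (fun y => Arr (A (x, y)) (C (x, y)) (Wn (x, y)) (Act (x, y)) t v) (ΩB x v) := by
  induction t generalizing v with
  | zero =>
    refine dep_of_imp fun y y' hh h => ?_
    have e : C (x, y) v = C (x, y') v := M.depC x v hh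
    refine ⟨e ▸ h.1, ?_⟩
    have e2 : Act (x, y) (C (x, y) v) = Act (x, y') (C (x, y) v) :=
      M.depAct x _ fun i hi => hh i (M.nestC x y v h.1 hi)
    rw [← e, ← e2]; exact h.2
  | succ t ih =>
    refine dep_of_imp fun y y' hh h => ?_
    obtain ⟨h1, h2, h3, h4⟩ := h
    have e : C (x, y) v = C (x, y') v := M.depC x v hh
    have hA : ∀ i ∈ ΩA x (C (x, y) v), y i = y' i := fun i hi => hh i (M.nestC x y v h1 hi)
    have e2 : A (x, y) (C (x, y) v) = A (x, y') (C (x, y) v) := M.depA x _ hA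
    have e3 : Wn (x, y) (A (x, y) (C (x, y) v)) = Wn (x, y') (A (x, y') (C (x, y) v)) :=
      M.depW' x _ hA
    have e4 := ih (A (x, y) (C (x, y) v)) fun i hi => hA i (M.nestA x y _ h2 hi)
    refine ⟨e ▸ h1, ?_, ?_, ?_⟩
    · rw [← e, ← e2]; exact h2
    · rw [← e, ← e3]; exact h3
    · rw [← e, ← e2]; exact e4.mp h4

/-- Statement of the `L²` estimates for the occupation density of the killed chain. -/
def L2Stmt (G : SimpleGraph V) [G.LocallyFinite] (Δ : ℕ) (o : V) : Prop :=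
  ∀ (σ : Y V → Fin Δ → V → V) (A C : Y V × Y V → V → V) (Wn Act : Y V × Y V → V → Prop)
    (ΩA ΩB : Y V → V → Set (V × ℕ)), EC (G := G) act σ → Markov G A C Wn Act ΩA ΩB →
    ∀ (a b γ : Fin Δ), γ ≠ a → γ ≠ b → ∀ q : ℝ, 0 < q →
    (∀ x p, p = a ∨ p = b → q ≤ Pr (nu V) (fun y => A (x, y) o = σ x p o ∧
      (σ x p o ≠ o → ¬ Wn (x, y) (σ x p o)))) →
    (∀ x p, p ≠ a → p ≠ b → q ≤ Pr (nu V) (fun y => C (x, y) o = σ x p o)) →
    ∀ ps : ℝ, (∀ x v, Pr (nu V) (fun y => Act (x, y) v) ≤ ps) → ∀ (m : ℕ) (f hb s2 g0 : ℝ),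
    f = Pr ((nu V).prod (nu V)) (fun z => Act z o) →
    hb = ∫ x, occ A C Wn Act m x o ∂(nu V) →
    s2 = ∫ x, (occ A C Wn Act m x o - hb) ^ 2 ∂(nu V) →
    g0 = q ^ 2 / (200 * (Δ : ℝ) ^ 2) →
    g0 * s2 ≤ 2 * hb * f + ps * f / g0 ∧
    ∫ x, occ A C Wn Act m x o * Pr (nu V) (fun y => Wn (x, y) o) ∂(nu V) ≤ f ∧
    (m : ℝ) * Pr ((nu V).prod (nu V)) (fun z => Arr (A z) (C z) (Wn z) (Act z) m o) ≤ hb

lemma IF.Pr {E : Y V × Y V → V → Prop} (h : IP (G := G) act2 E) :
    IF (G := G) act (fun x v => Pr (nu V) (fun y => E (x, y) v)) := by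
  refine ⟨measurable_pi_lambda _ fun v => (BM.Pr (h.at v) (nu V)).meas,
    ⟨1, fun x v => ?_⟩, fun φ x v => ?_⟩
  · rw [abs_of_nonneg (Pr_nonneg _)]; exact Pr_le_one _
  · rw [← Pr_map (act_mp φ) (E := fun y => E (act φ x, y) v)
      ((h.at v).comp measurable_prodMk_left)]
    exact Pr_congr fun y => h.inv φ (x, y) v

lemma Markov.if_occ (M : Markov G A C Wn Act ΩA ΩB) (m : ℕ) :
    IF (G := G) act (occ A C Wn Act m) :=
  IF.sum fun t _ => IF.Pr (M.ip_arr t)

lemma occ_nonneg (m : ℕ) (x : Y V) (v : V) : 0 ≤ occ A C Wn Act m x v :=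
  Finset.sum_nonneg fun _ _ => Pr_nonneg _

/-- Statement of the estimates on random flips. -/
structure FlipStmt (G : SimpleGraph V) (Δ : ℕ) (o : V) : Prop where
  rf_le : ∀ (f g : V → V), Pair G f g → ∀ θ q : ℝ, 0 ≤ θ → θ ≤ 1 → 0 ≤ q → q ≤ 1 →
    ∀ (R k : ℕ) (v : V), Pr (nu V) (fun y => RF f g θ q R k y v) ≤ 2 * (R + 1) * θ + 3 * q
  rf_ge : ∀ (f g : V → V), Pair G f g → ∀ θ q : ℝ, 0 ≤ θ → q ≤ 1 → ∀ R : ℕ, 1 ≤ R → θ * R = q →
    ∀ (k : ℕ) (v : V), q / 2 ≤ Pr (nu V) (fun y => RF f g θ q R k y v ∧ RF f g θ q R k y (f v)) ∧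
      q / 2 ≤ Pr (nu V) (fun y => RF f g θ q R k y v ∧ RF f g θ q R k y (g v))
  rf_bd : ∀ c : FC G Δ, ∀ a b : Fin Δ, a ≠ b → ∀ θ q : ℝ, 0 ≤ θ → θ ≤ 1 → 0 ≤ q → q ≤ 1 →
    ∀ (R k : ℕ) (p : Fin Δ), p = a ∨ p = b →
    Pr ((nu V).prod (nu V))
      (fun z => Bd (RF (c.σ z.1 a) (c.σ z.1 b) θ q R k z.2) (c.σ z.1 p) o) ≤
      2 * θ + 2 * q * c.hol o
  seq_unc : ∀ (γ : Fin Δ) (θ q : ℝ) (R : ℕ) (y : Y V) (l : List (Fin Δ)) (σ : Fin Δ → V → V),
    γ ∉ l → ∀ v w, Unc G σ v w → Unc G (seqF γ θ q R y l σ) v w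
  seq_other : ∀ (γ : Fin Δ) (θ q : ℝ) (R : ℕ) (y : Y V) (l : List (Fin Δ)) (σ : Fin Δ → V → V)
    (p : Fin Δ), p ≠ γ → p ∉ l → seqF γ θ q R y l σ p = σ p
  seq_cases : ∀ (γ : Fin Δ) (θ q : ℝ) (R : ℕ) (y : Y V) (l : List (Fin Δ)) (σ : Fin Δ → V → V),
    γ ∉ l → ∀ v, seqF γ θ q R y l σ γ v = v ∨ ∃ p ∈ γ :: l, seqF γ θ q R y l σ γ v = σ p v
  seq_loc : ∀ (γ : Fin Δ) (θ q : ℝ) (R : ℕ) (y y' : Y V) (l : List (Fin Δ))
    (σ σ' : Fin Δ → V → V) (D : Set V), γ ∉ l → (∀ p ∈ γ :: l, Loc id D (σ' p) (σ p)) →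
    (∀ v ∈ D, ∀ k, 3 ≤ k → y' (v, k) = y (v, k)) →
    ∀ p ∈ γ :: l, Loc id D (seqF γ θ q R y' l σ' p) (seqF γ θ q R y l σ p)
  seq_change : ∀ (γ : Fin Δ) (θ q : ℝ), 0 ≤ θ → q ≤ 1 → ∀ R : ℕ, 1 ≤ R → θ * R = q →
    ∀ (l : List (Fin Δ)), γ ∉ l → l.Nodup → ∀ σ : Fin Δ → V → V, Proper G σ → ∀ v,
    Pr (nu V) (fun y => ∃ p, seqF γ θ q R y l σ p v ≠ σ p v) ≤ 21 * q * l.length
  seq_ge : ∀ (γ : Fin Δ) (θ q : ℝ), 0 ≤ θ → q ≤ 1 → ∀ R : ℕ, 1 ≤ R → θ * R = q →
    ∀ (l : List (Fin Δ)), γ ∉ l → l.Nodup → 42 * q * l.length ≤ 1 →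
    ∀ σ : Fin Δ → V → V, Proper G σ → ∀ v, ∀ p ∈ γ :: l,
    q / 4 ≤ Pr (nu V) (fun y => seqF γ θ q R y l σ γ v = σ p v)
  seq_holes : ∀ c : FC G Δ, ∀ (γ : Fin Δ) (θ q e : ℝ), 0 ≤ θ → 0 ≤ q → q ≤ 1 → θ ≤ q * e →
    θ ≤ 1 → c.hol o ≤ e → ∀ (R : ℕ) (l : List (Fin Δ)), γ ∉ l → l.Nodup →
    8 * q * l.length ≤ 1 →
    ∫ z, holes (seqF γ θ q R z.2 l (c.σ z.1)) o ∂((nu V).prod (nu V)) ≤
      c.hol o + 16 * q * l.length * e

end Pool.Agent.MP_93f6c7_pr

end

section

/-! Shifting uncoloured edges along long alternating paths: deterministic part. -/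

set_option autoImplicit false
set_option linter.unusedSectionVars false
set_option linter.unusedVariables false
open MeasureTheory Function
open scoped Classical

namespace Pool.Agent.MP_93f6c7_pr

variable {V : Type} {G : SimpleGraph V} {Δ : ℕ}

/-- Sources: `v` misses `b`, starts a long `a b` path and is matched to a vertex missing `a`. -/
def Src (σ : Fin Δ → V → V) (a b : Fin Δ) (L : ℕ) (mu : V → V) (v : V) : Prop :=
  mu v ≠ v ∧ σ b v = v ∧ σ a (mu v) = mu v ∧ Free (σ a) (σ b) (2 * L + 1) v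

/-- The initial segments of the live tracks. -/
def PP (f g : V → V) (L : ℕ) (Lv : V → Prop) (κ : V → ℕ) (z : V) : Prop :=
  ∃ j, j ≤ L ∧ Lv (back f g j z) ∧ j < κ (back f g j z)

/-- The matching restricted to live sources. -/
noncomputable def muL (mu : V → V) (Lv : V → Prop) (v : V) : V :=
  if Lv v ∨ Lv (mu v) then mu v else v

/-- Exchange `a` and `b` on `F` and shift the live sources to the positions `κ`. -/
noncomputable def shiftC (a b : Fin Δ) (L : ℕ) (mu : V → V) (Lv F : V → Prop) (κ : V → ℕ)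
    (σ τ : Fin Δ → V → V) : Fin Δ → V → V :=
  colourC a (muL mu Lv) (flipC (fun z => F z ∨ PP (σ a) (σ b) L Lv κ z) a b τ)

/-- Hypotheses under which the shift is well behaved. -/
structure ShiftOK (G : SimpleGraph V) (σ : Fin Δ → V → V) (a b : Fin Δ) (L : ℕ) (mu : V → V)
    (Lv F : V → Prop) : Prop where
  proper : Proper G σ
  ab : a ≠ b
  inv : Involutive mu
  unc : ∀ v, mu v ≠ v → Unc G σ v (mu v)
  src : ∀ v, Lv v → Src σ a b L mu v
  nF : ∀ v, Lv v → ∀ j, j ≤ L → ¬ F (walk (σ a) (σ b) j v)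
  nF' : ∀ v, Lv v → ¬ F (mu v)

/-- `τ` is a proper colouring with the same colour classes `a`, `b` and no new coloured edges. -/
structure Compat (G : SimpleGraph V) (σ τ : Fin Δ → V → V) (a b : Fin Δ) : Prop where
  proper : Proper G τ
  ea : τ a = σ a
  eb : τ b = σ b
  unc : ∀ v w, Unc G σ v w → Unc G τ v w

variable {σ τ : Fin Δ → V → V} {a b α p : Fin Δ} {L : ℕ} {mu : V → V} {Lv F : V → Prop}
  {κ κ' : V → ℕ} {v z : V} {j : ℕ}

lemma Compat.refl (h : Proper G σ) : Compat G σ σ a b := ⟨h, rfl, rfl, fun _ _ h => h⟩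

lemma src_unique (hσ : Proper G σ) {v' : V} {j' : ℕ} (hv : Src σ a b L mu v)
    (hv' : Src σ a b L mu v') (hj : j ≤ L) (hj' : j' ≤ L)
    (he : walk (σ a) (σ b) j v = walk (σ a) (σ b) j' v') : v = v' ∧ j = j' :=
  track_unique (hσ.inv a) (hσ.inv b) hv.2.1 hv'.2.1 hv.2.2.2 hv'.2.2.2 hj hj' he

lemma src_back_unique (hσ : Proper G σ) {j' : ℕ} (hv : Src σ a b L mu (back (σ a) (σ b) j z))
    (hv' : Src σ a b L mu (back (σ a) (σ b) j' z)) (hj : j ≤ L) (hj' : j' ≤ L) : j = j' :=
  (src_unique hσ hv hv' hj hj' (by rw [walk_back (hσ.inv a) (hσ.inv b),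
    walk_back (hσ.inv a) (hσ.inv b)])).2

lemma Src.ne_a (hv : Src σ a b L mu v) : σ a v ≠ v := hv.2.2.2.1

lemma ShiftOK.pp_iff (h : ShiftOK G σ a b L mu Lv F) (hv : Lv v) (hj : j ≤ L) :
    PP (σ a) (σ b) L Lv κ (walk (σ a) (σ b) j v) ↔ j < κ v := by
  constructor
  · rintro ⟨j', h1, h2, h3⟩
    obtain ⟨e1, e2⟩ := src_unique h.proper (h.src _ hv) (h.src _ h2) hj h1
      (by rw [walk_back (h.proper.inv a) (h.proper.inv b)])
    rw [← e1, ← e2] at h3
    exact h3
  · intro hlt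
    exact ⟨j, hj, by rwa [back_walk (h.proper.inv a) (h.proper.inv b)],
      by rwa [back_walk (h.proper.inv a) (h.proper.inv b)]⟩

lemma ShiftOK.pp_elim (h : ShiftOK G σ a b L mu Lv F) (hz : PP (σ a) (σ b) L Lv κ z) :
    ∃ v j, Lv v ∧ j ≤ L ∧ j < κ v ∧ z = walk (σ a) (σ b) j v := by
  obtain ⟨j, h1, h2, h3⟩ := hz
  exact ⟨_, j, h2, h1, h3, (walk_back (h.proper.inv a) (h.proper.inv b) _ _).symm⟩

lemma src_interior (hσ : Proper G σ) (hv : Src σ a b L mu v) (hj : j ≤ L) (h1 : 1 ≤ j) :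
    σ a (walk (σ a) (σ b) j v) ≠ walk (σ a) (σ b) j v ∧
      σ b (walk (σ a) (σ b) j v) ≠ walk (σ a) (σ b) j v :=
  (hv.2.2.2.mono (show j + 1 ≤ 2 * L + 1 by omega)).not_end (hσ.inv a) (hσ.inv b) h1

lemma ShiftOK.not_pp_a (h : ShiftOK G σ a b L mu Lv F) (hz : σ a z = z) :
    ¬ PP (σ a) (σ b) L Lv κ z := by
  intro hp
  obtain ⟨v, j, h1, h2, _, rfl⟩ := h.pp_elim hp
  rcases Nat.eq_zero_or_pos j with rfl | hj
  · exact (h.src v h1).ne_a hz
  · exact (src_interior h.proper (h.src v h1) h2 hj).1 hz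

lemma ShiftOK.pp_b (h : ShiftOK G σ a b L mu Lv F) (hz : σ b z = z)
    (hp : PP (σ a) (σ b) L Lv κ z) : Lv z := by
  obtain ⟨v, j, h1, h2, _, rfl⟩ := h.pp_elim hp
  rcases Nat.eq_zero_or_pos j with rfl | hj
  · exact h1
  · exact absurd hz (src_interior h.proper (h.src v h1) h2 hj).2

lemma muL_invol (h : Involutive mu) (Lv : V → Prop) : Involutive (muL mu Lv) := by
  intro v
  unfold muL
  by_cases hv : Lv v ∨ Lv (mu v)
  · rw [if_pos hv, h v, if_pos hv.symm]
  · rw [if_neg hv, if_neg hv]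

lemma muL_fix (h1 : ¬ Lv v) (h2 : ¬ Lv (mu v)) : muL mu Lv v = v := if_neg (by tauto)

lemma muL_ne (h : muL mu Lv v ≠ v) : (Lv v ∨ Lv (mu v)) ∧ muL mu Lv v = mu v := by
  by_cases hv : Lv v ∨ Lv (mu v)
  · exact ⟨hv, if_pos hv⟩
  · exact absurd (if_neg hv) h

lemma ShiftOK.muL_unc (h : ShiftOK G σ a b L mu Lv F) (hv : muL mu Lv v ≠ v) :
    Unc G σ v (muL mu Lv v) := by
  have := (muL_ne hv).2
  rw [this] at hv ⊢
  exact h.unc v hv

lemma ShiftOK.shift_proper (h : ShiftOK G σ a b L mu Lv F) (hτ : Compat G σ τ a b) :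
    Proper G (shiftC a b L mu Lv F κ σ τ) :=
  (hτ.proper.flipC h.ab _).colourC a (muL_invol h.inv Lv)
    fun v hv => (hτ.unc _ _ (h.muL_unc hv)).flipC h.ab _

lemma shift_other (ha : p ≠ a) (hb : p ≠ b) : shiftC a b L mu Lv F κ σ τ p = τ p := by
  rw [shiftC, colourC_other ha, flipC_other ha hb]

lemma shift_congr (hab : a ≠ b) (ea : τ a = σ a) (eb : τ b = σ b) (hp : p = a ∨ p = b) :
    shiftC a b L mu Lv F κ σ τ p = shiftC a b L mu Lv F κ σ σ p := by
  rcases hp with rfl | rfl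
  · simp only [shiftC, colourC_self, flipC_left, ea, eb]
  · simp only [shiftC, colourC_other hab.symm, flipC_right hab, ea, eb]

/-- Both ends of a live matching edge miss `a` after the flip. -/
lemma ShiftOK.live_holes (h : ShiftOK G σ a b L mu Lv F) (hτ : Compat G σ τ a b)
    (hκ : ∀ v, Lv v → 1 ≤ κ v) (hv : Lv v) :
    flipC (fun z => F z ∨ PP (σ a) (σ b) L Lv κ z) a b τ a v = v ∧
    flipC (fun z => F z ∨ PP (σ a) (σ b) L Lv κ z) a b τ a (mu v) = mu v := by
  have hs := h.src v hv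
  have hp : PP (σ a) (σ b) L Lv κ v := (h.pp_iff (j := 0) hv (Nat.zero_le _)).2 (hκ v hv)
  constructor
  · rw [flipC_left, hτ.ea, hτ.eb, flip1_in (F := fun z => F z ∨ PP (σ a) (σ b) L Lv κ z)
      (Or.inr hp) (by rw [hs.2.1]; exact Or.inr hp), hs.2.1]
  · refine flipC_hole h.ab ?_ (by rw [hτ.ea]; exact hs.2.2.1)
    rintro (hF | hP)
    · exact h.nF' v hv hF
    · exact h.not_pp_a hs.2.2.1 hP

lemma ShiftOK.col_cond (h : ShiftOK G σ a b L mu Lv F) (hτ : Compat G σ τ a b)
    (hκ : ∀ v, Lv v → 1 ≤ κ v) (hz : Lv z ∨ Lv (mu z)) :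
    muL mu Lv z ≠ z ∧ flipC (fun z => F z ∨ PP (σ a) (σ b) L Lv κ z) a b τ a z = z ∧
      flipC (fun z => F z ∨ PP (σ a) (σ b) L Lv κ z) a b τ a (muL mu Lv z) = muL mu Lv z := by
  have e : muL mu Lv z = mu z := if_pos hz
  rw [e]
  rcases hz with hz | hz
  · exact ⟨(h.src z hz).1, h.live_holes hτ hκ hz⟩
  · have := h.live_holes hτ hκ hz
    have h1 := (h.src _ hz).1
    rw [h.inv] at this h1
    exact ⟨h1.symm, this.2, this.1⟩

lemma nbr_trk (hσ : Proper G σ) (hp : p = a ∨ p = b) (v : V) (j : ℕ) :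
    σ p (walk (σ a) (σ b) (j + 1) v) = walk (σ a) (σ b) (j + 2) v ∨
      σ p (walk (σ a) (σ b) (j + 1) v) = walk (σ a) (σ b) j v := by
  have e1 := walk_succ' (σ a) (σ b) (j + 1) v
  have e2 : alt (σ a) (σ b) j (walk (σ a) (σ b) (j + 1) v) = walk (σ a) (σ b) j v := by
    rw [walk_succ', alt_invol (hσ.inv a) (hσ.inv b) j]
  rw [alt_succ] at e1
  rcases alt_cases (σ a) (σ b) j with e | e <;> rw [e.2] at e1 <;> rw [e.1] at e2 <;>
    rcases hp with rfl | rfl
  · exact Or.inr e2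
  · exact Or.inl e1.symm
  · exact Or.inl e1.symm
  · exact Or.inr e2

/-- `z` is the vertex number `j` of a live track, close to the position `k`. -/
def Zone (f g : V → V) (L W : ℕ) (Lv : V → Prop) (k : V → ℕ) (z : V) (j : ℕ) : Prop :=
  j ≤ L ∧ Lv (back f g j z) ∧ k (back f g j z) ≤ j + 1 ∧ j ≤ k (back f g j z) + W

lemma ShiftOK.pp_congr (h : ShiftOK G σ a b L mu Lv F) {W : ℕ}
    (hκ : ∀ v, Lv v → 2 ≤ κ v ∧ κ v + W ≤ L) (hκ' : ∀ v, Lv v → κ v ≤ κ' v ∧ κ' v ≤ κ v + W)
    (hz : ∀ j, Zone (σ a) (σ b) L W Lv κ z j →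
      κ' (back (σ a) (σ b) j z) = κ (back (σ a) (σ b) j z))
    {w : V} (hw : w = z ∨ w = σ a z ∨ w = σ b z) :
    PP (σ a) (σ b) L Lv κ' w ↔ PP (σ a) (σ b) L Lv κ w := by
  constructor
  · intro hp
    obtain ⟨v, j, h1, h2, h3, rfl⟩ := h.pp_elim hp
    rw [h.pp_iff h1 h2]
    by_contra hn
    have k1 := hκ v h1
    have k2 := hκ' v h1
    have key : ∀ j', z = walk (σ a) (σ b) j' v → j ≤ j' + 1 → j' ≤ j + 1 → False := by
      intro j' e i1 i2
      have eb : back (σ a) (σ b) j' z = v := by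
        rw [e, back_walk (h.proper.inv a) (h.proper.inv b)]
      have := hz j' ⟨by omega, by rwa [eb], by rw [eb]; omega, by rw [eb]; omega⟩
      rw [eb] at this
      omega
    obtain ⟨j, rfl⟩ : ∃ i, j = i + 1 := ⟨j - 1, by omega⟩
    rcases hw with hw | hw | hw
    · exact key (j + 1) hw.symm (by omega) (by omega)
    · have e : z = σ a (walk (σ a) (σ b) (j + 1) v) := by rw [hw, h.proper.inv a]
      rcases nbr_trk h.proper (Or.inl rfl) v j with e' | e'
      · exact key (j + 2) (e.trans e') (by omega) (by omega)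
      · exact key j (e.trans e') (by omega) (by omega)
    · have e : z = σ b (walk (σ a) (σ b) (j + 1) v) := by rw [hw, h.proper.inv b]
      rcases nbr_trk h.proper (Or.inr rfl) v j with e' | e'
      · exact key (j + 2) (e.trans e') (by omega) (by omega)
      · exact key j (e.trans e') (by omega) (by omega)
  · rintro ⟨j, h1, h2, h3⟩
    exact ⟨j, h1, h2, h3.trans_le (hκ' _ h2).1⟩

/-- Moving other sources does not change the colours `a`, `b` at `z`. -/
lemma ShiftOK.shift_eq (h : ShiftOK G σ a b L mu Lv F) (hτ : Compat G σ τ a b) {W : ℕ}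
    (hκ : ∀ v, Lv v → 2 ≤ κ v ∧ κ v + W ≤ L) (hκ' : ∀ v, Lv v → κ v ≤ κ' v ∧ κ' v ≤ κ v + W)
    (hz : ∀ j, Zone (σ a) (σ b) L W Lv κ z j →
      κ' (back (σ a) (σ b) j z) = κ (back (σ a) (σ b) j z)) (hp : p = a ∨ p = b) :
    shiftC a b L mu Lv F κ' σ τ p z = shiftC a b L mu Lv F κ σ τ p z := by
  have e0 := h.pp_congr hκ hκ' hz (Or.inl rfl)
  have ea := h.pp_congr hκ hκ' hz (Or.inr (Or.inl rfl))
  have eb := h.pp_congr hκ hκ' hz (Or.inr (Or.inr rfl))
  have hfl : ∀ p, p = a ∨ p = b →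
      flipC (fun z => F z ∨ PP (σ a) (σ b) L Lv κ' z) a b τ p z =
        flipC (fun z => F z ∨ PP (σ a) (σ b) L Lv κ z) a b τ p z := by
    rintro p (rfl | rfl)
    · simp only [flipC_left, flip1, hτ.ea, hτ.eb, e0, ea, eb]
    · simp only [flipC_right h.ab, flip1, hτ.ea, hτ.eb, e0, ea, eb]
  by_cases hm : Lv z ∨ Lv (mu z)
  · rcases hp with rfl | rfl
    · have c1 := h.col_cond (κ := κ) hτ (fun v hv => by have := hκ v hv; omega) hm
      have c2 := h.col_cond (κ := κ') hτ
        (fun v hv => by have := hκ v hv; have := hκ' v hv; omega) hm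
      rw [shiftC, shiftC, colourC_self, colourC_self, col1_pos c1.1 c1.2.1 c1.2.2,
        col1_pos c2.1 c2.2.1 c2.2.2]
    · rw [shiftC, shiftC, colourC_other h.ab.symm, colourC_other h.ab.symm]
      exact hfl _ (Or.inr rfl)
  · have e : muL mu Lv z = z := if_neg hm
    rw [shiftC, shiftC, colourC_fix e, colourC_fix e]
    exact hfl p hp

lemma ShiftOK.muL_interior (h : ShiftOK G σ a b L mu Lv F) (ha : σ a z ≠ z) (hb : σ b z ≠ z) :
    muL mu Lv z = z := by
  refine muL_fix (fun hz => hb (h.src z hz).2.1) fun hz => ha ?_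
  have := (h.src _ hz).2.2.1
  rwa [h.inv] at this

/-- The vertex at the new position misses the colour of the uncoloured edge. -/
lemma ShiftOK.shift_hole (h : ShiftOK G σ a b L mu Lv F) (hτ : Compat G σ τ a b) (hv : Lv v)
    (h1 : 1 ≤ κ v) (hL : κ v ≤ L) (hα : alt b a (κ v) = α) :
    shiftC a b L mu Lv F κ σ τ α (walk (σ a) (σ b) (κ v) v) = walk (σ a) (σ b) (κ v) v := by
  have hi := src_interior h.proper (h.src v hv) hL h1
  rw [shiftC, colourC_fix (h.muL_interior hi.1 hi.2)]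
  obtain ⟨j, hj⟩ : ∃ j, κ v = j + 1 := ⟨κ v - 1, by omega⟩
  have hn : ¬ (F (walk (σ a) (σ b) (κ v) v) ∨ PP (σ a) (σ b) L Lv κ (walk (σ a) (σ b) (κ v) v)) := by
    rintro (hF | hP)
    · exact h.nF v hv _ hL hF
    · exact lt_irrefl _ ((h.pp_iff hv hL).1 hP)
  have hback : σ α (walk (σ a) (σ b) (κ v) v) = walk (σ a) (σ b) j v := by
    rw [← hα, alt_map σ, hj, alt_succ, walk_succ', alt_invol (h.proper.inv a) (h.proper.inv b) j]
  have hp : F (σ α (walk (σ a) (σ b) (κ v) v)) ∨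
      PP (σ a) (σ b) L Lv κ (σ α (walk (σ a) (σ b) (κ v) v)) := by
    rw [hback]
    exact Or.inr ((h.pp_iff hv (by omega)).2 (by omega))
  rcases alt_cases b a (κ v) with e | e
  · rw [e.1] at hα; subst hα
    rw [flipC_right h.ab, hτ.ea, hτ.eb]
    exact flip1_out' (F := fun z => F z ∨ PP (σ a) (σ b) L Lv κ z) hn hp
  · rw [e.1] at hα; subst hα
    rw [flipC_left, hτ.ea, hτ.eb]
    exact flip1_out' (F := fun z => F z ∨ PP (σ a) (σ b) L Lv κ z) hn hp

/-- The `p` edge at `z` leaves the initial segments. -/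
def Out (f g : V → V) (L : ℕ) (Lv : V → Prop) (κ : V → ℕ) (s : V → V) (z : V) : Prop :=
  PP f g L Lv κ z ∧ ¬ PP f g L Lv κ (s z)

lemma ShiftOK.out_elim (h : ShiftOK G σ a b L mu Lv F) (hκ : ∀ v, Lv v → κ v ≤ L)
    (hp : p = a ∨ p = b) (hz : Out (σ a) (σ b) L Lv κ (σ p) z) :
    ∃ j, j ≤ L ∧ Lv (back (σ a) (σ b) j z) ∧ κ (back (σ a) (σ b) j z) = j + 1 ∧
      alt a b j = p := by
  obtain ⟨v, j, h1, h2, h3, rfl⟩ := h.pp_elim hz.1
  have hk := hκ v h1
  refine ⟨j, h2, ?_⟩
  rw [back_walk (h.proper.inv a) (h.proper.inv b)]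
  have hfw : σ (alt a b j) (walk (σ a) (σ b) j v) = walk (σ a) (σ b) (j + 1) v := by
    rw [walk_succ', alt_map σ]
  by_cases hc : alt a b j = p
  · refine ⟨h1, ?_, hc⟩
    have := hz.2
    rw [← hc, hfw, h.pp_iff h1 (by omega)] at this
    omega
  · exfalso
    have hc' : alt b a j = p := by
      rcases alt_cases a b j with e | e <;> rcases hp with rfl | rfl <;> simp_all
    apply hz.2
    cases j with
    | zero =>
      rw [← hc', alt_zero, walk_zero, (h.src v h1).2.1]
      exact hz.1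
    | succ j =>
      rw [← hc', alt_map σ, alt_succ, walk_succ', alt_invol (h.proper.inv a) (h.proper.inv b) j,
        h.pp_iff h1 (by omega)]
      omega

lemma bd_or_le (F F' : V → Prop) (s : V → V) (z : V) :
    ind (Bd (fun z => F z ∨ F' z) s z) ≤ ind (Bd F s z) + ind (Bd F' s z) :=
  (ind_mono (by unfold Bd; tauto)).trans (ind_or_le _ _)

lemma bd_pp_le {f g s : V → V} (hs : Involutive s) (z : V) :
    ind (Bd (PP f g L Lv κ) s z) ≤ ind (Out f g L Lv κ s z) + ind (Out f g L Lv κ s (s z)) :=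
  (ind_mono (by unfold Bd Out; rw [hs]; tauto)).trans (ind_or_le _ _)

lemma ShiftOK.holes_shift (h : ShiftOK G σ a b L mu Lv F) (hτ : Compat G σ τ a b)
    (hκ : ∀ v, Lv v → 1 ≤ κ v) (z : V) :
    holes (shiftC a b L mu Lv F κ σ τ) z ≤ holes τ z + ind (Bd F (σ a) z) + ind (Bd F (σ b) z) +
      (ind (Out (σ a) (σ b) L Lv κ (σ a) z) + ind (Out (σ a) (σ b) L Lv κ (σ a) (σ a z))) +
      (ind (Out (σ a) (σ b) L Lv κ (σ b) z) + ind (Out (σ a) (σ b) L Lv κ (σ b) (σ b z))) -
      (ind (Lv z) + ind (Lv (mu z))) := by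
  rw [shiftC, holes_colourC]
  have h1 := holes_flipC h.ab (fun z => F z ∨ PP (σ a) (σ b) L Lv κ z) τ z
  rw [hτ.ea, hτ.eb] at h1
  have h2 := bd_or_le F (PP (σ a) (σ b) L Lv κ) (σ a) z
  have h3 := bd_or_le F (PP (σ a) (σ b) L Lv κ) (σ b) z
  have h4 := bd_pp_le (f := σ a) (g := σ b) (L := L) (Lv := Lv) (κ := κ) (h.proper.inv a) z
  have h5 := bd_pp_le (f := σ a) (g := σ b) (L := L) (Lv := Lv) (κ := κ) (h.proper.inv b) z
  have h6 : ind (Lv z) + ind (Lv (mu z)) ≤ ind (muL mu Lv z ≠ z ∧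
      flipC (fun z => F z ∨ PP (σ a) (σ b) L Lv κ z) a b τ a z = z ∧
      flipC (fun z => F z ∨ PP (σ a) (σ b) L Lv κ z) a b τ a (muL mu Lv z) = muL mu Lv z) := by
    by_cases l1 : Lv z
    · have l2 : ¬ Lv (mu z) := fun l2 => by
        have := (h.src _ l2).2.2.1
        rw [h.inv] at this
        exact (h.src z l1).ne_a this
      rw [ind_pos l1, ind_neg l2, ind_pos (h.col_cond hτ hκ (Or.inl l1))]; norm_num
    · by_cases l2 : Lv (mu z)
      · rw [ind_neg l1, ind_pos l2, ind_pos (h.col_cond hτ hκ (Or.inr l2))]; norm_num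
      · rw [ind_neg l1, ind_neg l2, add_zero]; exact ind_nonneg _
  linarith

lemma ShiftOK.shift_same (h : ShiftOK G σ a b L mu Lv F) (hτ : Compat G σ τ a b)
    (h0 : ¬ (F z ∨ PP (σ a) (σ b) L Lv κ z)) (ha : ¬ (F (σ a z) ∨ PP (σ a) (σ b) L Lv κ (σ a z)))
    (hb : ¬ (F (σ b z) ∨ PP (σ a) (σ b) L Lv κ (σ b z))) (l1 : ¬ Lv z) (l2 : ¬ Lv (mu z))
    (p : Fin Δ) : shiftC a b L mu Lv F κ σ τ p z = τ p z := by
  rw [shiftC, colourC_fix (muL_fix l1 l2)]
  exact flipC_eq (F := fun z => F z ∨ PP (σ a) (σ b) L Lv κ z) h.ab h0 (by rwa [hτ.ea])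
    (by rwa [hτ.eb]) p

lemma ShiftOK.shift_keep (h : ShiftOK G σ a b L mu Lv F) (hτ : Compat G σ τ a b) (hF : ¬ F z)
    (l1 : ¬ Lv z) (l2 : ¬ Lv (mu z)) (hp : τ p z = z) : shiftC a b L mu Lv F κ σ τ p z = z := by
  rw [shiftC, colourC_fix (muL_fix l1 l2)]
  by_cases ha : p = a
  · subst ha
    refine flipC_hole h.ab ?_ hp
    rintro (h1 | h1)
    · exact hF h1
    · exact h.not_pp_a (by rwa [hτ.ea] at hp) h1
  by_cases hb : p = b
  · subst hb
    refine flipC_hole h.ab ?_ hp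
    rintro (h1 | h1)
    · exact hF h1
    · exact l1 (h.pp_b (by rwa [hτ.eb] at hp) h1)
  · rw [flipC_other ha hb, hp]

lemma ShiftOK.shift_unc (h : ShiftOK G σ a b L mu Lv F) (hτ : Compat G σ τ a b) {w : V}
    (l1 : ¬ Lv z) (l2 : ¬ Lv (mu z)) (hu : Unc G σ z w) :
    Unc G (shiftC a b L mu Lv F κ σ τ) z w :=
  ((hτ.unc _ _ hu).flipC h.ab _).colourC (by rw [muL_fix l1 l2]; exact hu.1.ne) a

/-- Inside `F` the colours are exchanged. -/
lemma ShiftOK.shift_flip (h : ShiftOK G σ a b L mu Lv F) (hα : α = a ∨ α = b)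
    (hp : p = a ∨ p = b) (hne : p ≠ α) (h1 : F z) (h2 : F (σ p z)) :
    shiftC a b L mu Lv F κ σ σ α z = σ p z := by
  have l1 : ¬ Lv z := fun l => h.nF z l 0 (Nat.zero_le _) h1
  have l2 : ¬ Lv (mu z) := fun l => h.nF' _ l (by rwa [h.inv])
  rw [shiftC, colourC_fix (muL_fix l1 l2)]
  rcases hα with rfl | rfl <;> rcases hp with rfl | rfl
  · exact absurd rfl hne
  · rw [flipC_left]
    exact flip1_in (F := fun z => F z ∨ PP (σ α) (σ p) L Lv κ z) (Or.inl h1) (Or.inl h2)
  · rw [flipC_right h.ab]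
    exact flip1_in (F := fun z => F z ∨ PP (σ p) (σ α) L Lv κ z) (Or.inl h1) (Or.inl h2)
  · exact absurd rfl hne

/-- Away from `F` and the live tracks the colour `α` is unchanged. -/
lemma ShiftOK.shift_stay (h : ShiftOK G σ a b L mu Lv F) (hα : α = a ∨ α = b)
    (h0 : ¬ (F z ∨ PP (σ a) (σ b) L Lv κ z)) (h1 : ¬ (F (σ α z) ∨ PP (σ a) (σ b) L Lv κ (σ α z)))
    (l1 : ¬ Lv z) (l2 : ¬ Lv (mu z)) : shiftC a b L mu Lv F κ σ σ α z = σ α z := by
  rw [shiftC, colourC_fix (muL_fix l1 l2)]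
  rcases hα with rfl | rfl
  · rw [flipC_left]
    exact flip1_out (F := fun z => F z ∨ PP (σ α) (σ b) L Lv κ z) h0 h1
  · rw [flipC_right h.ab]
    exact flip1_out (F := fun z => F z ∨ PP (σ a) (σ α) L Lv κ z) h0 h1

/-- The new edges of colour `a` or `b` are old `a b` edges or matching edges. -/
lemma ShiftOK.shift_cases (h : ShiftOK G σ a b L mu Lv F) (hα : α = a ∨ α = b) (z : V) :
    shiftC a b L mu Lv F κ σ σ α z = z ∨ shiftC a b L mu Lv F κ σ σ α z = σ a z ∨
      shiftC a b L mu Lv F κ σ σ α z = σ b z ∨ shiftC a b L mu Lv F κ σ σ α z = mu z := by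
  rw [shiftC]
  rcases colourC_cases a (muL mu Lv) (flipC (fun z => F z ∨ PP (σ a) (σ b) L Lv κ z) a b σ) α z
    with e | e
  · rw [e]
    rcases flipC_cases h.ab (fun z => F z ∨ PP (σ a) (σ b) L Lv κ z) σ α z with e' | e'
    · exact Or.inl e'
    · rw [e']
      rcases hα with rfl | rfl <;> split_ifs <;> simp
  · rw [e.2.2.2.2, (muL_ne e.2.1).2]
    simp

/-! ### The alternating path of an active vertex -/

/-- The smallest number with a property, or a default value. -/
noncomputable def pick (Gd : ℕ → Prop) (d : ℕ) : ℕ := if h : ∃ j, Gd j then Nat.find h else d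

lemma pick_cases (Gd : ℕ → Prop) (d : ℕ) : Gd (pick Gd d) ∨ (pick Gd d = d ∧ ∀ j, ¬ Gd j) := by
  by_cases h : ∃ j, Gd j
  · left; rw [pick, dif_pos h]; exact Nat.find_spec h
  · right; exact ⟨by rw [pick, dif_neg h], fun j hj => h ⟨j, hj⟩⟩

lemma lt_pick (Gd : ℕ → Prop) (d j : ℕ) :
    j < pick Gd d ↔ (∀ i, i ≤ j → ¬ Gd i) ∧ ((∃ i, Gd i) ∨ j < d) := by
  by_cases h : ∃ j, Gd j
  · rw [pick, dif_pos h, Nat.lt_find_iff]; tauto
  · rw [pick, dif_neg h]
    exact ⟨fun hj => ⟨fun i _ hi => h ⟨i, hi⟩, Or.inr hj⟩, fun hj => hj.2.resolve_left h⟩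

/-- Window vertices of the right parity. -/
def Win (σ : Fin Δ → V → V) (a b α : Fin Δ) (L W : ℕ) (Lv : V → Prop) (k : V → ℕ) (z : V) :
    Prop :=
  ∃ j, j ≤ L ∧ Lv (back (σ a) (σ b) j z) ∧ k (back (σ a) (σ b) j z) < j ∧
    j ≤ k (back (σ a) (σ b) j z) + W ∧ alt b a j = α

/-- The final positions. -/
noncomputable def newPos (σ : Fin Δ → V → V) (a b α : Fin Δ) (W : ℕ) (k : V → ℕ)
    (Hit : V → Prop) (v : V) : ℕ :=
  pick (fun j => k v < j ∧ j ≤ k v + W ∧ alt b a j = α ∧ Hit (walk (σ a) (σ b) j v)) (k v)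

/-- Another vertex in the same zone is hit. -/
def Bad (f g : V → V) (L W : ℕ) (Lv : V → Prop) (k : V → ℕ) (Hit : V → Prop) (z : V) : Prop :=
  ∃ j, Zone f g L W Lv k z j ∧ ∃ j', j' ≠ j ∧ k (back f g j z) ≤ j' + 1 ∧
    j' ≤ k (back f g j z) + W ∧ Hit (walk f g j' (back f g j z))

lemma newPos_range {W : ℕ} {k : V → ℕ} {Hit : V → Prop} (v : V) :
    k v ≤ newPos σ a b α W k Hit v ∧ newPos σ a b α W k Hit v ≤ k v + W := by
  rcases pick_cases (fun j => k v < j ∧ j ≤ k v + W ∧ alt b a j = α ∧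
    Hit (walk (σ a) (σ b) j v)) (k v) with h | h
  · exact ⟨h.1.le, h.2.1⟩
  · rw [newPos, h.1]; omega

lemma walk_two (C A : V → V) (t : ℕ) (r : V) :
    walk C A (2 * (t + 1) + 1) r = C (A (walk C A (2 * t + 1) r)) := by
  have e : 2 * (t + 1) + 1 = (2 * t + 1) + 1 + 1 := by ring
  rw [e, walk_succ', walk_succ', alt_odd]
  have : 2 * t + 1 + 1 = 2 * (t + 1) := by ring
  rw [this, alt_even]

lemma free_two (C A : V → V) (t : ℕ) (r : V) :
    Free C A (2 * (t + 1) + 1) r ↔ Free C A (2 * t + 1) r ∧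
      A (walk C A (2 * t + 1) r) ≠ walk C A (2 * t + 1) r ∧
      C (A (walk C A (2 * t + 1) r)) ≠ A (walk C A (2 * t + 1) r) := by
  have e : 2 * (t + 1) + 1 = (2 * t + 1) + 1 + 1 := by ring
  rw [e, free_succ', free_succ', walk_succ' C A (2 * t + 1), alt_odd, and_assoc]
  have : 2 * t + 1 + 1 = 2 * (t + 1) := by ring
  rw [this, alt_even]

/-- If the path of an active vertex meets no conflict and is long in the final colouring, then it
survives in the intermediate colouring. -/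
lemma ShiftOK.survive (h : ShiftOK G σ a b L mu Lv F) (hτ : Compat G σ τ a b) {W m : ℕ}
    {k : V → ℕ} (hk : ∀ v, Lv v → 2 ≤ k v ∧ k v + W ≤ L) (hα : α = a ∨ α = b) {γ : Fin Δ}
    (hγa : γ ≠ a) (hγb : γ ≠ b) {Act : V → Prop} {A : V → V} {Hit : V → Prop}
    (hA : A = shiftC a b L mu Lv F k σ σ α)
    (hHit : ∀ z, Hit z ↔ ∃ t, t < m ∧ Arr A (τ γ) (Win σ a b α L W Lv k) Act t z)
    {r : V} (hr : Act r)
    (hnc : ∀ t, t < m → Arr A (τ γ) (Win σ a b α L W Lv k) Act t (walk (τ γ) A (2 * t + 1) r) →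
      ¬ Bad (σ a) (σ b) L W Lv k Hit (walk (τ γ) A (2 * t + 1) r))
    {t : ℕ} (ht : t ≤ m)
    (hfree : Free (shiftC a b L mu Lv F (newPos σ a b α W k Hit) σ τ γ)
      (shiftC a b L mu Lv F (newPos σ a b α W k Hit) σ τ α) (2 * t + 1) r) :
    Arr A (τ γ) (Win σ a b α L W Lv k) Act t (walk (τ γ) A (2 * t + 1) r) := by
  rw [shift_other hγa hγb] at hfree
  have hC := hτ.proper.inv γ
  have hAi : Involutive A := by
    rw [hA]; exact (h.shift_proper (Compat.refl h.proper)).inv α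
  set A' := shiftC a b L mu Lv F (newPos σ a b α W k Hit) σ τ α with hA'
  suffices H : Arr A (τ γ) (Win σ a b α L W Lv k) Act t (walk (τ γ) A (2 * t + 1) r) ∧
      walk (τ γ) A' (2 * t + 1) r = walk (τ γ) A (2 * t + 1) r from H.1
  induction t with
  | zero =>
    refine ⟨⟨?_, ?_⟩, rfl⟩
    · show τ γ (τ γ r) ≠ τ γ r
      rw [hC]; exact hfree.1.symm
    · show Act (τ γ (τ γ r))
      rw [hC]; exact hr
  | succ t ih =>
    rw [free_two] at hfree
    obtain ⟨i1, i2⟩ := ih (by omega) hfree.1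
    rw [i2] at hfree
    set z := walk (τ γ) A (2 * t + 1) r with hz
    have hb := hnc t (by omega) i1
    have hhit : Hit z := (hHit z).2 ⟨t, by omega, i1⟩
    have hw : ¬ Win σ a b α L W Lv k z := by
      rintro ⟨j, w1, w2, w3, w4, w5⟩
      set v := back (σ a) (σ b) j z with hv
      have ez : walk (σ a) (σ b) j v = z := walk_back (h.proper.inv a) (h.proper.inv b) _ _
      have hj : newPos σ a b α W k Hit v = j := by
        rcases pick_cases (fun j => k v < j ∧ j ≤ k v + W ∧ alt b a j = α ∧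
          Hit (walk (σ a) (σ b) j v)) (k v) with g | g
        · by_contra hne
          exact hb ⟨j, ⟨w1, w2, by rw [← hv]; omega, w4⟩, _, hne,
            by have := g.1; rw [← hv]; unfold newPos; omega, g.2.1, g.2.2.2⟩
        · exact absurd ⟨w3, w4, w5, by rwa [ez]⟩ (g.2 j)
      have := h.shift_hole (κ := newPos σ a b α W k Hit) (α := α) (v := v) hτ w2 (by omega) (by omega)
        (by rw [hj]; exact w5)
      rw [hj, ez] at this
      exact hfree.2.1 this
    have hAA : A' z = A z := by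
      rw [hA', hA, ← shift_congr h.ab hτ.ea hτ.eb hα]
      refine h.shift_eq hτ hk (fun v _ => newPos_range v) (fun j hj => ?_) hα
      set v := back (σ a) (σ b) j z with hv
      have ez : walk (σ a) (σ b) j v = z := walk_back (h.proper.inv a) (h.proper.inv b) _ _
      rcases pick_cases (fun j => k v < j ∧ j ≤ k v + W ∧ alt b a j = α ∧
        Hit (walk (σ a) (σ b) j v)) (k v) with g | g
      · exfalso
        by_cases hne : newPos σ a b α W k Hit v = j
        · unfold newPos at hne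
          rw [hne] at g
          exact hw ⟨j, hj.1, hj.2.1, g.1, g.2.1, g.2.2.1⟩
        · exact hb ⟨j, hj, _, hne, by have := g.1; rw [← hv]; unfold newPos; omega, g.2.1,
            g.2.2.2⟩
      · exact g.1
    rw [hAA] at hfree
    rw [walk_two, walk_two, i2, hAA]
    refine ⟨⟨?_, ?_, ?_, ?_⟩, rfl⟩
    · rw [hC]; exact hfree.2.2.symm
    · rw [hC, hAi]; exact hfree.2.1.symm
    · rw [hC, hAi]; exact hw
    · rw [hC, hAi]; exact i1

end Pool.Agent.MP_93f6c7_pr

end

section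

/-! Kempe steps: colouring a random matching, flipping short alternating paths. -/

set_option autoImplicit false
set_option linter.unusedSectionVars false
set_option linter.unusedVariables false
open MeasureTheory Function
open scoped Classical

namespace Pool.Agent.MP_93f6c7_pr
namespace Imp

variable {V : Type} {G : SimpleGraph V} {Δ : ℕ}

/-! ### Deterministic facts about balls around ends of short paths -/

section det
variable {f g : V → V} {M : V → Prop} {l : ℕ} {v : V}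

/-- `u` is an end of an alternating path with fewer than `l` edges. -/
def End (f g : V → V) (l : ℕ) (u : V) : Prop :=
  (f u = u ∧ ¬ Free g f l u) ∨ (g u = u ∧ ¬ Free f g l u)

lemma End.symm {u : V} (h : End f g l u) : End g f l u := Or.symm h

lemma End.hole {u : V} (h : End f g l u) : f u = u ∨ g u = u := h.imp And.left And.left

lemma End.not_free {u : V} (h : End f g l u) : ¬ Free f g l u := by
  intro hf
  rcases h with ⟨h1, h2⟩ | ⟨_, h2⟩
  · cases l with
    | zero => exact h2 trivial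
    | succ l => exact hf.1 h1
  · exact h2 hf

lemma ball_closed (hf : Involutive f) (hg : Involutive g) (hM : ∀ u, M u → End f g l u)
    (h : Ball f g l M v) : Ball f g l M (f v) := by
  by_contra hn
  obtain ⟨_, h2, h3⟩ := h.boundary hf hn
  have h4 := h2.rev hg hf
  have h5 := hM _ h3
  rcases alt_cases f g l with e | e
  · rw [e.1, e.2] at h4; exact h5.not_free h4
  · rw [e.1, e.2] at h4; exact h5.symm.not_free h4

lemma ball_iff_left (hf : Involutive f) (hg : Involutive g) (hM : ∀ u, M u → End f g l u)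
    (v : V) : Ball f g l M v ↔ Ball f g l M (f v) :=
  ⟨ball_closed hf hg hM, fun h => by simpa only [hf v] using ball_closed hf hg hM h⟩

lemma ball_iff_right (hf : Involutive f) (hg : Involutive g) (hM : ∀ u, M u → End f g l u)
    (v : V) : Ball f g l M v ↔ Ball f g l M (g v) := by
  rw [ball_comm (f := f), ball_comm (f := f)]
  exact ball_iff_left hg hf (fun u hu => (hM u hu).symm) v

/-- At most three vertices decide whether `v` lies in the ball. -/
lemma exists_three (hf : Involutive f) (hg : Involutive g) (v : V) :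
    ∃ B : Finset V, B.card ≤ 3 ∧
      (∀ w ∈ B, ∃ i, (Free f g i v ∧ w = walk f g i v) ∨ (Free g f i v ∧ w = walk g f i v)) ∧
      ∀ (M : V → Prop) (l : ℕ), (∀ u, M u → f u = u ∨ g u = u) → Ball f g l M v →
        ∃ w ∈ B, M w := by
  obtain ⟨e1, ⟨i1, h1, h1'⟩, H1⟩ := exists_end hf hg v
  obtain ⟨e2, ⟨i2, h2, h2'⟩, H2⟩ := exists_end hg hf v
  refine ⟨{v, e1, e2}, Finset.card_le_three, fun w hw => ?_, fun M l hM hb => ?_⟩
  · simp only [Finset.mem_insert, Finset.mem_singleton] at hw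
    rcases hw with rfl | rfl | rfl
    · exact ⟨0, Or.inl ⟨trivial, rfl⟩⟩
    · exact ⟨i1, Or.inl ⟨h1, h1'⟩⟩
    · exact ⟨i2, Or.inr ⟨h2, h2'⟩⟩
  · obtain ⟨i, _, ⟨a1, a2⟩ | ⟨a1, a2⟩⟩ := hb
    · rcases Nat.eq_zero_or_pos i with rfl | hi
      · exact ⟨v, by simp, a2⟩
      · refine ⟨e1, by simp, ?_⟩
        rw [← H1 i hi a1 (hM _ a2)]; exact a2
    · rcases Nat.eq_zero_or_pos i with rfl | hi
      · exact ⟨v, by simp, a2⟩
      · refine ⟨e2, by simp, ?_⟩
        rw [← H2 i hi a1 (hM _ a2).symm]; exact a2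

end det

variable [MeasurableSpace V] [DiscreteMeasurableSpace V] [Countable V] [G.LocallyFinite]

lemma Pr_hole_le (c : FC G Δ) (o : V) (p : Fin Δ) :
    Pr (nu V) (fun y => c.σ y p o = o) ≤ c.hol o :=
  Finset.single_le_sum (f := fun p => Pr (nu V) (fun y => c.σ y p o = o))
    (fun _ _ => Pr_nonneg _) (Finset.mem_univ p)

lemma Pr_hole2_le (c : FC G Δ) (o : V) {p q : Fin Δ} (hpq : p ≠ q) :
    Pr (nu V) (fun y => c.σ y p o = o ∨ c.σ y q o = o) ≤ c.hol o := by
  refine (Pr_or_le (E₁ := fun y => c.σ y p o = o) (E₂ := fun y => c.σ y q o = o)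
    fun _ h => h).trans ?_
  have := Finset.sum_le_sum_of_subset_of_nonneg (f := fun p => Pr (nu V) (fun y => c.σ y p o = o))
    (Finset.subset_univ ({p, q} : Finset (Fin Δ))) (fun _ _ _ => Pr_nonneg _)
  rwa [Finset.sum_pair hpq] at this

lemma int_fst_holes (c : FC G Δ) (o : V) :
    ∫ z : Y V × Y V, holes (c.σ z.1) o ∂((nu V).prod (nu V)) = c.hol o := by
  rw [FC.hol_eq]
  exact int_map (T := Prod.fst) measurePreserving_fst ((IF.holes c.ec).bm o).meas

/-- Colouring a random matching of uncoloured edges. -/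
lemma M1 (h : RT G Δ) (o : V) (c : FC G Δ) (γ : Fin Δ) :
    ∃ c' : FC G Δ, c.Near c' o (c.hol o) ∧
      c'.hol o ≤ c.hol o - (1 / 2 : ℝ) ^ (2 * Δ) * c.Dn o γ γ := by
  let m : Y V × Y V → V → V := fun z v =>
    if Unc G (c.σ z.1) v (mat G z.2 v) then mat G z.2 v else v
  have hs : EC (G := G) act2 (fun z : Y V × Y V => c.σ z.1) := c.ec.fst
  have hmat : EM (G := G) act2 (fun z : Y V × Y V => mat G z.2) := mat_ei.toEM.snd
  have hm : EM (G := G) act2 m := EM.ite (IP.unc hs hmat) hmat EM.id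
  have hu : ∀ z v, m z v ≠ v → Unc G (c.σ z.1) v (m z v) := by
    intro z v hv
    by_cases hh : Unc G (c.σ z.1) v (mat G z.2 v)
    · simp only [m, if_pos hh]; exact hh
    · simp only [m, if_neg hh] at hv; exact absurd rfl hv
  have hi : ∀ z, Involutive (m z) := by
    intro z v
    by_cases hh : Unc G (c.σ z.1) v (mat G z.2 v)
    · have h2 : Unc G (c.σ z.1) (mat G z.2 v) (mat G z.2 (mat G z.2 v)) := by
        rw [mat_invol G z.2 v]; exact hh.symm (c.proper _)
      simp only [m, if_pos hh, if_pos h2]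
      exact mat_invol G z.2 v
    · simp only [m, if_neg hh]
  have hc := hs.colourC γ hm hi hu
  refine ⟨FC.ofEC hc, c.ofEC_near hc o ?_, ?_⟩
  · refine le_trans ?_ (Pr_hole_le c o γ)
    rw [← Pr_fst (ν := nu V) ((IP.fix (c.ec.em γ)).at o)]
    refine Pr_mono fun z ⟨p, hp⟩ => ?_
    rcases colourC_cases γ (m z) (c.σ z.1) p o with e | e
    · exact absurd e hp
    · exact e.2.2.1
  · rw [FC.ofEC_hol]
    simp only [holes_colourC]
    have hE : IP (G := G) act2 (fun z v => m z v ≠ v ∧ c.σ z.1 γ v = v ∧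
        c.σ z.1 γ (m z v) = m z v) :=
      (IP.fix hm).not.and ((IP.fix (hs.em γ)).and ((IP.fix (hs.em γ)).comp hm))
    rw [int_sub ((IF.holes hs).bm o) (BM.ind (hE.at o)), int_fst_holes, ← Pr_eq (hE.at o)]
    have := Pr_prod_ge (μ := nu V) (ν := nu V) (hE.at o) ((IP.dn c.ec γ γ).at o)
      (c := (1 / 2 : ℝ) ^ (2 * Δ)) (fun y hy => by
        obtain ⟨h1, u, h2, h3⟩ := hy
        refine (Pr_mat h h2.1).trans (Pr_mono fun t ht => ?_)
        have e : m (y, t) o = u := by
          have h4 : Unc G (c.σ y) o (mat G t o) := by rw [ht]; exact h2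
          simp only [m, if_pos h4]; exact ht
        simp only [e]
        exact ⟨h2.1.ne', h1, h3⟩)
    unfold FC.Dn
    linarith

/-- Flipping randomly chosen short alternating paths. -/
lemma M2 (h : RT G Δ) (hs : HasSwaps G) (o : V) (c : FC G Δ) {α γ : Fin Δ} (hαγ : α ≠ γ)
    (β x y : Fin Δ) (l : ℕ) :
    ∃ c' : FC G Δ, c.Near c' o (2 * (l + 1) * c.hol o) ∧ c'.hol o ≤ c.hol o ∧
      c.Sh o α γ β l / 16 ≤ c'.Dn o γ β ∧ c.Dn o x y / 64 ≤ c'.Dn o x y := by
  have hc : EC (G := G) act2 (fun z : Y V × Y V => c.σ z.1) := c.ec.fst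
  let M : Y V × Y V → V → Prop := fun z u =>
    (z.2 (u, 0) : ℝ) < 1 / 2 ∧ End (c.σ z.1 α) (c.σ z.1 γ) l u
  have hM : IP (G := G) act2 M :=
    (IP.lab 0 (1 / 2)).snd.and
      (((IP.fix (hc.em α)).and (IP.free (hc.em γ) (hc.em α) l).not).or
        ((IP.fix (hc.em γ)).and (IP.free (hc.em α) (hc.em γ) l).not))
  let F : Y V × Y V → V → Prop := fun z => Ball (c.σ z.1 α) (c.σ z.1 γ) l (M z)
  have hF : IP (G := G) act2 F := IP.ball hM (hc.em α) (hc.em γ) l
  have hFa : ∀ z v, F z v ↔ F z (c.σ z.1 α v) := fun z v =>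
    ball_iff_left ((c.proper _).inv α) ((c.proper _).inv γ) (fun u hu => hu.2) v
  have hFg : ∀ z v, F z v ↔ F z (c.σ z.1 γ v) := fun z v =>
    ball_iff_right ((c.proper _).inv α) ((c.proper _).inv γ) (fun u hu => hu.2) v
  have hc' := hc.flipC hαγ hF
  have keep : ∀ z v p, ¬ F z v → flipC (F z) α γ (c.σ z.1) p v = c.σ z.1 p v :=
    fun z v p hv => flipC_eq hαγ hv (mt (hFa z v).2 hv) (mt (hFg z v).2 hv) p
  have three : ∀ (y : Y V) (v : V), ∃ B : Finset V, B.card ≤ 3 ∧
      (∀ w, Unc G (c.σ y) v w → w ∉ B) ∧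
      ∀ t : Y V, (∀ w ∈ B, ¬ (t (w, 0) : ℝ) < 1 / 2) → ¬ F (y, t) v := by
    intro y v
    have hp := (c.proper y).pair hαγ
    obtain ⟨B, h1, h2, h3⟩ := exists_three hp.inv1 hp.inv2 v
    refine ⟨B, h1, fun w hw hB => ?_, fun t ht hv => ?_⟩
    · obtain ⟨i, ⟨a1, a2⟩ | ⟨a1, a2⟩⟩ := h2 w hB
      · exact hp.walk_ne h.tree.isAcyclic hw.1 (hw.2 α) a1 a2.symm
      · exact hp.symm.walk_ne h.tree.isAcyclic hw.1 (hw.2 γ) a1 a2.symm
    · obtain ⟨w, hw, hMw⟩ := h3 (M (y, t)) l (fun u hu => hu.2.hole) hv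
      exact ht w hw hMw.1
  refine ⟨FC.ofEC hc', c.ofEC_near hc' o ?_, ?_, ?_, ?_⟩
  · have hH : IP (G := G) act (fun y v => c.σ y α v = v ∨ c.σ y γ v = v) :=
      (IP.fix (c.ec.em α)).or (IP.fix (c.ec.em γ))
    let E : ℕ → Y V → Prop := fun i y =>
      (c.σ y α (walk (c.σ y α) (c.σ y γ) i o) = walk (c.σ y α) (c.σ y γ) i o ∨
        c.σ y γ (walk (c.σ y α) (c.σ y γ) i o) = walk (c.σ y α) (c.σ y γ) i o) ∨
      (c.σ y α (walk (c.σ y γ) (c.σ y α) i o) = walk (c.σ y γ) (c.σ y α) i o ∨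
        c.σ y γ (walk (c.σ y γ) (c.σ y α) i o) = walk (c.σ y γ) (c.σ y α) i o)
    have hEm : ∀ i, Measurable (E i) := fun i =>
      ((hH.comp ((c.ec.em α).walk (c.ec.em γ) i)).or
        (hH.comp ((c.ec.em γ).walk (c.ec.em α) i))).at o
    have hE : ∀ i, Pr (nu V) (E i) ≤ 2 * c.hol o := fun i => by
      have e1 := Pr_mtp_walk (μ := nu V) hs act_mp hH (c.ec.ei α) (c.ec.ei γ) i o
      have e2 := Pr_mtp_walk (μ := nu V) hs act_mp hH (c.ec.ei γ) (c.ec.ei α) i o
      have e3 := Pr_hole2_le c o hαγ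
      have e4 := Pr_or_le (μ := nu V) (E := E i) fun _ h => h
      linarith
    refine le_trans (Pr_le_sum (s := Finset.range (l + 1)) (F := fun i z => E i z.1)
      fun z ⟨p, hp⟩ => ?_) ?_
    · have hz : F z o := by
        by_contra hn
        exact hp (keep z o p hn)
      obtain ⟨i, hi, ⟨_, a2⟩ | ⟨_, a2⟩⟩ := hz
      · exact ⟨i, Finset.mem_range.2 (by omega), Or.inl a2.2.hole⟩
      · exact ⟨i, Finset.mem_range.2 (by omega), Or.inr a2.2.hole⟩
    · refine le_trans (Finset.sum_le_sum (g := fun _ => 2 * c.hol o) fun i _ => ?_) ?_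
      · rw [Pr_fst (hEm i)]; exact hE i
      · rw [Finset.sum_const, Finset.card_range, nsmul_eq_mul]
        push_cast
        exact le_of_eq (by ring)
  · rw [FC.ofEC_hol, ← int_fst_holes]
    refine int_mono ((IF.holes hc').bm o) ((IF.holes hc).bm o) fun z => ?_
    have := holes_flipC hαγ (F z) (c.σ z.1) o
    rw [ind_neg (p := Bd (F z) (c.σ z.1 α) o) fun hh => hh (hFa z o),
      ind_neg (p := Bd (F z) (c.σ z.1 γ) o) fun hh => hh (hFg z o)] at this
    linarith
  · rw [FC.ofEC_dn]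
    have := Pr_prod_ge (μ := nu V) (ν := nu V) ((IP.dn hc' γ β).at o) ((IP.sh c.ec α γ β l).at o)
      (c := (1 / 2 : ℝ) ^ 4) (fun y hy => by
        obtain ⟨h1, h2, u, h3, h4⟩ := hy
        obtain ⟨B, b1, b2, b3⟩ := three y u
        refine (Pr_coins 0 {o} B ?_ (n := 4) ?_).trans (Pr_mono fun t ht => ?_)
        · simpa using b2 o (h3.symm (c.proper y))
        · rw [Finset.card_singleton]; omega
        · have hFo : F (y, t) o := Ball.self ⟨ht.1 o (by simp), Or.inl ⟨h1, h2⟩⟩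
          refine ⟨?_, u, h3.flipC hαγ _, ?_⟩
          · rw [flipC_right hαγ, flip1_in hFo ((hFa _ o).1 hFo)]; exact h1
          · rw [keep (y, t) u β (b3 t ht.2)]; exact h4)
    unfold FC.Sh
    linarith
  · rw [FC.ofEC_dn]
    have := Pr_prod_ge (μ := nu V) (ν := nu V) ((IP.dn hc' x y).at o) ((IP.dn c.ec x y).at o)
      (c := (1 / 2 : ℝ) ^ 6) (fun s hy => by
        obtain ⟨h1, u, h3, h4⟩ := hy
        obtain ⟨B, b1, b2, b3⟩ := three s u
        obtain ⟨B', b1', b2', b3'⟩ := three s o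
        refine (Pr_coins 0 ∅ (B ∪ B') ?_ (n := 6) ?_).trans (Pr_mono fun t ht => ?_)
        · simp
        · have := Finset.card_union_le B B'
          rw [Finset.card_empty]; omega
        · refine ⟨?_, u, h3.flipC hαγ _, ?_⟩
          · rw [keep (s, t) o x (b3' t fun w hw => ht.2 w (Finset.mem_union_right _ hw))]
            exact h1
          · rw [keep (s, t) u y (b3 t fun w hw => ht.2 w (Finset.mem_union_left _ hw))]
            exact h4)
    unfold FC.Dn
    linarith

/-- A flip followed by a colouring step. -/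
lemma M3 (h : RT G Δ) (hs : HasSwaps G) (o : V) (c : FC G Δ) {α γ : Fin Δ} (hαγ : α ≠ γ)
    (l : ℕ) :
    ∃ c' : FC G Δ, c.Near c' o ((2 * l + 3) * c.hol o) ∧
      c'.hol o ≤ c.hol o - (1 / 2 : ℝ) ^ (2 * Δ) / 16 * c.Sh o α γ γ l := by
  obtain ⟨c1, n1, h1, h2, -⟩ := M2 h hs o c hαγ γ γ γ l
  obtain ⟨c2, n2, h3⟩ := M1 h o c1 γ
  refine ⟨c2, (n1.trans n2).mono (by linarith), ?_⟩
  have hρ : (0 : ℝ) ≤ (1 / 2 : ℝ) ^ (2 * Δ) := by positivity
  have := mul_le_mul_of_nonneg_left h2 hρ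
  linarith

/-- Some pair of colours carries a fixed fraction of the holes. -/
lemma exists_dn (h : RT G Δ) (o : V) (c : FC G Δ) :
    ∃ a b : Fin Δ, c.hol o ≤ (Δ : ℝ) ^ 2 * c.Dn o b a := by
  have hΔ := h.three
  have : Nonempty (Fin Δ × Fin Δ) := ⟨(⟨0, by omega⟩, ⟨0, by omega⟩)⟩
  obtain ⟨⟨b, a⟩, -, hmax⟩ := Finset.exists_max_image (Finset.univ : Finset (Fin Δ × Fin Δ))
    (fun p => c.Dn o p.1 p.2) Finset.univ_nonempty
  refine ⟨a, b, ?_⟩
  have h1 : ∀ p : Fin Δ, Pr (nu V) (fun y => c.σ y p o = o) ≤ Δ * c.Dn o b a := by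
    intro p
    refine le_trans (Pr_le_sum (s := Finset.univ) (F := fun q y => c.σ y p o = o ∧
      ∃ u, Unc G (c.σ y) o u ∧ c.σ y q u = u) fun y hy => ?_) ?_
    · obtain ⟨u, hu⟩ := exists_unc h (c.proper y) hy
      obtain ⟨q, hq⟩ := exists_hole h (c.proper y) (hu.symm (c.proper y))
      exact ⟨q, Finset.mem_univ _, hy, u, hu, hq⟩
    · refine le_trans (Finset.sum_le_sum (g := fun _ => c.Dn o b a)
        fun q _ => hmax (p, q) (Finset.mem_univ _)) ?_
      simp
  refine le_trans (Finset.sum_le_sum (g := fun _ => Δ * c.Dn o b a) fun p _ => h1 p) ?_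
  simp only [Finset.sum_const, Finset.card_univ, Fintype.card_fin, nsmul_eq_mul]
  exact le_of_eq (by ring)

lemma dn_symm (h : RT G Δ) (hs : HasSwaps G) (o : V) (c : FC G Δ) (α β : Fin Δ) :
    c.Dn o α β ≤ Δ * c.Dn o β α := by
  refine le_trans (Pr_le_sum (s := G.neighborFinset o) (F := fun w y => c.σ y β w = w ∧
    ∃ u, Unc G (c.σ y) w u ∧ c.σ y α u = u) fun y hy => ?_) ?_
  · obtain ⟨h1, u, h2, h3⟩ := hy
    exact ⟨u, by simpa using h2.1, h3, o, h2.symm (c.proper y), h1⟩
  · rw [Finset.sum_congr rfl fun w hw => Pr_nbr (μ := nu V) hs act_mp (IP.dn c.ec β α)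
      (show G.Adj o w by simpa using hw), Finset.sum_const,
      SimpleGraph.card_neighborFinset_eq_degree, h.reg, nsmul_eq_mul]
    rfl

lemma dn_split (o : V) (c : FC G Δ) (a b : Fin Δ) (L : ℕ) :
    c.Dn o b a ≤ c.Sh o b a a L + c.Lg o a b L := by
  refine Pr_or_le fun y hy => ?_
  by_cases hf : Free (c.σ y a) (c.σ y b) L o
  · exact Or.inr ⟨hy.1, hf, hy.2⟩
  · exact Or.inl ⟨hy.1, hf, hy.2⟩

lemma lg_le (hs : HasSwaps G) (o : V) (c : FC G Δ) (a b : Fin Δ) (L : ℕ) :
    ((L : ℝ) + 1) * c.Lg o a b (2 * L + 1) ≤ 1 := by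
  have hE := IP.lg c.ec a b (2 * L + 1)
  have h1 := sum_Pr_le (μ := nu V) (s := Finset.range (L + 1)) (E := fun _ => True)
    (F := fun j y => c.σ y b (back (c.σ y a) (c.σ y b) j o) = back (c.σ y a) (c.σ y b) j o ∧
      Free (c.σ y a) (c.σ y b) (2 * L + 1) (back (c.σ y a) (c.σ y b) j o) ∧
      ∃ u, Unc G (c.σ y) (back (c.σ y a) (c.σ y b) j o) u ∧ c.σ y a u = u)
    measurable_const (fun j _ => (hE.comp ((c.ec.em a).back (c.ec.em b) j)).at o)
    (fun _ _ _ _ => trivial) (fun y i hi j hj h1 h2 => by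
      have hf := (c.proper y).inv a
      have hg := (c.proper y).inv b
      refine (track_unique hf hg h1.1 h2.1 h1.2.1 h2.2.1 ?_ ?_ ?_).2
      · have := Finset.mem_range.1 hi; omega
      · have := Finset.mem_range.1 hj; omega
      · rw [walk_back hf hg, walk_back hf hg])
  rw [Finset.sum_congr rfl fun j _ => Pr_mtp_back (μ := nu V) hs act_mp hE (c.ec.ei a)
    (c.ec.ei b) j o, Finset.sum_const, Finset.card_range, nsmul_eq_mul,
    Pr_true fun _ => trivial] at h1
  push_cast at h1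
  exact h1

lemma near_one {c c' : FC G Δ} {o : V} {ε : ℝ} (h : c.Near c' o ε) : c.Near c' o 1 := by
  obtain ⟨j, hj, -⟩ := h
  exact ⟨j, hj, Pr_le_one _⟩

end Imp
end Pool.Agent.MP_93f6c7_pr

end
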